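import Mathlib

set_option linter.all false

/-! Definitions for MP_7548d4_gt (Busemann type inequality for k-intersection bodies, k | n). -/

namespace Pool.Agent.Helper142.Kib

open MeasureTheory Matrix Filter Topology
open scoped ENNReal

/-- `p` is the gauge of an origin symmetric star body of `α → ℝ` -/
structure IsG {α : Type} [Fintype α] (p : (α → ℝ) → ℝ) : Prop where
  cont : Continuous p
  hom : ∀ (t : ℝ) (x : α → ℝ), p (t • x) = |t| * p x
  pos : ∀ x : α → ℝ, x ≠ 0 → 0 < p x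

/-- the Euclidean norm on `α → ℝ` -/
noncomputable def nn {α : Type} [Fintype α] (x : α → ℝ) : ℝ := Real.sqrt (x ⬝ᵥ x)

/-- volume of the body `{p ≤ 1}` -/
noncomputable def vg {α : Type} [Fintype α] (p : (α → ℝ) → ℝ) : ℝ≥0∞ := volume {x | p x ≤ 1}

/-- quadratic form of a matrix -/
noncomputable def Q {α : Type} [Fintype α] (A : Matrix α α ℝ) (x : α → ℝ) : ℝ := x ⬝ᵥ (A *ᵥ x)

/-- trace of `X^T A X` -/
noncomputable def Qm {α β : Type} [Fintype α] [Fintype β] (A : Matrix α α ℝ)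
    (X : α → β → ℝ) : ℝ := ∑ j, Q A (fun i => X i j)

/-- Gaussian moment of `|det P|` -/
noncomputable def Cs (ι : Type) [Fintype ι] [DecidableEq ι] (e : ℕ) : ℝ≥0∞ :=
  ∫⁻ P : ι → ι → ℝ, ENNReal.ofReal (|(Matrix.of P).det| ^ e *
    Real.exp (-Real.pi * ∑ i, ∑ j, P i j ^ 2))

/-- the form `A` on the graph of `Z` -/
noncomputable def AZ {ι κ : Type} [Fintype ι] [DecidableEq ι] [Fintype κ] [DecidableEq κ]
    (A : Matrix (ι ⊕ κ) (ι ⊕ κ) ℝ) (Z : Matrix κ ι ℝ) : Matrix ι ι ℝ :=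
  (Matrix.fromRows (1 : Matrix ι ι ℝ) Z)ᵀ * A * (Matrix.fromRows (1 : Matrix ι ι ℝ) Z)

/-- the form `B` on the orthogonal complement of the graph of `Z` -/
noncomputable def BZ {ι κ : Type} [Fintype ι] [DecidableEq ι] [Fintype κ] [DecidableEq κ]
    (B : Matrix (ι ⊕ κ) (ι ⊕ κ) ℝ) (Z : Matrix κ ι ℝ) : Matrix κ κ ℝ :=
  (Matrix.fromRows (-Zᵀ) (1 : Matrix κ κ ℝ))ᵀ * B * (Matrix.fromRows (-Zᵀ) (1 : Matrix κ κ ℝ))

/-- the section condition, for graphs of linear maps `Z` -/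
def Sec {ι κ : Type} [Fintype ι] [Fintype κ] (p r : (ι ⊕ κ → ℝ) → ℝ) : Prop :=
  ∀ Z : Matrix κ ι ℝ, volume {u : ι → ℝ | r (Sum.elim u (Z *ᵥ u)) ≤ 1} =
    volume {v : κ → ℝ | p (Sum.elim (-(Zᵀ *ᵥ v)) v) ≤ 1}

/-- the exponents of the sharp Young inequality extremised by `exp (-t_i x^2)`, `exp (-s x^2)` -/
noncomputable def TT {N : ℕ} (t : Fin N → ℝ) (s : ℝ) : ℝ := ∑ i, 1 / t i + 1 / s
noncomputable def ci {N : ℕ} (t : Fin N → ℝ) (s : ℝ) (i : Fin N) : ℝ := 1 - (1 / t i) / TT t s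
noncomputable def c0 {N : ℕ} (t : Fin N → ℝ) (s : ℝ) : ℝ := 1 - (1 / s) / TT t s
/-- determinant of the quadratic form `∑ t_i x_i^2 + s (∑ x_i)^2` -/
noncomputable def QD {N : ℕ} (t : Fin N → ℝ) (s : ℝ) : ℝ := (∏ i, t i) * s * TT t s
/-- the sharp constant -/
noncomputable def DD {N : ℕ} (t : Fin N → ℝ) (s : ℝ) : ℝ :=
  QD t s ^ (-(1 / 2) : ℝ) * (∏ i, (t i / ci t s i) ^ (ci t s i / 2)) * (s / c0 t s) ^ (c0 t s / 2)

/-- nonnegative continuous function with Gaussian decay -/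
structure IsGd {n : ℕ} (h : (Fin n → ℝ) → ℝ) : Prop where
  cont : Continuous h
  nonneg : ∀ x, 0 ≤ h x
  decay : ∃ C ε : ℝ, 0 < ε ∧ ∀ x, h x ≤ C * Real.exp (-ε * ∑ j, x j ^ 2)

/-- Gaussian average of `p^{-k}` around `x` -/
noncomputable def FF {α : Type} [Fintype α] (r : (α → ℝ) → ℝ) (k : ℕ) (ε : ℝ) (x : α → ℝ) : ℝ :=
  ε ^ (-((Fintype.card α : ℝ) / 2)) *
    ∫ y : α → ℝ, (r y ^ k)⁻¹ * Real.exp (-Real.pi * ((x - y) ⬝ᵥ (x - y)) / ε)


/-- radial function of a set -/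
noncomputable def radial {n : ℕ} (K : Set (EuclideanSpace ℝ (Fin n)))
    (x : EuclideanSpace ℝ (Fin n)) : ℝ := sSup {t : ℝ | 0 ≤ t ∧ t • x ∈ K}

/-- origin symmetric star bodies: compact, star shaped with respect to the origin, origin
symmetric, with positive continuous radial function on the unit sphere -/
structure IsSymStarBody {n : ℕ} (K : Set (EuclideanSpace ℝ (Fin n))) : Prop where
  isCompact : IsCompact K
  star : ∀ x ∈ K, ∀ t : ℝ, 0 ≤ t → t ≤ 1 → t • x ∈ K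
  radial_pos : ∀ x : EuclideanSpace ℝ (Fin n), ‖x‖ = 1 → 0 < radial K x
  radial_cont : ContinuousOn (radial K) (Metric.sphere 0 1)
  symm : ∀ x ∈ K, -x ∈ K

/-- `L` is the `k`-intersection body of `K`: `|K ∩ H^⊥|_{n-k} = |L ∩ H|_k` for all
`k`-dimensional subspaces `H` -/
def HasIntersectionBody {n : ℕ} (k : ℕ) (K L : Set (EuclideanSpace ℝ (Fin n))) : Prop :=
  ∀ H : Submodule ℝ (EuclideanSpace ℝ (Fin n)), Module.finrank ℝ H = k →
    volume ((fun x : Hᗮ => (x : EuclideanSpace ℝ (Fin n))) ⁻¹' K) =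
      volume ((fun x : H => (x : EuclideanSpace ℝ (Fin n))) ⁻¹' L)

/-- volume of the `p`-dimensional Euclidean unit ball -/
noncomputable def kap (p : ℕ) : ℝ := Real.pi ^ ((p : ℝ) / 2) / Real.Gamma (1 + (p : ℝ) / 2)


end Pool.Agent.Helper142.Kib
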