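import Mathlib
import Pool.Agent.Helper142.Kib.Defs

/-! Helper lemma b_bounds for MP_7548d4_gt. -/

set_option linter.all false

namespace Pool.Agent.Helper142.Kib.B_bounds

open MeasureTheory Matrix Filter Topology Pool.Agent.Helper142.Kib
open scoped ENNReal

theorem b_bounds_nn_cont {α : Type} [Fintype α] : Continuous (nn : (α → ℝ) → ℝ) := by
  unfold nn dotProduct
  fun_prop

theorem b_bounds_nn_hom {α : Type} [Fintype α] (t : ℝ) (x : α → ℝ) : nn (t • x) = |t| * nn x := by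
  unfold nn
  rw [dotProduct_smul, smul_dotProduct, smul_eq_mul, smul_eq_mul, ← mul_assoc,
    Real.sqrt_mul (mul_self_nonneg t), Real.sqrt_mul_self_eq_abs]

theorem b_bounds_nn_pos {α : Type} [Fintype α] (x : α → ℝ) (hx : x ≠ 0) : 0 < nn x := by
  unfold nn
  apply Real.sqrt_pos.2
  have h1 : 0 ≤ x ⬝ᵥ x := Finset.sum_nonneg fun i _ => mul_self_nonneg _
  rcases h1.lt_or_eq with h | h
  · exact h
  · exact absurd (dotProduct_self_eq_zero.1 h.symm) hx

/-- TARGET: prove this. -/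
theorem b_bounds {α : Type} [Fintype α] (p : (α → ℝ) → ℝ) (hp : IsG p) :
    ∃ b B : ℝ, 0 < b ∧ 0 < B ∧ ∀ x, b * nn x ≤ p x ∧ p x ≤ B * nn x := by
  have hp0 : p 0 = 0 := by
    have h := hp.hom 0 0
    simpa using h
  have hn0 : nn (0 : α → ℝ) = 0 := by
    have h := b_bounds_nn_hom 0 (0 : α → ℝ)
    simpa using h
  have hsph : ∀ x : α → ℝ, x ≠ 0 → ‖x‖⁻¹ • x ∈ Metric.sphere (0 : α → ℝ) 1 := by
    intro x hx
    rw [mem_sphere_zero_iff_norm, norm_smul, norm_inv, norm_norm,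
      inv_mul_cancel₀ (norm_ne_zero_iff.2 hx)]
  have hne : ∀ u ∈ Metric.sphere (0 : α → ℝ) 1, u ≠ 0 := by
    rintro u hu rfl
    rw [mem_sphere_zero_iff_norm, norm_zero] at hu
    exact zero_ne_one hu
  by_cases hS : (Metric.sphere (0 : α → ℝ) 1).Nonempty
  · have hq : ContinuousOn (fun u => p u / nn u) (Metric.sphere (0 : α → ℝ) 1) :=
      hp.cont.continuousOn.div b_bounds_nn_cont.continuousOn
        (fun u hu => (b_bounds_nn_pos u (hne u hu)).ne')
    obtain ⟨u0, hu0, hmin⟩ := (isCompact_sphere (0 : α → ℝ) 1).exists_isMinOn hS hq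
    obtain ⟨u1, hu1, hmax⟩ := (isCompact_sphere (0 : α → ℝ) 1).exists_isMaxOn hS hq
    refine ⟨p u0 / nn u0, p u1 / nn u1,
      div_pos (hp.pos _ (hne _ hu0)) (b_bounds_nn_pos _ (hne _ hu0)),
      div_pos (hp.pos _ (hne _ hu1)) (b_bounds_nn_pos _ (hne _ hu1)), ?_⟩
    intro x
    by_cases hx : x = 0
    · rw [hx, hp0, hn0, mul_zero, mul_zero]
      exact ⟨le_refl _, le_refl _⟩
    · have hxn := b_bounds_nn_pos x hx
      have hnx : 0 < ‖x‖ := norm_pos_iff.2 hx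
      have e : p (‖x‖⁻¹ • x) / nn (‖x‖⁻¹ • x) = p x / nn x := by
        rw [hp.hom, b_bounds_nn_hom]
        have : |‖x‖⁻¹| ≠ 0 := by positivity
        exact mul_div_mul_left _ _ this
      have h1 : p u0 / nn u0 ≤ p (‖x‖⁻¹ • x) / nn (‖x‖⁻¹ • x) := hmin (hsph x hx)
      have h2 : p (‖x‖⁻¹ • x) / nn (‖x‖⁻¹ • x) ≤ p u1 / nn u1 := hmax (hsph x hx)
      rw [e] at h1 h2
      exact ⟨(le_div_iff₀ hxn).1 h1, (div_le_iff₀ hxn).1 h2⟩
  · refine ⟨1, 1, one_pos, one_pos, ?_⟩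
    intro x
    by_cases hx : x = 0
    · rw [hx, hp0, hn0, mul_zero]
      exact ⟨le_refl _, le_refl _⟩
    · exact absurd ⟨_, hsph x hx⟩ hS

end Pool.Agent.Helper142.Kib.B_bounds
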