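import Mathlib
import Pool.Agent.Helper142.Kib.Defs

/-! Helper lemma nn_isG for MP_7548d4_gt. -/

set_option linter.all false

namespace Pool.Agent.Helper142.Kib.Nn_isG

open MeasureTheory Matrix Filter Topology Pool.Agent.Helper142.Kib
open scoped ENNReal

/-- TARGET: prove this. -/
theorem nn_isG {α : Type} [Fintype α] : IsG (nn : (α → ℝ) → ℝ) := by
  refine ⟨?_, ?_, ?_⟩
  · unfold nn dotProduct
    fun_prop
  · intro t x
    unfold nn
    rw [smul_dotProduct, dotProduct_smul, smul_eq_mul, smul_eq_mul, ← mul_assoc,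
      Real.sqrt_mul (mul_self_nonneg t), Real.sqrt_mul_self_eq_abs]
  · intro x hx
    unfold nn
    refine Real.sqrt_pos.mpr (lt_of_le_of_ne ?_ ?_)
    · exact Finset.sum_nonneg (fun i _ => mul_self_nonneg (x i))
    · intro h
      exact hx (dotProduct_self_eq_zero.mp h.symm)

end Pool.Agent.Helper142.Kib.Nn_isG
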