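import Mathlib
import Pool.Agent.Helper142.Kib.Defs
import Pool.Agent.Helper142.Kib.B_bounds
import Pool.Agent.Helper142.Kib.Nn_isG

/-! Helper lemma b_fin for MP_7548d4_gt. -/

set_option linter.all false

namespace Pool.Agent.Helper142.Kib.B_fin

open MeasureTheory Matrix Filter Topology Pool.Agent.Helper142.Kib
open scoped ENNReal
open Pool.Agent.Helper142.Kib.B_bounds Pool.Agent.Helper142.Kib.Nn_isG

/-- TARGET: prove this. -/
theorem b_fin {α : Type} [Fintype α] (p : (α → ℝ) → ℝ) (hp : IsG p) :
    0 < vg p ∧ vg p < ⊤ := by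
  obtain ⟨b, B, hb, hB, hbb⟩ := b_bounds p hp
  have p0 : p 0 = 0 := by
    have := hp.hom 0 0
    simpa using this
  constructor
  · have ho : IsOpen {x : α → ℝ | p x < 1} := isOpen_lt hp.cont continuous_const
    have hne : ({x : α → ℝ | p x < 1}).Nonempty := ⟨0, by show p 0 < 1; rw [p0]; norm_num⟩
    have := ho.measure_pos volume hne
    refine lt_of_lt_of_le this (measure_mono ?_)
    intro x hx
    have hx' : p x < 1 := hx
    show p x ≤ 1
    linarith
  · have hsub : {x : α → ℝ | p x ≤ 1} ⊆ Metric.closedBall 0 (1/b) := by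
      intro x hx
      rw [mem_closedBall_zero_iff, pi_norm_le_iff_of_nonneg (by positivity)]
      intro i
      have h1 : |x i| ≤ nn x := by
        unfold nn
        apply Real.abs_le_sqrt
        rw [dotProduct]
        have := Finset.single_le_sum (f := fun j => x j * x j)
          (fun j _ => mul_self_nonneg (x j)) (Finset.mem_univ i)
        rw [sq]; exact this
      have h2 := (hbb x).1
      have h3 : p x ≤ 1 := hx
      rw [Real.norm_eq_abs, le_div_iff₀ hb]
      nlinarith
    exact (Metric.isBounded_closedBall.subset hsub).measure_lt_top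

end Pool.Agent.Helper142.Kib.B_fin
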