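import Mathlib
import Pool.Agent.Helper142.Kib.Defs
import Pool.Agent.Helper142.Kib.B_fin

/-! Helper lemma b_radial for MP_7548d4_gt. -/

set_option linter.all false

namespace Pool.Agent.Helper142.Kib.B_radial

open MeasureTheory Matrix Filter Topology Pool.Agent.Helper142.Kib
open scoped ENNReal
open Pool.Agent.Helper142.Kib.B_fin

/-- TARGET: prove this. -/
theorem b_radial {α : Type} [Fintype α] [Nonempty α] (p : (α → ℝ) → ℝ) (hp : IsG p)
    (φ : ℝ → ℝ≥0∞) (hφ : Measurable φ) :
    ∫⁻ x : α → ℝ, φ (p x) = vg p * ∫⁻ u in Set.Ioi (0 : ℝ), φ u *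
      ENNReal.ofReal (Fintype.card α * u ^ (Fintype.card α - 1)) := by
  set n := Fintype.card α with hn
  have hn1 : 1 ≤ n := Fintype.card_pos
  obtain ⟨hv0, hvt⟩ := b_fin p hp
  have hp0 : p 0 = 0 := by
    have := hp.hom 0 0
    simpa using this
  have hpnn : ∀ x, 0 ≤ p x := by
    intro x
    by_cases hx : x = 0
    · rw [hx, hp0]
    · exact (hp.pos x hx).le
  have hpm : Measurable p := hp.cont.measurable
  have hdens : Measurable (fun u : ℝ => ENNReal.ofReal ((n : ℝ) * u ^ (n - 1))) := by fun_prop
  have hm1 : ∀ t : ℝ, (Measure.map p (volume : Measure (α → ℝ))) (Set.Iic t) =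
      vg p * ENNReal.ofReal ((max t 0) ^ n) := by
    intro t
    rw [Measure.map_apply hpm measurableSet_Iic]
    rcases lt_or_ge 0 t with ht | ht
    · open scoped Pointwise in
      have hset : p ⁻¹' Set.Iic t = t • {x : α → ℝ | p x ≤ 1} := by
        ext x
        rw [Set.mem_smul_set_iff_inv_smul_mem₀ ht.ne']
        simp only [Set.mem_preimage, Set.mem_Iic, Set.mem_setOf_eq]
        rw [hp.hom, abs_of_pos (inv_pos.mpr ht), inv_mul_le_iff₀ ht, mul_one]
      rw [hset, Measure.addHaar_smul, Module.finrank_fintype_fun_eq_card, max_eq_left ht.le,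
        abs_of_pos (pow_pos ht _), mul_comm]
      rfl
    · have hsub : p ⁻¹' Set.Iic t ⊆ {0} := by
        intro x hx
        by_contra hne
        have h1 := hp.pos x hne
        have h2 : p x ≤ t := hx
        linarith
      have : volume (p ⁻¹' Set.Iic t) = 0 :=
        measure_mono_null hsub (measure_singleton _)
      rw [this, max_eq_right ht, zero_pow (by omega)]
      simp
  have hm2 : ∀ t : ℝ, (vg p • ((volume.restrict (Set.Ioi (0:ℝ))).withDensity
      (fun u : ℝ => ENNReal.ofReal ((n : ℝ) * u ^ (n - 1))))) (Set.Iic t) =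
      vg p * ENNReal.ofReal ((max t 0) ^ n) := by
    intro t
    rw [Measure.smul_apply, smul_eq_mul, withDensity_apply _ measurableSet_Iic,
      Measure.restrict_restrict measurableSet_Iic]
    congr 1
    rcases lt_or_ge 0 t with ht | ht
    · have hset : Set.Iic t ∩ Set.Ioi 0 = Set.Ioc 0 t := by
        ext x; simp only [Set.mem_inter_iff, Set.mem_Iic, Set.mem_Ioi, Set.mem_Ioc]; tauto
      rw [hset, max_eq_left ht.le, ← ofReal_integral_eq_lintegral_ofReal]
      · rw [← intervalIntegral.integral_of_le ht.le]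
        congr 1
        rw [intervalIntegral.integral_const_mul, integral_pow]
        have h3 : n - 1 + 1 = n := by omega
        have h4 : ((n - 1 : ℕ) : ℝ) + 1 = n := by
          rw [← Nat.cast_add_one, h3]
        rw [h3, h4, zero_pow (by omega)]
        have : (n : ℝ) ≠ 0 := by positivity
        field_simp
        ring
      · apply Continuous.integrableOn_Ioc
        fun_prop
      · filter_upwards [ae_restrict_mem measurableSet_Ioc] with y hy
        have := hy.1.le
        positivity
    · have hset : Set.Iic t ∩ Set.Ioi 0 = ∅ := by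
        ext x
        simp only [Set.mem_inter_iff, Set.mem_Iic, Set.mem_Ioi, Set.mem_empty_iff_false, iff_false]
        intro h; linarith [h.1, h.2]
      rw [hset, max_eq_right ht, zero_pow (by omega)]
      simp
  have hfin : ∀ t : ℝ, vg p * ENNReal.ofReal ((max t 0) ^ n) ≠ ⊤ := fun t =>
    ENNReal.mul_ne_top hvt.ne ENNReal.ofReal_ne_top
  have hkey : Measure.map p (volume : Measure (α → ℝ)) =
      vg p • ((volume.restrict (Set.Ioi (0:ℝ))).withDensity
      (fun u : ℝ => ENNReal.ofReal ((n : ℝ) * u ^ (n - 1)))) := by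
    refine Measure.ext_of_Ioc' _ _ ?_ ?_
    · intro a b hab
      have : (Measure.map p (volume : Measure (α → ℝ))) (Set.Ioc a b) ≤
          (Measure.map p (volume : Measure (α → ℝ))) (Set.Iic b) :=
        measure_mono Set.Ioc_subset_Iic_self
      rw [hm1] at this
      exact ne_top_of_le_ne_top (hfin b) this
    · intro a b hab
      rw [← Set.Iic_sdiff_Iic, measure_sdiff (Set.Iic_subset_Iic.2 hab.le) nullMeasurableSet_Iic,
        measure_sdiff (Set.Iic_subset_Iic.2 hab.le) nullMeasurableSet_Iic, hm1, hm1, hm2, hm2]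
      · rw [hm2]; exact hfin a
      · rw [hm1]; exact hfin a
  rw [← lintegral_map hφ hpm, hkey, lintegral_smul_measure,
    lintegral_withDensity_eq_lintegral_mul _ hdens hφ, smul_eq_mul]
  congr 1
  refine lintegral_congr fun u => ?_
  simp only [Pi.mul_apply]
  rw [mul_comm]

end Pool.Agent.Helper142.Kib.B_radial
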