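import Mathlib
import Pool.Agent.Helper142.Kib.Defs
import Pool.Agent.Helper142.Kib.B_radial
import Pool.Agent.Helper142.Kib.B_bounds
import Pool.Agent.Helper142.Kib.B_fin

/-! Helper lemma b_int for MP_7548d4_gt. -/

set_option linter.all false

namespace Pool.Agent.Helper142.Kib.B_int

open MeasureTheory Matrix Filter Topology Pool.Agent.Helper142.Kib
open scoped ENNReal
open Pool.Agent.Helper142.Kib.B_radial Pool.Agent.Helper142.Kib.B_bounds Pool.Agent.Helper142.Kib.B_fin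

/-- TARGET: prove this. -/
theorem b_int {α : Type} [Fintype α] (p : (α → ℝ) → ℝ) (hp : IsG p) (j : ℕ)
    (hj : j < Fintype.card α) (a : ℝ) (ha : 0 < a) :
    Integrable (fun x : α → ℝ => (p x ^ j)⁻¹ * Real.exp (-a * (x ⬝ᵥ x))) := by
  have hne : Nonempty α := Fintype.card_pos_iff.1 (by omega)
  obtain ⟨b, B, hb, hB, hbB⟩ := b_bounds p hp
  have hfin := (b_fin p hp).2
  have hp0 : ∀ x, 0 ≤ p x := by
    intro x
    by_cases hx : x = 0
    · have h := hp.hom 0 0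
      simp only [smul_zero, abs_zero, zero_mul] at h
      rw [hx, h]
    · exact (hp.pos x hx).le
  have h2 : Continuous (fun x : α → ℝ => x ⬝ᵥ x) := by
    unfold dotProduct
    fun_prop
  have hmeas : Measurable (fun x : α → ℝ => (p x ^ j)⁻¹ * Real.exp (-a * (x ⬝ᵥ x))) := by
    have h1 : Measurable p := hp.cont.measurable
    exact ((h1.pow_const j).inv).mul ((h2.measurable.const_mul (-a)).exp)
  refine ⟨hmeas.aestronglyMeasurable, ?_⟩
  have hφ : Measurable (fun u : ℝ =>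
      ENNReal.ofReal ((u ^ j)⁻¹ * Real.exp (-(a / B ^ 2) * u ^ 2))) := by
    refine Measurable.ennreal_ofReal ?_
    exact (((measurable_id.pow_const j).inv).mul
      (((measurable_id.pow_const 2).const_mul (-(a / B ^ 2))).exp))
  have hxx : ∀ x : α → ℝ, 0 ≤ x ⬝ᵥ x := by
    intro x
    unfold dotProduct
    exact Finset.sum_nonneg (fun i _ => mul_self_nonneg _)
  have hkey : ∀ x : α → ℝ, (p x) ^ 2 ≤ B ^ 2 * (x ⬝ᵥ x) := by
    intro x
    have h1 := (hbB x).2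
    have h3 : nn x ^ 2 = x ⬝ᵥ x := by
      unfold nn
      exact Real.sq_sqrt (hxx x)
    calc (p x) ^ 2 ≤ (B * nn x) ^ 2 := by
          exact pow_le_pow_left₀ (hp0 x) h1 2
      _ = B ^ 2 * (x ⬝ᵥ x) := by rw [mul_pow, h3]
  rw [hasFiniteIntegral_iff_enorm]
  have h1 : ∫⁻ x : α → ℝ, ‖(p x ^ j)⁻¹ * Real.exp (-a * (x ⬝ᵥ x))‖ₑ ≤
      ∫⁻ x : α → ℝ, (fun u : ℝ =>
      ENNReal.ofReal ((u ^ j)⁻¹ * Real.exp (-(a / B ^ 2) * u ^ 2))) (p x) := by
    refine lintegral_mono (fun x => ?_)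
    have hpj : 0 ≤ (p x ^ j)⁻¹ := inv_nonneg.2 (pow_nonneg (hp0 x) j)
    rw [Real.enorm_eq_ofReal (mul_nonneg hpj (Real.exp_pos _).le)]
    refine ENNReal.ofReal_le_ofReal ?_
    refine mul_le_mul_of_nonneg_left ?_ hpj
    refine Real.exp_le_exp.2 ?_
    have hB2 : 0 < B ^ 2 := by positivity
    have h3 : a / B ^ 2 * (p x) ^ 2 ≤ a * (x ⬝ᵥ x) := by
      rw [div_mul_eq_mul_div, div_le_iff₀ hB2]
      have := mul_le_mul_of_nonneg_left (hkey x) ha.le
      linarith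
    linarith
  refine lt_of_le_of_lt h1 ?_
  rw [b_radial p hp _ hφ]
  refine ENNReal.mul_lt_top hfin ?_
  have hint : IntegrableOn (fun u : ℝ => (Fintype.card α : ℝ) *
      (u ^ (((Fintype.card α - 1 - j : ℕ) : ℝ)) * Real.exp (-(a / B ^ 2) * u ^ 2)))
      (Set.Ioi 0) := by
    refine Integrable.const_mul ?_ _
    refine integrableOn_rpow_mul_exp_neg_mul_sq (by positivity) ?_
    have : (0:ℝ) ≤ ((Fintype.card α - 1 - j : ℕ) : ℝ) := Nat.cast_nonneg _
    linarith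
  refine lt_of_le_of_lt (le_of_eq ?_) hint.lintegral_lt_top
  refine setLIntegral_congr_fun measurableSet_Ioi (fun u hu => ?_)
  have hu0 : (0:ℝ) < u := hu
  have e0 : Fintype.card α - 1 = (Fintype.card α - 1 - j) + j := by omega
  have hpj : 0 ≤ (u ^ j)⁻¹ * Real.exp (-(a / B ^ 2) * u ^ 2) :=
    mul_nonneg (inv_nonneg.2 (pow_nonneg hu0.le j)) (Real.exp_pos _).le
  show ENNReal.ofReal ((u ^ j)⁻¹ * Real.exp (-(a / B ^ 2) * u ^ 2)) *
    ENNReal.ofReal (Fintype.card α * u ^ (Fintype.card α - 1)) = _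
  rw [← ENNReal.ofReal_mul hpj]
  congr 1
  rw [Real.rpow_natCast]
  have e1 : u ^ (Fintype.card α - 1) = u ^ (Fintype.card α - 1 - j) * u ^ j := by
    rw [← pow_add, ← e0]
  rw [e1]
  have hne' : u ^ j ≠ 0 := (pow_pos hu0 j).ne'
  field_simp

end Pool.Agent.Helper142.Kib.B_int
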