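import Mathlib
import Pool.Agent.Helper142.Kib.Defs
import Pool.Agent.Helper142.Kib.B_int

/-! Helper lemma B1 for MP_7548d4_gt. -/

set_option linter.all false

namespace Pool.Agent.Helper142.Kib.B1

open MeasureTheory Matrix Filter Topology Pool.Agent.Helper142.Kib
open scoped ENNReal
open Pool.Agent.Helper142.Kib.B_int

theorem B1x_mv {α : Type} [Fintype α] [DecidableEq α] (b x : α → ℝ) :
    (Matrix.vecMulVec b b) *ᵥ x = (b ⬝ᵥ x) • b := by
  ext i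
  simp only [Matrix.mulVec, dotProduct, Matrix.vecMulVec_apply, Pi.smul_apply, smul_eq_mul,
    Finset.sum_mul]
  exact Finset.sum_congr rfl fun j _ => by ring

theorem B1x_Q {α : Type} [Fintype α] [DecidableEq α] (b x : α → ℝ) (a s : ℝ) :
    Q (a • (1 : Matrix α α ℝ) + s • Matrix.vecMulVec b b) x = a * (x ⬝ᵥ x) + s * (b ⬝ᵥ x) ^ 2 := by
  unfold Q
  rw [Matrix.add_mulVec, Matrix.smul_mulVec, Matrix.smul_mulVec, Matrix.one_mulVec, B1x_mv,
    dotProduct_add, dotProduct_smul, dotProduct_smul, dotProduct_smul, dotProduct_comm x b]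
  simp only [smul_eq_mul]
  ring

theorem B1x_cs {α : Type} [Fintype α] (b x : α → ℝ) :
    (b ⬝ᵥ x) ^ 2 ≤ (b ⬝ᵥ b) * (x ⬝ᵥ x) := by
  have h := Finset.sum_mul_sq_le_sq_mul_sq Finset.univ b x
  simp only [dotProduct]
  calc (∑ i, b i * x i) ^ 2 ≤ (∑ i, b i ^ 2) * ∑ i, x i ^ 2 := h
    _ = _ := by simp only [pow_two]

theorem B1x_pd {α : Type} [Fintype α] [DecidableEq α] (b : α → ℝ) (a s : ℝ) (ha : 0 < a)
    (hs : 0 ≤ s) (hsb : s * (b ⬝ᵥ b) < a) :
    (a • (1 : Matrix α α ℝ) + (-s) • Matrix.vecMulVec b b).PosDef := by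
  refine Matrix.PosDef.of_dotProduct_mulVec_pos ?_ ?_
  · ext i j
    simp only [Matrix.conjTranspose_apply, Matrix.add_apply, Matrix.smul_apply, Matrix.one_apply,
      Matrix.vecMulVec_apply, smul_eq_mul, star_trivial]
    by_cases h : i = j
    · subst h; simp
    · rw [if_neg h, if_neg (fun h' => h h'.symm)]; ring
  · intro x hx
    have h1 := B1x_Q b x a (-s)
    unfold Q at h1
    rw [star_trivial, h1]
    have h2 := B1x_cs b x
    have h3 : 0 < x ⬝ᵥ x := by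
      have h4 : 0 ≤ x ⬝ᵥ x := by
        simp only [dotProduct]
        exact Finset.sum_nonneg fun i _ => mul_self_nonneg _
      rcases h4.lt_or_eq with h5 | h5
      · exact h5
      · exfalso
        exact hx (dotProduct_self_eq_zero.mp h5.symm)
    nlinarith [mul_le_mul_of_nonneg_left h2 hs]

theorem B1x_det {α : Type} [Fintype α] [DecidableEq α] (b : α → ℝ) (a s : ℝ) (ha : 0 < a) :
    (a • (1 : Matrix α α ℝ) + (-s) • Matrix.vecMulVec b b).det =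
      a ^ (Fintype.card α) * (1 - s * (b ⬝ᵥ b) / a) := by
  have h : a • (1 : Matrix α α ℝ) + (-s) • Matrix.vecMulVec b b =
      a • (1 + Matrix.replicateCol Unit ((-(s / a)) • b) * Matrix.replicateRow Unit b) := by
    ext i j
    simp only [Matrix.add_apply, Matrix.smul_apply, Matrix.vecMulVec_apply, smul_eq_mul,
      Matrix.mul_apply, Matrix.replicateCol_apply, Matrix.replicateRow_apply, Pi.smul_apply,
      Finset.univ_unique, Finset.sum_const, Finset.card_singleton, one_smul]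
    field_simp
  rw [h, Matrix.det_smul, Matrix.det_one_add_replicateCol_mul_replicateRow, dotProduct_smul,
    smul_eq_mul]
  ring

theorem B1x_inv {α : Type} [Fintype α] [DecidableEq α] (b : α → ℝ) (a s : ℝ) (ha : 0 < a)
    (hδ : 0 < 1 - s * (b ⬝ᵥ b) / a) :
    (a • (1 : Matrix α α ℝ) + (-s) • Matrix.vecMulVec b b)⁻¹ =
      (1 / a) • (1 : Matrix α α ℝ) + (s / (a ^ 2 * (1 - s * (b ⬝ᵥ b) / a))) •
        Matrix.vecMulVec b b := by
  apply Matrix.inv_eq_right_inv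
  have hbb : Matrix.vecMulVec b b * Matrix.vecMulVec b b = (b ⬝ᵥ b) • Matrix.vecMulVec b b := by
    ext i j
    simp only [Matrix.mul_apply, Matrix.vecMulVec_apply, Matrix.smul_apply, smul_eq_mul, dotProduct,
      Finset.sum_mul]
    exact Finset.sum_congr rfl fun k _ => by ring
  rw [add_mul, mul_add, mul_add]
  simp only [Matrix.smul_mul, Matrix.mul_smul, Matrix.one_mul, Matrix.mul_one, hbb, smul_smul]
  have h1 : 1 / a * a = 1 := by field_simp
  rw [h1, one_smul, add_assoc, ← add_smul, ← add_smul]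
  have h2 : s / (a ^ 2 * (1 - s * (b ⬝ᵥ b) / a)) * a +
      (1 / a * -s + s / (a ^ 2 * (1 - s * (b ⬝ᵥ b) / a)) * (-s * (b ⬝ᵥ b))) = 0 := by
    have hδ' := hδ.ne'
    generalize (b ⬝ᵥ b) = D at *
    have h3 : a - s * D ≠ 0 := by
      intro h
      apply hδ'
      rw [sub_eq_zero, eq_comm, div_eq_one_iff_eq ha.ne']
      linarith
    have h4 : 1 - s * D / a = (a - s * D) / a := by field_simp
    rw [h4]
    field_simp
    ring
  rw [h2, zero_smul, add_zero]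

/-- TARGET: prove this. -/
theorem B1 {α : Type} [Fintype α] [DecidableEq α] (p r : (α → ℝ) → ℝ) (hp : IsG p) (hr : IsG r)
    (k m : ℕ) (hk : k < Fintype.card α) (hm : m < Fintype.card α) (c : ℝ) (hc : 0 < c)
    (hG : ∀ A : Matrix α α ℝ, A.PosDef →
      ∫⁻ x : α → ℝ, ENNReal.ofReal ((r x ^ k)⁻¹ * Real.exp (-Real.pi * Q A x)) =
        ENNReal.ofReal (c * A.det ^ (-(1 / 2) : ℝ)) *
          ∫⁻ x : α → ℝ, ENNReal.ofReal ((p x ^ m)⁻¹ * Real.exp (-Real.pi * Q A⁻¹ x)))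
    (b : α → ℝ) (a s : ℝ) (ha : 0 < a) (hs : 0 ≤ s) (hsb : s * (b ⬝ᵥ b) < a) :
    Integrable (fun y : α → ℝ => (r y ^ k)⁻¹ *
      Real.exp (-Real.pi * a * (y ⬝ᵥ y) + Real.pi * s * (b ⬝ᵥ y) ^ 2)) ∧
    ∫ y : α → ℝ, (r y ^ k)⁻¹ *
      Real.exp (-Real.pi * a * (y ⬝ᵥ y) + Real.pi * s * (b ⬝ᵥ y) ^ 2) =
    c * a ^ (-((Fintype.card α : ℝ) / 2)) * (1 - s * (b ⬝ᵥ b) / a) ^ (-(1 / 2) : ℝ) *
      ∫ y : α → ℝ, (p y ^ m)⁻¹ * Real.exp (-Real.pi * (y ⬝ᵥ y) / a) *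
        Real.exp (-Real.pi * s * ((b ⬝ᵥ y) / a) ^ 2 / (1 - s * (b ⬝ᵥ b) / a)) := by
  have hδ : 0 < 1 - s * (b ⬝ᵥ b) / a := by
    rw [sub_pos, div_lt_one ha]
    exact hsb
  have hnn : ∀ {q : (α → ℝ) → ℝ}, IsG q → ∀ x, 0 ≤ q x := by
    intro q hq x
    by_cases hx : x = 0
    · have h0 := hq.hom 0 x
      rw [zero_smul, abs_zero, zero_mul] at h0
      rw [hx, h0]
    · exact (hq.pos x hx).le
  have hdm : Measurable (fun y : α → ℝ => b ⬝ᵥ y) := by
    simp only [dotProduct]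
    fun_prop
  have hyy : Measurable (fun y : α → ℝ => y ⬝ᵥ y) := by
    simp only [dotProduct]
    fun_prop
  have hpm : Measurable p := hp.cont.measurable
  have hrm : Measurable r := hr.cont.measurable
  have h := hG _ (B1x_pd b a s ha hs hsb)
  rw [B1x_inv b a s ha hδ, B1x_det b a s ha] at h
  have e1 : ∀ x, (r x ^ k)⁻¹ * Real.exp (-Real.pi *
      Q (a • (1 : Matrix α α ℝ) + (-s) • Matrix.vecMulVec b b) x) = (r x ^ k)⁻¹ *
      Real.exp (-Real.pi * a * (x ⬝ᵥ x) + Real.pi * s * (b ⬝ᵥ x) ^ 2) := by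
    intro x
    rw [B1x_Q]
    congr 2
    ring
  have e2 : ∀ x, (p x ^ m)⁻¹ * Real.exp (-Real.pi * Q ((1 / a) • (1 : Matrix α α ℝ) +
      (s / (a ^ 2 * (1 - s * (b ⬝ᵥ b) / a))) • Matrix.vecMulVec b b) x) =
      (p x ^ m)⁻¹ * Real.exp (-Real.pi * (x ⬝ᵥ x) / a) *
        Real.exp (-Real.pi * s * ((b ⬝ᵥ x) / a) ^ 2 / (1 - s * (b ⬝ᵥ b) / a)) := by
    intro x
    rw [B1x_Q, mul_assoc, ← Real.exp_add]
    congr 2
    have hδ' := hδ.ne'
    generalize 1 - s * (b ⬝ᵥ b) / a = δ at *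
    field_simp
    ring
  simp_rw [e1, e2] at h
  have hf2 : Integrable (fun y : α → ℝ => (p y ^ m)⁻¹ * Real.exp (-Real.pi * (y ⬝ᵥ y) / a) *
        Real.exp (-Real.pi * s * ((b ⬝ᵥ y) / a) ^ 2 / (1 - s * (b ⬝ᵥ b) / a))) := by
    have hb := b_int p hp m hm (Real.pi / a) (by positivity)
    refine hb.mono' (by fun_prop) (Filter.Eventually.of_forall fun y => ?_)
    have hp0 : 0 ≤ (p y ^ m)⁻¹ := by
      have := hnn hp y
      positivity
    rw [Real.norm_of_nonneg (by positivity)]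
    have e3 : -Real.pi * (y ⬝ᵥ y) / a = -(Real.pi / a) * (y ⬝ᵥ y) := by ring
    rw [e3]
    have h5 : Real.exp (-Real.pi * s * ((b ⬝ᵥ y) / a) ^ 2 / (1 - s * (b ⬝ᵥ b) / a)) ≤ 1 := by
      rw [Real.exp_le_one_iff]
      have h6 : 0 ≤ Real.pi * s * ((b ⬝ᵥ y) / a) ^ 2 / (1 - s * (b ⬝ᵥ b) / a) := by positivity
      have h7 : -Real.pi * s * ((b ⬝ᵥ y) / a) ^ 2 / (1 - s * (b ⬝ᵥ b) / a) =
        -(Real.pi * s * ((b ⬝ᵥ y) / a) ^ 2 / (1 - s * (b ⬝ᵥ b) / a)) := by ring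
      rw [h7]
      linarith
    have h8 : 0 ≤ (p y ^ m)⁻¹ * Real.exp (-(Real.pi / a) * (y ⬝ᵥ y)) := by positivity
    nlinarith
  have hf2nn : 0 ≤ᵐ[volume] (fun y : α → ℝ => (p y ^ m)⁻¹ * Real.exp (-Real.pi * (y ⬝ᵥ y) / a) *
        Real.exp (-Real.pi * s * ((b ⬝ᵥ y) / a) ^ 2 / (1 - s * (b ⬝ᵥ b) / a))) := by
    refine Filter.Eventually.of_forall fun y => ?_
    have := hnn hp y
    positivity
  have hf1nn : 0 ≤ᵐ[volume] (fun y : α → ℝ => (r y ^ k)⁻¹ *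
      Real.exp (-Real.pi * a * (y ⬝ᵥ y) + Real.pi * s * (b ⬝ᵥ y) ^ 2)) := by
    refine Filter.Eventually.of_forall fun y => ?_
    have := hnn hr y
    positivity
  have hf1m : AEStronglyMeasurable (fun y : α → ℝ => (r y ^ k)⁻¹ *
      Real.exp (-Real.pi * a * (y ⬝ᵥ y) + Real.pi * s * (b ⬝ᵥ y) ^ 2)) volume := by
    fun_prop
  have hfin2 := (lintegral_ofReal_ne_top_iff_integrable hf2.aestronglyMeasurable hf2nn).mpr hf2
  have hf1 : Integrable (fun y : α → ℝ => (r y ^ k)⁻¹ *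
      Real.exp (-Real.pi * a * (y ⬝ᵥ y) + Real.pi * s * (b ⬝ᵥ y) ^ 2)) := by
    rw [← lintegral_ofReal_ne_top_iff_integrable hf1m hf1nn, h]
    exact ENNReal.mul_ne_top ENNReal.ofReal_ne_top hfin2
  refine ⟨hf1, ?_⟩
  rw [integral_eq_lintegral_of_nonneg_ae hf1nn hf1m,
    integral_eq_lintegral_of_nonneg_ae hf2nn hf2.aestronglyMeasurable, h, ENNReal.toReal_mul,
    ENNReal.toReal_ofReal (by positivity)]
  congr 1
  rw [Real.mul_rpow (by positivity) hδ.le, ← mul_assoc]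
  congr 2
  rw [← Real.rpow_natCast, ← Real.rpow_mul ha.le]
  congr 1
  ring

end Pool.Agent.Helper142.Kib.B1
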