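import Mathlib
import Pool.Agent.Helper142.Kib.Defs
import Pool.Agent.Helper142.Kib.B_radial
import Pool.Agent.Helper142.Kib.Nn_isG
import Pool.Agent.Helper142.Kib.B_fin

/-! Helper lemma b_gauss for MP_7548d4_gt. -/

set_option linter.all false

namespace Pool.Agent.Helper142.Kib.B_gauss

open MeasureTheory Matrix Filter Topology Pool.Agent.Helper142.Kib
open scoped ENNReal
open Pool.Agent.Helper142.Kib.B_radial Pool.Agent.Helper142.Kib.Nn_isG Pool.Agent.Helper142.Kib.B_fin

/-- TARGET: prove this. -/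
theorem b_gauss {α : Type} [Fintype α] (p : (α → ℝ) → ℝ) (hp : IsG p)
    (hv : vg p = vg (nn : (α → ℝ) → ℝ)) (a : ℝ) (ha : 0 < a) :
    Integrable (fun x : α → ℝ => Real.exp (-a * p x ^ 2)) ∧
    ∫ x : α → ℝ, Real.exp (-a * p x ^ 2) = (Real.pi / a) ^ ((Fintype.card α : ℝ) / 2) := by
  classical
  have hnn : ∀ x : α → ℝ, nn x ^ 2 = ∑ i, x i ^ 2 := by
    intro x
    unfold nn
    have h0 : x ⬝ᵥ x = ∑ i, x i ^ 2 := by simp [dotProduct, sq]
    rw [h0, Real.sq_sqrt (Finset.sum_nonneg fun i _ => sq_nonneg _)]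
  rcases isEmpty_or_nonempty α with hE | hN
  · have hx : ∀ x : α → ℝ, p x = 0 := by
      intro x
      have hx0 : x = 0 := Subsingleton.elim _ _
      rw [hx0]
      have := hp.hom 0 0
      simpa using this
    have hfun : (fun x : α → ℝ => Real.exp (-a * p x ^ 2)) = fun _ => 1 := by
      funext x
      rw [hx]
      simp
    rw [hfun, MeasureTheory.Measure.volume_pi_eq_dirac]
    refine ⟨integrable_const _, ?_⟩
    simp
  · set G : ℝ → ℝ≥0∞ := fun u => ENNReal.ofReal (Real.exp (-a * u ^ 2)) with hG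
    have hφ : Measurable G := by
      rw [hG]
      fun_prop
    have h1 := b_radial p hp G hφ
    have h2 := b_radial (nn : (α → ℝ) → ℝ) nn_isG G hφ
    have h3 : ∫⁻ x : α → ℝ, G (p x) = ∫⁻ x : α → ℝ, G (nn x) := by rw [h1, h2, hv]
    have hprod : ∀ x : α → ℝ, Real.exp (-a * nn x ^ 2) = ∏ i, Real.exp (-a * x i ^ 2) := by
      intro x
      rw [hnn, Finset.mul_sum, Real.exp_sum]
    have hint : Integrable (fun x : α → ℝ => ∏ i, Real.exp (-a * x i ^ 2)) := by
      exact MeasureTheory.Integrable.fintype_prod (f := fun (_ : α) (y : ℝ) => Real.exp (-a * y ^ 2))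
        (fun i => integrable_exp_neg_mul_sq ha)
    have hval : ∫ x : α → ℝ, ∏ i, Real.exp (-a * x i ^ 2) =
        (√(Real.pi / a)) ^ (Fintype.card α) := by
      rw [← integral_gaussian a]
      exact MeasureTheory.integral_fintype_prod_volume_eq_pow
        (fun y : ℝ => Real.exp (-a * y ^ 2))
    have h4 : ∫⁻ x : α → ℝ, G (nn x) =
        ENNReal.ofReal (∫ x : α → ℝ, ∏ i, Real.exp (-a * x i ^ 2)) := by
      rw [ofReal_integral_eq_lintegral_ofReal hint
        (Filter.Eventually.of_forall (fun x => Finset.prod_nonneg fun i _ => (Real.exp_pos _).le))]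
      congr 1
      funext x
      simp only [hG]
      rw [hprod]
    have hcont : Continuous (fun x : α → ℝ => Real.exp (-a * p x ^ 2)) := by
      have := hp.cont
      fun_prop
    have hint2 : Integrable (fun x : α → ℝ => Real.exp (-a * p x ^ 2)) := by
      refine ⟨hcont.aestronglyMeasurable, ?_⟩
      rw [hasFiniteIntegral_iff_ofReal
        (Filter.Eventually.of_forall (fun x => (Real.exp_pos _).le))]
      change ∫⁻ x : α → ℝ, G (p x) < ⊤
      rw [h3, h4]
      exact ENNReal.ofReal_lt_top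
    refine ⟨hint2, ?_⟩
    rw [integral_eq_lintegral_of_nonneg_ae
      (Filter.Eventually.of_forall (fun x => (Real.exp_pos _).le)) hcont.aestronglyMeasurable]
    change (∫⁻ x : α → ℝ, G (p x)).toReal = _
    rw [h3, h4, ENNReal.toReal_ofReal
      (integral_nonneg fun x => Finset.prod_nonneg fun i _ => (Real.exp_pos _).le), hval]
    rw [Real.sqrt_eq_rpow, ← Real.rpow_natCast, ← Real.rpow_mul (by positivity)]
    congr 1
    ring

end Pool.Agent.Helper142.Kib.B_gauss
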