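import Mathlib
import Pool.Agent.Helper142.Kib.Defs
import Pool.Agent.Helper142.Kib.Nn_isG

/-! Helper lemma ball_sec for MP_7548d4_gt. -/

set_option linter.all false

namespace Pool.Agent.Helper142.Kib.Ball_sec

open MeasureTheory Matrix Filter Topology Pool.Agent.Helper142.Kib
open scoped ENNReal
open Pool.Agent.Helper142.Kib.Nn_isG

open scoped Pointwise MatrixOrder Matrix.Norms.L2Operator in
theorem ball_sec_aux {α : Type} [Fintype α] [DecidableEq α] (G : Matrix α α ℝ) (hG : G.PosDef) :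
    ∃ S : Matrix α α ℝ, (∀ u, u ⬝ᵥ (G *ᵥ u) = (S *ᵥ u) ⬝ᵥ (S *ᵥ u)) ∧ S.det ^ 2 = G.det ∧
      S.det ≠ 0 := by
  obtain ⟨S, hS⟩ := CStarAlgebra.nonneg_iff_eq_star_mul_self.mp hG.posSemidef.nonneg
  rw [Matrix.star_eq_conjTranspose, Matrix.conjTranspose_eq_transpose_of_trivial] at hS
  have hdet : S.det ^ 2 = G.det := by
    rw [hS, Matrix.det_mul, Matrix.det_transpose]; ring
  refine ⟨S, ?_, hdet, ?_⟩
  · intro u
    rw [hS, ← Matrix.mulVec_mulVec, Matrix.dotProduct_mulVec, Matrix.vecMul_transpose]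
  · intro h0
    have := hG.det_pos
    rw [← hdet, h0] at this
    norm_num at this

open scoped Pointwise in
theorem ball_sec_vol {α : Type} [Fintype α] [DecidableEq α] (S : Matrix α α ℝ)
    (hS : S.det ≠ 0) (ρ : ℝ) (hρ : 0 < ρ) :
    volume {u : α → ℝ | nn (S *ᵥ u) ≤ ρ} = ENNReal.ofReal |(S.det)⁻¹| *
      (ENNReal.ofReal (ρ ^ Fintype.card α) * vg (nn : (α → ℝ) → ℝ)) := by
  have h1 : {u : α → ℝ | nn (S *ᵥ u) ≤ ρ} = (Matrix.toLin' S) ⁻¹' {w : α → ℝ | nn w ≤ ρ} := by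
    ext u; simp
  have hdet : LinearMap.det (Matrix.toLin' S) ≠ 0 := by
    rw [LinearMap.det_toLin']; exact hS
  rw [h1, Measure.addHaar_preimage_linearMap _ hdet, LinearMap.det_toLin']
  congr 1
  have h2 : {w : α → ℝ | nn w ≤ ρ} = ρ • {w : α → ℝ | nn w ≤ 1} := by
    ext w
    rw [Set.mem_smul_set_iff_inv_smul_mem₀ hρ.ne']
    show nn w ≤ ρ ↔ nn (ρ⁻¹ • w) ≤ 1
    rw [nn_isG.hom, abs_of_pos (inv_pos.mpr hρ), inv_mul_le_iff₀ hρ, mul_one]
  rw [h2, Measure.addHaar_smul, Module.finrank_fintype_fun_eq_card, abs_of_pos (pow_pos hρ _)]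
  rfl

theorem ball_sec_elim {ι κ : Type} [Fintype ι] [Fintype κ] (u : ι → ℝ) (w : κ → ℝ) :
    nn (Sum.elim u w) = Real.sqrt (u ⬝ᵥ u + w ⬝ᵥ w) := by
  unfold nn
  rw [sumElim_dotProduct_sumElim]

/-- TARGET: prove this. -/
theorem ball_sec {ι κ : Type} [Fintype ι] [DecidableEq ι] [Fintype κ] [DecidableEq κ]
    (R : ℝ) (hR : 0 < R)
    (h : ENNReal.ofReal (R ^ Fintype.card ι) * vg (nn : (ι → ℝ) → ℝ) =
      vg (nn : (κ → ℝ) → ℝ)) :
    Sec (nn : (ι ⊕ κ → ℝ) → ℝ) (fun x => R⁻¹ * nn x) := by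
  intro Z
  have hG : ((1 : Matrix ι ι ℝ) + Zᵀ * Z).PosDef := by
    have h1 := Matrix.posSemidef_conjTranspose_mul_self Z
    rw [Matrix.conjTranspose_eq_transpose_of_trivial] at h1
    exact Matrix.PosDef.one.add_posSemidef h1
  have hG' : ((1 : Matrix κ κ ℝ) + Z * Zᵀ).PosDef := by
    have h1 := Matrix.posSemidef_self_mul_conjTranspose Z
    rw [Matrix.conjTranspose_eq_transpose_of_trivial] at h1
    exact Matrix.PosDef.one.add_posSemidef h1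
  obtain ⟨S, hS, hSd, hS0⟩ := ball_sec_aux _ hG
  obtain ⟨S', hS', hSd', hS0'⟩ := ball_sec_aux _ hG'
  have e1 : {u : ι → ℝ | R⁻¹ * nn (Sum.elim u (Z *ᵥ u)) ≤ 1} = {u : ι → ℝ | nn (S *ᵥ u) ≤ R} := by
    ext u
    show R⁻¹ * nn (Sum.elim u (Z *ᵥ u)) ≤ 1 ↔ nn (S *ᵥ u) ≤ R
    rw [inv_mul_le_iff₀ hR, mul_one]
    have : nn (Sum.elim u (Z *ᵥ u)) = nn (S *ᵥ u) := by
      rw [ball_sec_elim]
      unfold nn
      rw [← hS u, Matrix.add_mulVec, Matrix.one_mulVec, dotProduct_add, ← Matrix.mulVec_mulVec,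
        Matrix.dotProduct_mulVec u, Matrix.vecMul_transpose]
    rw [this]
  have e2 : {v : κ → ℝ | nn (Sum.elim (-(Zᵀ *ᵥ v)) v) ≤ 1} = {v : κ → ℝ | nn (S' *ᵥ v) ≤ 1} := by
    ext v
    show nn (Sum.elim (-(Zᵀ *ᵥ v)) v) ≤ 1 ↔ nn (S' *ᵥ v) ≤ 1
    have : nn (Sum.elim (-(Zᵀ *ᵥ v)) v) = nn (S' *ᵥ v) := by
      rw [ball_sec_elim]
      unfold nn
      rw [← hS' v, Matrix.add_mulVec, Matrix.one_mulVec, dotProduct_add, ← Matrix.mulVec_mulVec,
        Matrix.dotProduct_mulVec v, neg_dotProduct_neg, add_comm]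
      congr 2
      rw [← Matrix.vecMul_transpose, Matrix.transpose_transpose]
    rw [this]
  rw [e1, e2, ball_sec_vol S hS0 R hR, ball_sec_vol S' hS0' 1 one_pos, one_pow, ENNReal.ofReal_one,
    one_mul, h]
  congr 2
  rw [abs_inv, abs_inv]
  congr 1
  have h3 : S.det ^ 2 = S'.det ^ 2 := by
    rw [hSd, hSd', Matrix.det_one_add_mul_comm]
  rw [← Real.sqrt_sq_eq_abs, ← Real.sqrt_sq_eq_abs, h3]

end Pool.Agent.Helper142.Kib.Ball_sec
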