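import Mathlib
import Pool.Agent.Helper142.Kib.Defs

/-! Helper lemma body_gauge for MP_7548d4_gt. -/

set_option linter.all false

namespace Pool.Agent.Helper142.Kib.Body_gauge

open MeasureTheory Matrix Filter Topology Pool.Agent.Helper142.Kib
open scoped ENNReal

theorem bg_radial_neg {n : ℕ} (K : Set (EuclideanSpace ℝ (Fin n))) (hK : IsSymStarBody K)
    (x : EuclideanSpace ℝ (Fin n)) : radial K (-x) = radial K x := by
  unfold radial
  congr 1
  ext t
  constructor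
  · rintro ⟨h1, h2⟩
    refine ⟨h1, ?_⟩
    have := hK.symm _ h2
    rwa [smul_neg, neg_neg] at this
  · rintro ⟨h1, h2⟩
    refine ⟨h1, ?_⟩
    rw [smul_neg]
    exact hK.symm _ h2

theorem bg_unit {n : ℕ} (x : EuclideanSpace ℝ (Fin n)) (hx : x ≠ 0) : ‖(‖x‖⁻¹) • x‖ = 1 := by
  rw [norm_smul, norm_inv, norm_norm]
  exact inv_mul_cancel₀ (norm_ne_zero_iff.2 hx)

theorem bg_set {n : ℕ} (K : Set (EuclideanSpace ℝ (Fin n))) (hK : IsSymStarBody K)
    (u : EuclideanSpace ℝ (Fin n)) (hu : ‖u‖ = 1) :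
    BddAbove {t : ℝ | 0 ≤ t ∧ t • u ∈ K} ∧ IsClosed {t : ℝ | 0 ≤ t ∧ t • u ∈ K} ∧
      {t : ℝ | 0 ≤ t ∧ t • u ∈ K}.Nonempty := by
  refine ⟨?_, ?_, ?_⟩
  · obtain ⟨C, hC⟩ := hK.isCompact.isBounded.exists_norm_le
    refine ⟨C, ?_⟩
    rintro t ⟨h1, h2⟩
    have := hC _ h2
    rw [norm_smul, hu, mul_one, Real.norm_of_nonneg h1] at this
    exact this
  · have h1 : IsClosed {t : ℝ | 0 ≤ t} := isClosed_Ici
    have h2 : IsClosed ((fun t : ℝ => t • u) ⁻¹' K) :=
      hK.isCompact.isClosed.preimage (by fun_prop)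
    exact h1.inter h2
  · by_contra h
    rw [Set.not_nonempty_iff_eq_empty] at h
    have h1 := hK.radial_pos u hu
    unfold radial at h1
    rw [h, Real.sSup_empty] at h1
    exact lt_irrefl _ h1

theorem bg_mem {n : ℕ} (K : Set (EuclideanSpace ℝ (Fin n))) (hK : IsSymStarBody K)
    (u : EuclideanSpace ℝ (Fin n)) (hu : ‖u‖ = 1) (r : ℝ) (hr : 0 ≤ r) :
    r • u ∈ K ↔ r ≤ radial K u := by
  obtain ⟨h1, h2, h3⟩ := bg_set K hK u hu
  constructor
  · intro h
    exact le_csSup h1 ⟨hr, h⟩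
  · intro h
    have h4 := h2.csSup_mem h3 h1
    have h5 : radial K u • u ∈ K := h4.2
    have hpos := hK.radial_pos u hu
    have h6 := hK.star _ h5 (r / radial K u) (div_nonneg hr hpos.le) ((div_le_one hpos).2 h)
    rwa [smul_smul, div_mul_cancel₀ _ hpos.ne'] at h6

theorem bg_hom {n : ℕ} (K : Set (EuclideanSpace ℝ (Fin n))) (hK : IsSymStarBody K)
    (t : ℝ) (x : EuclideanSpace ℝ (Fin n)) :
    ‖t • x‖ / radial K ((‖t • x‖⁻¹) • (t • x)) = |t| * (‖x‖ / radial K ((‖x‖⁻¹) • x)) := by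
  rcases eq_or_ne t 0 with ht | ht
  · rw [ht]
    simp
  · have e1 : ‖t • x‖ = |t| * ‖x‖ := by rw [norm_smul, Real.norm_eq_abs]
    have e2 : radial K ((‖t • x‖⁻¹) • (t • x)) = radial K ((‖x‖⁻¹) • x) := by
      rw [e1, smul_smul, mul_inv]
      rcases lt_or_gt_of_ne ht with h | h
      · have : (|t|)⁻¹ * ‖x‖⁻¹ * t = -‖x‖⁻¹ := by
          rw [abs_of_neg h]
          field_simp
        rw [this, neg_smul, bg_radial_neg K hK]
      · have : (|t|)⁻¹ * ‖x‖⁻¹ * t = ‖x‖⁻¹ := by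
          rw [abs_of_pos h]
          field_simp
        rw [this]
    rw [e2, e1, mul_div_assoc]

theorem bg_cont {n : ℕ} (hn : 0 < n) (K : Set (EuclideanSpace ℝ (Fin n))) (hK : IsSymStarBody K) :
    Continuous (fun x : EuclideanSpace ℝ (Fin n) => ‖x‖ / radial K ((‖x‖⁻¹) • x)) := by
  rw [continuous_iff_continuousAt]
  intro x
  rcases eq_or_ne x 0 with hx | hx
  · -- at zero
    have hcomp : IsCompact (Metric.sphere (0 : EuclideanSpace ℝ (Fin n)) 1) := isCompact_sphere _ _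
    have hne : (Metric.sphere (0 : EuclideanSpace ℝ (Fin n)) 1).Nonempty := by
      refine ⟨EuclideanSpace.single ⟨0, hn⟩ 1, ?_⟩
      simp
    obtain ⟨u, hu, hmin⟩ := hcomp.exists_isMinOn hne hK.radial_cont
    have hu1 : ‖u‖ = 1 := mem_sphere_zero_iff_norm.1 hu
    have hc := hK.radial_pos u hu1
    have hbound : ∀ y : EuclideanSpace ℝ (Fin n),
        ‖‖y‖ / radial K ((‖y‖⁻¹) • y)‖ ≤ ‖y‖ / radial K u := by
      intro y
      rcases eq_or_ne y 0 with hy | hy
      · rw [hy]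
        simp
      · have h1 := bg_unit y hy
        have h2 := hK.radial_pos _ h1
        rw [Real.norm_of_nonneg (div_nonneg (norm_nonneg _) h2.le)]
        apply div_le_div_of_nonneg_left (norm_nonneg _) hc
        exact hmin (mem_sphere_zero_iff_norm.2 h1)
    rw [hx]
    show Tendsto _ (𝓝 0) (𝓝 (‖(0 : EuclideanSpace ℝ (Fin n))‖ /
      radial K ((‖(0 : EuclideanSpace ℝ (Fin n))‖⁻¹) • (0 : EuclideanSpace ℝ (Fin n)))))
    rw [norm_zero, zero_div]
    apply squeeze_zero_norm hbound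
    have h3 : Continuous (fun y : EuclideanSpace ℝ (Fin n) => ‖y‖ / radial K u) := by fun_prop
    have h4 := h3.tendsto 0
    rwa [norm_zero, zero_div] at h4
  · -- away from zero
    have hopen : IsOpen {y : EuclideanSpace ℝ (Fin n) | y ≠ 0} := isOpen_ne
    have hon : ContinuousOn (fun x : EuclideanSpace ℝ (Fin n) => ‖x‖ / radial K ((‖x‖⁻¹) • x))
        {y | y ≠ 0} := by
      apply ContinuousOn.div
      · exact continuous_norm.continuousOn
      · have h1 : ContinuousOn (fun y : EuclideanSpace ℝ (Fin n) => (‖y‖⁻¹) • y) {y | y ≠ 0} := by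
          have h2 : ContinuousOn (fun y : EuclideanSpace ℝ (Fin n) => ‖y‖⁻¹) {y | y ≠ 0} :=
            ContinuousOn.inv₀ continuous_norm.continuousOn (fun y hy => norm_ne_zero_iff.2 hy)
          exact h2.fun_smul continuousOn_id
        exact hK.radial_cont.comp h1
          (fun y hy => mem_sphere_zero_iff_norm.2 (bg_unit y hy))
      · intro y hy
        exact (hK.radial_pos _ (bg_unit y hy)).ne'
    exact hon.continuousAt (hopen.mem_nhds hx)

/-- TARGET: prove this. -/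
theorem body_gauge {n : ℕ} (hn : 0 < n) (K : Set (EuclideanSpace ℝ (Fin n))) (hK : IsSymStarBody K) :
    ∃ p : (Fin n → ℝ) → ℝ, IsG p ∧
      ∀ x : Fin n → ℝ, (WithLp.toLp 2 x : EuclideanSpace ℝ (Fin n)) ∈ K ↔ p x ≤ 1 := by
  refine ⟨fun x => ‖(WithLp.toLp 2 x : EuclideanSpace ℝ (Fin n))‖ /
    radial K ((‖(WithLp.toLp 2 x : EuclideanSpace ℝ (Fin n))‖⁻¹) •
      (WithLp.toLp 2 x : EuclideanSpace ℝ (Fin n))), ⟨?_, ?_, ?_⟩, ?_⟩
  · exact (bg_cont hn K hK).comp (PiLp.continuous_toLp 2 _)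
  · intro t x
    exact bg_hom K hK t (WithLp.toLp 2 x)
  · intro x hx
    have hx' : (WithLp.toLp 2 x : EuclideanSpace ℝ (Fin n)) ≠ 0 := by
      intro h
      apply hx
      have := congrArg WithLp.ofLp h
      simpa using this
    exact div_pos (norm_pos_iff.2 hx') (hK.radial_pos _ (bg_unit _ hx'))
  · intro x
    show (WithLp.toLp 2 x : EuclideanSpace ℝ (Fin n)) ∈ K ↔
      ‖(WithLp.toLp 2 x : EuclideanSpace ℝ (Fin n))‖ /
        radial K ((‖(WithLp.toLp 2 x : EuclideanSpace ℝ (Fin n))‖⁻¹) •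
          (WithLp.toLp 2 x : EuclideanSpace ℝ (Fin n))) ≤ 1
    generalize (WithLp.toLp 2 x : EuclideanSpace ℝ (Fin n)) = y
    rcases eq_or_ne y 0 with hy | hy
    · rw [hy]
      simp only [norm_zero, zero_div, zero_le_one, iff_true]
      have hu1 : ‖(EuclideanSpace.single (⟨0, hn⟩ : Fin n) (1 : ℝ))‖ = 1 := by simp
      obtain ⟨t, ht0, ht⟩ := (bg_set K hK _ hu1).2.2
      have := hK.star _ ht 0 le_rfl zero_le_one
      rwa [zero_smul] at this
    · have h1 := bg_unit y hy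
      have h2 := hK.radial_pos _ h1
      rw [div_le_one h2, ← bg_mem K hK _ h1 _ (norm_nonneg _), smul_smul,
        mul_inv_cancel₀ (norm_ne_zero_iff.2 hy), one_smul]

end Pool.Agent.Helper142.Kib.Body_gauge
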