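import Mathlib
import Pool.Agent.Helper142.Kib.Defs

/-! Helper lemma sub_vol for MP_7548d4_gt. -/

set_option linter.all false

namespace Pool.Agent.Helper142.Kib.Sub_vol

open MeasureTheory Matrix Filter Topology Pool.Agent.Helper142.Kib
open scoped ENNReal

/-- TARGET: prove this. -/
theorem sub_vol {n : ℕ} {β : Type} [Fintype β] [DecidableEq β]
    (T : (β → ℝ) →ₗ[ℝ] EuclideanSpace ℝ (Fin n)) (hT : Function.Injective T)
    (H : Submodule ℝ (EuclideanSpace ℝ (Fin n))) (hH : LinearMap.range T = H)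
    (S : Set (EuclideanSpace ℝ (Fin n))) (hS : MeasurableSet S) :
    volume ((fun x : H => (x : EuclideanSpace ℝ (Fin n))) ⁻¹' S) =
      ENNReal.ofReal (Real.sqrt (Matrix.of fun i j : β =>
        inner ℝ (T (Pi.single i 1)) (T (Pi.single j 1))).det) * volume {u : β → ℝ | T u ∈ S} := by
  classical
  subst hH
  set H := LinearMap.range T with hHdef
  have hfr : Module.finrank ℝ H = Fintype.card β := by
    rw [hHdef, LinearMap.finrank_range_of_inj hT]
    simp
  let b0 := stdOrthonormalBasis ℝ H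
  let b : OrthonormalBasis β ℝ H :=
    b0.reindex ((finCongr hfr).trans (Fintype.equivFin β).symm)
  let T' : (β → ℝ) ≃ₗ[ℝ] H := LinearEquiv.ofInjective T hT
  have hT' : ∀ u, ((T' u : H) : EuclideanSpace ℝ (Fin n)) = T u := fun u => rfl
  let ψ : H ≃ₗ[ℝ] (β → ℝ) := b.repr.toLinearEquiv.trans (WithLp.linearEquiv 2 ℝ (β → ℝ))
  have hψ : ∀ x, ψ x = WithLp.ofLp (b.repr x) := fun x => rfl
  have mp : MeasurePreserving (fun x : H => ψ x) volume volume :=
    (PiLp.volume_preserving_ofLp β).comp b.measurePreserving_repr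
  let M : (β → ℝ) →ₗ[ℝ] (β → ℝ) := (T'.trans ψ).toLinearMap
  have hM : ∀ u, M u = ψ (T' u) := fun u => rfl
  have hdet : LinearMap.det M ≠ 0 := (LinearEquiv.isUnit_det' (T'.trans ψ)).ne_zero
  let Y : Set (β → ℝ) := {y | ((ψ.symm y : H) : EuclideanSpace ℝ (Fin n)) ∈ S}
  have hY : MeasurableSet Y := by
    have hc : Continuous fun y : β → ℝ => ((ψ.symm y : H) : EuclideanSpace ℝ (Fin n)) :=
      continuous_subtype_val.comp (LinearMap.continuous_of_finiteDimensional ψ.symm.toLinearMap)
    exact hc.measurable hS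
  have h1 : volume ((fun x : H => (x : EuclideanSpace ℝ (Fin n))) ⁻¹' S) = volume Y := by
    rw [← mp.measure_preimage hY.nullMeasurableSet]
    congr 1
    ext x
    simp only [Set.mem_preimage, Y, Set.mem_setOf_eq, LinearEquiv.symm_apply_apply]
  have h2 : {u : β → ℝ | T u ∈ S} = M ⁻¹' Y := by
    ext u
    simp only [Set.mem_preimage, Y, Set.mem_setOf_eq, hM, LinearEquiv.symm_apply_apply, hT']
  have h3 := Measure.addHaar_preimage_linearMap (volume : Measure (β → ℝ)) hdet Y
  have hgram : (Matrix.of fun i j : β =>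
        inner ℝ (T (Pi.single i 1)) (T (Pi.single j 1)) : Matrix β β ℝ) =
        (LinearMap.toMatrix' M)ᵀ * LinearMap.toMatrix' M := by
    ext i j
    rw [Matrix.mul_apply, Matrix.of_apply, ← hT', ← hT', ← Submodule.coe_inner,
      ← b.repr.inner_map_map, PiLp.inner_apply]
    refine Finset.sum_congr rfl fun k _ => ?_
    rw [Matrix.transpose_apply, LinearMap.toMatrix'_apply, LinearMap.toMatrix'_apply]
    simp only [hM, hψ]
    have e1 : (Pi.single i 1 : β → ℝ) = fun j' => if j' = i then (1:ℝ) else 0 := by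
      funext j'
      simp [Pi.single_apply]
    have e2 : (Pi.single j 1 : β → ℝ) = fun j' => if j' = j then (1:ℝ) else 0 := by
      funext j'
      simp [Pi.single_apply]
    simp [mul_comm]
  have hsq : Real.sqrt (Matrix.of fun i j : β =>
        inner ℝ (T (Pi.single i 1)) (T (Pi.single j 1))).det = |LinearMap.det M| := by
    rw [hgram, Matrix.det_mul, Matrix.det_transpose, LinearMap.det_toMatrix', ← pow_two,
      Real.sqrt_sq_eq_abs]
  rw [hsq, h1, h2, h3, ← mul_assoc, ← ENNReal.ofReal_mul (abs_nonneg _), ← abs_mul,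
    mul_inv_cancel₀ hdet, abs_one, ENNReal.ofReal_one, one_mul]

end Pool.Agent.Helper142.Kib.Sub_vol
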