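import Mathlib
import Pool.Agent.Helper142.Kib.Defs
import Pool.Agent.Helper142.Kib.Sub_vol

/-! Helper lemma body_sec for MP_7548d4_gt. -/

set_option linter.all false

namespace Pool.Agent.Helper142.Kib.Body_sec

open MeasureTheory Matrix Filter Topology Pool.Agent.Helper142.Kib
open scoped ENNReal
open Pool.Agent.Helper142.Kib.Sub_vol

/-- linear map given by two blocks -/
noncomputable def TZ {n : ℕ} {ι κ β : Type} [Fintype β] (e : Fin n ≃ ι ⊕ κ)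
    (M1 : Matrix ι β ℝ) (M2 : Matrix κ β ℝ) : (β → ℝ) →ₗ[ℝ] EuclideanSpace ℝ (Fin n) where
  toFun u := WithLp.toLp 2 (fun i => Sum.elim (M1 *ᵥ u) (M2 *ᵥ u) (e i))
  map_add' u v := by
    ext i
    show Sum.elim (M1 *ᵥ (u + v)) (M2 *ᵥ (u + v)) (e i) =
      Sum.elim (M1 *ᵥ u) (M2 *ᵥ u) (e i) + Sum.elim (M1 *ᵥ v) (M2 *ᵥ v) (e i)
    rcases e i with a | b
    · simp [Matrix.mulVec_add]
    · simp [Matrix.mulVec_add]
  map_smul' c u := by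
    ext i
    show Sum.elim (M1 *ᵥ (c • u)) (M2 *ᵥ (c • u)) (e i) =
      c * Sum.elim (M1 *ᵥ u) (M2 *ᵥ u) (e i)
    rcases e i with a | b
    · simp [Matrix.mulVec_smul]
    · simp [Matrix.mulVec_smul]

theorem TZ_apply {n : ℕ} {ι κ β : Type} [Fintype β] (e : Fin n ≃ ι ⊕ κ)
    (M1 : Matrix ι β ℝ) (M2 : Matrix κ β ℝ) (u : β → ℝ) :
    TZ e M1 M2 u = WithLp.toLp 2 (fun i => Sum.elim (M1 *ᵥ u) (M2 *ᵥ u) (e i)) := rfl

theorem TZ_inner {n : ℕ} {ι κ β γ : Type} [Fintype ι] [Fintype κ] [Fintype β] [Fintype γ]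
    (e : Fin n ≃ ι ⊕ κ) (M1 : Matrix ι β ℝ) (M2 : Matrix κ β ℝ)
    (N1 : Matrix ι γ ℝ) (N2 : Matrix κ γ ℝ) (u : β → ℝ) (v : γ → ℝ) :
    inner ℝ (TZ e M1 M2 u) (TZ e N1 N2 v) =
      (M1 *ᵥ u) ⬝ᵥ (N1 *ᵥ v) + (M2 *ᵥ u) ⬝ᵥ (N2 *ᵥ v) := by
  rw [PiLp.inner_apply]
  show ∑ i, inner ℝ (Sum.elim (M1 *ᵥ u) (M2 *ᵥ u) (e i)) (Sum.elim (N1 *ᵥ v) (N2 *ᵥ v) (e i)) = _
  rw [Equiv.sum_comp e (fun s => inner ℝ (Sum.elim (M1 *ᵥ u) (M2 *ᵥ u) s)
    (Sum.elim (N1 *ᵥ v) (N2 *ᵥ v) s)), Fintype.sum_sum_type]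
  simp [dotProduct, mul_comm]

theorem TZ_gram {n : ℕ} {ι κ β : Type} [Fintype ι] [Fintype κ] [Fintype β] [DecidableEq β]
    (e : Fin n ≃ ι ⊕ κ) (M1 : Matrix ι β ℝ) (M2 : Matrix κ β ℝ) :
    (Matrix.of fun i j : β => inner ℝ (TZ e M1 M2 (Pi.single i 1))
      (TZ e M1 M2 (Pi.single j 1))) = M1ᵀ * M1 + M2ᵀ * M2 := by
  ext i j
  rw [Matrix.of_apply, TZ_inner, Matrix.mulVec_single_one, Matrix.mulVec_single_one,
    Matrix.mulVec_single_one, Matrix.mulVec_single_one, Matrix.add_apply, Matrix.mul_apply,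
    Matrix.mul_apply]
  rfl

theorem TZ_inj1 {n : ℕ} {ι κ : Type} [Fintype ι] [DecidableEq ι] [Fintype κ]
    (e : Fin n ≃ ι ⊕ κ) (Z : Matrix κ ι ℝ) :
    Function.Injective (TZ e (1 : Matrix ι ι ℝ) Z) := by
  intro u v h
  ext i
  have h1 := congrArg (fun w : EuclideanSpace ℝ (Fin n) => w (e.symm (Sum.inl i))) h
  have h2 : Sum.elim ((1 : Matrix ι ι ℝ) *ᵥ u) (Z *ᵥ u) (e (e.symm (Sum.inl i))) =
      Sum.elim ((1 : Matrix ι ι ℝ) *ᵥ v) (Z *ᵥ v) (e (e.symm (Sum.inl i))) := h1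
  rw [Equiv.apply_symm_apply] at h2
  simpa using h2

theorem TZ_inj2 {n : ℕ} {ι κ : Type} [Fintype ι] [Fintype κ] [DecidableEq κ]
    (e : Fin n ≃ ι ⊕ κ) (Z : Matrix ι κ ℝ) :
    Function.Injective (TZ e Z (1 : Matrix κ κ ℝ)) := by
  intro u v h
  ext i
  have h1 := congrArg (fun w : EuclideanSpace ℝ (Fin n) => w (e.symm (Sum.inr i))) h
  have h2 : Sum.elim (Z *ᵥ u) ((1 : Matrix κ κ ℝ) *ᵥ u) (e (e.symm (Sum.inr i))) =
      Sum.elim (Z *ᵥ v) ((1 : Matrix κ κ ℝ) *ᵥ v) (e (e.symm (Sum.inr i))) := h1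
  rw [Equiv.apply_symm_apply] at h2
  simpa using h2

/-- TARGET: prove this. -/
theorem body_sec {n : ℕ} {ι κ : Type} [Fintype ι] [DecidableEq ι] [Fintype κ] [DecidableEq κ]
    (e : Fin n ≃ ι ⊕ κ) (K L : Set (EuclideanSpace ℝ (Fin n))) (hK : IsCompact K)
    (hL : IsCompact L) (h : HasIntersectionBody (Fintype.card ι) K L)
    (p r : (Fin n → ℝ) → ℝ)
    (hp : ∀ x : Fin n → ℝ, (WithLp.toLp 2 x : EuclideanSpace ℝ (Fin n)) ∈ K ↔ p x ≤ 1)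
    (hr : ∀ x : Fin n → ℝ, (WithLp.toLp 2 x : EuclideanSpace ℝ (Fin n)) ∈ L ↔ r x ≤ 1) :
    Sec (fun x : ι ⊕ κ → ℝ => p (fun i => x (e i))) (fun x : ι ⊕ κ → ℝ => r (fun i => x (e i))) := by
  intro Z
  classical
  have hcard : n = Fintype.card ι + Fintype.card κ := by
    have := Fintype.card_congr e
    simpa using this
  have i1 := TZ_inj1 e Z
  have i2 := TZ_inj2 e (-Zᵀ)
  have f1 : Module.finrank ℝ (LinearMap.range (TZ e (1 : Matrix ι ι ℝ) Z)) =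
      Fintype.card ι := by
    rw [LinearMap.finrank_range_of_inj i1]; simp
  have f2 : Module.finrank ℝ (LinearMap.range (TZ e (-Zᵀ) (1 : Matrix κ κ ℝ))) =
      Fintype.card κ := by
    rw [LinearMap.finrank_range_of_inj i2]; simp
  have horth : LinearMap.range (TZ e (-Zᵀ) (1 : Matrix κ κ ℝ)) =
      (LinearMap.range (TZ e (1 : Matrix ι ι ℝ) Z))ᗮ := by
    apply Submodule.eq_of_le_of_finrank_eq
    · rintro _ ⟨v, rfl⟩
      rw [Submodule.mem_orthogonal]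
      rintro _ ⟨u, rfl⟩
      rw [TZ_inner, Matrix.one_mulVec, Matrix.one_mulVec, Matrix.neg_mulVec, dotProduct_neg,
        Matrix.mulVec_transpose, dotProduct_comm u, ← Matrix.dotProduct_mulVec,
        dotProduct_comm v]
      ring
    · have h2 := Submodule.finrank_add_finrank_orthogonal
        (LinearMap.range (TZ e (1 : Matrix ι ι ℝ) Z))
      rw [f1, finrank_euclideanSpace_fin] at h2
      rw [f2]
      omega
  have h1 := h (LinearMap.range (TZ e (1 : Matrix ι ι ℝ) Z)) f1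
  rw [sub_vol (TZ e (-Zᵀ) (1 : Matrix κ κ ℝ)) i2 _ horth K hK.measurableSet,
    sub_vol (TZ e (1 : Matrix ι ι ℝ) Z) i1 _ rfl L hL.measurableSet, TZ_gram, TZ_gram] at h1
  have hd : ((-Zᵀ)ᵀ * (-Zᵀ) + (1 : Matrix κ κ ℝ)ᵀ * (1 : Matrix κ κ ℝ)).det =
      ((1 : Matrix ι ι ℝ)ᵀ * (1 : Matrix ι ι ℝ) + Zᵀ * Z).det := by
    rw [Matrix.transpose_one, Matrix.transpose_one, Matrix.one_mul, Matrix.one_mul,
      Matrix.transpose_neg, Matrix.transpose_transpose, Matrix.neg_mul, Matrix.mul_neg, neg_neg, add_comm,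
      Matrix.det_one_add_mul_comm]
  have hpos : 0 < ((1 : Matrix ι ι ℝ)ᵀ * (1 : Matrix ι ι ℝ) + Zᵀ * Z).det := by
    apply Matrix.PosDef.det_pos
    rw [Matrix.transpose_one, Matrix.one_mul]
    apply Matrix.PosDef.add_posSemidef Matrix.PosDef.one
    have := Matrix.posSemidef_conjTranspose_mul_self Z
    rwa [Matrix.conjTranspose_eq_transpose_of_trivial] at this
  rw [hd] at h1
  have hne : ENNReal.ofReal (Real.sqrt
      ((1 : Matrix ι ι ℝ)ᵀ * (1 : Matrix ι ι ℝ) + Zᵀ * Z).det) ≠ 0 := by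
    rw [Ne, ENNReal.ofReal_eq_zero, not_le]
    exact Real.sqrt_pos.2 hpos
  have h3 := (ENNReal.mul_right_inj hne ENNReal.ofReal_ne_top).1 h1
  have e1 : {u : κ → ℝ | TZ e (-Zᵀ) (1 : Matrix κ κ ℝ) u ∈ K} =
      {v : κ → ℝ | p (fun i => Sum.elim (-(Zᵀ *ᵥ v)) v (e i)) ≤ 1} := by
    ext v
    rw [Set.mem_setOf_eq, Set.mem_setOf_eq, TZ_apply, hp, Matrix.one_mulVec, Matrix.neg_mulVec]
  have e2 : {u : ι → ℝ | TZ e (1 : Matrix ι ι ℝ) Z u ∈ L} =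
      {u : ι → ℝ | r (fun i => Sum.elim u (Z *ᵥ u) (e i)) ≤ 1} := by
    ext v
    rw [Set.mem_setOf_eq, Set.mem_setOf_eq, TZ_apply, hr, Matrix.one_mulVec]
  rw [e1, e2] at h3
  exact h3.symm

end Pool.Agent.Helper142.Kib.Body_sec
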