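import Mathlib
import Pool.Agent.Helper142.Kib.Defs

/-! Helper lemma body_vol for MP_7548d4_gt. -/

set_option linter.all false

namespace Pool.Agent.Helper142.Kib.Body_vol

open MeasureTheory Matrix Filter Topology Pool.Agent.Helper142.Kib
open scoped ENNReal

/-- TARGET: prove this. -/
theorem body_vol {n : ℕ} {α : Type} [Fintype α] (e : Fin n ≃ α)
    (K : Set (EuclideanSpace ℝ (Fin n))) (p : (Fin n → ℝ) → ℝ) (hp : IsG p)
    (hpK : ∀ x : Fin n → ℝ, (WithLp.toLp 2 x : EuclideanSpace ℝ (Fin n)) ∈ K ↔ p x ≤ 1) :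
    IsG (fun x : α → ℝ => p (fun i => x (e i))) ∧
    vg (fun x : α → ℝ => p (fun i => x (e i))) = volume K := by
  refine ⟨⟨?_, ?_, ?_⟩, ?_⟩
  · exact hp.cont.comp (continuous_pi fun i => continuous_apply (e i))
  · intro t x
    exact hp.hom t (fun i => x (e i))
  · intro x hx
    refine hp.pos _ fun h => hx ?_
    funext a
    have := congrFun h (e.symm a)
    simpa using this
  · unfold vg
    have h1 := (volume_measurePreserving_piCongrLeft (fun _ : α => ℝ) e).measure_preimage_equiv
      {x : α → ℝ | p (fun i => x (e i)) ≤ 1}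
    rw [← h1]
    have h2 := (PiLp.volume_preserving_toLp (Fin n)).measure_preimage_emb
      (MeasurableEquiv.toLp 2 (Fin n → ℝ)).measurableEmbedding K
    rw [← h2]
    congr 1
    ext y
    simp only [Set.mem_preimage, Set.mem_setOf_eq]
    rw [hpK]
    have : (fun i => (MeasurableEquiv.piCongrLeft (fun _ : α => ℝ) e) y (e i)) = y := by
      funext i
      exact Equiv.piCongrLeft_apply_apply (fun _ : α => ℝ) e y i
    rw [this]

end Pool.Agent.Helper142.Kib.Body_vol
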