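import Mathlib
import Pool.Agent.Helper142.Kib.Defs

/-! Helper lemma ch_Cs for MP_7548d4_gt. -/

set_option linter.all false

namespace Pool.Agent.Helper142.Kib.Ch_Cs

open MeasureTheory Matrix Filter Topology Pool.Agent.Helper142.Kib
open scoped ENNReal

theorem gint899 (ι : Type) [Fintype ι] :
    Integrable (fun P : ι → ι → ℝ => Real.exp (-∑ i, ∑ j, P i j ^ 2)) := by
  have h1 : Integrable (fun x : ℝ => Real.exp (-1 * x ^ 2)) := integrable_exp_neg_mul_sq one_pos
  have h2 : Integrable (fun y : ι → ℝ => ∏ j, Real.exp (-1 * y j ^ 2)) :=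
    Integrable.fintype_prod (f := fun _ : ι => fun x : ℝ => Real.exp (-1 * x ^ 2)) fun _ => h1
  have h3 : Integrable (fun P : ι → ι → ℝ => ∏ i, ∏ j, Real.exp (-1 * P i j ^ 2)) :=
    Integrable.fintype_prod (f := fun _ : ι => fun y : ι → ℝ => ∏ j, Real.exp (-1 * y j ^ 2))
      fun _ => h2
  refine h3.congr (Filter.Eventually.of_forall fun P => ?_)
  simp only [← Real.exp_sum, ← Finset.mul_sum, neg_one_mul, Finset.sum_neg_distrib]

/-- TARGET: prove this. -/
theorem ch_Cs (ι : Type) [Fintype ι] [DecidableEq ι] (e : ℕ) : 0 < Cs ι e ∧ Cs ι e < ⊤ := by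
  have hdet : Continuous fun P : ι → ι → ℝ => (Matrix.of P).det :=
    Continuous.matrix_det (A := fun P : ι → ι → ℝ => Matrix.of P) continuous_id
  have hcont : Continuous fun P : ι → ι → ℝ => |(Matrix.of P).det| ^ e *
      Real.exp (-Real.pi * ∑ i, ∑ j, P i j ^ 2) := by
    refine (hdet.abs.pow e).mul (Real.continuous_exp.comp ?_)
    fun_prop
  constructor
  · unfold Cs
    rw [lintegral_pos_iff_support (f := fun P : ι → ι → ℝ => ENNReal.ofReal
      (|(Matrix.of P).det| ^ e * Real.exp (-Real.pi * ∑ i, ∑ j, P i j ^ 2)))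
      (ENNReal.measurable_ofReal.comp hcont.measurable)]
    have hopen : IsOpen {P : ι → ι → ℝ | (Matrix.of P).det ≠ 0} :=
      isOpen_ne_fun hdet continuous_const
    have hne : {P : ι → ι → ℝ | (Matrix.of P).det ≠ 0}.Nonempty := by
      refine ⟨fun i j => (1 : Matrix ι ι ℝ) i j, ?_⟩
      have : Matrix.of (fun i j => (1 : Matrix ι ι ℝ) i j) = 1 := rfl
      simp only [Set.mem_setOf_eq]
      rw [this, Matrix.det_one]
      exact one_ne_zero
    refine (hopen.measure_pos volume hne).trans_le (measure_mono ?_)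
    intro P hP
    have hP' : (Matrix.of P).det ≠ 0 := hP
    rw [Function.mem_support]
    have : 0 < |(Matrix.of P).det| ^ e * Real.exp (-Real.pi * ∑ i, ∑ j, P i j ^ 2) :=
      mul_pos (pow_pos (abs_pos.2 hP') _) (Real.exp_pos _)
    exact (ENNReal.ofReal_pos.2 this).ne'
  · set c : ℕ := Fintype.card ι with hc
    set C : ℝ := (c.factorial : ℝ) ^ e * ((c * e).factorial * Real.exp 1) with hC
    have hbound : ∀ P : ι → ι → ℝ, |(Matrix.of P).det| ^ e *
        Real.exp (-Real.pi * ∑ i, ∑ j, P i j ^ 2) ≤ C * Real.exp (-∑ i, ∑ j, P i j ^ 2) := by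
      intro P
      set s : ℝ := ∑ i, ∑ j, P i j ^ 2 with hs
      have hs0 : 0 ≤ s := Finset.sum_nonneg fun i _ => Finset.sum_nonneg fun j _ => sq_nonneg _
      have hentry : ∀ i j, |(Matrix.of P) i j| ≤ 1 + s := by
        intro i j
        have h1 : P i j ^ 2 ≤ s := by
          calc P i j ^ 2 ≤ ∑ j, P i j ^ 2 :=
                Finset.single_le_sum (f := fun j => P i j ^ 2) (fun _ _ => sq_nonneg _)
                  (Finset.mem_univ j)
            _ ≤ s := Finset.single_le_sum (f := fun i => ∑ j, P i j ^ 2)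
                  (fun _ _ => Finset.sum_nonneg fun _ _ => sq_nonneg _) (Finset.mem_univ i)
        rw [Matrix.of_apply]
        have h2 : |P i j| ≤ 1 + P i j ^ 2 := by
          rw [← sq_abs]
          nlinarith [sq_nonneg (|P i j| - 1), abs_nonneg (P i j)]
        linarith
      have hd : |(Matrix.of P).det| ≤ (c.factorial : ℝ) * (1 + s) ^ c := by
        have := Matrix.det_le (A := Matrix.of P) (abv := AbsoluteValue.abs) (x := 1 + s) hentry
        simpa [nsmul_eq_mul] using this
      have hd' : |(Matrix.of P).det| ^ e ≤ (c.factorial : ℝ) ^ e * (1 + s) ^ (c * e) := by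
        calc |(Matrix.of P).det| ^ e ≤ ((c.factorial : ℝ) * (1 + s) ^ c) ^ e :=
              pow_le_pow_left₀ (abs_nonneg _) hd e
          _ = _ := by rw [mul_pow, pow_mul]
      have hpow : (1 + s) ^ (c * e) ≤ (c * e).factorial * (Real.exp 1 * Real.exp s) := by
        have h1 := Real.pow_div_factorial_le_exp (1 + s) (by linarith) (c * e)
        rw [div_le_iff₀ (by positivity), Real.exp_add] at h1
        linarith
      have hexp : Real.exp s * Real.exp (-Real.pi * s) ≤ Real.exp (-s) := by
        rw [← Real.exp_add]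
        apply Real.exp_le_exp.2
        have := Real.pi_gt_three
        nlinarith
      calc |(Matrix.of P).det| ^ e * Real.exp (-Real.pi * s)
          ≤ ((c.factorial : ℝ) ^ e * ((c * e).factorial * (Real.exp 1 * Real.exp s))) *
            Real.exp (-Real.pi * s) := by
            refine mul_le_mul_of_nonneg_right (hd'.trans ?_) (Real.exp_pos _).le
            exact mul_le_mul_of_nonneg_left hpow (by positivity)
        _ = C * (Real.exp s * Real.exp (-Real.pi * s)) := by rw [hC]; ring
        _ ≤ C * Real.exp (-s) := mul_le_mul_of_nonneg_left hexp (by positivity)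
    unfold Cs
    refine (lintegral_mono fun P => ENNReal.ofReal_le_ofReal (hbound P)).trans_lt ?_
    exact ((gint899 ι).const_mul C).lintegral_lt_top

end Pool.Agent.Helper142.Kib.Ch_Cs
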