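import Mathlib
import Pool.Agent.Helper142.Kib.Defs

/-! Helper lemma ch_det for MP_7548d4_gt. -/

set_option linter.all false

namespace Pool.Agent.Helper142.Kib.Ch_det

open MeasureTheory Matrix Filter Topology Pool.Agent.Helper142.Kib
open scoped ENNReal

open scoped MatrixOrder in
theorem exists_S406 {ι : Type} [Fintype ι] [DecidableEq ι] (M : Matrix ι ι ℝ)
    (hM : M.PosSemidef) : ∃ S : Matrix ι ι ℝ, M = Sᵀ * S := by
  obtain ⟨B, hB⟩ := CStarAlgebra.nonneg_iff_eq_star_mul_self.mp hM.nonneg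
  exact ⟨B, by rw [hB, Matrix.star_eq_conjTranspose, Matrix.conjTranspose_eq_transpose_of_trivial]⟩

/-- left multiplication by `S` -/
noncomputable def T406 {ι : Type} [Fintype ι] (S : Matrix ι ι ℝ) :
    (ι → ι → ℝ) →ₗ[ℝ] (ι → ι → ℝ) where
  toFun P := fun i j => ∑ k, S i k * P k j
  map_add' P R := by
    funext i j
    simp only [Pi.add_apply, mul_add, Finset.sum_add_distrib]
  map_smul' c P := by
    funext i j
    simp only [Pi.smul_apply, smul_eq_mul, RingHom.id_apply, Finset.mul_sum]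
    exact Finset.sum_congr rfl fun k _ => by ring

def sw406 (ι : Type) : (ι → ι → ℝ) →ₗ[ℝ] (ι → ι → ℝ) where
  toFun P := fun i j => P j i
  map_add' P R := rfl
  map_smul' c P := rfl

theorem det_T406 {ι : Type} [Fintype ι] [DecidableEq ι] (S : Matrix ι ι ℝ) :
    LinearMap.det (T406 S) = S.det ^ Fintype.card ι := by
  have h1 : T406 S = (sw406 ι).comp ((LinearMap.pi fun i : ι =>
      (Matrix.toLin' S).comp (LinearMap.proj i)).comp (sw406 ι)) := by
    apply LinearMap.ext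
    intro P
    funext i j
    simp [T406, sw406, Matrix.mulVec, dotProduct]
  have h2 : LinearMap.det (sw406 ι) * LinearMap.det (sw406 ι) = 1 := by
    rw [← LinearMap.det_comp]
    have : (sw406 ι).comp (sw406 ι) = LinearMap.id := by
      apply LinearMap.ext
      intro P
      rfl
    rw [this, LinearMap.det_id]
  rw [h1, LinearMap.det_comp, LinearMap.det_comp, LinearMap.det_pi]
  rw [mul_comm, mul_assoc, h2, mul_one, Finset.prod_const, Finset.card_univ, LinearMap.det_toLin']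

theorem Qm406 {ι : Type} [Fintype ι] [DecidableEq ι] (S : Matrix ι ι ℝ) (P : ι → ι → ℝ) :
    ∑ i, ∑ j, (T406 S P) i j ^ 2 = Qm (Sᵀ * S) P := by
  unfold Qm Q
  rw [Finset.sum_comm]
  refine Finset.sum_congr rfl fun j _ => ?_
  rw [← Matrix.mulVec_mulVec, Matrix.dotProduct_mulVec, Matrix.vecMul_transpose]
  simp only [dotProduct, Matrix.mulVec, T406]
  refine Finset.sum_congr rfl fun i _ => ?_
  rw [sq]
  rfl

/-- TARGET: prove this. -/
theorem ch_det {ι : Type} [Fintype ι] [DecidableEq ι] (M : Matrix ι ι ℝ) (hM : M.PosDef) (e : ℕ) :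
    ∫⁻ P : ι → ι → ℝ, ENNReal.ofReal (|(Matrix.of P).det| ^ e *
      Real.exp (-Real.pi * Qm M P)) =
      Cs ι e * ENNReal.ofReal (M.det ^ (-(((e : ℝ) + Fintype.card ι) / 2))) := by
  obtain ⟨S, hS⟩ := exists_S406 M hM.posSemidef
  have hdM : M.det = S.det ^ 2 := by
    rw [hS, Matrix.det_mul, Matrix.det_transpose, sq]
  have hdpos : 0 < M.det := hM.det_pos
  have hS0 : S.det ≠ 0 := by
    intro h
    rw [hdM, h] at hdpos
    norm_num at hdpos
  obtain ⟨s, hs⟩ : ∃ s : ℝ, s = |S.det| := ⟨_, rfl⟩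
  have hs0 : 0 < s := by rw [hs]; exact abs_pos.2 hS0
  have hdM2 : M.det = s ^ 2 := by rw [hdM, hs, sq_abs]
  have hdT : LinearMap.det (T406 S) ≠ 0 := by
    rw [det_T406]; exact pow_ne_zero _ hS0
  have hmap := MeasureTheory.Measure.map_linearMap_addHaar_eq_smul_addHaar
    (volume : Measure (ι → ι → ℝ)) hdT
  have hTc : Continuous (T406 S) := LinearMap.continuous_of_finiteDimensional _
  have hdetc : Continuous (fun P : ι → ι → ℝ => (Matrix.of P).det) :=
    Continuous.matrix_det (A := fun P : ι → ι → ℝ => Matrix.of P) continuous_id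
  have hGm : Measurable (fun P : ι → ι → ℝ => ENNReal.ofReal (|(Matrix.of P).det| ^ e *
      Real.exp (-Real.pi * ∑ i, ∑ j, P i j ^ 2))) := by
    apply Measurable.ennreal_ofReal
    apply Continuous.measurable
    exact (hdetc.abs.pow e).mul (by fun_prop)
  have h1 : ∫⁻ P : ι → ι → ℝ, ENNReal.ofReal (|(Matrix.of (T406 S P)).det| ^ e *
      Real.exp (-Real.pi * ∑ i, ∑ j, (T406 S P) i j ^ 2)) =
      ENNReal.ofReal |(LinearMap.det (T406 S))⁻¹| * Cs ι e := by
    rw [← lintegral_map hGm hTc.measurable, hmap, lintegral_smul_measure, smul_eq_mul]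
    rfl
  have hmul : ∀ P : ι → ι → ℝ, (Matrix.of (T406 S P)).det = S.det * (Matrix.of P).det := by
    intro P
    rw [← Matrix.det_mul]
    rfl
  have h2 : ∀ P : ι → ι → ℝ, ENNReal.ofReal (|(Matrix.of (T406 S P)).det| ^ e *
      Real.exp (-Real.pi * ∑ i, ∑ j, (T406 S P) i j ^ 2)) =
      ENNReal.ofReal (s ^ e) * ENNReal.ofReal (|(Matrix.of P).det| ^ e *
      Real.exp (-Real.pi * Qm M P)) := by
    intro P
    rw [hmul, Qm406, ← hS, abs_mul, ← hs, mul_pow, mul_assoc, ENNReal.ofReal_mul (by positivity)]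
  have h3 : ENNReal.ofReal (s ^ e) * ∫⁻ P : ι → ι → ℝ, ENNReal.ofReal (|(Matrix.of P).det| ^ e *
      Real.exp (-Real.pi * Qm M P)) = ENNReal.ofReal |(LinearMap.det (T406 S))⁻¹| * Cs ι e := by
    rw [← h1, ← lintegral_const_mul' _ _ ENNReal.ofReal_ne_top]
    exact lintegral_congr fun P => (h2 P).symm
  have h4 : |(LinearMap.det (T406 S))⁻¹| = (s ^ Fintype.card ι)⁻¹ := by
    rw [det_T406, abs_inv, abs_pow, ← hs]
  rw [h4] at h3
  have hA : ENNReal.ofReal (s ^ e) ≠ 0 := by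
    rw [ne_eq, ENNReal.ofReal_eq_zero, not_le]; positivity
  have h5 : ∫⁻ P : ι → ι → ℝ, ENNReal.ofReal (|(Matrix.of P).det| ^ e *
      Real.exp (-Real.pi * Qm M P)) = (ENNReal.ofReal (s ^ e))⁻¹ *
      (ENNReal.ofReal ((s ^ Fintype.card ι)⁻¹) * Cs ι e) := by
    rw [← h3, ← mul_assoc, ENNReal.inv_mul_cancel hA ENNReal.ofReal_ne_top, one_mul]
  have h6 : M.det ^ (-(((e : ℝ) + Fintype.card ι) / 2)) = (s ^ e)⁻¹ * (s ^ Fintype.card ι)⁻¹ := by
    rw [hdM2, ← Real.rpow_natCast s 2, ← Real.rpow_mul hs0.le, ← mul_inv, ← pow_add,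
      ← Real.rpow_natCast s (e + Fintype.card ι), ← Real.rpow_neg hs0.le]
    congr 1
    push_cast
    ring
  rw [h5, h6, ← ENNReal.ofReal_inv_of_pos (by positivity), ENNReal.ofReal_mul (by positivity)]
  ring

end Pool.Agent.Helper142.Kib.Ch_det
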