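import Mathlib
import Pool.Agent.Helper142.Kib.Defs

/-! Helper lemma ch_lin for MP_7548d4_gt. -/

set_option linter.all false

namespace Pool.Agent.Helper142.Kib.Ch_lin

open MeasureTheory Matrix Filter Topology Pool.Agent.Helper142.Kib
open scoped ENNReal

/-- TARGET: prove this. -/
theorem ch_lin {ι κ : Type} [Fintype ι] [DecidableEq ι] [Fintype κ] [DecidableEq κ]
    (P : Matrix ι ι ℝ) (hP : P.det ≠ 0) (G : (κ → ι → ℝ) → ℝ≥0∞) (hG : Measurable G) :
    ∫⁻ W : κ → ι → ℝ, G W =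
      ENNReal.ofReal (|P.det| ^ Fintype.card κ) *
        ∫⁻ Z : κ → ι → ℝ, G (fun i j => ((Matrix.of Z : Matrix κ ι ℝ) * P) i j) := by
  classical
  let f : (κ → ι → ℝ) →ₗ[ℝ] (κ → ι → ℝ) :=
    LinearMap.pi fun i => (Matrix.toLin' Pᵀ) ∘ₗ LinearMap.proj i
  have hdet : LinearMap.det f = P.det ^ Fintype.card κ := by
    change LinearMap.det (LinearMap.pi fun i => (Matrix.toLin' Pᵀ) ∘ₗ LinearMap.proj i) = _
    rw [LinearMap.det_pi]
    simp [LinearMap.det_toLin', Matrix.det_transpose]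
  have hne : LinearMap.det f ≠ 0 := by rw [hdet]; exact pow_ne_zero _ hP
  have hf : ∀ Z : κ → ι → ℝ, f Z = fun i j => ((Matrix.of Z : Matrix κ ι ℝ) * P) i j := by
    intro Z
    funext i j
    change (Matrix.toLin' Pᵀ (Z i)) j = _
    rw [Matrix.toLin'_apply, Matrix.mulVec_transpose]
    rfl
  have hmap := Measure.map_linearMap_addHaar_eq_smul_addHaar
    (volume : Measure (κ → ι → ℝ)) hne
  have hfm : Measurable f := (LinearMap.continuous_of_finiteDimensional f).measurable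
  have h1 : ∫⁻ Z : κ → ι → ℝ, G (fun i j => ((Matrix.of Z : Matrix κ ι ℝ) * P) i j)
      = ∫⁻ Z : κ → ι → ℝ, G (f Z) := by
    refine lintegral_congr fun Z => ?_
    rw [hf]
  rw [h1, ← lintegral_map hG hfm, hmap, lintegral_smul_measure, smul_eq_mul, ← mul_assoc,
    ← ENNReal.ofReal_mul (by positivity), hdet, abs_inv, abs_pow,
    mul_inv_cancel₀ (pow_ne_zero _ (abs_ne_zero.mpr hP)), ENNReal.ofReal_one, one_mul]

end Pool.Agent.Helper142.Kib.Ch_lin
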