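import Mathlib
import Pool.Agent.Helper142.Kib.Defs

/-! Helper lemma ch_null for MP_7548d4_gt. -/

set_option linter.all false

namespace Pool.Agent.Helper142.Kib.Ch_null

open MeasureTheory Matrix Filter Topology Pool.Agent.Helper142.Kib
open scoped ENNReal

/-- TARGET: prove this. -/
theorem ch_null {ι : Type} [Fintype ι] [DecidableEq ι] :
    ∀ᵐ P : ι → ι → ℝ, (Matrix.of P).det ≠ 0 := by
  set E : ι → ι → ℝ := fun i j => if i = j then 1 else 0 with hE
  have hdetc : Continuous fun P : ι → ι → ℝ => (Matrix.of P).det := by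
    have h1 : Continuous fun P : ι → ι → ℝ => (Matrix.of P : Matrix ι ι ℝ) := continuous_id
    exact h1.matrix_det
  have hs : MeasurableSet {P : ι → ι → ℝ | (Matrix.of P).det ≠ 0} :=
    (isOpen_ne_fun hdetc continuous_const).measurableSet
  refine ae_mem_of_ae_add_linearMap_mem (𝕜 := ℝ) (LinearMap.toSpanSingleton ℝ (ι → ι → ℝ) E)
    (volume : Measure ℝ) (volume : Measure (ι → ι → ℝ)) hs ?_
  intro P
  have hfin : {t : ℝ | ¬ (P + LinearMap.toSpanSingleton ℝ (ι → ι → ℝ) E t ∈
      {P : ι → ι → ℝ | (Matrix.of P).det ≠ 0})}.Finite := by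
    refine Set.Finite.subset (((-(Matrix.of P) : Matrix ι ι ℝ).charpoly.roots.toFinset).finite_toSet) ?_
    intro t ht
    have ht' : ¬ ((Matrix.of (P + t • E)).det ≠ 0) := ht
    rw [not_not] at ht'
    rw [Finset.mem_coe, Multiset.mem_toFinset, Polynomial.mem_roots (Matrix.charpoly_monic _).ne_zero,
      Polynomial.IsRoot.def, Matrix.eval_charpoly, ← ht']
    congr 1
    ext i j
    simp only [Matrix.sub_apply, Matrix.neg_apply, Matrix.of_apply, Matrix.scalar_apply,
      Matrix.diagonal_apply, Pi.add_apply, Pi.smul_apply, smul_eq_mul, hE]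
    split_ifs <;> ring
  exact MeasureTheory.ae_iff.2 (hfin.measure_zero _)

end Pool.Agent.Helper142.Kib.Ch_null
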