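import Mathlib
import Pool.Agent.Helper142.Kib.Defs

/-! Helper lemma ch_pd for MP_7548d4_gt. -/

set_option linter.all false

namespace Pool.Agent.Helper142.Kib.Ch_pd

open MeasureTheory Matrix Filter Topology Pool.Agent.Helper142.Kib
open scoped ENNReal

theorem Q_congr {ι α : Type} [Fintype ι] [DecidableEq ι] [Fintype α] [DecidableEq α]
    (A : Matrix α α ℝ) (R : Matrix α ι ℝ) (p : ι → ℝ) :
    Q A (R *ᵥ p) = Q (Rᵀ * A * R) p := by
  unfold Q
  rw [← Matrix.mulVec_mulVec, ← Matrix.mulVec_mulVec, Matrix.dotProduct_mulVec p,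
    Matrix.vecMul_transpose]

theorem pd_congr {ι α : Type} [Fintype ι] [DecidableEq ι] [Fintype α] [DecidableEq α]
    (A : Matrix α α ℝ) (hA : A.PosDef) (R : Matrix α ι ℝ) (hR : Function.Injective R.mulVec) :
    (Rᵀ * A * R).PosDef := by
  have := hA.conjTranspose_mul_mul_same hR
  rwa [Matrix.conjTranspose_eq_transpose_of_trivial] at this

theorem minor_id {ι κ : Type} [Fintype ι] [DecidableEq ι] [Fintype κ] [DecidableEq κ]
    (A : Matrix (ι ⊕ κ) (ι ⊕ κ) ℝ) (hA : A.PosDef) (Z : Matrix κ ι ℝ) :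
    (BZ A⁻¹ Z).det * A.det = (AZ A Z).det := by
  set R : Matrix (ι ⊕ κ) ι ℝ := Matrix.fromRows (1 : Matrix ι ι ℝ) Z with hR
  set S : Matrix (ι ⊕ κ) κ ℝ := Matrix.fromRows (-Zᵀ) (1 : Matrix κ κ ℝ) with hS
  have hRt : Rᵀ = Matrix.fromCols (1 : Matrix ι ι ℝ) Zᵀ := by
    rw [hR, Matrix.transpose_fromRows, Matrix.transpose_one]
  have hSt : Sᵀ = Matrix.fromCols (-Z) (1 : Matrix κ κ ℝ) := by
    rw [hS, Matrix.transpose_fromRows, Matrix.transpose_one, Matrix.transpose_neg,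
      Matrix.transpose_transpose]
  have hdet : IsUnit A.det := (hA.det_pos.ne').isUnit
  set U : Matrix (ι ⊕ κ) (ι ⊕ κ) ℝ := Matrix.fromCols R (A⁻¹ * S) with hU
  have hAU : A * U = Matrix.fromCols (A * R) S := by
    rw [hU, Matrix.mul_fromCols, ← Matrix.mul_assoc, Matrix.mul_nonsing_inv _ hdet, Matrix.one_mul]
  have hTi : Matrix.fromBlocks (1 : Matrix ι ι ℝ) 0 (-Z) (1 : Matrix κ κ ℝ) =
      Matrix.fromRows (Matrix.fromCols (1 : Matrix ι ι ℝ) (0 : Matrix ι κ ℝ)) Sᵀ := by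
    rw [hSt]
    ext i j
    cases i <;> cases j <;> simp
  have hTt : Matrix.fromBlocks (1 : Matrix ι ι ℝ) Zᵀ 0 (1 : Matrix κ κ ℝ) =
      Matrix.fromRows Rᵀ (Matrix.fromCols (0 : Matrix κ ι ℝ) (1 : Matrix κ κ ℝ)) := by
    rw [hRt]
    ext i j
    cases i <;> cases j <;> simp
  have h1 : Matrix.fromBlocks (1 : Matrix ι ι ℝ) 0 (-Z) (1 : Matrix κ κ ℝ) * U =
      Matrix.fromBlocks 1 (Matrix.fromCols (1 : Matrix ι ι ℝ) (0 : Matrix ι κ ℝ) * (A⁻¹ * S)) 0
        (BZ A⁻¹ Z) := by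
    rw [hTi, hU, Matrix.fromRows_mul_fromCols]
    have e1 : Matrix.fromCols (1 : Matrix ι ι ℝ) (0 : Matrix ι κ ℝ) * R = 1 := by
      rw [hR, Matrix.fromCols_mul_fromRows]; simp
    have e2 : Sᵀ * R = 0 := by
      rw [hSt, hR, Matrix.fromCols_mul_fromRows]; simp
    have e3 : Sᵀ * (A⁻¹ * S) = BZ A⁻¹ Z := by
      rw [← Matrix.mul_assoc]; rfl
    rw [e1, e2, e3]
  have h2 : Matrix.fromBlocks (1 : Matrix ι ι ℝ) Zᵀ 0 (1 : Matrix κ κ ℝ) * (A * U) =
      Matrix.fromBlocks (AZ A Z) 0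
        (Matrix.fromCols (0 : Matrix κ ι ℝ) (1 : Matrix κ κ ℝ) * (A * R)) 1 := by
    rw [hTt, hAU, Matrix.fromRows_mul_fromCols]
    have e1 : Rᵀ * (A * R) = AZ A Z := by
      rw [← Matrix.mul_assoc]; rfl
    have e2 : Rᵀ * S = 0 := by
      rw [hRt, hS, Matrix.fromCols_mul_fromRows]; simp
    have e3 : Matrix.fromCols (0 : Matrix κ ι ℝ) (1 : Matrix κ κ ℝ) * S = 1 := by
      rw [hS, Matrix.fromCols_mul_fromRows]; simp
    rw [e1, e2, e3]
  have d1 := congrArg Matrix.det h1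
  have d2 := congrArg Matrix.det h2
  rw [Matrix.det_mul, Matrix.det_fromBlocks_zero₁₂, Matrix.det_fromBlocks_zero₂₁] at d1
  rw [Matrix.det_mul, Matrix.det_mul, Matrix.det_fromBlocks_zero₁₂, Matrix.det_fromBlocks_zero₂₁] at d2
  simp only [Matrix.det_one, one_mul, mul_one] at d1 d2
  rw [← d1, ← d2]
  ring

/-- TARGET: prove this. -/
theorem ch_pd {ι κ : Type} [Fintype ι] [DecidableEq ι] [Fintype κ] [DecidableEq κ]
    (A : Matrix (ι ⊕ κ) (ι ⊕ κ) ℝ) (hA : A.PosDef) (Z : Matrix κ ι ℝ) :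
    (AZ A Z).PosDef ∧ (BZ A Z).PosDef ∧ (BZ A⁻¹ Z).det * A.det = (AZ A Z).det ∧
    (∀ P : ι → ι → ℝ, Qm A (Sum.elim P (fun i j => (Z * Matrix.of P) i j)) = Qm (AZ A Z) P) := by
  refine ⟨pd_congr A hA _ ?_, pd_congr A hA _ ?_, minor_id A hA Z, ?_⟩
  · intro v w h
    simp only [Matrix.fromRows_mulVec, Matrix.one_mulVec] at h
    have := congrArg (fun f => f ∘ Sum.inl) h
    simpa using this
  · intro v w h
    simp only [Matrix.fromRows_mulVec, Matrix.one_mulVec] at h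
    have := congrArg (fun f => f ∘ Sum.inr) h
    simpa using this
  · intro P
    unfold Qm
    refine Finset.sum_congr rfl (fun j _ => ?_)
    have e : (fun i => (Sum.elim P (fun i j => (Z * Matrix.of P) i j) : ι ⊕ κ → ι → ℝ) i j) =
        (Matrix.fromRows (1 : Matrix ι ι ℝ) Z) *ᵥ (fun i => P i j) := by
      rw [Matrix.fromRows_mulVec, Matrix.one_mulVec]
      funext i
      cases i with
      | inl i => rfl
      | inr i => simp [Matrix.mul_apply, Matrix.mulVec, dotProduct]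
    rw [e, Q_congr]
    rfl

end Pool.Agent.Helper142.Kib.Ch_pd
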