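import Mathlib
import Pool.Agent.Helper142.Kib.Defs

/-! Helper lemma ch_split for MP_7548d4_gt. -/

set_option linter.all false

namespace Pool.Agent.Helper142.Kib.Ch_split

open MeasureTheory Matrix Filter Topology Pool.Agent.Helper142.Kib
open scoped ENNReal

/-- TARGET: prove this. -/
theorem ch_split {ι κ : Type} [Fintype ι] [Fintype κ] (F : (ι ⊕ κ → ι → ℝ) → ℝ≥0∞)
    (hF : Measurable F) :
    ∫⁻ X : ι ⊕ κ → ι → ℝ, F X = ∫⁻ P : ι → ι → ℝ, ∫⁻ W : κ → ι → ℝ, F (Sum.elim P W) := by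
  have h := volume_measurePreserving_sumPiEquivProdPi_symm (fun _ : ι ⊕ κ => ι → ℝ)
  rw [← h.lintegral_comp hF]
  have hm : Measurable (fun p : (ι → ι → ℝ) × (κ → ι → ℝ) =>
      F ((MeasurableEquiv.sumPiEquivProdPi (fun _ : ι ⊕ κ => ι → ℝ)).symm p)) :=
    hF.comp h.measurable
  refine (lintegral_prod _ hm.aemeasurable).trans ?_
  refine lintegral_congr fun P => lintegral_congr fun W => ?_
  congr 1

end Pool.Agent.Helper142.Kib.Ch_split
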