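import Mathlib
import Pool.Agent.Helper142.Kib.Defs

/-! Helper lemma ch_vol for MP_7548d4_gt. -/

set_option linter.all false

namespace Pool.Agent.Helper142.Kib.Ch_vol

open MeasureTheory Matrix Filter Topology Pool.Agent.Helper142.Kib
open scoped ENNReal

/-- TARGET: prove this. -/
theorem ch_vol {ι κ : Type} [Fintype ι] [DecidableEq ι] [Fintype κ]
    (P : Matrix ι ι ℝ) (hP : P.det ≠ 0) (Z : Matrix κ ι ℝ) (r : (ι ⊕ κ → ℝ) → ℝ) (hr : IsG r) :
    ENNReal.ofReal |P.det| *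
      volume {u : ι → ℝ | r (Sum.elim (P *ᵥ u) ((Z * P) *ᵥ u)) ≤ 1} =
      volume {u : ι → ℝ | r (Sum.elim u (Z *ᵥ u)) ≤ 1} := by
  have hdet : LinearMap.det (Matrix.toLin' P) ≠ 0 := by
    rw [LinearMap.det_toLin']; exact hP
  have hset : {u : ι → ℝ | r (Sum.elim (P *ᵥ u) ((Z * P) *ᵥ u)) ≤ 1} =
      (Matrix.toLin' P) ⁻¹' {u : ι → ℝ | r (Sum.elim u (Z *ᵥ u)) ≤ 1} := by
    ext u
    simp only [Set.mem_setOf_eq, Set.mem_preimage, Matrix.toLin'_apply, Matrix.mulVec_mulVec]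
  rw [hset, Measure.addHaar_preimage_linearMap volume hdet, LinearMap.det_toLin', ← mul_assoc,
    ← ENNReal.ofReal_mul (abs_nonneg _), ← abs_mul, mul_inv_cancel₀ hP, abs_one,
    ENNReal.ofReal_one, one_mul]

end Pool.Agent.Helper142.Kib.Ch_vol
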