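import Mathlib
import Pool.Agent.Helper142.Kib.Defs
import Pool.Agent.Helper142.Kib.Ch_split
import Pool.Agent.Helper142.Kib.Ch_lin
import Pool.Agent.Helper142.Kib.Ch_null
import Pool.Agent.Helper142.Kib.Ch_vol
import Pool.Agent.Helper142.Kib.Ch_det
import Pool.Agent.Helper142.Kib.Ch_pd

/-! Helper lemma chart for MP_7548d4_gt. -/

set_option linter.all false

namespace Pool.Agent.Helper142.Kib.Chart

open MeasureTheory Matrix Filter Topology Pool.Agent.Helper142.Kib
open scoped ENNReal
open Pool.Agent.Helper142.Kib.Ch_split Pool.Agent.Helper142.Kib.Ch_lin Pool.Agent.Helper142.Kib.Ch_null Pool.Agent.Helper142.Kib.Ch_vol Pool.Agent.Helper142.Kib.Ch_det Pool.Agent.Helper142.Kib.Ch_pd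

theorem kb_cAZ {ι κ : Type} [Fintype ι] [DecidableEq ι] [Fintype κ] [DecidableEq κ]
    (A : Matrix (ι ⊕ κ) (ι ⊕ κ) ℝ) :
    Continuous (fun Z : κ → ι → ℝ => AZ A (Matrix.of Z)) := by
  have h1 : Continuous (fun Z : κ → ι → ℝ =>
      Matrix.fromRows (1 : Matrix ι ι ℝ) (Matrix.of Z)) := by
    refine continuous_matrix (fun i j => ?_)
    rcases i with i | i
    · simp only [Matrix.fromRows_apply_inl]
      exact continuous_const
    · simp only [Matrix.fromRows_apply_inr, Matrix.of_apply]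
      fun_prop
  unfold AZ
  exact ((h1.matrix_transpose).matrix_mul continuous_const).matrix_mul h1

theorem kb_cQ {T α β : Type} [TopologicalSpace T] [Fintype α] [Fintype β]
    (M : T → Matrix α α ℝ) (X : T → α → β → ℝ) (hM : Continuous M) (hX : Continuous X) :
    Continuous (fun t => Qm (M t) (X t)) := by
  unfold Qm Q
  refine continuous_finset_sum _ (fun j _ => ?_)
  have h : Continuous (fun t => fun i => X t i j) := by
    refine continuous_pi (fun i => ?_)
    exact (continuous_apply j).comp ((continuous_apply i).comp hX)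
  exact h.dotProduct (hM.matrix_mulVec h)

theorem kb_mV {T : Type} [TopologicalSpace T] [MeasurableSpace T] [BorelSpace T]
    [SecondCountableTopology T] {ι α : Type} [Fintype ι] [Fintype α]
    (r : (α → ℝ) → ℝ) (hr : Continuous r) (L : T → (ι → ℝ) → α → ℝ)
    (hL : Continuous (fun p : T × (ι → ℝ) => L p.1 p.2)) :
    Measurable (fun t => volume {u : ι → ℝ | r (L t u) ≤ 1}) := by
  have hs : MeasurableSet {p : T × (ι → ℝ) | r (L p.1 p.2) ≤ 1} :=
    (isClosed_le (hr.comp hL) continuous_const).measurableSet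
  exact measurable_measure_prodMk_left hs

/-- TARGET: prove this. -/
theorem chart {ι κ : Type} [Fintype ι] [DecidableEq ι] [Fintype κ] [DecidableEq κ] [Nonempty κ]
    (A : Matrix (ι ⊕ κ) (ι ⊕ κ) ℝ) (hA : A.PosDef) (r : (ι ⊕ κ → ℝ) → ℝ) (hr : IsG r) :
    ∫⁻ X : ι ⊕ κ → ι → ℝ, ENNReal.ofReal (Real.exp (-Real.pi * Qm A X)) *
        volume {u : ι → ℝ | r (Matrix.of X *ᵥ u) ≤ 1} =
      Cs ι (Fintype.card κ - 1) *
        ∫⁻ Z : κ → ι → ℝ, ENNReal.ofReal ((AZ A (Matrix.of Z)).det ^
          (-(((Fintype.card ι : ℝ) + Fintype.card κ - 1) / 2))) *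
          volume {u : ι → ℝ | r (Sum.elim u (Matrix.of Z *ᵥ u)) ≤ 1} := by
  classical
  set V : (κ → ι → ℝ) → ℝ≥0∞ :=
    fun Z => volume {u : ι → ℝ | r (Sum.elim u (Matrix.of Z *ᵥ u)) ≤ 1} with hV
  set F : (ι ⊕ κ → ι → ℝ) → ℝ≥0∞ := fun X => ENNReal.ofReal (Real.exp (-Real.pi * Qm A X)) *
        volume {u : ι → ℝ | r (Matrix.of X *ᵥ u) ≤ 1} with hF
  have hmulVec : ∀ {α : Type} [Fintype α], Continuous (fun p : (α → ι → ℝ) × (ι → ℝ) =>
      (Matrix.of p.1 : Matrix α ι ℝ) *ᵥ p.2) := by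
    intro α _
    refine continuous_pi (fun i => ?_)
    simp only [Matrix.mulVec, dotProduct, Matrix.of_apply]
    fun_prop
  have hVm : Measurable V := by
    refine kb_mV r hr.cont (fun Z u => Sum.elim u (Matrix.of Z *ᵥ u)) ?_
    refine continuous_pi (fun i => ?_)
    rcases i with i | i
    · simp only [Sum.elim_inl]; fun_prop
    · simp only [Sum.elim_inr]
      exact (continuous_apply i).comp hmulVec
  have hFm : Measurable F := by
    refine Measurable.mul ?_ ?_
    · refine Measurable.ennreal_ofReal (Continuous.measurable ?_)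
      have := kb_cQ (T := (ι ⊕ κ → ι → ℝ)) (fun _ => A) (fun X => X) continuous_const continuous_id
      fun_prop
    · exact kb_mV r hr.cont (fun X u => Matrix.of X *ᵥ u) hmulVec
  have hk : 1 ≤ Fintype.card κ := Fintype.card_pos
  have step1 : ∀ᵐ P : ι → ι → ℝ, (∫⁻ W : κ → ι → ℝ, F (Sum.elim P W))
      = ∫⁻ Z : κ → ι → ℝ, ENNReal.ofReal (|(Matrix.of P).det| ^ (Fintype.card κ - 1) *
          Real.exp (-Real.pi * Qm (AZ A (Matrix.of Z)) P)) * V Z := by
    filter_upwards [ch_null (ι := ι)] with P hP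
    have hGm : Measurable (fun W : κ → ι → ℝ => F (Sum.elim P W)) := by
      refine hFm.comp ?_
      refine Continuous.measurable (continuous_pi (fun i => ?_))
      rcases i with i | i
      · simp only [Sum.elim_inl]; fun_prop
      · simp only [Sum.elim_inr]; fun_prop
    rw [ch_lin (Matrix.of P) hP _ hGm]
    rw [← lintegral_const_mul' _ _ ENNReal.ofReal_ne_top]
    refine lintegral_congr (fun Z => ?_)
    have hQ := (ch_pd A hA (Matrix.of Z)).2.2.2 P
    have hvol := ch_vol (Matrix.of P) hP (Matrix.of Z) r hr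
    have e1 : ∀ u : ι → ℝ, (Matrix.of (Sum.elim P (fun i j => ((Matrix.of Z : Matrix κ ι ℝ) * Matrix.of P) i j)) : Matrix (ι ⊕ κ) ι ℝ) *ᵥ u
        = Sum.elim (Matrix.of P *ᵥ u) ((Matrix.of Z * Matrix.of P) *ᵥ u) := by
      intro u
      funext i
      rcases i with i | i
      · simp only [Sum.elim_inl, Matrix.mulVec, dotProduct, Matrix.of_apply]
      · simp only [Sum.elim_inr, Matrix.mulVec, dotProduct, Matrix.of_apply]
    simp only [hF, e1, hV]
    rw [hQ, ← hvol]
    have e2 : |(Matrix.of P).det| ^ Fintype.card κ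
        = |(Matrix.of P).det| ^ (Fintype.card κ - 1) * |(Matrix.of P).det| := by
      rw [← pow_succ, Nat.sub_add_cancel hk]
    rw [e2, ENNReal.ofReal_mul (by positivity), ENNReal.ofReal_mul (by positivity)]
    ring
  have hjm : Measurable (fun p : (ι → ι → ℝ) × (κ → ι → ℝ) =>
      ENNReal.ofReal (|(Matrix.of p.1).det| ^ (Fintype.card κ - 1) *
          Real.exp (-Real.pi * Qm (AZ A (Matrix.of p.2)) p.1)) * V p.2) := by
    refine Measurable.mul ?_ (hVm.comp measurable_snd)
    refine Measurable.ennreal_ofReal (Continuous.measurable ?_)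
    have h1 : Continuous (fun p : (ι → ι → ℝ) × (κ → ι → ℝ) => (Matrix.of p.1).det) :=
      Continuous.matrix_det (A := fun p : (ι → ι → ℝ) × (κ → ι → ℝ) => Matrix.of p.1) continuous_fst
    have h2 := kb_cQ (T := (ι → ι → ℝ) × (κ → ι → ℝ)) (fun p => AZ A (Matrix.of p.2)) (fun p => p.1)
      ((kb_cAZ A).comp continuous_snd) continuous_fst
    exact (h1.abs.pow _).mul (Real.continuous_exp.comp (continuous_const.mul h2))
  rw [show (∫⁻ X : ι ⊕ κ → ι → ℝ, ENNReal.ofReal (Real.exp (-Real.pi * Qm A X)) *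
        volume {u : ι → ℝ | r (Matrix.of X *ᵥ u) ≤ 1}) = ∫⁻ X : ι ⊕ κ → ι → ℝ, F X from rfl,
    ch_split F hFm, lintegral_congr_ae step1]
  rw [lintegral_lintegral_swap hjm.aemeasurable]
  have step2 : ∀ Z : κ → ι → ℝ, (∫⁻ P : ι → ι → ℝ,
      ENNReal.ofReal (|(Matrix.of P).det| ^ (Fintype.card κ - 1) *
          Real.exp (-Real.pi * Qm (AZ A (Matrix.of Z)) P)) * V Z)
      = Cs ι (Fintype.card κ - 1) * (ENNReal.ofReal ((AZ A (Matrix.of Z)).det ^
          (-(((Fintype.card ι : ℝ) + Fintype.card κ - 1) / 2))) * V Z) := by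
    intro Z
    have hm : Measurable (fun P : ι → ι → ℝ =>
      ENNReal.ofReal (|(Matrix.of P).det| ^ (Fintype.card κ - 1) *
          Real.exp (-Real.pi * Qm (AZ A (Matrix.of Z)) P))) := by
      refine Measurable.ennreal_ofReal (Continuous.measurable ?_)
      have h1 : Continuous (fun P : (ι → ι → ℝ) => (Matrix.of P).det) :=
        Continuous.matrix_det (A := fun P : (ι → ι → ℝ) => Matrix.of P) continuous_id
      have h2 := kb_cQ (T := (ι → ι → ℝ)) (fun _ => AZ A (Matrix.of Z)) (fun p => p)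
        continuous_const continuous_id
      exact (h1.abs.pow _).mul (Real.continuous_exp.comp (continuous_const.mul h2))
    rw [lintegral_mul_const _ hm, ch_det _ (ch_pd A hA (Matrix.of Z)).1]
    have e : (-((((Fintype.card κ - 1 : ℕ) : ℝ) + Fintype.card ι) / 2))
        = (-(((Fintype.card ι : ℝ) + Fintype.card κ - 1) / 2)) := by
      rw [Nat.cast_sub hk]; push_cast; ring
    rw [e, mul_assoc]
  simp only [step2]
  rw [lintegral_const_mul]
  refine Measurable.mul ?_ hVm
  refine Measurable.ennreal_ofReal ?_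
  have h1 : Continuous (fun Z : κ → ι → ℝ => (AZ A (Matrix.of Z)).det) := (kb_cAZ A).matrix_det
  exact h1.measurable.pow_const _

end Pool.Agent.Helper142.Kib.Chart
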