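import Mathlib
import Pool.Agent.Helper142.Kib.Defs
import Pool.Agent.Helper142.Kib.Chart

/-! Helper lemma chart2 for MP_7548d4_gt. -/

set_option linter.all false

namespace Pool.Agent.Helper142.Kib.Chart2

open MeasureTheory Matrix Filter Topology Pool.Agent.Helper142.Kib
open scoped ENNReal
open Pool.Agent.Helper142.Kib.Chart

theorem chart2_swap {ι κ : Type} [Fintype ι] [Fintype κ] (f : ι ⊕ κ → ℝ) :
    ∑ x : κ ⊕ ι, f (Sum.swap x) = ∑ y, f y := Equiv.sum_comp (Equiv.sumComm κ ι) f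

/-- uncurrying -/
def chart2_e1 (ι κ : Type) [Fintype ι] [Fintype κ] : (κ → ι → ℝ) ≃ᵐ (κ × ι → ℝ) where
  toFun Z p := Z p.1 p.2
  invFun w k i := w (k, i)
  left_inv Z := rfl
  right_inv w := rfl
  measurable_toFun := by
    change Measurable (fun (Z : κ → ι → ℝ) (p : κ × ι) => Z p.1 p.2)
    fun_prop
  measurable_invFun := by
    change Measurable (fun (w : κ × ι → ℝ) (k : κ) (i : ι) => w (k, i))
    fun_prop

/-- uncurrying and transposition -/
def chart2_e2 (ι κ : Type) [Fintype ι] [Fintype κ] : (ι → κ → ℝ) ≃ᵐ (κ × ι → ℝ) where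
  toFun Z p := Z p.2 p.1
  invFun w i k := w (k, i)
  left_inv Z := rfl
  right_inv w := rfl
  measurable_toFun := by
    change Measurable (fun (Z : ι → κ → ℝ) (p : κ × ι) => Z p.2 p.1)
    fun_prop
  measurable_invFun := by
    change Measurable (fun (w : κ × ι → ℝ) (i : ι) (k : κ) => w (k, i))
    fun_prop

theorem chart2_mp1 (ι κ : Type) [Fintype ι] [Fintype κ] :
    MeasurePreserving (chart2_e1 ι κ) volume volume := by
  refine ⟨(chart2_e1 ι κ).measurable, ?_⟩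
  symm
  apply Measure.pi_eq
  intro s hs
  rw [(chart2_e1 ι κ).map_apply]
  have : (chart2_e1 ι κ) ⁻¹' (Set.pi Set.univ s) = Set.pi Set.univ (fun k => Set.pi Set.univ (fun i => s (k, i))) := by
    ext Z
    simp only [Set.mem_preimage, Set.mem_pi, Set.mem_univ, true_imp_iff]
    constructor
    · intro h k i
      exact h (k, i)
    · intro h p
      exact h p.1 p.2
  rw [this, volume_pi_pi]
  simp only [volume_pi_pi]
  rw [Fintype.prod_prod_type]

theorem chart2_mp2 (ι κ : Type) [Fintype ι] [Fintype κ] :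
    MeasurePreserving (chart2_e2 ι κ) volume volume := by
  refine ⟨(chart2_e2 ι κ).measurable, ?_⟩
  symm
  apply Measure.pi_eq
  intro s hs
  rw [(chart2_e2 ι κ).map_apply]
  have : (chart2_e2 ι κ) ⁻¹' (Set.pi Set.univ s) = Set.pi Set.univ (fun i => Set.pi Set.univ (fun k => s (k, i))) := by
    ext Z
    simp only [Set.mem_preimage, Set.mem_pi, Set.mem_univ, true_imp_iff]
    constructor
    · intro h i k
      exact h (k, i)
    · intro h p
      exact h p.2 p.1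
  rw [this, volume_pi_pi]
  simp only [volume_pi_pi]
  rw [Fintype.prod_prod_type_right]

theorem chart2_T {ι κ : Type} [Fintype ι] [Fintype κ] (F : (ι → κ → ℝ) → ℝ≥0∞) :
    ∫⁻ Z : κ → ι → ℝ, F (fun i k => Z k i) = ∫⁻ Z' : ι → κ → ℝ, F Z' := by
  have h := (chart2_mp2 ι κ).symm.comp (chart2_mp1 ι κ)
  have h2 : MeasurePreserving ((chart2_e1 ι κ).trans (chart2_e2 ι κ).symm) volume volume := h
  exact h2.lintegral_comp_emb (MeasurableEquiv.measurableEmbedding _) F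

theorem chart2_neg {ι κ : Type} [Fintype ι] [Fintype κ] (F : (κ → ι → ℝ) → ℝ≥0∞) :
    ∫⁻ Z : κ → ι → ℝ, F (-Z) = ∫⁻ Z : κ → ι → ℝ, F Z := by
  exact lintegral_neg_eq_self F

theorem chart2_S {ι κ : Type} [Fintype ι] [Fintype κ] (F : (κ ⊕ ι → κ → ℝ) → ℝ≥0∞) :
    ∫⁻ Y : ι ⊕ κ → κ → ℝ, F (fun x => Y (Sum.swap x)) = ∫⁻ X : κ ⊕ ι → κ → ℝ, F X := by
  have h := volume_preserving_arrowCongr' (Equiv.sumComm ι κ) (MeasurableEquiv.refl (κ → ℝ))
    (MeasurePreserving.id volume)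
  exact h.lintegral_comp_emb (MeasurableEquiv.measurableEmbedding _) F

theorem chart2_Qm {ι κ : Type} [Fintype ι] [Fintype κ] (B : Matrix (ι ⊕ κ) (ι ⊕ κ) ℝ) (Y : ι ⊕ κ → κ → ℝ) :
    Qm (B.submatrix Sum.swap Sum.swap) (fun x : κ ⊕ ι => Y (Sum.swap x)) = Qm B Y := by
  unfold Qm
  apply Finset.sum_congr rfl
  intro j _
  unfold Q
  simp only [dotProduct, mulVec, Matrix.submatrix_apply]
  rw [← chart2_swap (fun i => Y i j * ∑ x, B i x * Y x j)]
  apply Finset.sum_congr rfl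
  intro x _
  congr 1
  rw [← chart2_swap (fun y => B (Sum.swap x) y * Y y j)]

theorem chart2_quad {ι κ : Type} [Fintype ι] [Fintype κ] (B : Matrix (ι ⊕ κ) (ι ⊕ κ) ℝ) (M : Matrix (ι ⊕ κ) κ ℝ) :
    (M.submatrix (Sum.swap : κ ⊕ ι → ι ⊕ κ) id)ᵀ * (B.submatrix Sum.swap Sum.swap) *
      (M.submatrix (Sum.swap : κ ⊕ ι → ι ⊕ κ) id) = Mᵀ * B * M := by
  ext a b
  simp only [Matrix.mul_apply, Matrix.transpose_apply, Matrix.submatrix_apply, id]
  rw [← chart2_swap (fun x => (∑ y, M y a * B y x) * M x b)]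
  apply Finset.sum_congr rfl
  intro x _
  congr 1
  rw [← chart2_swap (fun y => M y a * B y (Sum.swap x))]

/-- TARGET: prove this. -/
theorem chart2 {ι κ : Type} [Fintype ι] [DecidableEq ι] [Fintype κ] [DecidableEq κ] [Nonempty ι]
    (B : Matrix (ι ⊕ κ) (ι ⊕ κ) ℝ) (hB : B.PosDef) (p : (ι ⊕ κ → ℝ) → ℝ) (hp : IsG p) :
    ∫⁻ Y : ι ⊕ κ → κ → ℝ, ENNReal.ofReal (Real.exp (-Real.pi * Qm B Y)) *
        volume {v : κ → ℝ | p (Matrix.of Y *ᵥ v) ≤ 1} =
      Cs κ (Fintype.card ι - 1) *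
        ∫⁻ Z : κ → ι → ℝ, ENNReal.ofReal ((BZ B (Matrix.of Z)).det ^
          (-(((Fintype.card ι : ℝ) + Fintype.card κ - 1) / 2))) *
          volume {v : κ → ℝ | p (Sum.elim (-((Matrix.of Z)ᵀ *ᵥ v)) v) ≤ 1} := by
  have hswap : Function.Injective (Sum.swap : κ ⊕ ι → ι ⊕ κ) := Sum.swap_leftInverse.injective
  have hr : IsG (fun x : κ ⊕ ι → ℝ => p (x ∘ Sum.swap)) := by
    refine ⟨?_, ?_, ?_⟩
    · apply hp.cont.comp
      fun_prop
    · intro t x
      exact hp.hom t (x ∘ Sum.swap)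
    · intro x hx
      apply hp.pos
      intro h
      apply hx
      funext y
      have := congrFun h (Sum.swap y)
      simpa using this
  have key := chart (ι := κ) (κ := ι) (B.submatrix Sum.swap Sum.swap) (hB.submatrix hswap)
    (fun x : κ ⊕ ι → ℝ => p (x ∘ Sum.swap)) hr
  have hL : ∫⁻ Y : ι ⊕ κ → κ → ℝ, ENNReal.ofReal (Real.exp (-Real.pi * Qm B Y)) *
        volume {v : κ → ℝ | p (Matrix.of Y *ᵥ v) ≤ 1} =
      ∫⁻ X : κ ⊕ ι → κ → ℝ, ENNReal.ofReal (Real.exp (-Real.pi * Qm (B.submatrix Sum.swap Sum.swap) X)) *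
        volume {u : κ → ℝ | p ((Matrix.of X *ᵥ u) ∘ Sum.swap) ≤ 1} := by
    rw [← chart2_S (fun X : κ ⊕ ι → κ → ℝ =>
      ENNReal.ofReal (Real.exp (-Real.pi * Qm (B.submatrix Sum.swap Sum.swap) X)) *
        volume {u : κ → ℝ | p ((Matrix.of X *ᵥ u) ∘ Sum.swap) ≤ 1})]
    apply lintegral_congr
    intro Y
    rw [chart2_Qm]
    have e : ∀ u : κ → ℝ, (Matrix.of (fun x : κ ⊕ ι => Y (Sum.swap x)) *ᵥ u) ∘ Sum.swap = Matrix.of Y *ᵥ u := by
      intro u
      funext x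
      simp [mulVec]
    simp only [e]
  have hR : ∫⁻ Z : κ → ι → ℝ, ENNReal.ofReal ((BZ B (Matrix.of Z)).det ^
          (-(((Fintype.card ι : ℝ) + Fintype.card κ - 1) / 2))) *
          volume {v : κ → ℝ | p (Sum.elim (-((Matrix.of Z)ᵀ *ᵥ v)) v) ≤ 1} =
      ∫⁻ Z : ι → κ → ℝ, ENNReal.ofReal ((AZ (B.submatrix Sum.swap Sum.swap) (Matrix.of Z)).det ^
          (-(((Fintype.card κ : ℝ) + Fintype.card ι - 1) / 2))) *
          volume {u : κ → ℝ | p ((Sum.elim u (Matrix.of Z *ᵥ u)) ∘ Sum.swap) ≤ 1} := by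
    rw [← chart2_T (fun Z : ι → κ → ℝ => ENNReal.ofReal ((AZ (B.submatrix Sum.swap Sum.swap) (Matrix.of Z)).det ^
          (-(((Fintype.card κ : ℝ) + Fintype.card ι - 1) / 2))) *
          volume {u : κ → ℝ | p ((Sum.elim u (Matrix.of Z *ᵥ u)) ∘ Sum.swap) ≤ 1}),
      ← chart2_neg (fun Z : κ → ι → ℝ =>
        ENNReal.ofReal ((AZ (B.submatrix Sum.swap Sum.swap) (Matrix.of (fun i k => Z k i))).det ^
          (-(((Fintype.card κ : ℝ) + Fintype.card ι - 1) / 2))) *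
          volume {u : κ → ℝ | p ((Sum.elim u (Matrix.of (fun i k => Z k i) *ᵥ u)) ∘ Sum.swap) ≤ 1})]
    apply lintegral_congr
    intro Z
    have e0 : (Matrix.of (fun i k => (-Z) k i) : Matrix ι κ ℝ) = -(Matrix.of Z)ᵀ := by
      ext i k
      simp
    rw [e0, add_comm (Fintype.card ι : ℝ) (Fintype.card κ : ℝ)]
    have e1 : AZ (B.submatrix Sum.swap Sum.swap) (-(Matrix.of Z)ᵀ) = BZ B (Matrix.of Z) := by
      unfold AZ BZ
      rw [← chart2_quad]
      have e2 : (Matrix.fromRows (1 : Matrix κ κ ℝ) (-(Matrix.of Z)ᵀ)) =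
          (Matrix.fromRows (-(Matrix.of Z)ᵀ) (1 : Matrix κ κ ℝ)).submatrix (Sum.swap : κ ⊕ ι → ι ⊕ κ) id := by
        ext x k
        rcases x with x | x <;> simp
      rw [e2]
    have e3 : ∀ u : κ → ℝ, (Sum.elim u ((-(Matrix.of Z)ᵀ) *ᵥ u)) ∘ Sum.swap = Sum.elim (-((Matrix.of Z)ᵀ *ᵥ u)) u := by
      intro u
      funext x
      rcases x with x | x
      · simp [Matrix.neg_mulVec]
      · simp
    rw [e1]
    simp only [e3]
  rw [hL, hR]
  exact key

end Pool.Agent.Helper142.Kib.Chart2
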