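import Mathlib
import Pool.Agent.Helper142.Kib.Defs

/-! Helper lemma cos_gauss for MP_7548d4_gt. -/

set_option linter.all false

namespace Pool.Agent.Helper142.Kib.Cos_gauss

open MeasureTheory Matrix Filter Topology Pool.Agent.Helper142.Kib
open scoped ENNReal

theorem cos_gauss_aux (q : ℝ) (hq : 0 < q) (c : ℂ) :
    Integrable (fun τ : ℝ => (Complex.exp (-(q : ℂ) * (τ : ℂ) ^ 2 + c * τ + 0)).re) ∧
    ∫ τ : ℝ, (Complex.exp (-(q : ℂ) * (τ : ℂ) ^ 2 + c * τ + 0)).re =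
      (Real.pi / q) ^ (1 / 2 : ℝ) * (Complex.exp (c ^ 2 / (4 * q))).re := by
  have hb : (-(q : ℂ)).re < 0 := by simpa using hq
  have hint := integrable_cexp_quadratic' hb c 0
  have hI := integral_cexp_quadratic hb c 0
  refine ⟨hint.re, ?_⟩
  have h1 : ∫ τ : ℝ, (Complex.exp (-(q : ℂ) * (τ : ℂ) ^ 2 + c * τ + 0)).re =
      (∫ τ : ℝ, Complex.exp (-(q : ℂ) * (τ : ℂ) ^ 2 + c * τ + 0)).re := by
    exact integral_re hint
  rw [h1, hI]
  have h2 : ((Real.pi : ℂ) / -(-(q : ℂ))) ^ (1 / 2 : ℂ) = (((Real.pi / q) ^ (1 / 2 : ℝ) : ℝ) : ℂ) := by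
    rw [neg_neg, Complex.ofReal_cpow (by positivity)]
    push_cast
    rfl
  have h3 : (0 : ℂ) - c ^ 2 / (4 * -(q : ℂ)) = c ^ 2 / (4 * q) := by
    rw [mul_neg, div_neg, zero_sub, neg_neg]
  rw [h2, h3, Complex.re_ofReal_mul]

/-- TARGET: prove this. -/
theorem cos_gauss (q b : ℝ) (hq : 0 < q) :
    Integrable (fun τ : ℝ => Real.cos (b * τ) * Real.exp (-q * τ ^ 2)) ∧
    ∫ τ : ℝ, Real.cos (b * τ) * Real.exp (-q * τ ^ 2) =
      (Real.pi / q) ^ (1 / 2 : ℝ) * Real.exp (-b ^ 2 / (4 * q)) ∧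
    Integrable (fun τ : ℝ => Real.cosh (b * τ) * Real.exp (-q * τ ^ 2)) ∧
    ∫ τ : ℝ, Real.cosh (b * τ) * Real.exp (-q * τ ^ 2) =
      (Real.pi / q) ^ (1 / 2 : ℝ) * Real.exp (b ^ 2 / (4 * q)) := by
  have hqc : (q : ℂ) ≠ 0 := by exact_mod_cast hq.ne'
  obtain ⟨i1, e1⟩ := cos_gauss_aux q hq (Complex.I * b)
  obtain ⟨i2, e2⟩ := cos_gauss_aux q hq (b : ℂ)
  obtain ⟨i3, e3⟩ := cos_gauss_aux q hq (-(b : ℂ))
  have f1 : ∀ τ : ℝ, (Complex.exp (-(q : ℂ) * (τ : ℂ) ^ 2 + Complex.I * b * τ + 0)).re =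
      Real.cos (b * τ) * Real.exp (-q * τ ^ 2) := by
    intro τ
    rw [Complex.exp_re]
    have h1 : (-(q : ℂ) * (τ : ℂ) ^ 2 + Complex.I * b * τ + 0).re = -q * τ ^ 2 := by
      have : (-(q : ℂ) * (τ : ℂ) ^ 2 + Complex.I * b * τ + 0) =
        ((-q * τ ^ 2 : ℝ) : ℂ) + ((b * τ : ℝ) : ℂ) * Complex.I := by push_cast; ring
      rw [this, Complex.add_re, Complex.ofReal_re, Complex.re_ofReal_mul, Complex.I_re, mul_zero, add_zero]
    have h2 : (-(q : ℂ) * (τ : ℂ) ^ 2 + Complex.I * b * τ + 0).im = b * τ := by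
      have : (-(q : ℂ) * (τ : ℂ) ^ 2 + Complex.I * b * τ + 0) =
        ((-q * τ ^ 2 : ℝ) : ℂ) + ((b * τ : ℝ) : ℂ) * Complex.I := by push_cast; ring
      rw [this, Complex.add_im, Complex.ofReal_im, Complex.im_ofReal_mul, Complex.I_im, mul_one, zero_add]
    rw [h1, h2, mul_comm]
  have f2 : ∀ (d : ℝ) (τ : ℝ), (Complex.exp (-(q : ℂ) * (τ : ℂ) ^ 2 + (d : ℂ) * τ + 0)).re =
      Real.exp (d * τ) * Real.exp (-q * τ ^ 2) := by
    intro d τ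
    have : (-(q : ℂ) * (τ : ℂ) ^ 2 + (d : ℂ) * τ + 0) = ((-q * τ ^ 2 + d * τ : ℝ) : ℂ) := by
      push_cast; ring
    rw [this, ← Complex.ofReal_exp, Complex.ofReal_re, add_comm, Real.exp_add]
  have g2 : ∀ d : ℝ, (Complex.exp ((d : ℂ) ^ 2 / (4 * q))).re = Real.exp (d ^ 2 / (4 * q)) := by
    intro d
    have : ((d : ℂ) ^ 2 / (4 * q)) = ((d ^ 2 / (4 * q) : ℝ) : ℂ) := by push_cast; ring
    rw [this, ← Complex.ofReal_exp, Complex.ofReal_re]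
  have g1 : (Complex.exp ((Complex.I * b) ^ 2 / (4 * q))).re = Real.exp (-b ^ 2 / (4 * q)) := by
    have : ((Complex.I * b) ^ 2 / (4 * q) : ℂ) = ((-b ^ 2 / (4 * q) : ℝ) : ℂ) := by
      rw [mul_pow, Complex.I_sq]; push_cast; ring
    rw [this, ← Complex.ofReal_exp, Complex.ofReal_re]
  have hneg : (-(b : ℂ)) = ((-b : ℝ) : ℂ) := by push_cast; rfl
  rw [hneg] at i3 e3
  simp only [f1] at i1 e1
  simp only [f2] at i2 e2 i3 e3
  rw [g1] at e1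
  rw [g2] at e2 e3
  have hcosh : ∀ τ : ℝ, Real.cosh (b * τ) * Real.exp (-q * τ ^ 2) =
      (1 / 2) * (Real.exp (b * τ) * Real.exp (-q * τ ^ 2)) +
      (1 / 2) * (Real.exp (-b * τ) * Real.exp (-q * τ ^ 2)) := by
    intro τ
    rw [Real.cosh_eq, neg_mul b τ]; ring
  refine ⟨i1, e1, ?_, ?_⟩
  · simp only [hcosh]
    exact (i2.const_mul _).add (i3.const_mul _)
  · simp only [hcosh]
    rw [integral_add (i2.const_mul _) (i3.const_mul _), integral_const_mul, integral_const_mul,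
      e2, e3, neg_sq]
    ring

end Pool.Agent.Helper142.Kib.Cos_gauss
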