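import Mathlib
import Pool.Agent.Helper142.Kib.Defs

/-! Helper lemma gm_gauss for MP_7548d4_gt. -/

set_option linter.all false

namespace Pool.Agent.Helper142.Kib.Gm_gauss

open MeasureTheory Matrix Filter Topology Pool.Agent.Helper142.Kib
open scoped ENNReal

open scoped MatrixOrder ComplexOrder in
theorem gmg_factor {α : Type} [Fintype α] [DecidableEq α] (A : Matrix α α ℝ) (hA : A.PosDef) :
    ∃ B : Matrix α α ℝ, A = Bᵀ * B := by
  obtain ⟨B, hB⟩ := CStarAlgebra.nonneg_iff_eq_star_mul_self.mp hA.posSemidef.nonneg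
  refine ⟨B, ?_⟩
  rw [hB, Matrix.star_eq_conjTranspose, Matrix.conjTranspose_eq_transpose_of_trivial]

theorem gmg_one {α : Type} [Fintype α] :
    ∫⁻ y : α → ℝ, ENNReal.ofReal (Real.exp (-Real.pi * ∑ i, y i ^ 2)) = 1 := by
  have h1 : (fun y : α → ℝ => Real.exp (-Real.pi * ∑ i, y i ^ 2)) =
      fun y : α → ℝ => ∏ i, Real.exp (-Real.pi * y i ^ 2) := by
    funext y
    rw [Finset.mul_sum, Real.exp_sum]
  have hint : Integrable (fun y : α → ℝ => ∏ i, Real.exp (-Real.pi * y i ^ 2)) volume :=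
    Integrable.fintype_prod (fun i => integrable_exp_neg_mul_sq Real.pi_pos)
  have h2 : ∀ y : α → ℝ, ENNReal.ofReal (Real.exp (-Real.pi * ∑ i, y i ^ 2)) =
      ENNReal.ofReal ((fun y : α → ℝ => ∏ i, Real.exp (-Real.pi * y i ^ 2)) y) := by
    intro y
    rw [← h1]
  simp_rw [h2]
  rw [← ofReal_integral_eq_lintegral_ofReal hint
    (Filter.Eventually.of_forall fun y => Finset.prod_nonneg fun i _ => (Real.exp_pos _).le)]
  rw [integral_fintype_prod_volume_eq_pow (fun x : ℝ => Real.exp (-Real.pi * x ^ 2)),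
    integral_gaussian, div_self Real.pi_ne_zero, Real.sqrt_one, one_pow, ENNReal.ofReal_one]

/-- TARGET: prove this. -/
theorem gm_gauss {α : Type} [Fintype α] [DecidableEq α] (A : Matrix α α ℝ) (hA : A.PosDef) :
    ∫⁻ x : α → ℝ, ENNReal.ofReal (Real.exp (-Real.pi * Q A x)) =
      ENNReal.ofReal (A.det ^ (-(1 / 2) : ℝ)) := by
  obtain ⟨B, hB⟩ := gmg_factor A hA
  have hdet : A.det = B.det ^ 2 := by
    rw [hB, Matrix.det_mul, Matrix.det_transpose, sq]
  have hpos := hA.det_pos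
  have hB0 : B.det ≠ 0 := by
    intro h
    rw [hdet, h] at hpos
    norm_num at hpos
  have hQ : ∀ x : α → ℝ, Q A x = ∑ i, (Matrix.toLin' B x) i ^ 2 := by
    intro x
    unfold Q
    rw [hB, ← Matrix.mulVec_mulVec, Matrix.dotProduct_mulVec, Matrix.vecMul_transpose,
      Matrix.toLin'_apply]
    simp [dotProduct, sq]
  have hmeas : Measurable (fun y : α → ℝ => ENNReal.ofReal (Real.exp (-Real.pi * ∑ i, y i ^ 2))) := by
    refine ENNReal.measurable_ofReal.comp (Real.measurable_exp.comp ?_)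
    exact (Finset.measurable_sum _ fun i _ => (measurable_pi_apply i).pow_const 2).const_mul _
  have hBm : Measurable (Matrix.toLin' B) := (LinearMap.continuous_on_pi _).measurable
  simp_rw [hQ]
  rw [← lintegral_map (f := fun y : α → ℝ => ENNReal.ofReal (Real.exp (-Real.pi * ∑ i, y i ^ 2)))
    hmeas hBm, Real.map_matrix_volume_pi_eq_smul_volume_pi hB0, lintegral_smul_measure, gmg_one,
    smul_eq_mul, mul_one]
  congr 1
  rw [hdet, abs_inv]
  have h1 : B.det ^ 2 = |B.det| ^ (2 : ℝ) := by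
    rw [Real.rpow_two, sq_abs]
  rw [h1, ← Real.rpow_mul (abs_nonneg _)]
  norm_num
  rw [Real.rpow_neg_one]

end Pool.Agent.Helper142.Kib.Gm_gauss
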