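import Mathlib
import Pool.Agent.Helper142.Kib.Defs
import Pool.Agent.Helper142.Kib.Gm_gauss

/-! Helper lemma gm_col for MP_7548d4_gt. -/

set_option linter.all false

namespace Pool.Agent.Helper142.Kib.Gm_col

open MeasureTheory Matrix Filter Topology Pool.Agent.Helper142.Kib
open scoped ENNReal
open Pool.Agent.Helper142.Kib.Gm_gauss

theorem swapMP (α β : Type) [Fintype α] [Fintype β] :
    MeasurePreserving (fun X : α → β → ℝ => fun (j : β) (i : α) => X i j) volume volume := by
  have hmeas : Measurable (fun X : α → β → ℝ => fun (j : β) (i : α) => X i j) := by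
    refine measurable_pi_lambda _ fun j => measurable_pi_lambda _ fun i => ?_
    exact (measurable_pi_apply j).comp (measurable_pi_apply i)
  refine ⟨hmeas, ?_⟩
  symm
  change Measure.pi (fun _ : β => (Measure.pi (fun _ : α => (volume : Measure ℝ)))) = _
  refine Measure.pi_eq_generateFrom
    (C := fun _ : β => Set.pi Set.univ '' Set.pi Set.univ (fun _ : α => {s : Set ℝ | MeasurableSet s}))
    (fun _ => generateFrom_pi) (fun _ => isPiSystem_pi)
    (fun _ => Measure.FiniteSpanningSetsIn.pi (fun _ => volume.toFiniteSpanningSetsIn)) ?_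
  intro s hs
  choose t ht hts using hs
  have hts' : s = fun j => Set.pi Set.univ (t j) := by
    funext j; exact (hts j).symm
  subst hts'
  have htm : ∀ j i, MeasurableSet (t j i) := fun j i => ht j i (Set.mem_univ i)
  rw [Measure.map_apply hmeas]
  · have : (fun X : α → β → ℝ => fun (j : β) (i : α) => X i j) ⁻¹' (Set.pi Set.univ fun j => Set.pi Set.univ (t j))
        = Set.pi Set.univ fun i => Set.pi Set.univ fun j => t j i := by
      ext X; simp only [Set.mem_preimage, Set.mem_pi, Set.mem_univ, true_implies]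
      exact ⟨fun h i j => h j i, fun h j i => h i j⟩
    rw [this, volume_pi_pi]
    simp_rw [volume_pi_pi, Measure.pi_pi]
    exact Finset.prod_comm
  · exact MeasurableSet.univ_pi fun j => MeasurableSet.univ_pi fun i => htm j i

/-- product formula -/
theorem lint_prod {β E : Type} [Fintype β] [MeasureSpace E] [SigmaFinite (volume : Measure E)]
    (g : β → E → ℝ≥0∞) (hg : ∀ j, Measurable (g j)) :
    ∫⁻ Y : β → E, ∏ j, g j (Y j) = ∏ j, ∫⁻ y : E, g j y := by
  have key : ∀ n : ℕ, ∀ (g : Fin n → E → ℝ≥0∞) (hg : ∀ j, Measurable (g j)),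
      ∫⁻ Y : Fin n → E, ∏ j, g j (Y j) = ∏ j, ∫⁻ y : E, g j y := by
    intro n
    induction n with
    | zero =>
      intro g hg
      simp [volume_pi, Measure.pi_univ]
    | succ n ih =>
      intro g hg
      have h1 := (volume_preserving_piFinSuccAbove (fun _ : Fin (n+1) => E) 0).symm
      rw [← h1.lintegral_comp_emb (MeasurableEquiv.measurableEmbedding _)]
      have : ∀ a : E × (Fin n → E), ∏ j, g j ((MeasurableEquiv.piFinSuccAbove (fun _ : Fin (n+1) => E) 0).symm a j) = g 0 a.1 * ∏ j : Fin n, g j.succ (a.2 j) := by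
        intro a
        rw [Fin.prod_univ_succ]
        simp [MeasurableEquiv.piFinSuccAbove]
      simp_rw [this]
      have hG : Measurable (fun Y : Fin n → E => ∏ j, g j.succ (Y j)) :=
        Finset.measurable_prod _ fun j _ => (hg _).comp (measurable_pi_apply j)
      rw [Measure.volume_eq_prod]
      have h3 := lintegral_prod_mul (μ := (volume : Measure E)) (ν := (volume : Measure (Fin n → E)))
        (hg 0).aemeasurable hG.aemeasurable
      rw [Fin.prod_univ_succ, ← ih _ (fun j => hg j.succ)]
      exact h3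
  have e := Fintype.equivFin β
  have h2 := volume_measurePreserving_piCongrLeft (fun _ : β => E) e.symm
  have h4 := key (Fintype.card β) (fun i => g (e.symm i)) (fun i => hg _)
  rw [← Equiv.prod_comp e.symm, ← h4, ← h2.lintegral_comp_emb (MeasurableEquiv.measurableEmbedding _)]
  refine lintegral_congr fun Y => ?_
  rw [← Equiv.prod_comp e.symm]
  refine Finset.prod_congr rfl fun j _ => ?_
  congr 1
  simp [MeasurableEquiv.piCongrLeft, Equiv.piCongrLeft]

theorem lint_col {β E : Type} [Fintype β] [DecidableEq β] [MeasureSpace E]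
    [SigmaFinite (volume : Measure E)] (g F : E → ℝ≥0∞) (hg : Measurable g) (hF : Measurable F)
    (j : β) :
    ∫⁻ Y : β → E, (∏ k, g (Y k)) * F (Y j) =
      (∫⁻ y : E, g y) ^ (Fintype.card β - 1) * ∫⁻ y : E, g y * F y := by
  have h := lint_prod (fun k : β => if k = j then (fun y => g y * F y) else g)
    (fun k => by split_ifs; exacts [hg.mul hF, hg])
  have h1 : ∀ Y : β → E, ∏ k, (if k = j then (fun y => g y * F y) else g) (Y k) =
      (∏ k, g (Y k)) * F (Y j) := by
    intro Y
    have : ∀ k, (if k = j then (fun y => g y * F y) else g) (Y k) =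
        g (Y k) * (if k = j then F (Y j) else 1) := by
      intro k
      by_cases hk : k = j
      · subst hk; simp
      · simp [hk]
    simp_rw [this, Finset.prod_mul_distrib]
    simp
  simp_rw [h1] at h
  rw [h]
  rw [← Finset.mul_prod_erase Finset.univ _ (Finset.mem_univ j), mul_comm]
  congr 1
  · rw [Finset.prod_congr rfl (g := fun _ => ∫⁻ y : E, g y)]
    · rw [Finset.prod_const, Finset.card_erase_of_mem (Finset.mem_univ j), Finset.card_univ]
    · intro k hk
      rw [if_neg (Finset.ne_of_mem_erase hk)]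
  · rw [if_pos rfl]

/-- TARGET: prove this. -/
theorem gm_col {α β : Type} [Fintype α] [DecidableEq α] [Fintype β] [DecidableEq β]
    (A : Matrix α α ℝ) (hA : A.PosDef) (F : (α → ℝ) → ℝ≥0∞) (hF : Measurable F) (j : β) :
    ∫⁻ X : α → β → ℝ, ENNReal.ofReal (Real.exp (-Real.pi * Qm A X)) * F (fun i => X i j) =
      ENNReal.ofReal (A.det ^ (-(((Fintype.card β : ℝ) - 1) / 2))) *
        ∫⁻ x : α → ℝ, ENNReal.ofReal (Real.exp (-Real.pi * Q A x)) * F x := by
  have hQc : Continuous (fun x : α → ℝ => Q A x) := by
    unfold Q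
    simp only [dotProduct, mulVec]
    fun_prop
  have hg : Measurable (fun x : α → ℝ => ENNReal.ofReal (Real.exp (-Real.pi * Q A x))) := by
    refine ENNReal.measurable_ofReal.comp (Continuous.measurable ?_)
    exact Real.continuous_exp.comp (continuous_const.mul hQc)
  have h1 := lint_col (β := β) (fun x : α → ℝ => ENNReal.ofReal (Real.exp (-Real.pi * Q A x))) F hg hF j
  rw [gm_gauss A hA] at h1
  have hdet : 0 < A.det := hA.det_pos
  have hcard : 1 ≤ Fintype.card β := Fintype.card_pos_iff.mpr ⟨j⟩
  have h2 : ENNReal.ofReal (A.det ^ (-(1 / 2) : ℝ)) ^ (Fintype.card β - 1) =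
      ENNReal.ofReal (A.det ^ (-(((Fintype.card β : ℝ) - 1) / 2))) := by
    rw [← ENNReal.ofReal_pow (Real.rpow_nonneg hdet.le _), ← Real.rpow_natCast,
      ← Real.rpow_mul hdet.le]
    congr 2
    push_cast [Nat.cast_sub hcard]
    ring
  rw [h2] at h1
  rw [← h1]
  have hmeasL : Measurable (fun Y : β → α → ℝ =>
      (∏ k, ENNReal.ofReal (Real.exp (-Real.pi * Q A (Y k)))) * F (Y j)) := by
    refine Measurable.mul ?_ (hF.comp (measurable_pi_apply j))
    exact Finset.measurable_prod _ fun k _ => hg.comp (measurable_pi_apply k)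
  rw [← (swapMP α β).lintegral_comp hmeasL]
  refine lintegral_congr fun X => ?_
  congr 1
  rw [← ENNReal.ofReal_prod_of_nonneg (fun k _ => (Real.exp_pos _).le), ← Real.exp_sum]
  congr 2
  unfold Qm
  rw [Finset.mul_sum]

end Pool.Agent.Helper142.Kib.Gm_col
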