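import Mathlib
import Pool.Agent.Helper142.Kib.Defs

/-! Helper lemma gm_rot for MP_7548d4_gt. -/

set_option linter.all false

namespace Pool.Agent.Helper142.Kib.Gm_rot

open MeasureTheory Matrix Filter Topology Pool.Agent.Helper142.Kib
open scoped ENNReal

theorem gm_rot_exR {β : Type} [Fintype β] [DecidableEq β] (u : β → ℝ) (j : β) :
    ∃ R : Matrix β β ℝ, Rᵀ = R ∧ R * R = 1 ∧ R *ᵥ u = nn u • (Pi.single j (1:ℝ) : β → ℝ) := by
  have hnn : nn u * nn u = u ⬝ᵥ u := Real.mul_self_sqrt (by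
    simp only [dotProduct]; exact Finset.sum_nonneg fun i _ => mul_self_nonneg _)
  set e : β → ℝ := Pi.single j (1:ℝ) with he
  set v : β → ℝ := nn u • e - u with hv
  by_cases hv0 : v = 0
  · refine ⟨1, Matrix.transpose_one, one_mul 1, ?_⟩
    rw [Matrix.one_mulVec]
    have : nn u • e - u = 0 := hv0
    exact (sub_eq_zero.mp this).symm
  · have hvv : v ⬝ᵥ v ≠ 0 := fun h => hv0 (dotProduct_self_eq_zero.mp h)
    have hee : e ⬝ᵥ e = 1 := by simp [he]
    have heu : u ⬝ᵥ e = u j := by simp [he]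
    have heu' : e ⬝ᵥ u = u j := by simp [he]
    have h1 : v ⬝ᵥ v = 2 * (nn u * nn u - nn u * u j) := by
      simp only [hv, sub_dotProduct, dotProduct_sub, smul_dotProduct, dotProduct_smul, smul_eq_mul,
        hee, heu, heu', ← hnn]
      ring
    have h2 : v ⬝ᵥ u = -(v ⬝ᵥ v) / 2 := by
      rw [h1]
      simp only [hv, sub_dotProduct, smul_dotProduct, smul_eq_mul, heu', ← hnn]
      ring
    refine ⟨1 - (2 / (v ⬝ᵥ v)) • Matrix.vecMulVec v v, ?_, ?_, ?_⟩
    · rw [Matrix.transpose_sub, Matrix.transpose_one, Matrix.transpose_smul, Matrix.transpose_vecMulVec]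
    · have hW : Matrix.vecMulVec v v * Matrix.vecMulVec v v = (v ⬝ᵥ v) • Matrix.vecMulVec v v := by
        rw [Matrix.vecMulVec_mul_vecMulVec, Matrix.vecMulVec_smul]
      rw [sub_mul, mul_sub, mul_sub, one_mul, one_mul, mul_one, Matrix.smul_mul, Matrix.mul_smul, hW, smul_smul, smul_smul]
      have : 2 / (v ⬝ᵥ v) * (2 / (v ⬝ᵥ v)) * (v ⬝ᵥ v) = 2 / (v ⬝ᵥ v) + 2 / (v ⬝ᵥ v) := by
        field_simp; ring
      rw [this, add_smul]
      abel
    · rw [Matrix.sub_mulVec, Matrix.one_mulVec, Matrix.smul_mulVec, Matrix.vecMulVec_mulVec]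
      ext i
      simp only [Pi.sub_apply, Pi.smul_apply, smul_eq_mul, MulOpposite.smul_eq_mul_unop, MulOpposite.unop_op, h2]
      have : v i = nn u * e i - u i := by simp [hv]
      field_simp
      rw [this]; ring

theorem gm_rot_Qm {α β : Type} [Fintype α] [Fintype β] (A : Matrix α α ℝ) (X : α → β → ℝ) :
    Qm A X = ∑ i, ∑ i', A i i' * (X i ⬝ᵥ X i') := by
  simp only [Qm, Q, dotProduct, Matrix.mulVec, Finset.mul_sum]
  rw [Finset.sum_comm]
  refine Finset.sum_congr rfl fun i _ => ?_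
  rw [Finset.sum_comm]
  refine Finset.sum_congr rfl fun i' _ => ?_
  refine Finset.sum_congr rfl fun l _ => ?_
  ring

/-- TARGET: prove this. -/
theorem gm_rot {α β : Type} [Fintype α] [DecidableEq α] [Fintype β] [DecidableEq β]
    (A : Matrix α α ℝ) (F : (α → ℝ) → ℝ≥0∞) (hF : Measurable F)
    (u : β → ℝ) (j : β) :
    ∫⁻ X : α → β → ℝ, ENNReal.ofReal (Real.exp (-Real.pi * Qm A X)) * F (Matrix.of X *ᵥ u) =
    ∫⁻ X : α → β → ℝ, ENNReal.ofReal (Real.exp (-Real.pi * Qm A X)) *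
      F (nn u • fun i => X i j)
  := by
  obtain ⟨R, hRt, hRR, hRu⟩ := gm_rot_exR u j
  have hdet : |R.det| = 1 := by
    have h : R.det * R.det = 1 := by rw [← Matrix.det_mul, hRR, Matrix.det_one]
    have h' : |R.det| * |R.det| = 1 := by rw [← abs_mul, h, abs_one]
    nlinarith [abs_nonneg R.det]
  have hdet0 : R.det ≠ 0 := by
    intro h; rw [h, abs_zero] at hdet; exact zero_ne_one hdet
  have hmp0 : MeasurePreserving (fun x : β → ℝ => R *ᵥ x) volume volume := by
    refine ⟨(Matrix.toLin' R).toContinuousLinearMap.continuous.measurable, ?_⟩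
    have := Real.map_matrix_volume_pi_eq_smul_volume_pi hdet0
    rw [abs_inv, hdet, inv_one, ENNReal.ofReal_one, one_smul] at this
    exact this
  have hmp : MeasurePreserving (fun (X : α → β → ℝ) (i : α) => R *ᵥ (X i)) volume volume :=
    volume_preserving_pi (fun _ => hmp0)
  have hdot : ∀ x y : β → ℝ, (R *ᵥ x) ⬝ᵥ (R *ᵥ y) = x ⬝ᵥ y := by
    intro x y
    rw [Matrix.dotProduct_mulVec, ← Matrix.mulVec_transpose, hRt, Matrix.mulVec_mulVec, hRR, Matrix.one_mulVec]
  have hmeasQ : Measurable fun X : α → β → ℝ => ENNReal.ofReal (Real.exp (-Real.pi * Qm A X)) := by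
    apply Measurable.ennreal_ofReal
    apply Measurable.exp
    apply Measurable.const_mul
    change Measurable fun X : α → β → ℝ => ∑ j, (∑ i, X i j * ∑ i2, A i i2 * X i2 j)
    fun_prop
  have hmeas : Measurable fun X : α → β → ℝ =>
      ENNReal.ofReal (Real.exp (-Real.pi * Qm A X)) * F (Matrix.of X *ᵥ u) := by
    refine hmeasQ.mul (hF.comp ?_)
    rw [measurable_pi_iff]
    intro i
    simp only [Matrix.mulVec, dotProduct, Matrix.of_apply]
    fun_prop
  rw [← hmp.lintegral_comp hmeas]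
  refine lintegral_congr fun X => ?_
  change ENNReal.ofReal (Real.exp (-Real.pi * Qm A (fun i => R *ᵥ X i))) *
    F (Matrix.of (fun i => R *ᵥ X i) *ᵥ u) = _
  congr 1
  · rw [gm_rot_Qm, gm_rot_Qm]
    simp only [hdot]
  · congr 1
    ext i
    change (R *ᵥ X i) ⬝ᵥ u = nn u • X i j
    have h1 : u = R *ᵥ (R *ᵥ u) := by rw [Matrix.mulVec_mulVec, hRR, Matrix.one_mulVec]
    conv_lhs => rw [h1]
    rw [hdot, hRu, dotProduct_smul]
    simp

end Pool.Agent.Helper142.Kib.Gm_rot
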