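import Mathlib
import Pool.Agent.Helper142.Kib.Defs
import Pool.Agent.Helper142.Kib.Gm_rot
import Pool.Agent.Helper142.Kib.Gm_col
import Pool.Agent.Helper142.Kib.Nn_isG
import Pool.Agent.Helper142.Kib.B_fin

/-! Helper lemma gm_avg for MP_7548d4_gt. -/

set_option linter.all false

namespace Pool.Agent.Helper142.Kib.Gm_avg

open MeasureTheory Matrix Filter Topology Pool.Agent.Helper142.Kib
open scoped ENNReal
open Pool.Agent.Helper142.Kib.Gm_rot Pool.Agent.Helper142.Kib.Gm_col Pool.Agent.Helper142.Kib.Nn_isG Pool.Agent.Helper142.Kib.B_fin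

theorem gm_avg_Q {α : Type} [Fintype α] (A : Matrix α α ℝ) : Continuous (fun x : α → ℝ => Q A x) := by
  unfold Q
  simp only [dotProduct, Matrix.mulVec]
  fun_prop

theorem gm_avg_Qm {α β : Type} [Fintype α] [Fintype β] (A : Matrix α α ℝ) :
    Continuous (fun X : α → β → ℝ => Qm A X) := by
  unfold Qm
  refine continuous_finsetSum _ fun j _ => (gm_avg_Q A).comp ?_
  fun_prop

theorem gm_avg_mv {α β : Type} [Fintype α] [Fintype β] :
    Continuous (fun p : (α → β → ℝ) × (β → ℝ) => Matrix.of p.1 *ᵥ p.2) := by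
  refine continuous_pi fun i => ?_
  simp only [Matrix.mulVec, dotProduct, Matrix.of_apply]
  fun_prop

theorem gm_avg_nn {β : Type} [Fintype β] (u : β → ℝ) : 0 ≤ nn u := Real.sqrt_nonneg _

theorem gm_avg_vol {β : Type} [Fintype β] (c : ℝ) (hc : 0 < c) :
    volume {u : β → ℝ | nn u * c ≤ 1}
      = ENNReal.ofReal ((c ^ Fintype.card β)⁻¹) * vg (nn : (β → ℝ) → ℝ) := by
  have h : {u : β → ℝ | nn u * c ≤ 1} = (fun u : β → ℝ => c • u) ⁻¹' {u | nn u ≤ 1} := by
    ext u
    simp only [Set.mem_ofPred_eq, Set.mem_preimage]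
    rw [(nn_isG (α := β)).hom c u, abs_of_pos hc, mul_comm]
  rw [h, Measure.addHaar_preimage_smul _ hc.ne', Module.finrank_fintype_fun_eq_card,
    abs_of_pos (by positivity)]
  rfl

/-- TARGET: prove this. -/
theorem gm_avg {α β : Type} [Fintype α] [DecidableEq α] [Fintype β] [DecidableEq β] [Nonempty β]
    [Nonempty α] (A : Matrix α α ℝ) (hA : A.PosDef) (r : (α → ℝ) → ℝ) (hr : IsG r) :
    ∫⁻ X : α → β → ℝ, ENNReal.ofReal (Real.exp (-Real.pi * Qm A X)) *
        volume {u : β → ℝ | r (Matrix.of X *ᵥ u) ≤ 1} =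
      vg (nn : (β → ℝ) → ℝ) *
        ENNReal.ofReal (A.det ^ (-(((Fintype.card β : ℝ) - 1) / 2))) *
        ∫⁻ x : α → ℝ, ENNReal.ofReal ((r x ^ Fintype.card β)⁻¹ *
          Real.exp (-Real.pi * Q A x)) := by
  classical
  obtain ⟨j⟩ := (inferInstance : Nonempty β)
  set F : (α → ℝ) → ℝ≥0∞ := Set.indicator {y | r y ≤ 1} (fun _ => 1) with hFd
  have hSm : MeasurableSet {y : α → ℝ | r y ≤ 1} :=
    (isClosed_le hr.cont continuous_const).measurableSet
  have hF : Measurable F := measurable_const.indicator hSm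
  set D : ℝ≥0∞ := ENNReal.ofReal (A.det ^ (-(((Fintype.card β : ℝ) - 1) / 2))) with hD
  have hE : Measurable (fun X : α → β → ℝ => ENNReal.ofReal (Real.exp (-Real.pi * Qm A X))) :=
    (Real.continuous_exp.comp (continuous_const.mul (gm_avg_Qm A))).measurable.ennreal_ofReal
  have hg : Measurable (fun x : α → ℝ => ENNReal.ofReal (Real.exp (-Real.pi * Q A x))) :=
    (Real.continuous_exp.comp (continuous_const.mul (gm_avg_Q A))).measurable.ennreal_ofReal
  have hv : ∀ X : α → β → ℝ, volume {u : β → ℝ | r (Matrix.of X *ᵥ u) ≤ 1}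
      = ∫⁻ u : β → ℝ, F (Matrix.of X *ᵥ u) := by
    intro X
    have hm : MeasurableSet {u : β → ℝ | r (Matrix.of X *ᵥ u) ≤ 1} := by
      have hc : Continuous (fun u : β → ℝ => Matrix.of X *ᵥ u) :=
        gm_avg_mv.comp (by fun_prop : Continuous fun u : β → ℝ => (X, u))
      exact (isClosed_le (hr.cont.comp hc) continuous_const).measurableSet
    rw [← lintegral_indicator_one hm]
    rfl
  have hFm : Measurable (fun p : (α → β → ℝ) × (β → ℝ) => F (Matrix.of p.1 *ᵥ p.2)) :=
    hF.comp gm_avg_mv.measurable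
  calc ∫⁻ X : α → β → ℝ, ENNReal.ofReal (Real.exp (-Real.pi * Qm A X)) *
        volume {u : β → ℝ | r (Matrix.of X *ᵥ u) ≤ 1}
      = ∫⁻ X : α → β → ℝ, ∫⁻ u : β → ℝ, ENNReal.ofReal (Real.exp (-Real.pi * Qm A X)) *
          F (Matrix.of X *ᵥ u) := by
        refine lintegral_congr fun X => ?_
        have hm5 : Measurable (fun u : β → ℝ => F (Matrix.of X *ᵥ u)) :=
          hFm.comp (by fun_prop : Measurable fun u : β → ℝ => (X, u))
        rw [hv X, lintegral_const_mul _ hm5]
    _ = ∫⁻ u : β → ℝ, ∫⁻ X : α → β → ℝ, ENNReal.ofReal (Real.exp (-Real.pi * Qm A X)) *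
          F (Matrix.of X *ᵥ u) := by
        refine lintegral_lintegral_swap ?_
        exact ((hE.comp measurable_fst).mul hFm).aemeasurable
    _ = ∫⁻ u : β → ℝ, D * ∫⁻ x : α → ℝ, ENNReal.ofReal (Real.exp (-Real.pi * Q A x)) *
          F (nn u • x) := by
        refine lintegral_congr fun u => ?_
        rw [gm_rot A F hF u j]
        exact gm_col A hA (fun x => F (nn u • x)) (hF.comp (by fun_prop)) j
    _ = D * ∫⁻ u : β → ℝ, ∫⁻ x : α → ℝ, ENNReal.ofReal (Real.exp (-Real.pi * Q A x)) *
          F (nn u • x) := by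
        have hnn : Measurable (nn : (β → ℝ) → ℝ) := (nn_isG (α := β)).cont.measurable
        have hm2 : Measurable (fun p : (β → ℝ) × (α → ℝ) =>
            ENNReal.ofReal (Real.exp (-Real.pi * Q A p.2)) * F (nn p.1 • p.2)) :=
          (hg.comp measurable_snd).mul (hF.comp ((hnn.comp measurable_fst).smul measurable_snd))
        exact lintegral_const_mul _ hm2.lintegral_prod_right'
    _ = D * ∫⁻ x : α → ℝ, ∫⁻ u : β → ℝ, ENNReal.ofReal (Real.exp (-Real.pi * Q A x)) *
          F (nn u • x) := by
        have hnn : Measurable (nn : (β → ℝ) → ℝ) := (nn_isG (α := β)).cont.measurable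
        have hm2 : Measurable (fun p : (β → ℝ) × (α → ℝ) =>
            ENNReal.ofReal (Real.exp (-Real.pi * Q A p.2)) * F (nn p.1 • p.2)) :=
          (hg.comp measurable_snd).mul (hF.comp ((hnn.comp measurable_fst).smul measurable_snd))
        congr 1
        exact lintegral_lintegral_swap hm2.aemeasurable
    _ = D * ∫⁻ x : α → ℝ, vg (nn : (β → ℝ) → ℝ) * ENNReal.ofReal ((r x ^ Fintype.card β)⁻¹ *
          Real.exp (-Real.pi * Q A x)) := by
        congr 1
        apply lintegral_congr_ae
        have h0 : ∀ᵐ x : α → ℝ, x ≠ 0 := by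
          rw [ae_iff]
          simp
        filter_upwards [h0] with x hx
        have hnn : Measurable (nn : (β → ℝ) → ℝ) := (nn_isG (α := β)).cont.measurable
        have hm3 : Measurable (fun u : β → ℝ => F (nn u • x)) :=
          hF.comp (hnn.smul measurable_const)
        rw [lintegral_const_mul _ hm3]
        have hset : MeasurableSet {u : β → ℝ | nn u * r x ≤ 1} :=
          (isClosed_le ((nn_isG (α := β)).cont.mul continuous_const) continuous_const).measurableSet
        have h1 : ∫⁻ u : β → ℝ, F (nn u • x) = volume {u : β → ℝ | nn u * r x ≤ 1} := by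
          rw [← lintegral_indicator_one hset]
          refine lintegral_congr fun u => ?_
          have e : r (nn u • x) = nn u * r x := by rw [hr.hom, abs_of_nonneg (gm_avg_nn u)]
          by_cases h : nn u * r x ≤ 1
          · rw [hFd, Set.indicator_of_mem (show nn u • x ∈ {y | r y ≤ 1} from by
              show r (nn u • x) ≤ 1
              rw [e]; exact h), Set.indicator_of_mem (show u ∈ {u : β → ℝ | nn u * r x ≤ 1} from h)]
            rfl
          · rw [hFd, Set.indicator_of_notMem (show nn u • x ∉ {y | r y ≤ 1} from by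
              show ¬ r (nn u • x) ≤ 1
              rw [e]; exact h), Set.indicator_of_notMem (show u ∉ {u : β → ℝ | nn u * r x ≤ 1} from h)]
        rw [h1, gm_avg_vol (r x) (hr.pos x hx), ENNReal.ofReal_mul (by
          have := hr.pos x hx
          positivity)]
        ring
    _ = _ := by
        have hm4 : Measurable (fun x : α → ℝ => ENNReal.ofReal ((r x ^ Fintype.card β)⁻¹ *
          Real.exp (-Real.pi * Q A x))) := by
          apply Measurable.ennreal_ofReal
          exact ((hr.cont.measurable.pow_const _).inv).mul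
            (Real.continuous_exp.comp (continuous_const.mul (gm_avg_Q A))).measurable
        rw [lintegral_const_mul _ hm4]
        ring

end Pool.Agent.Helper142.Kib.Gm_avg
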