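import Mathlib
import Pool.Agent.Helper142.Kib.Defs
import Pool.Agent.Helper142.Kib.Gm_avg
import Pool.Agent.Helper142.Kib.Chart
import Pool.Agent.Helper142.Kib.Chart2
import Pool.Agent.Helper142.Kib.Ch_Cs
import Pool.Agent.Helper142.Kib.Ch_pd
import Pool.Agent.Helper142.Kib.B_fin
import Pool.Agent.Helper142.Kib.Nn_isG

/-! Helper lemma G1 for MP_7548d4_gt. -/

set_option linter.all false

namespace Pool.Agent.Helper142.Kib.G1

open MeasureTheory Matrix Filter Topology Pool.Agent.Helper142.Kib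
open scoped ENNReal
open Pool.Agent.Helper142.Kib.Gm_avg Pool.Agent.Helper142.Kib.Chart Pool.Agent.Helper142.Kib.Chart2 Pool.Agent.Helper142.Kib.Ch_Cs Pool.Agent.Helper142.Kib.Ch_pd Pool.Agent.Helper142.Kib.B_fin Pool.Agent.Helper142.Kib.Nn_isG

theorem G1_solve {x : ℝ} (hx : 0 < x) {Y W : ℝ≥0∞} (h : ENNReal.ofReal x * Y = W) :
    Y = ENNReal.ofReal x⁻¹ * W := by
  rw [← h, ← mul_assoc, ← ENNReal.ofReal_mul (inv_pos.2 hx).le, inv_mul_cancel₀ hx.ne',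
    ENNReal.ofReal_one, one_mul]

/-- TARGET: prove this. -/
theorem G1 (ι κ : Type) [Fintype ι] [DecidableEq ι] [Fintype κ] [DecidableEq κ] [Nonempty ι]
    [Nonempty κ] :
    ∃ c : ℝ, 0 < c ∧ ∀ p r : (ι ⊕ κ → ℝ) → ℝ, IsG p → IsG r → Sec p r →
      ∀ A : Matrix (ι ⊕ κ) (ι ⊕ κ) ℝ, A.PosDef →
      ∫⁻ x : ι ⊕ κ → ℝ, ENNReal.ofReal ((r x ^ Fintype.card ι)⁻¹ *
          Real.exp (-Real.pi * Q A x)) =
        ENNReal.ofReal (c * A.det ^ (-(1 / 2) : ℝ)) *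
          ∫⁻ x : ι ⊕ κ → ℝ, ENNReal.ofReal ((p x ^ Fintype.card κ)⁻¹ *
            Real.exp (-Real.pi * Q A⁻¹ x)) := by
  obtain ⟨a, ha⟩ : ∃ a : ℝ, a = (vg (nn : (ι → ℝ) → ℝ)).toReal := ⟨_, rfl⟩
  obtain ⟨b, hb⟩ : ∃ b : ℝ, b = (vg (nn : (κ → ℝ) → ℝ)).toReal := ⟨_, rfl⟩
  obtain ⟨C1, hC1⟩ : ∃ C1 : ℝ, C1 = (Cs ι (Fintype.card κ - 1)).toReal := ⟨_, rfl⟩
  obtain ⟨C2, hC2⟩ : ∃ C2 : ℝ, C2 = (Cs κ (Fintype.card ι - 1)).toReal := ⟨_, rfl⟩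
  have a0 : 0 < a := by
    rw [ha]
    exact ENNReal.toReal_pos (b_fin _ nn_isG).1.ne' (b_fin _ nn_isG).2.ne
  have b0 : 0 < b := by
    rw [hb]
    exact ENNReal.toReal_pos (b_fin _ nn_isG).1.ne' (b_fin _ nn_isG).2.ne
  have C10 : 0 < C1 := by
    rw [hC1]
    exact ENNReal.toReal_pos (ch_Cs _ _).1.ne' (ch_Cs _ _).2.ne
  have C20 : 0 < C2 := by
    rw [hC2]
    exact ENNReal.toReal_pos (ch_Cs _ _).1.ne' (ch_Cs _ _).2.ne
  have ea : vg (nn : (ι → ℝ) → ℝ) = ENNReal.ofReal a := by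
    rw [ha, ENNReal.ofReal_toReal (b_fin _ nn_isG).2.ne]
  have eb : vg (nn : (κ → ℝ) → ℝ) = ENNReal.ofReal b := by
    rw [hb, ENNReal.ofReal_toReal (b_fin _ nn_isG).2.ne]
  have eC1 : Cs ι (Fintype.card κ - 1) = ENNReal.ofReal C1 := by
    rw [hC1, ENNReal.ofReal_toReal (ch_Cs _ _).2.ne]
  have eC2 : Cs κ (Fintype.card ι - 1) = ENNReal.ofReal C2 := by
    rw [hC2, ENNReal.ofReal_toReal (ch_Cs _ _).2.ne]
  refine ⟨C1 * b / (C2 * a), by positivity, ?_⟩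
  intro p r hp hr hS A hA
  have hD : 0 < A.det := hA.det_pos
  have hAi : A⁻¹.PosDef := hA.inv
  have hdi : A⁻¹.det = A.det⁻¹ := by
    rw [Matrix.det_nonsing_inv, Ring.inverse_eq_inv']
  have g1 := gm_avg (β := ι) A hA r hr
  have g2 := gm_avg (β := κ) A⁻¹ hAi p hp
  rw [chart A hA r hr, ea, eC1] at g1
  rw [chart2 A⁻¹ hAi p hp, eb, eC2, hdi] at g2
  have hJ : ∫⁻ Z : κ → ι → ℝ, ENNReal.ofReal ((AZ A (Matrix.of Z)).det ^
          (-(((Fintype.card ι : ℝ) + Fintype.card κ - 1) / 2))) *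
          volume {u : ι → ℝ | r (Sum.elim u (Matrix.of Z *ᵥ u)) ≤ 1} =
      ENNReal.ofReal (A.det ^ (-(((Fintype.card ι : ℝ) + Fintype.card κ - 1) / 2))) *
      ∫⁻ Z : κ → ι → ℝ, ENNReal.ofReal ((BZ A⁻¹ (Matrix.of Z)).det ^
          (-(((Fintype.card ι : ℝ) + Fintype.card κ - 1) / 2))) *
          volume {v : κ → ℝ | p (Sum.elim (-((Matrix.of Z)ᵀ *ᵥ v)) v) ≤ 1} := by
    rw [← lintegral_const_mul' _ _ ENNReal.ofReal_ne_top]
    apply lintegral_congr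
    intro Z
    rw [hS (Matrix.of Z), ← mul_assoc]
    congr 1
    have h3 := (ch_pd A hA (Matrix.of Z)).2.2.1
    have h4 := (ch_pd A⁻¹ hAi (Matrix.of Z)).2.1.det_pos
    rw [← h3, Real.mul_rpow h4.le hD.le, mul_comm, ENNReal.ofReal_mul (by positivity)]
  rw [hJ] at g1
  generalize (∫⁻ Z : κ → ι → ℝ, ENNReal.ofReal ((BZ A⁻¹ (Matrix.of Z)).det ^
          (-(((Fintype.card ι : ℝ) + Fintype.card κ - 1) / 2))) *
          volume {v : κ → ℝ | p (Sum.elim (-((Matrix.of Z)ᵀ *ᵥ v)) v) ≤ 1}) = J at g1 g2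
  generalize (∫⁻ x : ι ⊕ κ → ℝ, ENNReal.ofReal ((r x ^ Fintype.card ι)⁻¹ *
          Real.exp (-Real.pi * Q A x))) = Ir at g1 ⊢
  generalize (∫⁻ x : ι ⊕ κ → ℝ, ENNReal.ofReal ((p x ^ Fintype.card κ)⁻¹ *
          Real.exp (-Real.pi * Q A⁻¹ x))) = Ip at g2 ⊢
  have g2' := G1_solve C20 g2
  rw [← ENNReal.ofReal_mul a0.le] at g1
  have g1' := G1_solve (by positivity) g1.symm
  rw [g1', g2']
  simp only [← mul_assoc]
  have hDi : 0 < A.det⁻¹ := inv_pos.2 hD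
  rw [← ENNReal.ofReal_mul (by positivity), ← ENNReal.ofReal_mul (by positivity),
    ← ENNReal.ofReal_mul (by positivity), ← ENNReal.ofReal_mul (by positivity),
    ← ENNReal.ofReal_mul (by positivity)]
  congr 2
  rw [Real.inv_rpow hD.le, ← Real.rpow_neg hD.le, mul_inv, ← Real.rpow_neg hD.le]
  have hexp : A.det ^ (-(1 / 2) : ℝ) =
      A.det ^ (-(-(((Fintype.card ι : ℝ) - 1) / 2))) *
      A.det ^ (-(((Fintype.card ι : ℝ) + Fintype.card κ - 1) / 2)) *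
      A.det ^ (-(-(((Fintype.card κ : ℝ) - 1) / 2))) := by
    rw [← Real.rpow_add hD, ← Real.rpow_add hD]
    congr 1
    ring
  rw [hexp]
  field_simp

end Pool.Agent.Helper142.Kib.G1
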