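import Mathlib
import Pool.Agent.Helper142.Kib.Defs

/-! Helper lemma lap_uniq for MP_7548d4_gt. -/

set_option linter.all false

namespace Pool.Agent.Helper142.Kib.Lap_uniq

open MeasureTheory Matrix Filter Topology Pool.Agent.Helper142.Kib
open scoped ENNReal

/-- TARGET: prove this. -/
theorem lap_uniq (D : ℝ → ℝ) (hD : Continuous D) (heven : ∀ τ, D (-τ) = D τ) (C M q0 : ℝ)
    (hb : ∀ τ, |D τ| ≤ C * Real.exp (M * τ ^ 2))
    (h : ∀ q, q0 < q → ∫ τ, D τ * Real.exp (-q * τ ^ 2) = 0) : ∀ τ, D τ = 0 := by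
  have hC : 0 ≤ C := by
    have h0 := hb 0
    simp at h0
    exact (abs_nonneg _).trans h0
  obtain ⟨k, hk⟩ : ∃ k : ℕ, max M 0 + 1 ≤ k := exists_nat_ge _
  have hkM : M + 1 ≤ k := le_trans (by linarith [le_max_left M 0]) hk
  have hk1 : (1:ℝ) ≤ k := le_trans (by linarith [le_max_right M 0]) hk
  have hk0 : k ≠ 0 := by
    rintro rfl
    norm_num at hk1
  obtain ⟨q1, hq0, hqM⟩ : ∃ q1 : ℝ, q0 < q1 ∧ M < q1 :=
    ⟨max q0 M + 1, by linarith [le_max_left q0 M], by linarith [le_max_right q0 M]⟩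
  -- integrability
  have hint : ∀ q, M < q → Integrable (fun τ => D τ * Real.exp (-q * τ ^ 2)) := by
    intro q hq
    refine Integrable.mono' ((integrable_exp_neg_mul_sq (sub_pos.2 hq)).const_mul C)
      (Continuous.aestronglyMeasurable (by fun_prop)) (ae_of_all _ fun τ => ?_)
    rw [norm_mul, Real.norm_eq_abs, Real.norm_eq_abs, abs_of_pos (Real.exp_pos _)]
    calc |D τ| * Real.exp (-q * τ ^ 2) ≤ (C * Real.exp (M * τ ^ 2)) * Real.exp (-q * τ ^ 2) :=
          mul_le_mul_of_nonneg_right (hb τ) (Real.exp_pos _).le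
      _ = C * Real.exp (-(q - M) * τ ^ 2) := by
          rw [mul_assoc, ← Real.exp_add]; ring_nf
  -- polynomials
  have hexp : ∀ (i : ℕ) (τ : ℝ), Real.exp (-(q1 + i) * τ ^ 2) =
      Real.exp (-q1 * τ ^ 2) * Real.exp (-τ ^ 2) ^ i := by
    intro i τ
    rw [← Real.exp_nat_mul, ← Real.exp_add]; ring_nf
  have hpolyi : ∀ P : Polynomial ℝ, Integrable (fun τ => D τ * Real.exp (-q1 * τ ^ 2) * P.eval (Real.exp (-τ ^ 2))) ∧
      ∫ τ, D τ * Real.exp (-q1 * τ ^ 2) * P.eval (Real.exp (-τ ^ 2)) = 0 := by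
    intro P
    have e : (fun τ => D τ * Real.exp (-q1 * τ ^ 2) * P.eval (Real.exp (-τ ^ 2))) =
        fun τ => ∑ i ∈ Finset.range (P.natDegree + 1),
          P.coeff i * (D τ * Real.exp (-(q1 + i) * τ ^ 2)) := by
      funext τ
      rw [Polynomial.eval_eq_sum_range, Finset.mul_sum]
      refine Finset.sum_congr rfl fun i _ => ?_
      rw [hexp]; ring
    have hi : ∀ i : ℕ, (0:ℝ) ≤ i := fun i => Nat.cast_nonneg i
    rw [e]
    refine ⟨?_, ?_⟩
    · exact integrable_finsetSum _ (fun i _ => (hint _ (by linarith [hi i])).const_mul _)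
    · rw [integral_finsetSum _ (fun i _ => (hint _ (by linarith [hi i])).const_mul _)]
      apply Finset.sum_eq_zero
      intro i _
      rw [integral_const_mul, h _ (by linarith [hi i]), mul_zero]
  -- the test function
  set φ : ℝ → ℝ := fun x => D (Real.sqrt (-Real.log x)) * x ^ k with hφ
  have hφ0 : φ 0 = 0 := by simp [hφ, hk0]
  have hφb : ∀ x ∈ Set.Icc (0:ℝ) 1, ‖φ x‖ ≤ C * x := by
    rintro x ⟨hx0, hx1⟩
    rcases hx0.eq_or_lt with rfl | hx
    · rw [hφ0]; simp
    · have hl : Real.log x ≤ 0 := Real.log_nonpos hx0 hx1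
      have hs : Real.sqrt (-Real.log x) ^ 2 = -Real.log x := Real.sq_sqrt (by linarith)
      have h1 := hb (Real.sqrt (-Real.log x))
      rw [hs] at h1
      have h2 : x ^ k = Real.exp (k * Real.log x) := by
        rw [Real.exp_nat_mul, Real.exp_log hx]
      rw [hφ]
      simp only [norm_mul, Real.norm_eq_abs]
      rw [abs_of_pos (pow_pos hx k)]
      calc |D (Real.sqrt (-Real.log x))| * x ^ k
          ≤ (C * Real.exp (M * -Real.log x)) * x ^ k :=
            mul_le_mul_of_nonneg_right h1 (pow_pos hx k).le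
        _ = C * Real.exp (((k:ℝ) - M) * Real.log x) := by
            rw [h2, mul_assoc, ← Real.exp_add]; ring_nf
        _ ≤ C * Real.exp (Real.log x) := by
            apply mul_le_mul_of_nonneg_left _ hC
            apply Real.exp_le_exp.2
            nlinarith
        _ = C * x := by rw [Real.exp_log hx]
  have hφc : ContinuousOn φ (Set.Icc 0 1) := by
    intro x hx
    rcases hx.1.eq_or_lt with h0 | h0
    · rw [← h0]
      unfold ContinuousWithinAt
      rw [hφ0]
      refine squeeze_zero_norm' (a := fun x => C * x) ?_ ?_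
      · filter_upwards [self_mem_nhdsWithin] with y hy using hφb y hy
      · have : ContinuousWithinAt (fun x : ℝ => C * x) (Set.Icc 0 1) 0 :=
          (continuous_const.mul continuous_id).continuousWithinAt
        unfold ContinuousWithinAt at this
        simpa using this
    · apply ContinuousAt.continuousWithinAt
      have h1 : ContinuousAt (fun x => Real.log x) x := Real.continuousAt_log h0.ne'
      have h2 : ContinuousAt (fun x => D (Real.sqrt (-Real.log x))) x :=
        (hD.comp Real.continuous_sqrt).continuousAt.comp h1.neg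
      exact h2.mul (continuousAt_id.pow k)
  have hφe : ∀ τ : ℝ, φ (Real.exp (-τ ^ 2)) = D τ * Real.exp (-τ ^ 2) ^ k := by
    intro τ
    rw [hφ]
    simp only [Real.log_exp, neg_neg, Real.sqrt_sq_eq_abs]
    rcases abs_choice τ with h1 | h1
    · rw [h1]
    · rw [h1, heven]
  -- the integral of D² vanishes
  have hw := hint q1 hqM
  have hw2 : Integrable (fun τ => D τ * Real.exp (-q1 * τ ^ 2) * φ (Real.exp (-τ ^ 2))) := by
    have hmem : ∀ τ : ℝ, Real.exp (-τ ^ 2) ∈ Set.Icc (0:ℝ) 1 := fun τ =>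
      ⟨(Real.exp_pos _).le, Real.exp_le_one_iff.2 (by nlinarith [sq_nonneg τ])⟩
    refine Integrable.mono' (hw.norm.const_mul C) ?_ (ae_of_all _ fun τ => ?_)
    · have : (fun τ => D τ * Real.exp (-q1 * τ ^ 2) * φ (Real.exp (-τ ^ 2))) =
          fun τ => D τ * Real.exp (-q1 * τ ^ 2) * (D τ * Real.exp (-τ ^ 2) ^ k) := by
        funext τ; rw [hφe]
      rw [this]
      exact Continuous.aestronglyMeasurable (by fun_prop)
    · rw [norm_mul, mul_comm]
      apply mul_le_mul_of_nonneg_right _ (norm_nonneg _)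
      refine (hφb _ (hmem τ)).trans ?_
      calc C * Real.exp (-τ ^ 2) ≤ C * 1 := mul_le_mul_of_nonneg_left (hmem τ).2 hC
        _ = C := mul_one C
  have hzero : ∫ τ, D τ * Real.exp (-q1 * τ ^ 2) * φ (Real.exp (-τ ^ 2)) = 0 := by
    by_contra hne
    set I := ∫ τ, D τ * Real.exp (-q1 * τ ^ 2) * φ (Real.exp (-τ ^ 2)) with hI
    have hIpos : 0 < |I| := abs_pos.2 hne
    set W := ∫ τ, ‖D τ * Real.exp (-q1 * τ ^ 2)‖ with hW
    have hW0 : 0 ≤ W := integral_nonneg fun τ => norm_nonneg _
    set ε := |I| / (2 * (W + 1)) with hε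
    have hεpos : 0 < ε := by positivity
    obtain ⟨P, hP⟩ := exists_polynomial_near_of_continuousOn 0 1 φ hφc ε hεpos
    obtain ⟨hPi, hP0⟩ := hpolyi P
    have e1 : I = ∫ τ, (D τ * Real.exp (-q1 * τ ^ 2)) *
        (φ (Real.exp (-τ ^ 2)) - P.eval (Real.exp (-τ ^ 2))) := by
      have := integral_sub hw2 hPi
      rw [hP0, sub_zero] at this
      rw [hI, ← this]
      apply integral_congr_ae
      exact ae_of_all _ fun τ => by ring
    have e2 : |I| ≤ ∫ τ, ε * ‖D τ * Real.exp (-q1 * τ ^ 2)‖ := by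
      rw [e1, ← Real.norm_eq_abs]
      refine norm_integral_le_of_norm_le (hw.norm.const_mul ε) (ae_of_all _ fun τ => ?_)
      rw [norm_mul, mul_comm]
      apply mul_le_mul_of_nonneg_right _ (norm_nonneg _)
      have := hP (Real.exp (-τ ^ 2)) ⟨(Real.exp_pos _).le,
        Real.exp_le_one_iff.2 (by nlinarith [sq_nonneg τ])⟩
      rw [Real.norm_eq_abs, abs_sub_comm]
      exact this.le
    rw [integral_const_mul, ← hW] at e2
    have e3 : ε * W < |I| := by
      have : ε * (2 * (W + 1)) = |I| := by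
        rw [hε]; field_simp
      nlinarith
    linarith
  have hzero' : ∫ τ, D τ ^ 2 * (Real.exp (-q1 * τ ^ 2) * Real.exp (-τ ^ 2) ^ k) = 0 := by
    rw [← hzero]
    apply integral_congr_ae
    exact ae_of_all _ fun τ => by
      simp only
      rw [hφe]; ring
  have hint' : Integrable (fun τ => D τ ^ 2 * (Real.exp (-q1 * τ ^ 2) * Real.exp (-τ ^ 2) ^ k)) := by
    refine hw2.congr (ae_of_all _ fun τ => ?_)
    simp only
    rw [hφe]; ring
  have hae := (integral_eq_zero_iff_of_nonneg (fun τ => by positivity) hint').1 hzero'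
  have hcont : Continuous (fun τ => D τ ^ 2 * (Real.exp (-q1 * τ ^ 2) * Real.exp (-τ ^ 2) ^ k)) := by
    fun_prop
  have hall := (hcont.ae_eq_iff_eq volume continuous_zero).1 hae
  intro τ
  have := congrFun hall τ
  simp only [Pi.zero_apply, mul_eq_zero, pow_eq_zero_iff, ne_eq, OfNat.ofNat_ne_zero,
    not_false_eq_true] at this
  rcases this with h1 | h1
  · exact h1
  · exfalso
    have : 0 < Real.exp (-q1 * τ ^ 2) * Real.exp (-τ ^ 2) ^ k := by positivity
    rcases h1 with h2 | h2
    · exact (Real.exp_pos _).ne' h2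
    · exact (pow_pos (Real.exp_pos _) k).ne' h2

end Pool.Agent.Helper142.Kib.Lap_uniq
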