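import Mathlib
import Pool.Agent.Helper142.Kib.Defs
import Pool.Agent.Helper142.Kib.Lap_uniq
import Pool.Agent.Helper142.Kib.Cos_gauss

/-! Helper lemma starM for MP_7548d4_gt. -/

set_option linter.all false

namespace Pool.Agent.Helper142.Kib.StarM

open MeasureTheory Matrix Filter Topology Pool.Agent.Helper142.Kib
open scoped ENNReal
open Pool.Agent.Helper142.Kib.Lap_uniq Pool.Agent.Helper142.Kib.Cos_gauss

theorem sM_bound (s0 : ℝ) (hs0 : 0 < s0) (τ u : ℝ) :
    Real.cosh (2 * Real.pi * τ * u) ≤ Real.exp (Real.pi / s0 * τ ^ 2) * Real.exp (Real.pi * s0 * u ^ 2) := by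
  have h1 : ∀ x : ℝ, Real.cosh x ≤ Real.exp |x| := by
    intro x
    rw [Real.cosh_eq]
    have a1 := Real.exp_le_exp.2 (le_abs_self x)
    have a2 := Real.exp_le_exp.2 (neg_le_abs x)
    linarith
  refine (h1 _).trans ?_
  rw [← Real.exp_add]
  apply Real.exp_le_exp.2
  have hpi := Real.pi_pos
  have h2 : |2 * Real.pi * τ * u| = 2 * Real.pi * |τ| * |u| := by
    rw [abs_mul, abs_mul, abs_mul, abs_of_pos hpi]
    norm_num
  rw [h2]
  have h3 : 0 ≤ (|τ| - s0 * |u|) ^ 2 / s0 := by positivity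
  have h4 : (|τ| - s0 * |u|) ^ 2 / s0 = |τ| ^ 2 / s0 - 2 * |τ| * |u| + s0 * |u| ^ 2 := by
    field_simp
    ring
  rw [h4, sq_abs, sq_abs] at h3
  have h5 := mul_nonneg hpi.le h3
  have h6 : Real.pi * (τ ^ 2 / s0 - 2 * |τ| * |u| + s0 * u ^ 2) =
      Real.pi / s0 * τ ^ 2 + Real.pi * s0 * u ^ 2 - 2 * Real.pi * |τ| * |u| := by
    ring
  linarith

theorem sM_int (μ : Measure ℝ) [IsFiniteMeasure μ] (s0 : ℝ) (hs0 : 0 < s0)
    (hμ : Integrable (fun u : ℝ => Real.exp (Real.pi * s0 * u ^ 2)) μ) (τ : ℝ) :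
    Integrable (fun u : ℝ => Real.cosh (2 * Real.pi * τ * u)) μ := by
  refine Integrable.mono' (hμ.const_mul (Real.exp (Real.pi / s0 * τ ^ 2))) ?_ ?_
  · apply Continuous.aestronglyMeasurable
    exact Real.continuous_cosh.comp (by fun_prop)
  · refine Filter.Eventually.of_forall ?_
    intro u
    rw [Real.norm_eq_abs, abs_of_pos (Real.cosh_pos _)]
    exact sM_bound s0 hs0 τ u

theorem sM_contA (μ : Measure ℝ) [IsFiniteMeasure μ] (s0 : ℝ) (hs0 : 0 < s0)
    (hμ : Integrable (fun u : ℝ => Real.exp (Real.pi * s0 * u ^ 2)) μ) :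
    Continuous (fun τ : ℝ => ∫ u, Real.cosh (2 * Real.pi * τ * u) ∂μ) := by
  rw [continuous_iff_continuousAt]
  intro τ0
  refine continuousAt_of_dominated (bound := fun u => Real.exp (Real.pi / s0 * (|τ0| + 1) ^ 2) *
    Real.exp (Real.pi * s0 * u ^ 2)) ?_ ?_ (hμ.const_mul _) ?_
  · refine Filter.Eventually.of_forall ?_
    intro τ
    exact (sM_int μ s0 hs0 hμ τ).aestronglyMeasurable
  · filter_upwards [Metric.ball_mem_nhds τ0 one_pos] with τ hτ
    refine Filter.Eventually.of_forall ?_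
    intro u
    rw [Real.norm_eq_abs, abs_of_pos (Real.cosh_pos _)]
    refine (sM_bound s0 hs0 τ u).trans ?_
    apply mul_le_mul_of_nonneg_right _ (Real.exp_pos _).le
    apply Real.exp_le_exp.2
    have h1 : |τ| ≤ |τ0| + 1 := by
      rw [Metric.mem_ball, Real.dist_eq] at hτ
      have := abs_sub_abs_le_abs_sub τ τ0
      linarith
    have h2 : τ ^ 2 ≤ (|τ0| + 1) ^ 2 := by
      rw [← sq_abs τ]
      exact pow_le_pow_left₀ (abs_nonneg _) h1 2
    exact mul_le_mul_of_nonneg_left h2 (div_nonneg Real.pi_pos.le hs0.le)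
  · refine Filter.Eventually.of_forall ?_
    intro u
    apply Continuous.continuousAt
    exact Real.continuous_cosh.comp (by fun_prop)

theorem sM_contC (ν : Measure ℝ) [IsFiniteMeasure ν] :
    Continuous (fun τ : ℝ => ∫ v, Real.cos (2 * Real.pi * τ * v) ∂ν) := by
  refine continuous_of_dominated (bound := fun _ => 1) ?_ ?_ (integrable_const _) ?_
  · intro τ
    apply Continuous.aestronglyMeasurable
    fun_prop
  · intro τ
    refine Filter.Eventually.of_forall ?_
    intro v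
    rw [Real.norm_eq_abs]
    exact Real.abs_cos_le_one _
  · refine Filter.Eventually.of_forall ?_
    intro v
    fun_prop

/-- Fubini for the `cosh` part -/
theorem sM_A (μ : Measure ℝ) [IsFiniteMeasure μ] (s0 : ℝ) (hs0 : 0 < s0)
    (hμ : Integrable (fun u : ℝ => Real.exp (Real.pi * s0 * u ^ 2)) μ) (q : ℝ) (hq : Real.pi / s0 < q) :
    Integrable (fun τ : ℝ => (∫ u, Real.cosh (2 * Real.pi * τ * u) ∂μ) * Real.exp (-q * τ ^ 2)) ∧
    ∫ τ : ℝ, (∫ u, Real.cosh (2 * Real.pi * τ * u) ∂μ) * Real.exp (-q * τ ^ 2) =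
      (Real.pi / q) ^ (1 / 2 : ℝ) * ∫ u, Real.exp (Real.pi * (Real.pi / q) * u ^ 2) ∂μ := by
  have hpi := Real.pi_pos
  have hq0 : 0 < q := lt_trans (by positivity) hq
  set F : ℝ → ℝ → ℝ := fun τ u => Real.cosh (2 * Real.pi * τ * u) * Real.exp (-q * τ ^ 2) with hF
  have hin : ∀ u : ℝ, Integrable (fun τ : ℝ => F τ u) ∧
      ∫ τ : ℝ, F τ u = (Real.pi / q) ^ (1 / 2 : ℝ) * Real.exp (Real.pi * (Real.pi / q) * u ^ 2) := by
    intro u
    obtain ⟨-, -, h3, h4⟩ := cos_gauss q (2 * Real.pi * u) hq0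
    have e : (fun τ : ℝ => F τ u) = fun τ : ℝ => Real.cosh (2 * Real.pi * u * τ) * Real.exp (-q * τ ^ 2) := by
      funext τ
      rw [hF]
      simp only
      rw [show 2 * Real.pi * τ * u = 2 * Real.pi * u * τ by ring]
    rw [e]
    refine ⟨h3, ?_⟩
    rw [h4]
    congr 2
    field_simp
    ring
  have hs : Real.pi / q ≤ s0 := by
    rw [div_le_iff₀ hq0]
    rw [div_lt_iff₀ hs0] at hq
    linarith
  have hint : Integrable (Function.uncurry F) ((volume : Measure ℝ).prod μ) := by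
    rw [integrable_prod_iff']
    · refine ⟨Filter.Eventually.of_forall (fun u => (hin u).1), ?_⟩
      have e : (fun u : ℝ => ∫ τ : ℝ, ‖Function.uncurry F (τ, u)‖) =
          fun u => (Real.pi / q) ^ (1 / 2 : ℝ) * Real.exp (Real.pi * (Real.pi / q) * u ^ 2) := by
        funext u
        rw [← (hin u).2]
        apply integral_congr_ae
        refine Filter.Eventually.of_forall ?_
        intro τ
        simp only [Function.uncurry]
        rw [hF]
        simp only
        rw [Real.norm_eq_abs, abs_of_pos (mul_pos (Real.cosh_pos _) (Real.exp_pos _))]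
      rw [e]
      apply Integrable.const_mul
      refine Integrable.mono' hμ ?_ ?_
      · apply Continuous.aestronglyMeasurable
        fun_prop
      · refine Filter.Eventually.of_forall ?_
        intro u
        rw [Real.norm_eq_abs, abs_of_pos (Real.exp_pos _)]
        apply Real.exp_le_exp.2
        gcongr
    · apply Continuous.aestronglyMeasurable
      simp only [hF, Function.uncurry_def]
      apply Continuous.mul
      · exact Real.continuous_cosh.comp (by fun_prop)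
      · fun_prop
  have e1 : (fun τ : ℝ => (∫ u, Real.cosh (2 * Real.pi * τ * u) ∂μ) * Real.exp (-q * τ ^ 2)) =
      fun τ => ∫ u, F τ u ∂μ := by
    funext τ
    rw [hF]
    simp only
    rw [integral_mul_const]
  rw [e1]
  refine ⟨hint.integral_prod_left, ?_⟩
  rw [integral_integral_swap hint]
  rw [← integral_const_mul]
  apply integral_congr_ae
  exact Filter.Eventually.of_forall (fun u => (hin u).2)

/-- Fubini for the `cos` part -/
theorem sM_C (ν : Measure ℝ) [IsFiniteMeasure ν] (q : ℝ) (hq0 : 0 < q) :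
    Integrable (fun τ : ℝ => (∫ v, Real.cos (2 * Real.pi * τ * v) ∂ν) * Real.exp (-q * τ ^ 2)) ∧
    ∫ τ : ℝ, (∫ v, Real.cos (2 * Real.pi * τ * v) ∂ν) * Real.exp (-q * τ ^ 2) =
      (Real.pi / q) ^ (1 / 2 : ℝ) * ∫ v, Real.exp (-Real.pi * (Real.pi / q) * v ^ 2) ∂ν := by
  have hpi := Real.pi_pos
  set F : ℝ → ℝ → ℝ := fun τ u => Real.cos (2 * Real.pi * τ * u) * Real.exp (-q * τ ^ 2) with hF
  have hin : ∀ u : ℝ, Integrable (fun τ : ℝ => F τ u) ∧
      ∫ τ : ℝ, F τ u = (Real.pi / q) ^ (1 / 2 : ℝ) * Real.exp (-Real.pi * (Real.pi / q) * u ^ 2) := by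
    intro u
    obtain ⟨h3, h4, -, -⟩ := cos_gauss q (2 * Real.pi * u) hq0
    have e : (fun τ : ℝ => F τ u) = fun τ : ℝ => Real.cos (2 * Real.pi * u * τ) * Real.exp (-q * τ ^ 2) := by
      funext τ
      rw [hF]
      simp only
      rw [show 2 * Real.pi * τ * u = 2 * Real.pi * u * τ by ring]
    rw [e]
    refine ⟨h3, ?_⟩
    rw [h4]
    congr 2
    field_simp
    ring
  have hgi : Integrable (fun τ : ℝ => Real.exp (-q * τ ^ 2)) := integrable_exp_neg_mul_sq hq0
  have hint : Integrable (Function.uncurry F) ((volume : Measure ℝ).prod ν) := by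
    have h1 : Integrable (fun z : ℝ × ℝ => Real.exp (-q * z.1 ^ 2) * (1 : ℝ)) ((volume : Measure ℝ).prod ν) :=
      hgi.mul_prod (integrable_const (1 : ℝ))
    refine Integrable.mono' h1 ?_ ?_
    · apply Continuous.aestronglyMeasurable
      simp only [hF, Function.uncurry_def]
      fun_prop
    · refine Filter.Eventually.of_forall ?_
      rintro ⟨τ, u⟩
      simp only [hF, Function.uncurry]
      rw [Real.norm_eq_abs, abs_mul, abs_of_pos (Real.exp_pos _), mul_comm]
      exact mul_le_mul_of_nonneg_left (Real.abs_cos_le_one _) (Real.exp_pos _).le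
  have e1 : (fun τ : ℝ => (∫ v, Real.cos (2 * Real.pi * τ * v) ∂ν) * Real.exp (-q * τ ^ 2)) =
      fun τ => ∫ u, F τ u ∂ν := by
    funext τ
    rw [hF]
    simp only
    rw [integral_mul_const]
  rw [e1]
  refine ⟨hint.integral_prod_left, ?_⟩
  rw [integral_integral_swap hint]
  rw [← integral_const_mul]
  apply integral_congr_ae
  exact Filter.Eventually.of_forall (fun u => (hin u).2)

/-- TARGET: prove this. -/
theorem starM (μ ν : Measure ℝ) [IsFiniteMeasure μ] [IsFiniteMeasure ν] (s0 β : ℝ) (hs0 : 0 < s0)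
    (hβ : 0 ≤ β) (hβs : β * s0 < 1)
    (hμ : Integrable (fun u : ℝ => Real.exp (Real.pi * s0 * u ^ 2)) μ)
    (H : ∀ s, 0 < s → s < s0 → ∫ u, Real.exp (Real.pi * s * u ^ 2) ∂μ =
      (1 - s * β) ^ (-(1 / 2) : ℝ) * ∫ v, Real.exp (-Real.pi * s * v ^ 2 / (1 - s * β)) ∂ν)
    (τ : ℝ) :
    Integrable (fun u : ℝ => Real.cosh (2 * Real.pi * τ * u)) μ ∧
    ∫ u, Real.cosh (2 * Real.pi * τ * u) ∂μ =
      Real.exp (Real.pi * β * τ ^ 2) * ∫ v, Real.cos (2 * Real.pi * τ * v) ∂ν := by
  refine ⟨sM_int μ s0 hs0 hμ τ, ?_⟩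
  have hpi := Real.pi_pos
  set D : ℝ → ℝ := fun τ => (∫ u, Real.cosh (2 * Real.pi * τ * u) ∂μ) -
    Real.exp (Real.pi * β * τ ^ 2) * ∫ v, Real.cos (2 * Real.pi * τ * v) ∂ν with hD
  have hβ1 : β ≤ 1 / s0 := by
    rw [le_div_iff₀ hs0]
    exact hβs.le
  have hDc : Continuous D := by
    apply (sM_contA μ s0 hs0 hμ).sub
    apply Continuous.mul (by fun_prop) (sM_contC ν)
  have hDe : ∀ τ, D (-τ) = D τ := by
    intro τ
    simp only [hD]
    have e1 : ∀ u, Real.cosh (2 * Real.pi * -τ * u) = Real.cosh (2 * Real.pi * τ * u) := by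
      intro u
      rw [← Real.cosh_neg]
      congr 1
      ring
    have e2 : ∀ u, Real.cos (2 * Real.pi * -τ * u) = Real.cos (2 * Real.pi * τ * u) := by
      intro u
      rw [← Real.cos_neg]
      congr 1
      ring
    simp only [e1, e2, neg_sq]
  have hDb : ∀ τ, |D τ| ≤ ((∫ u, Real.exp (Real.pi * s0 * u ^ 2) ∂μ) + ν.real Set.univ) *
      Real.exp (Real.pi / s0 * τ ^ 2) := by
    intro τ
    have b1 : |∫ u, Real.cosh (2 * Real.pi * τ * u) ∂μ| ≤
        (∫ u, Real.exp (Real.pi * s0 * u ^ 2) ∂μ) * Real.exp (Real.pi / s0 * τ ^ 2) := by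
      rw [abs_of_nonneg (integral_nonneg (fun u => (Real.cosh_pos _).le)),
        mul_comm (∫ u, Real.exp (Real.pi * s0 * u ^ 2) ∂μ), ← integral_const_mul]
      exact integral_mono (sM_int μ s0 hs0 hμ τ) (hμ.const_mul _) (fun u => sM_bound s0 hs0 τ u)
    have b2 : |∫ v, Real.cos (2 * Real.pi * τ * v) ∂ν| ≤ ν.real Set.univ := by
      have h1 := norm_integral_le_of_norm_le_const (μ := ν) (C := 1)
        (f := fun v => Real.cos (2 * Real.pi * τ * v)) (Filter.Eventually.of_forall (fun v => by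
          rw [Real.norm_eq_abs]
          exact Real.abs_cos_le_one _))
      rw [one_mul] at h1
      exact h1
    have b3 : Real.exp (Real.pi * β * τ ^ 2) ≤ Real.exp (Real.pi / s0 * τ ^ 2) := by
      apply Real.exp_le_exp.2
      apply mul_le_mul_of_nonneg_right _ (sq_nonneg τ)
      rw [div_eq_mul_one_div]
      exact mul_le_mul_of_nonneg_left hβ1 hpi.le
    calc |D τ| ≤ |∫ u, Real.cosh (2 * Real.pi * τ * u) ∂μ| +
          |Real.exp (Real.pi * β * τ ^ 2) * ∫ v, Real.cos (2 * Real.pi * τ * v) ∂ν| := abs_sub _ _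
      _ ≤ (∫ u, Real.exp (Real.pi * s0 * u ^ 2) ∂μ) * Real.exp (Real.pi / s0 * τ ^ 2) +
          Real.exp (Real.pi / s0 * τ ^ 2) * ν.real Set.univ := by
        rw [abs_mul, abs_of_pos (Real.exp_pos _)]
        exact add_le_add b1 (mul_le_mul b3 b2 (abs_nonneg _) (Real.exp_pos _).le)
      _ = _ := by ring
  have hz := lap_uniq D hDc hDe _ _ (Real.pi / s0) hDb (by
    intro q hq
    have hq0 : 0 < q := lt_trans (by positivity) hq
    have hs0' : 0 < Real.pi / q := by positivity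
    have hs1 : Real.pi / q < s0 := by
      rw [div_lt_iff₀ hq0]
      rw [div_lt_iff₀ hs0] at hq
      linarith
    have hsb : 0 < 1 - Real.pi / q * β := by
      have : Real.pi / q * β ≤ s0 * β := mul_le_mul_of_nonneg_right hs1.le hβ
      linarith
    have hqb : q - Real.pi * β = q * (1 - Real.pi / q * β) := by
      field_simp
    have hqbp : 0 < q - Real.pi * β := by
      rw [hqb]
      positivity
    obtain ⟨a1, a2⟩ := sM_A μ s0 hs0 hμ q hq
    obtain ⟨c1, c2⟩ := sM_C ν (q - Real.pi * β) hqbp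
    have e1 : (fun τ => D τ * Real.exp (-q * τ ^ 2)) = fun τ =>
        (∫ u, Real.cosh (2 * Real.pi * τ * u) ∂μ) * Real.exp (-q * τ ^ 2) -
        (∫ v, Real.cos (2 * Real.pi * τ * v) ∂ν) * Real.exp (-(q - Real.pi * β) * τ ^ 2) := by
      funext τ
      simp only [hD]
      rw [sub_mul]
      congr 1
      rw [mul_comm (Real.exp (Real.pi * β * τ ^ 2)), mul_assoc, ← Real.exp_add]
      congr 2
      ring
    rw [e1, integral_sub a1 c1, a2, c2, H _ hs0' hs1]
    have e2 : Real.pi / (q - Real.pi * β) = (Real.pi / q) / (1 - Real.pi / q * β) := by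
      rw [hqb]
      field_simp
    rw [e2, Real.div_rpow hs0'.le hsb.le, Real.rpow_neg hsb.le]
    have e3 : ∀ v : ℝ, Real.exp (-Real.pi * (Real.pi / q) * v ^ 2 / (1 - Real.pi / q * β)) =
        Real.exp (-Real.pi * ((Real.pi / q) / (1 - Real.pi / q * β)) * v ^ 2) := by
      intro v
      congr 1
      ring
    simp only [e3]
    ring)
  have := hz τ
  simp only [hD] at this
  linarith

end Pool.Agent.Helper142.Kib.StarM
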