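import Mathlib
import Pool.Agent.Helper142.Kib.Defs
import Pool.Agent.Helper142.Kib.B1
import Pool.Agent.Helper142.Kib.StarM
import Pool.Agent.Helper142.Kib.B_int

/-! Helper lemma G2 for MP_7548d4_gt. -/

set_option linter.all false

namespace Pool.Agent.Helper142.Kib.G2

open MeasureTheory Matrix Filter Topology Pool.Agent.Helper142.Kib
open scoped ENNReal
open Pool.Agent.Helper142.Kib.B1 Pool.Agent.Helper142.Kib.StarM Pool.Agent.Helper142.Kib.B_int

theorem h70_int {α : Type} [Fintype α] (w : (α → ℝ) → ℝ) (hw : Measurable w) (hw0 : ∀ y, 0 ≤ w y)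
    (T : (α → ℝ) → ℝ) (hT : Measurable T) (g : ℝ → ℝ) (hg : Measurable g) :
    ∫ u, g u ∂(Measure.map T (volume.withDensity (fun y => ENNReal.ofReal (w y)))) =
      ∫ y, w y * g (T y) := by
  rw [integral_map hT.aemeasurable hg.aestronglyMeasurable,
    integral_withDensity_eq_integral_toReal_smul hw.ennreal_ofReal
      (Filter.Eventually.of_forall fun y => ENNReal.ofReal_lt_top)]
  apply integral_congr_ae
  apply Filter.Eventually.of_forall
  intro y
  simp only [smul_eq_mul, ENNReal.toReal_ofReal (hw0 y)]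

theorem h70_intble {α : Type} [Fintype α] (w : (α → ℝ) → ℝ) (hw : Measurable w) (hw0 : ∀ y, 0 ≤ w y)
    (T : (α → ℝ) → ℝ) (hT : Measurable T) (g : ℝ → ℝ) (hg : Measurable g) :
    Integrable g (Measure.map T (volume.withDensity (fun y => ENNReal.ofReal (w y)))) ↔
      Integrable (fun y => w y * g (T y)) := by
  rw [integrable_map_measure hg.aestronglyMeasurable hT.aemeasurable,
    integrable_withDensity_iff_integrable_smul' hw.ennreal_ofReal
      (Filter.Eventually.of_forall fun y => ENNReal.ofReal_lt_top)]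
  apply iff_of_eq
  congr 1
  funext y
  simp only [smul_eq_mul, Function.comp, ENNReal.toReal_ofReal (hw0 y)]

theorem h70_dot {α : Type} [Fintype α] (x : α → ℝ) : Continuous (fun y : α → ℝ => x ⬝ᵥ y) := by
  simp only [dotProduct]
  fun_prop

theorem h70_dot2 {α : Type} [Fintype α] : Continuous (fun y : α → ℝ => y ⬝ᵥ y) := by
  simp only [dotProduct]
  fun_prop

theorem h70_nonneg {α : Type} [Fintype α] (p : (α → ℝ) → ℝ) (hp : IsG p) (y : α → ℝ) : 0 ≤ p y := by
  by_cases h : y = 0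
  · have := hp.hom 0 y
    rw [zero_smul, abs_zero, zero_mul] at this
    rw [h, this]
  · exact (hp.pos y h).le

/-- TARGET: prove this. -/
theorem G2 {α : Type} [Fintype α] [DecidableEq α] (p r : (α → ℝ) → ℝ) (hp : IsG p) (hr : IsG r)
    (k m : ℕ) (hk : k < Fintype.card α) (hm : m < Fintype.card α) (c : ℝ) (hc : 0 < c)
    (hG : ∀ A : Matrix α α ℝ, A.PosDef →
      ∫⁻ x : α → ℝ, ENNReal.ofReal ((r x ^ k)⁻¹ * Real.exp (-Real.pi * Q A x)) =
        ENNReal.ofReal (c * A.det ^ (-(1 / 2) : ℝ)) *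
          ∫⁻ x : α → ℝ, ENNReal.ofReal ((p x ^ m)⁻¹ * Real.exp (-Real.pi * Q A⁻¹ x)))
    (ε : ℝ) (hε : 0 < ε) (x : α → ℝ) :
    FF r k ε x = c * ∫ y : α → ℝ, (p y ^ m)⁻¹ * Real.exp (-Real.pi * ε * (y ⬝ᵥ y)) *
      Real.cos (2 * Real.pi * (x ⬝ᵥ y)) := by
  have hpi := Real.pi_pos
  set a : ℝ := 1 / ε with ha
  have hapos : 0 < a := by positivity
  have hxx : 0 ≤ x ⬝ᵥ x := by
    simp only [dotProduct]
    exact Finset.sum_nonneg fun i _ => mul_self_nonneg _
  set n : ℝ := (Fintype.card α : ℝ) with hn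
  set wr : (α → ℝ) → ℝ := fun y => (r y ^ k)⁻¹ * Real.exp (-(Real.pi * a) * (y ⬝ᵥ y)) with hwr
  set cc : ℝ := c * a ^ (-(n / 2)) with hcc
  have hccp : 0 < cc := by positivity
  set wp : (α → ℝ) → ℝ := fun y => cc * ((p y ^ m)⁻¹ * Real.exp (-(Real.pi * ε) * (y ⬝ᵥ y))) with hwp
  have hwrm : Measurable wr := by
    apply Measurable.mul
    · exact (hr.cont.measurable.pow_const k).inv
    · exact (Real.continuous_exp.comp (continuous_const.mul h70_dot2)).measurable
  have hwpm : Measurable wp := by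
    apply Measurable.const_mul
    apply Measurable.mul
    · exact (hp.cont.measurable.pow_const m).inv
    · exact (Real.continuous_exp.comp (continuous_const.mul h70_dot2)).measurable
  have hwr0 : ∀ y, 0 ≤ wr y := fun y => by
    have := h70_nonneg r hr y
    simp only [hwr]; positivity
  have hwp0 : ∀ y, 0 ≤ wp y := fun y => by
    have := h70_nonneg p hp y
    simp only [hwp]; positivity
  have hwri : Integrable wr := b_int r hr k hk (Real.pi * a) (by positivity)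
  have hwpi : Integrable wp := (b_int p hp m hm (Real.pi * ε) (by positivity)).const_mul cc
  have hT1 : Measurable (fun y : α → ℝ => x ⬝ᵥ y) := (h70_dot x).measurable
  have hT2 : Measurable (fun y : α → ℝ => (x ⬝ᵥ y) / a) := hT1.div_const a
  set μ : Measure ℝ := Measure.map (fun y : α → ℝ => x ⬝ᵥ y)
    (volume.withDensity (fun y => ENNReal.ofReal (wr y))) with hμ
  set ν : Measure ℝ := Measure.map (fun y : α → ℝ => (x ⬝ᵥ y) / a)
    (volume.withDensity (fun y => ENNReal.ofReal (wp y))) with hν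
  haveI f1 : IsFiniteMeasure (volume.withDensity (fun y => ENNReal.ofReal (wr y))) :=
    isFiniteMeasure_withDensity_ofReal hwri.2
  haveI f2 : IsFiniteMeasure (volume.withDensity (fun y => ENNReal.ofReal (wp y))) :=
    isFiniteMeasure_withDensity_ofReal hwpi.2
  haveI : IsFiniteMeasure μ := Measure.isFiniteMeasure_map _ _
  haveI : IsFiniteMeasure ν := Measure.isFiniteMeasure_map _ _
  set β : ℝ := x ⬝ᵥ x / a with hβ
  set s0 : ℝ := a / (2 * (x ⬝ᵥ x + 1)) with hs0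
  have hs0p : 0 < s0 := by positivity
  have hβ0 : 0 ≤ β := by positivity
  have hs0x : s0 * (x ⬝ᵥ x) < a := by
    rw [hs0, div_mul_eq_mul_div, div_lt_iff₀ (by positivity)]
    nlinarith
  have hβs : β * s0 < 1 := by
    rw [hβ, div_mul_eq_mul_div, div_lt_one hapos, mul_comm]
    exact hs0x
  have key1 : ∀ s y, wr y * Real.exp (Real.pi * s * (x ⬝ᵥ y) ^ 2) =
      (r y ^ k)⁻¹ * Real.exp (-Real.pi * a * (y ⬝ᵥ y) + Real.pi * s * (x ⬝ᵥ y) ^ 2) := by
    intro s y
    simp only [hwr]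
    rw [mul_assoc, ← Real.exp_add]
    congr 2
    ring
  have hμi : Integrable (fun u : ℝ => Real.exp (Real.pi * s0 * u ^ 2)) μ := by
    rw [hμ, h70_intble wr hwrm hwr0 _ hT1 _ (by fun_prop)]
    have := (B1 p r hp hr k m hk hm c hc hG x a s0 hapos hs0p.le hs0x).1
    refine this.congr (Filter.Eventually.of_forall fun y => ?_)
    exact (key1 s0 y).symm
  have hH : ∀ s, 0 < s → s < s0 → ∫ u, Real.exp (Real.pi * s * u ^ 2) ∂μ =
      (1 - s * β) ^ (-(1 / 2) : ℝ) * ∫ v, Real.exp (-Real.pi * s * v ^ 2 / (1 - s * β)) ∂ν := by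
    intro s hs1 hs2
    have hsx : s * (x ⬝ᵥ x) < a := lt_of_le_of_lt (mul_le_mul_of_nonneg_right hs2.le hxx) hs0x
    rw [hμ, h70_int wr hwrm hwr0 _ hT1 _ (by fun_prop), hν,
      h70_int wp hwpm hwp0 _ hT2 _ (by fun_prop)]
    have := (B1 p r hp hr k m hk hm c hc hG x a s hapos hs1.le hsx).2
    rw [show (fun y => wr y * Real.exp (Real.pi * s * (x ⬝ᵥ y) ^ 2)) =
      fun y => (r y ^ k)⁻¹ * Real.exp (-Real.pi * a * (y ⬝ᵥ y) + Real.pi * s * (x ⬝ᵥ y) ^ 2) from
      funext fun y => key1 s y, this]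
    have e1 : 1 - s * (x ⬝ᵥ x) / a = 1 - s * β := by rw [hβ]; ring
    rw [e1]
    have e2 : (fun y : α → ℝ => wp y * Real.exp (-Real.pi * s * ((x ⬝ᵥ y) / a) ^ 2 / (1 - s * β))) =
        fun y => cc * ((p y ^ m)⁻¹ * Real.exp (-Real.pi * (y ⬝ᵥ y) / a) *
          Real.exp (-Real.pi * s * ((x ⬝ᵥ y) / a) ^ 2 / (1 - s * β))) := by
      funext y
      simp only [hwp]
      have e3 : -(Real.pi * ε) * (y ⬝ᵥ y) = -Real.pi * (y ⬝ᵥ y) / a := by
        rw [ha]; field_simp
      rw [e3]; ring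
    rw [e2, integral_const_mul, hcc]
    ring
  obtain ⟨g1, g2⟩ := starM μ ν s0 β hs0p hβ0 hβs hμi hH a
  rw [hμ, h70_intble wr hwrm hwr0 _ hT1 _ (by fun_prop)] at g1
  rw [hμ, h70_int wr hwrm hwr0 _ hT1 _ (by fun_prop), hν,
      h70_int wp hwpm hwp0 _ hT2 _ (by fun_prop)] at g2
  -- integrability of the exponentials
  have hexp : ∀ σ : ℝ, |σ| = 1 → Integrable (fun y : α → ℝ => wr y * Real.exp (σ * (2 * Real.pi * a * (x ⬝ᵥ y)))) := by
    intro σ hσ
    refine (g1.const_mul 2).mono' ?_ ?_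
    · exact (hwrm.mul (Real.continuous_exp.comp (continuous_const.mul (continuous_const.mul (h70_dot x)))).measurable).aestronglyMeasurable
    · refine Filter.Eventually.of_forall fun y => ?_
      have hp1 := Real.exp_pos (2 * Real.pi * a * (x ⬝ᵥ y))
      have hp2 := Real.exp_pos (-(2 * Real.pi * a * (x ⬝ᵥ y)))
      rw [Real.norm_of_nonneg (mul_nonneg (hwr0 y) (Real.exp_pos _).le), Real.cosh_eq]
      have h3 : Real.exp (σ * (2 * Real.pi * a * (x ⬝ᵥ y))) ≤
          Real.exp (2 * Real.pi * a * (x ⬝ᵥ y)) + Real.exp (-(2 * Real.pi * a * (x ⬝ᵥ y))) := by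
        rcases (abs_eq (by norm_num : (0:ℝ) ≤ 1)).mp hσ with h | h
        · rw [h, one_mul]; linarith
        · rw [h, neg_one_mul]; linarith
      have := mul_le_mul_of_nonneg_left h3 (hwr0 y)
      nlinarith [this]
  have heven : ∀ y, wr (-y) = wr y := by
    intro y
    have e := hr.hom (-1) y
    rw [neg_one_smul, abs_neg, abs_one, one_mul] at e
    simp only [hwr, e, neg_dotProduct_neg]
  have hsym : ∫ y : α → ℝ, wr y * Real.exp ((-1) * (2 * Real.pi * a * (x ⬝ᵥ y))) =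
      ∫ y : α → ℝ, wr y * Real.exp (1 * (2 * Real.pi * a * (x ⬝ᵥ y))) := by
    rw [← integral_neg_eq_self (fun y : α → ℝ => wr y * Real.exp (1 * (2 * Real.pi * a * (x ⬝ᵥ y)))) volume]
    apply integral_congr_ae
    refine Filter.Eventually.of_forall fun y => ?_
    simp only [heven, dotProduct_neg]
    congr 2
    ring
  have hcosh : ∫ y : α → ℝ, wr y * Real.cosh (2 * Real.pi * a * (x ⬝ᵥ y)) =
      ∫ y : α → ℝ, wr y * Real.exp (1 * (2 * Real.pi * a * (x ⬝ᵥ y))) := by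
    have e1 : (fun y : α → ℝ => wr y * Real.cosh (2 * Real.pi * a * (x ⬝ᵥ y))) =
        fun y => (1/2) * (wr y * Real.exp (1 * (2 * Real.pi * a * (x ⬝ᵥ y)))) +
          (1/2) * (wr y * Real.exp ((-1) * (2 * Real.pi * a * (x ⬝ᵥ y)))) := by
      funext y
      rw [Real.cosh_eq, one_mul, neg_one_mul]
      ring
    rw [e1, integral_add ((hexp 1 (by simp)).const_mul _) ((hexp (-1) (by simp)).const_mul _),
      integral_const_mul, integral_const_mul, hsym]
    ring
  have hFF : FF r k ε x = ε ^ (-(n / 2)) * (Real.exp (-(Real.pi * a * (x ⬝ᵥ x))) *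
      ∫ y : α → ℝ, wr y * Real.exp (1 * (2 * Real.pi * a * (x ⬝ᵥ y)))) := by
    unfold FF
    congr 1
    rw [← integral_const_mul]
    apply integral_congr_ae
    refine Filter.Eventually.of_forall fun y => ?_
    simp only [hwr]
    have e1 : (x - y) ⬝ᵥ (x - y) = x ⬝ᵥ x - 2 * (x ⬝ᵥ y) + y ⬝ᵥ y := by
      rw [sub_dotProduct, dotProduct_sub, dotProduct_sub, dotProduct_comm y x]
      ring
    rw [e1]
    have e2 : Real.exp (-Real.pi * (x ⬝ᵥ x - 2 * (x ⬝ᵥ y) + y ⬝ᵥ y) / ε) =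
        Real.exp (-(Real.pi * a * (x ⬝ᵥ x))) * (Real.exp (-(Real.pi * a) * (y ⬝ᵥ y)) *
          Real.exp (1 * (2 * Real.pi * a * (x ⬝ᵥ y)))) := by
      rw [← Real.exp_add, ← Real.exp_add]
      congr 1
      rw [ha]
      ring
    rw [e2]
    ring
  rw [hFF, ← hcosh, g2]
  have e5 : (fun y : α → ℝ => wp y * Real.cos (2 * Real.pi * a * ((x ⬝ᵥ y) / a))) =
      fun y => cc * ((p y ^ m)⁻¹ * Real.exp (-Real.pi * ε * (y ⬝ᵥ y)) *
        Real.cos (2 * Real.pi * (x ⬝ᵥ y))) := by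
    funext y
    simp only [hwp]
    have e6 : 2 * Real.pi * a * ((x ⬝ᵥ y) / a) = 2 * Real.pi * (x ⬝ᵥ y) := by
      field_simp
    rw [e6]
    have e7 : -(Real.pi * ε) * (y ⬝ᵥ y) = -Real.pi * ε * (y ⬝ᵥ y) := by ring
    rw [e7]; ring
  rw [e5, integral_const_mul]
  have e8 : Real.exp (Real.pi * β * a ^ 2) = Real.exp (Real.pi * a * (x ⬝ᵥ x)) := by
    congr 1
    rw [hβ]
    field_simp
  rw [e8]
  have e9 : Real.exp (-(Real.pi * a * (x ⬝ᵥ x))) * Real.exp (Real.pi * a * (x ⬝ᵥ x)) = 1 := by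
    rw [← Real.exp_add]; simp
  have e10 : ε ^ (-(n / 2)) * a ^ (-(n / 2)) = 1 := by
    rw [ha, ← Real.mul_rpow hε.le (by positivity), mul_one_div_cancel hε.ne', Real.one_rpow]
  rw [hcc]
  generalize (∫ y : α → ℝ, (p y ^ m)⁻¹ * Real.exp (-Real.pi * ε * (y ⬝ᵥ y)) *
        Real.cos (2 * Real.pi * (x ⬝ᵥ y))) = I
  calc ε ^ (-(n / 2)) * (Real.exp (-(Real.pi * a * (x ⬝ᵥ x))) *
        (Real.exp (Real.pi * a * (x ⬝ᵥ x)) * (c * a ^ (-(n / 2)) * I)))
      = c * I * (ε ^ (-(n / 2)) * a ^ (-(n / 2))) *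
        (Real.exp (-(Real.pi * a * (x ⬝ᵥ x))) * Real.exp (Real.pi * a * (x ⬝ᵥ x))) := by ring
    _ = c * I := by rw [e9, e10]; ring

end Pool.Agent.Helper142.Kib.G2
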