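import Mathlib
import Pool.Agent.Helper142.Kib.Defs

/-! Helper lemma L_log for MP_7548d4_gt. -/

set_option linter.all false

namespace Pool.Agent.Helper142.Kib.L_log

open MeasureTheory Matrix Filter Topology Pool.Agent.Helper142.Kib
open scoped ENNReal

theorem ll_int (c : ℝ) (hc : 0 < c) (R : ℝ) (hR : 0 < R) :
    IntegrableOn (fun u : ℝ => u⁻¹ * Real.exp (-c * u ^ 2)) (Set.Ioi R) := by
  have h1 : IntegrableOn (fun u : ℝ => R⁻¹ * Real.exp (-c * u ^ 2)) (Set.Ioi R) :=
    ((integrable_exp_neg_mul_sq hc).const_mul R⁻¹).integrableOn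
  refine h1.mono' ?_ ?_
  · exact (by fun_prop : Measurable fun u : ℝ => u⁻¹ * Real.exp (-c * u ^ 2)).aestronglyMeasurable
  · rw [ae_restrict_iff' measurableSet_Ioi]
    refine ae_of_all _ fun u hu => ?_
    have hu' : R < u := hu
    have hu0 : 0 < u := hR.trans hu'
    rw [norm_mul, norm_inv, Real.norm_eq_abs, Real.norm_eq_abs, abs_of_pos hu0,
      abs_of_pos (Real.exp_pos _)]
    exact mul_le_mul_of_nonneg_right (inv_anti₀ hR hu'.le) (Real.exp_pos _).le

theorem ll_up (T : ℝ) (hT : 1 ≤ T) :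
    ∫ u in Set.Ioi (1 : ℝ), u⁻¹ * Real.exp (-(T ^ 2)⁻¹ * u ^ 2) ≤ Real.log T + Real.sqrt Real.pi := by
  have hT0 : 0 < T := by linarith
  set c : ℝ := (T ^ 2)⁻¹ with hc
  have hc0 : 0 < c := by positivity
  have hint := ll_int c hc0 1 one_pos
  have hsplit : Set.Ioi (1 : ℝ) = Set.Ioc 1 T ∪ Set.Ioi T := (Set.Ioc_union_Ioi_eq_Ioi hT).symm
  have hd : Disjoint (Set.Ioc 1 T) (Set.Ioi T) := by
    rw [Set.disjoint_left]
    intro x hx hx'
    exact absurd hx.2 (not_le.2 hx')
  have hi1 : IntegrableOn (fun u : ℝ => u⁻¹ * Real.exp (-c * u ^ 2)) (Set.Ioc 1 T) :=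
    hint.mono_set (by rw [hsplit]; exact Set.subset_union_left)
  have hi2 : IntegrableOn (fun u : ℝ => u⁻¹ * Real.exp (-c * u ^ 2)) (Set.Ioi T) :=
    hint.mono_set (by rw [hsplit]; exact Set.subset_union_right)
  rw [hsplit, setIntegral_union hd measurableSet_Ioi hi1 hi2]
  have b1 : ∫ u in Set.Ioc 1 T, u⁻¹ * Real.exp (-c * u ^ 2) ≤ Real.log T := by
    have hinv : IntegrableOn (fun u : ℝ => u⁻¹) (Set.Ioc 1 T) := by
      have : IntervalIntegrable (fun u : ℝ => u⁻¹) volume 1 T := by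
        apply ContinuousOn.intervalIntegrable
        apply ContinuousOn.inv₀ continuousOn_id
        intro x hx
        rw [Set.uIcc_of_le hT] at hx
        have := hx.1
        show x ≠ 0
        linarith
      exact (intervalIntegrable_iff_integrableOn_Ioc_of_le hT).1 this
    calc ∫ u in Set.Ioc 1 T, u⁻¹ * Real.exp (-c * u ^ 2) ≤ ∫ u in Set.Ioc 1 T, u⁻¹ := by
          refine setIntegral_mono_on hi1 hinv measurableSet_Ioc fun u hu => ?_
          have hu0 : 0 < u := by linarith [hu.1]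
          have : Real.exp (-c * u ^ 2) ≤ 1 := by
            rw [Real.exp_le_one_iff]
            have := mul_nonneg hc0.le (sq_nonneg u)
            linarith
          calc u⁻¹ * Real.exp (-c * u ^ 2) ≤ u⁻¹ * 1 :=
                mul_le_mul_of_nonneg_left this (inv_nonneg.2 hu0.le)
            _ = u⁻¹ := mul_one _
      _ = ∫ u in (1 : ℝ)..T, u⁻¹ := (intervalIntegral.integral_of_le hT).symm
      _ = Real.log T := by
          rw [integral_inv_of_pos one_pos hT0, div_one]
  have b2 : ∫ u in Set.Ioi T, u⁻¹ * Real.exp (-c * u ^ 2) ≤ Real.sqrt Real.pi := by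
    have hg : Integrable (fun u : ℝ => T⁻¹ * Real.exp (-c * u ^ 2)) :=
      (integrable_exp_neg_mul_sq hc0).const_mul T⁻¹
    calc ∫ u in Set.Ioi T, u⁻¹ * Real.exp (-c * u ^ 2)
        ≤ ∫ u in Set.Ioi T, T⁻¹ * Real.exp (-c * u ^ 2) := by
          refine setIntegral_mono_on hi2 hg.integrableOn measurableSet_Ioi fun u hu => ?_
          have hu' : T < u := hu
          exact mul_le_mul_of_nonneg_right (inv_anti₀ hT0 hu'.le) (Real.exp_pos _).le
      _ ≤ ∫ u, T⁻¹ * Real.exp (-c * u ^ 2) := by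
          refine setIntegral_le_integral hg (ae_of_all _ fun u => ?_)
          show 0 ≤ T⁻¹ * Real.exp (-c * u ^ 2)
          positivity
      _ = T⁻¹ * Real.sqrt (Real.pi / c) := by
          rw [integral_const_mul, integral_gaussian]
      _ = Real.sqrt Real.pi := by
          rw [hc, div_inv_eq_mul, Real.sqrt_mul Real.pi_pos.le, Real.sqrt_sq hT0.le]
          field_simp
  linarith

theorem ll_low (T R B : ℝ) (hR : 0 < R) (hB : 0 < B) (hT : R ≤ T) :
    Real.log T - Real.log R - B / 2 ≤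
      ∫ u in Set.Ioi R, u⁻¹ * Real.exp (-(T ^ 2)⁻¹ * B * u ^ 2) := by
  have hT0 : 0 < T := by linarith
  set c : ℝ := (T ^ 2)⁻¹ * B with hc
  have hc0 : 0 < c := by positivity
  have e0 : (fun u : ℝ => u⁻¹ * Real.exp (-(T ^ 2)⁻¹ * B * u ^ 2))
      = fun u : ℝ => u⁻¹ * Real.exp (-c * u ^ 2) := by
    funext u
    rw [hc]
    ring_nf
  rw [e0]
  have hint := ll_int c hc0 R hR
  have hi1 : IntegrableOn (fun u : ℝ => u⁻¹ * Real.exp (-c * u ^ 2)) (Set.Ioc R T) :=
    hint.mono_set Set.Ioc_subset_Ioi_self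
  have hinv : IntervalIntegrable (fun u : ℝ => u⁻¹) volume R T := by
    apply ContinuousOn.intervalIntegrable
    apply ContinuousOn.inv₀ continuousOn_id
    intro x hx
    rw [Set.uIcc_of_le hT] at hx
    have := hx.1
    show x ≠ 0
    linarith
  have hlin : IntervalIntegrable (fun u : ℝ => c * u) volume R T :=
    (continuous_const.mul continuous_id).intervalIntegrable _ _
  calc Real.log T - Real.log R - B / 2
      ≤ Real.log (T / R) - c * ((T ^ 2 - R ^ 2) / 2) := by
        rw [Real.log_div hT0.ne' hR.ne']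
        have h1 : c * ((T ^ 2 - R ^ 2) / 2) ≤ B / 2 := by
          have h2 : c * T ^ 2 = B := by rw [hc]; field_simp
          have h3 : 0 ≤ c * R ^ 2 := by positivity
          nlinarith
        linarith
    _ = ∫ u in R..T, (u⁻¹ - c * u) := by
        rw [intervalIntegral.integral_sub hinv hlin, integral_inv_of_pos hR hT0,
          intervalIntegral.integral_const_mul, integral_id]
    _ = ∫ u in Set.Ioc R T, (u⁻¹ - c * u) := intervalIntegral.integral_of_le hT
    _ ≤ ∫ u in Set.Ioc R T, u⁻¹ * Real.exp (-c * u ^ 2) := by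
        refine setIntegral_mono_on
          ((intervalIntegrable_iff_integrableOn_Ioc_of_le hT).1 (hinv.sub hlin)) hi1
          measurableSet_Ioc fun u hu => ?_
        have hu0 : 0 < u := by linarith [hu.1]
        have h1 := Real.add_one_le_exp (-c * u ^ 2)
        calc u⁻¹ - c * u = u⁻¹ * (-c * u ^ 2 + 1) := by field_simp; ring
          _ ≤ u⁻¹ * Real.exp (-c * u ^ 2) := mul_le_mul_of_nonneg_left h1 (inv_nonneg.2 hu0.le)
    _ ≤ ∫ u in Set.Ioi R, u⁻¹ * Real.exp (-c * u ^ 2) := by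
        refine setIntegral_mono_set hint ?_ (ae_of_all _ Set.Ioc_subset_Ioi_self)
        rw [EventuallyLE, ae_restrict_iff' measurableSet_Ioi]
        refine ae_of_all _ fun u hu => ?_
        have hu' : R < u := hu
        have hu0 : 0 < u := hR.trans hu'
        show 0 ≤ u⁻¹ * Real.exp (-c * u ^ 2)
        positivity

/-- TARGET: prove this. -/
theorem L_log (V W R B M η : ℝ) (hV : 0 ≤ V) (hW : 0 ≤ W) (hR : 0 < R) (hB : 0 < B)
    (N : ℕ) (h0 : 0 < η) (h1 : η < 1)
    (h : ∀ δ : ℝ, 0 < δ → (1 - η) ^ N * V * (∫ u in Set.Ioi R, u⁻¹ * Real.exp (-δ * B * u ^ 2)) ≤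
      M + W * ∫ u in Set.Ioi (1 : ℝ), u⁻¹ * Real.exp (-δ * u ^ 2)) :
    (1 - η) ^ N * V ≤ W := by
  by_contra hcon
  push Not at hcon
  set A : ℝ := (1 - η) ^ N * V with hA
  have hA0 : 0 ≤ A := mul_nonneg (pow_nonneg (by linarith) _) hV
  set K : ℝ := M + W * Real.sqrt Real.pi + A * (Real.log R + B / 2) with hK
  set x : ℝ := max (max 0 (Real.log R)) ((K + 1) / (A - W)) with hx
  have hx0 : 0 ≤ x := (le_max_left _ _).trans (le_max_left _ _)
  have hxR : Real.log R ≤ x := (le_max_right _ _).trans (le_max_left _ _)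
  have hxK : (K + 1) / (A - W) ≤ x := le_max_right _ _
  have hT1 : 1 ≤ Real.exp x := Real.one_le_exp hx0
  have hTR : R ≤ Real.exp x := by
    rw [← Real.log_le_iff_le_exp hR]
    exact hxR
  have hup := ll_up (Real.exp x) hT1
  have hlow := ll_low (Real.exp x) R B hR hB hTR
  have hh := h ((Real.exp x) ^ 2)⁻¹ (by positivity)
  rw [Real.log_exp] at hup hlow
  have h2 : A * (x - Real.log R - B / 2) ≤ M + W * (x + Real.sqrt Real.pi) :=
    (mul_le_mul_of_nonneg_left hlow hA0).trans
      (hh.trans (by linarith [mul_le_mul_of_nonneg_left hup hW]))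
  have h3 : K + 1 ≤ x * (A - W) := by
    rwa [div_le_iff₀ (by linarith)] at hxK
  have h4 : x * (A - W) ≤ K := by
    rw [hK]
    nlinarith [h2]
  linarith

end Pool.Agent.Helper142.Kib.L_log
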