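import Mathlib
import Pool.Agent.Helper142.Kib.Defs
import Pool.Agent.Helper142.Kib.B_int
import Pool.Agent.Helper142.Kib.B_bounds
import Pool.Agent.Helper142.Kib.Nn_isG

/-! Helper lemma L_low for MP_7548d4_gt. -/

set_option linter.all false

namespace Pool.Agent.Helper142.Kib.L_low

open MeasureTheory Matrix Filter Topology Pool.Agent.Helper142.Kib
open scoped ENNReal
open Pool.Agent.Helper142.Kib.B_int Pool.Agent.Helper142.Kib.B_bounds Pool.Agent.Helper142.Kib.Nn_isG

theorem L_low_gauss {α : Type} [Fintype α] :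
    ∫ z : α → ℝ, Real.exp (-Real.pi * (z ⬝ᵥ z)) = 1 := by
  have h1 : ∀ z : α → ℝ, Real.exp (-Real.pi * (z ⬝ᵥ z)) = ∏ i, Real.exp (-Real.pi * (z i)^2) := by
    intro z
    rw [← Real.exp_sum]
    congr 1
    simp only [dotProduct, Finset.mul_sum]
    apply Finset.sum_congr rfl
    intros
    ring
  simp_rw [h1]
  rw [integral_fintype_prod_volume_eq_pow (fun x : ℝ => Real.exp (-Real.pi * x^2))]
  rw [integral_gaussian, div_self Real.pi_pos.ne', Real.sqrt_one, one_pow]

theorem L_low_norm_le {α : Type} [Fintype α] (x : α → ℝ) : ‖x‖ ≤ nn x := by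
  unfold nn
  rw [pi_norm_le_iff_of_nonneg (Real.sqrt_nonneg _)]
  intro i
  rw [Real.norm_eq_abs]
  apply Real.abs_le_sqrt
  simp only [dotProduct]
  have := Finset.single_le_sum (f := fun i => x i * x i) (fun j _ => mul_self_nonneg (x j))
    (Finset.mem_univ i)
  have h2 : x i ^ 2 = x i * x i := by ring
  rw [h2]
  exact this

/-- TARGET: prove this. -/
theorem L_low {α : Type} [Fintype α] [Nonempty α] (r : (α → ℝ) → ℝ) (hr : IsG r) (k : ℕ)
    (hk : 0 < k) (hkn : k < Fintype.card α) (η : ℝ) (h0 : 0 < η) (h1 : η < 1) :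
    ∃ R : ℝ, 0 < R ∧ ∀ x, R ≤ r x → (1 - η) * (r x ^ k)⁻¹ ≤ FF r k 1 x := by
  classical
  obtain ⟨b, B, hb, hB, hbB⟩ := b_bounds r hr
  have hcard : 0 < Fintype.card α := Fintype.card_pos
  have hGint : Integrable (fun z : α → ℝ => Real.exp (-Real.pi * (z ⬝ᵥ z))) := by
    have := b_int (nn : (α → ℝ) → ℝ) nn_isG 0 hcard Real.pi Real.pi_pos
    simpa using this
  -- choice of T
  obtain ⟨T, hT⟩ : ∃ T : ℕ, 1 - η / 2 <
      ∫ z in Metric.closedBall (0 : α → ℝ) T, Real.exp (-Real.pi * (z ⬝ᵥ z)) := by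
    have hU : (⋃ n : ℕ, Metric.closedBall (0 : α → ℝ) (n : ℝ)) = Set.univ :=
      Metric.iUnion_closedBall_nat 0
    have ht := tendsto_setIntegral_of_monotone (μ := volume)
      (s := fun n : ℕ => Metric.closedBall (0 : α → ℝ) (n : ℝ))
      (f := fun z : α → ℝ => Real.exp (-Real.pi * (z ⬝ᵥ z)))
      (fun i => Metric.isClosed_closedBall.measurableSet)
      (fun i j hij => Metric.closedBall_subset_closedBall (by exact_mod_cast hij))
      (by rw [hU]; exact hGint.integrableOn)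
    rw [hU, setIntegral_univ, L_low_gauss] at ht
    exact (ht.eventually (lt_mem_nhds (by linarith : 1 - η / 2 < 1))).exists
  have hk' : (0 : ℝ) < k := by exact_mod_cast hk
  have hk1 : (1 : ℝ) ≤ k := by exact_mod_cast hk
  obtain ⟨q, hq⟩ : ∃ q : ℝ, q = 1 - η / (2 * k) := ⟨_, rfl⟩
  have hηk : η / (2 * k) ≤ η / 2 := by
    apply div_le_div_of_nonneg_left h0.le (by norm_num) (by linarith)
  have hηk0 : 0 < η / (2 * k) := by positivity
  have hq0 : 0 < q := by rw [hq]; linarith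
  have hq1 : q < 1 := by rw [hq]; linarith
  have hqk : 1 - η / 2 ≤ q ^ k := by
    have := one_add_mul_le_pow (a := -(η / (2 * k))) (by linarith) k
    have e : (k : ℝ) * -(η / (2 * k)) = - (η / 2) := by field_simp
    rw [e] at this
    rw [hq, sub_eq_add_neg 1 (η / (2 * (k : ℝ)))]
    linarith [this]
  have hε : 0 < 1 / q - 1 := by
    have : 1 < 1 / q := by rw [lt_div_iff₀ hq0]; linarith
    linarith
  -- uniform continuity
  have huc : UniformContinuousOn r (Metric.closedBall (0 : α → ℝ) (1 / b + 1)) :=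
    (isCompact_closedBall _ _).uniformContinuousOn_of_continuous hr.cont.continuousOn
  rw [Metric.uniformContinuousOn_iff] at huc
  obtain ⟨δ, hδ, hδu⟩ := huc (min (1 / q - 1) (1 / 2)) (by positivity)
  obtain ⟨R, hR⟩ : ∃ R : ℝ, R = (T + 1) / (min δ 1) := ⟨_, rfl⟩
  have hmin : 0 < min δ 1 := by positivity
  have hR0 : 0 < R := by rw [hR]; positivity
  refine ⟨R, hR0, ?_⟩
  intro x hx
  obtain ⟨ρ, hρ⟩ : ∃ ρ, ρ = r x := ⟨_, rfl⟩
  rw [← hρ] at hx ⊢
  have hρ0 : 0 < ρ := hR0.trans_le hx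
  have hkey : ∀ z ∈ Metric.closedBall (0 : α → ℝ) T, 0 < r (x + z) ∧ r (x + z) ≤ ρ / q := by
    intro z hz
    rw [mem_closedBall_zero_iff] at hz
    have hx1 : r (ρ⁻¹ • x) = 1 := by
      rw [hr.hom, abs_of_pos (by positivity), ← hρ]
      field_simp
    have hxn : ‖ρ⁻¹ • x‖ ≤ 1 / b := by
      refine (L_low_norm_le _).trans ?_
      have := (hbB (ρ⁻¹ • x)).1
      rw [hx1] at this
      rw [le_div_iff₀ hb]
      linarith
    have hzn : ‖ρ⁻¹ • z‖ < min δ 1 := by
      rw [norm_smul, norm_inv, Real.norm_of_nonneg hρ0.le, inv_mul_lt_iff₀ hρ0]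
      have h2 : R * min δ 1 = T + 1 := by rw [hR]; field_simp
      have h3 : R * min δ 1 ≤ ρ * min δ 1 := mul_le_mul_of_nonneg_right hx hmin.le
      linarith
    have hz1 : ‖ρ⁻¹ • z‖ < δ := lt_of_lt_of_le hzn (min_le_left _ _)
    have hz2 : ‖ρ⁻¹ • z‖ < 1 := lt_of_lt_of_le hzn (min_le_right _ _)
    have h4 := hδu (ρ⁻¹ • x + ρ⁻¹ • z) (by
      rw [mem_closedBall_zero_iff]
      exact (norm_add_le _ _).trans (by linarith)) (ρ⁻¹ • x) (by
      rw [mem_closedBall_zero_iff]; linarith) (by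
      rw [dist_eq_norm, add_sub_cancel_left]; exact hz1)
    rw [hx1, Real.dist_eq] at h4
    have h5 : |r (ρ⁻¹ • x + ρ⁻¹ • z) - 1| < 1 / q - 1 := lt_of_lt_of_le h4 (min_le_left _ _)
    have h6 : |r (ρ⁻¹ • x + ρ⁻¹ • z) - 1| < 1 / 2 := lt_of_lt_of_le h4 (min_le_right _ _)
    rw [abs_lt] at h5 h6
    have h7 : r (x + z) = ρ * r (ρ⁻¹ • x + ρ⁻¹ • z) := by
      rw [← smul_add, hr.hom, abs_of_pos (by positivity)]
      field_simp
    rw [h7]
    constructor
    · apply mul_pos hρ0; linarith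
    · rw [div_eq_mul_one_div]
      exact mul_le_mul_of_nonneg_left (by linarith) hρ0.le
  -- rewrite the average
  have hFF : FF r k 1 x = ∫ y : α → ℝ, (r y ^ k)⁻¹ * Real.exp (-Real.pi * ((x - y) ⬝ᵥ (x - y))) := by
    unfold FF
    simp
  have hrm : Measurable r := hr.cont.measurable
  have hfint : Integrable (fun y : α → ℝ =>
      (r y ^ k)⁻¹ * Real.exp (-Real.pi * ((x - y) ⬝ᵥ (x - y)))) := by
    have hI := (b_int r hr k hkn (Real.pi / 2) (by positivity)).const_mul
      (Real.exp (Real.pi * (x ⬝ᵥ x)))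
    refine Integrable.mono' hI ?_ ?_
    · apply Measurable.aestronglyMeasurable
      apply Measurable.mul ((hrm.pow_const k).inv)
      apply Real.measurable_exp.comp
      apply Measurable.const_mul
      simp only [dotProduct]
      apply Finset.measurable_sum
      intro i _
      exact ((measurable_const).sub (measurable_pi_apply i)).mul
        ((measurable_const).sub (measurable_pi_apply i))
    · refine Filter.Eventually.of_forall (fun y => ?_)
      have hry : 0 ≤ r y := by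
        have := (hbB y).1
        have h2 : 0 ≤ b * nn y := mul_nonneg hb.le (Real.sqrt_nonneg _)
        linarith
      rw [Real.norm_of_nonneg (by positivity)]
      have h3 : Real.exp (-Real.pi * ((x - y) ⬝ᵥ (x - y))) ≤
          Real.exp (Real.pi * (x ⬝ᵥ x)) * Real.exp (-(Real.pi / 2) * (y ⬝ᵥ y)) := by
        rw [← Real.exp_add, Real.exp_le_exp]
        have h4 : y ⬝ᵥ y ≤ 2 * ((x - y) ⬝ᵥ (x - y)) + 2 * (x ⬝ᵥ x) := by
          simp only [dotProduct, Finset.mul_sum, ← Finset.sum_add_distrib]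
          apply Finset.sum_le_sum
          intro i _
          simp only [Pi.sub_apply]
          nlinarith [sq_nonneg (2 * x i - y i)]
        have h5 := mul_le_mul_of_nonneg_left h4 Real.pi_pos.le
        nlinarith
      have h6 : 0 ≤ (r y ^ k)⁻¹ := by positivity
      calc (r y ^ k)⁻¹ * Real.exp (-Real.pi * ((x - y) ⬝ᵥ (x - y)))
          ≤ (r y ^ k)⁻¹ * (Real.exp (Real.pi * (x ⬝ᵥ x)) * Real.exp (-(Real.pi / 2) * (y ⬝ᵥ y))) :=
            mul_le_mul_of_nonneg_left h3 h6
        _ = _ := by ring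
  have hFF2 : FF r k 1 x = ∫ z : α → ℝ, (r (x + z) ^ k)⁻¹ * Real.exp (-Real.pi * (z ⬝ᵥ z)) := by
    rw [hFF, ← integral_add_left_eq_self _ x]
    congr 1
    funext z
    have : x - (x + z) = -z := by abel
    rw [this, neg_dotProduct_neg]
  have hfint2 : Integrable (fun z : α → ℝ => (r (x + z) ^ k)⁻¹ * Real.exp (-Real.pi * (z ⬝ᵥ z))) := by
    have h := hfint.comp_add_left x
    refine h.congr (Filter.Eventually.of_forall (fun z => ?_))
    have : x - (x + z) = -z := by abel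
    simp only [this, neg_dotProduct_neg]
  have hnn2 : ∀ z : α → ℝ, 0 ≤ (r (x + z) ^ k)⁻¹ * Real.exp (-Real.pi * (z ⬝ᵥ z)) := by
    intro z
    have hry : 0 ≤ r (x + z) := by
      have := (hbB (x + z)).1
      have h2 : 0 ≤ b * nn (x + z) := mul_nonneg hb.le (Real.sqrt_nonneg _)
      linarith
    positivity
  rw [hFF2]
  have hρk : 0 < (ρ ^ k)⁻¹ := by positivity
  calc (1 - η) * (ρ ^ k)⁻¹ ≤ ((1 - η / 2) * (ρ ^ k)⁻¹) * (1 - η / 2) := by
        have : (1 - η) ≤ (1 - η / 2) * (1 - η / 2) := by nlinarith [sq_nonneg η]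
        have := mul_le_mul_of_nonneg_right this hρk.le
        linarith
    _ ≤ ((1 - η / 2) * (ρ ^ k)⁻¹) *
        ∫ z in Metric.closedBall (0 : α → ℝ) T, Real.exp (-Real.pi * (z ⬝ᵥ z)) := by
        apply mul_le_mul_of_nonneg_left hT.le
        apply mul_nonneg (by linarith) hρk.le
    _ = ∫ z in Metric.closedBall (0 : α → ℝ) T,
        ((1 - η / 2) * (ρ ^ k)⁻¹) * Real.exp (-Real.pi * (z ⬝ᵥ z)) := by
        rw [integral_const_mul]
    _ ≤ ∫ z in Metric.closedBall (0 : α → ℝ) T,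
        (r (x + z) ^ k)⁻¹ * Real.exp (-Real.pi * (z ⬝ᵥ z)) := by
        apply setIntegral_mono_on (hGint.const_mul _).integrableOn hfint2.integrableOn
          Metric.isClosed_closedBall.measurableSet
        intro z hz
        apply mul_le_mul_of_nonneg_right _ (Real.exp_pos _).le
        obtain ⟨h1', h2'⟩ := hkey z hz
        have h3 : r (x + z) ^ k ≤ (ρ / q) ^ k := pow_le_pow_left₀ h1'.le h2' k
        have h4 : ((ρ / q) ^ k)⁻¹ ≤ (r (x + z) ^ k)⁻¹ := inv_anti₀ (by positivity) h3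
        refine le_trans ?_ h4
        rw [div_pow, inv_div, div_eq_mul_inv]
        exact mul_le_mul_of_nonneg_right hqk hρk.le
    _ ≤ ∫ z : α → ℝ, (r (x + z) ^ k)⁻¹ * Real.exp (-Real.pi * (z ⬝ᵥ z)) :=
        setIntegral_le_integral hfint2 (Filter.Eventually.of_forall hnn2)

end Pool.Agent.Helper142.Kib.L_low
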