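import Mathlib
import Pool.Agent.Helper142.Kib.Defs

/-! Helper lemma L_up1 for MP_7548d4_gt. -/

set_option linter.all false

namespace Pool.Agent.Helper142.Kib.L_up1

open MeasureTheory Matrix Filter Topology Pool.Agent.Helper142.Kib
open scoped ENNReal

lemma gprod {α : Type} [Fintype α] (a : ℝ) (m y : α → ℝ) :
    Real.exp (-a * ((y - m) ⬝ᵥ (y - m))) = ∏ i, Real.exp (-a * (y i - m i) ^ 2) := by
  rw [← Real.exp_sum]
  congr 1
  unfold dotProduct
  rw [Finset.mul_sum]
  refine Finset.sum_congr rfl fun i _ => ?_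
  simp only [Pi.sub_apply]
  ring

lemma gint {α : Type} [Fintype α] (a : ℝ) (ha : 0 < a) (m : α → ℝ) :
    Integrable (fun y : α → ℝ => Real.exp (-a * ((y - m) ⬝ᵥ (y - m)))) ∧
    ∫ y : α → ℝ, Real.exp (-a * ((y - m) ⬝ᵥ (y - m))) =
      Real.sqrt (Real.pi / a) ^ (Fintype.card α) := by
  have h1 : ∀ i : α, Integrable (fun s : ℝ => Real.exp (-a * (s - m i) ^ 2)) := fun i =>
    (integrable_exp_neg_mul_sq ha).comp_sub_right (m i)
  have h2 : ∀ i : α, ∫ s : ℝ, Real.exp (-a * (s - m i) ^ 2) = Real.sqrt (Real.pi / a) := by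
    intro i
    rw [integral_sub_right_eq_self (fun s : ℝ => Real.exp (-a * s ^ 2)) (m i)]
    exact integral_gaussian a
  simp_rw [gprod a m]
  constructor
  · exact MeasureTheory.Integrable.fintype_prod (f := fun i s => Real.exp (-a * (s - m i) ^ 2)) h1
  · rw [MeasureTheory.integral_fintype_prod_volume_eq_prod (fun i s => Real.exp (-a * (s - m i) ^ 2))]
    simp only [h2, Finset.prod_const, Finset.card_univ]

/-- TARGET: prove this. -/
theorem L_up1 {α : Type} [Fintype α] (t ε : ℝ) (ht : 0 < t) (hε : 0 < ε) (x : α → ℝ) :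
    Integrable (fun y : α → ℝ => Real.exp (-t * (y ⬝ᵥ y)) *
      Real.exp (-Real.pi * ((x - y) ⬝ᵥ (x - y)) / ε)) ∧
    ε ^ (-((Fintype.card α : ℝ) / 2)) * ∫ y : α → ℝ, Real.exp (-t * (y ⬝ᵥ y)) *
      Real.exp (-Real.pi * ((x - y) ⬝ᵥ (x - y)) / ε) =
    (1 + t * ε / Real.pi) ^ (-((Fintype.card α : ℝ) / 2)) *
      Real.exp (-(t / (1 + t * ε / Real.pi)) * (x ⬝ᵥ x)) := by
  have hpi := Real.pi_pos
  set d : ℝ := 1 + t * ε / Real.pi with hd
  have hd0 : 0 < d := by positivity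
  set a : ℝ := Real.pi / ε * d with ha
  have ha0 : 0 < a := by positivity
  have haeq : a = t + Real.pi / ε := by
    rw [ha, hd]; field_simp; ring
  set m : α → ℝ := fun i => x i / d with hm
  have key : ∀ y : α → ℝ, Real.exp (-t * (y ⬝ᵥ y)) *
      Real.exp (-Real.pi * ((x - y) ⬝ᵥ (x - y)) / ε) =
      Real.exp (-(t / d) * (x ⬝ᵥ x)) * Real.exp (-a * ((y - m) ⬝ᵥ (y - m))) := by
    intro y
    rw [← Real.exp_add, ← Real.exp_add]
    congr 1
    unfold dotProduct
    rw [mul_div_right_comm]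
    rw [Finset.mul_sum, Finset.mul_sum, Finset.mul_sum, Finset.mul_sum,
      ← Finset.sum_add_distrib, ← Finset.sum_add_distrib]
    refine Finset.sum_congr rfl fun i _ => ?_
    simp only [Pi.sub_apply, hm]
    have hpe : t * ε = (d - 1) * Real.pi := by rw [hd]; field_simp; ring
    have ht' : t = (d - 1) * Real.pi / ε := by
      rw [← hpe]; field_simp
    rw [ha, ht']
    field_simp
    ring
  simp_rw [key]
  obtain ⟨g1, g2⟩ := gint a ha0 m
  refine ⟨g1.const_mul _, ?_⟩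
  rw [integral_const_mul, g2]
  have h3 : Real.pi / a = ε / d := by rw [ha]; field_simp
  rw [h3]
  have h4 : Real.sqrt (ε / d) ^ (Fintype.card α) = (ε / d) ^ ((Fintype.card α : ℝ) / 2) := by
    rw [Real.sqrt_eq_rpow, ← Real.rpow_natCast, ← Real.rpow_mul (by positivity)]
    congr 1
    ring
  rw [h4, Real.div_rpow hε.le hd0.le, Real.rpow_neg hε.le, Real.rpow_neg hd0.le]
  have h5 : 0 < ε ^ ((Fintype.card α : ℝ) / 2) := Real.rpow_pos_of_pos hε _
  have h6 : 0 < d ^ ((Fintype.card α : ℝ) / 2) := Real.rpow_pos_of_pos hd0 _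
  field_simp

end Pool.Agent.Helper142.Kib.L_up1
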