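import Mathlib
import Pool.Agent.Helper142.Kib.Defs

/-! Helper lemma mix1 for MP_7548d4_gt. -/

set_option linter.all false

namespace Pool.Agent.Helper142.Kib.Mix1

open MeasureTheory Matrix Filter Topology Pool.Agent.Helper142.Kib
open scoped ENNReal

/-- TARGET: prove this. -/
theorem mix1 (m : ℕ) (hm : 0 < m) (β z : ℝ) (hz : 0 < z) :
    ENNReal.ofReal ((z ^ m)⁻¹ * Real.exp (-β * z ^ 2)) =
      ENNReal.ofReal (Real.Gamma ((m : ℝ) / 2))⁻¹ * ∫⁻ t in Set.Ioi (0 : ℝ),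
        ENNReal.ofReal (t ^ ((m : ℝ) / 2 - 1) * Real.exp (-(t + β) * z ^ 2)) := by
  have ha : 0 < (m : ℝ) / 2 := by positivity
  have hr : 0 < z ^ 2 := by positivity
  have hG : 0 < Real.Gamma ((m : ℝ) / 2) := Real.Gamma_pos_of_pos ha
  have key := Real.integral_rpow_mul_exp_neg_mul_Ioi ha hr
  have hfun : ∀ t : ℝ, t ^ ((m : ℝ) / 2 - 1) * Real.exp (-(t + β) * z ^ 2) =
      Real.exp (-β * z ^ 2) * (t ^ ((m : ℝ) / 2 - 1) * Real.exp (-(z ^ 2 * t))) := by
    intro t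
    have : Real.exp (-(t + β) * z ^ 2) = Real.exp (-β * z ^ 2) * Real.exp (-(z ^ 2 * t)) := by
      rw [← Real.exp_add]; congr 1; ring
    rw [this]; ring
  have hpow : (1 / z ^ 2) ^ ((m : ℝ) / 2) = (z ^ m)⁻¹ := by
    rw [one_div, Real.inv_rpow hr.le]
    congr 1
    rw [← Real.rpow_natCast z 2, ← Real.rpow_mul hz.le, ← Real.rpow_natCast z m]
    congr 1
    push_cast; ring
  have hint : Integrable (fun t : ℝ => t ^ ((m : ℝ) / 2 - 1) * Real.exp (-(z ^ 2 * t)))
      (volume.restrict (Set.Ioi (0 : ℝ))) := by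
    by_contra h
    rw [integral_undef h] at key
    have : 0 < (1 / z ^ 2) ^ ((m : ℝ) / 2) * Real.Gamma ((m : ℝ) / 2) := by
      rw [hpow]; positivity
    linarith
  have h1 : ∫⁻ t in Set.Ioi (0 : ℝ),
        ENNReal.ofReal (t ^ ((m : ℝ) / 2 - 1) * Real.exp (-(t + β) * z ^ 2)) =
      ENNReal.ofReal (∫ t in Set.Ioi (0 : ℝ), Real.exp (-β * z ^ 2) *
        (t ^ ((m : ℝ) / 2 - 1) * Real.exp (-(z ^ 2 * t)))) := by
    rw [ofReal_integral_eq_lintegral_ofReal (hint.const_mul _)]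
    · refine lintegral_congr (fun t => ?_)
      rw [hfun t]
    · refine (ae_restrict_iff' measurableSet_Ioi).2 (Filter.Eventually.of_forall (fun t ht => ?_))
      have ht0 : (0 : ℝ) < t := ht
      show (0 : ℝ) ≤ _
      positivity
  rw [h1, integral_const_mul, key, hpow, ← ENNReal.ofReal_mul (by positivity)]
  congr 1
  field_simp

end Pool.Agent.Helper142.Kib.Mix1
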