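import Mathlib
import Pool.Agent.Helper142.Kib.Defs
import Pool.Agent.Helper142.Kib.L_up1
import Pool.Agent.Helper142.Kib.B_int
import Pool.Agent.Helper142.Kib.Nn_isG
import Pool.Agent.Helper142.Kib.Mix1

/-! Helper lemma L_up for MP_7548d4_gt. -/

set_option linter.all false

namespace Pool.Agent.Helper142.Kib.L_up

open MeasureTheory Matrix Filter Topology Pool.Agent.Helper142.Kib
open scoped ENNReal
open Pool.Agent.Helper142.Kib.L_up1 Pool.Agent.Helper142.Kib.B_int Pool.Agent.Helper142.Kib.Nn_isG Pool.Agent.Helper142.Kib.Mix1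

theorem L_up_sq {α : Type} [Fintype α] (y : α → ℝ) : nn y ^ 2 = y ⬝ᵥ y := by
  unfold nn
  exact Real.sq_sqrt (by
    rw [dotProduct]
    exact Finset.sum_nonneg fun i _ => mul_self_nonneg _)

theorem L_up_I {α : Type} [Fintype α] [Nonempty α] (k : ℕ) (hk : 0 < k) (ε : ℝ) (hε : 0 < ε)
    (x : α → ℝ) :
    ENNReal.ofReal (ε ^ (-((Fintype.card α : ℝ) / 2))) *
      (∫⁻ y : α → ℝ, ENNReal.ofReal ((nn y ^ k)⁻¹ *
        Real.exp (-Real.pi * ((x - y) ⬝ᵥ (x - y)) / ε))) =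
    ENNReal.ofReal (Real.Gamma ((k : ℝ) / 2))⁻¹ * ∫⁻ t in Set.Ioi (0 : ℝ),
      ENNReal.ofReal (t ^ ((k : ℝ) / 2 - 1) * ((1 + t * ε / Real.pi) ^ (-((Fintype.card α : ℝ) / 2)) *
        Real.exp (-(t / (1 + t * ε / Real.pi)) * (x ⬝ᵥ x)))) := by
  have hnn : Continuous (nn : (α → ℝ) → ℝ) := nn_isG.cont
  have hG : Continuous (fun y : α → ℝ => Real.exp (-Real.pi * ((x - y) ⬝ᵥ (x - y)) / ε)) := by
    have : Continuous (fun y : α → ℝ => (x - y) ⬝ᵥ (x - y)) := by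
      simp only [dotProduct]
      fun_prop
    fun_prop
  have h1 : (∫⁻ y : α → ℝ, ENNReal.ofReal ((nn y ^ k)⁻¹ *
        Real.exp (-Real.pi * ((x - y) ⬝ᵥ (x - y)) / ε))) =
      ∫⁻ y : α → ℝ, ENNReal.ofReal (Real.Gamma ((k : ℝ) / 2))⁻¹ * ∫⁻ t in Set.Ioi (0 : ℝ),
        (ENNReal.ofReal (t ^ ((k : ℝ) / 2 - 1) * Real.exp (-(t + 0) * nn y ^ 2)) *
          ENNReal.ofReal (Real.exp (-Real.pi * ((x - y) ⬝ᵥ (x - y)) / ε))) := by
    apply lintegral_congr_ae
    have hae : ({0} : Set (α → ℝ))ᶜ ∈ ae (volume : Measure (α → ℝ)) := by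
      haveI : NoAtoms (volume : Measure (α → ℝ)) :=
        MeasureTheory.Measure.pi_noAtoms (Classical.arbitrary α)
      exact compl_mem_ae_iff.2 (measure_singleton 0)
    filter_upwards [hae] with y hy
    have hy0 : y ≠ 0 := hy
    have hz : 0 < nn y := nn_isG.pos y hy0
    have h2 := mix1 k hk 0 (nn y) hz
    have e1 : (nn y ^ k)⁻¹ * Real.exp (-0 * nn y ^ 2) = (nn y ^ k)⁻¹ := by
      rw [neg_zero, zero_mul, Real.exp_zero, mul_one]
    rw [e1] at h2
    rw [ENNReal.ofReal_mul (by positivity), h2, mul_assoc,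
      lintegral_mul_const' _ _ ENNReal.ofReal_ne_top]
  rw [h1, lintegral_const_mul' _ _ ENNReal.ofReal_ne_top]
  rw [lintegral_lintegral_swap]
  · rw [mul_left_comm, ← lintegral_const_mul' _ _ ENNReal.ofReal_ne_top]
    congr 1
    apply setLIntegral_congr_fun measurableSet_Ioi
    intro t ht
    have ht0 : (0 : ℝ) < t := ht
    obtain ⟨hi, he⟩ := L_up1 t ε ht0 hε x
    have h3 : (∫⁻ y : α → ℝ, (ENNReal.ofReal (t ^ ((k : ℝ) / 2 - 1) *
        Real.exp (-(t + 0) * nn y ^ 2)) *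
          ENNReal.ofReal (Real.exp (-Real.pi * ((x - y) ⬝ᵥ (x - y)) / ε)))) =
        ENNReal.ofReal (t ^ ((k : ℝ) / 2 - 1)) * ENNReal.ofReal (∫ y : α → ℝ,
          Real.exp (-t * (y ⬝ᵥ y)) * Real.exp (-Real.pi * ((x - y) ⬝ᵥ (x - y)) / ε)) := by
      rw [ofReal_integral_eq_lintegral_ofReal hi (Eventually.of_forall fun y => by positivity),
        ← lintegral_const_mul' _ _ ENNReal.ofReal_ne_top]
      apply lintegral_congr
      intro y
      rw [L_up_sq, add_zero, ENNReal.ofReal_mul (by positivity), mul_assoc,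
        ← ENNReal.ofReal_mul (by positivity)]
    show ENNReal.ofReal (ε ^ (-((Fintype.card α : ℝ) / 2))) * (∫⁻ y : α → ℝ,
      (ENNReal.ofReal (t ^ ((k : ℝ) / 2 - 1) * Real.exp (-(t + 0) * nn y ^ 2)) *
          ENNReal.ofReal (Real.exp (-Real.pi * ((x - y) ⬝ᵥ (x - y)) / ε)))) =
      ENNReal.ofReal (t ^ ((k : ℝ) / 2 - 1) * ((1 + t * ε / Real.pi) ^ (-((Fintype.card α : ℝ) / 2)) *
        Real.exp (-(t / (1 + t * ε / Real.pi)) * (x ⬝ᵥ x))))
    rw [h3, ← he, mul_left_comm, ← ENNReal.ofReal_mul (by positivity),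
      ← ENNReal.ofReal_mul (by positivity)]
  · apply Measurable.aemeasurable
    have m1 : Measurable (fun z : (α → ℝ) × ℝ => z.2 ^ ((k : ℝ) / 2 - 1)) :=
      measurable_snd.pow_const _
    have m2 : Continuous (fun z : (α → ℝ) × ℝ => Real.exp (-(z.2 + 0) * nn z.1 ^ 2)) := by
      fun_prop
    have m3 : Continuous (fun z : (α → ℝ) × ℝ =>
        Real.exp (-Real.pi * ((x - z.1) ⬝ᵥ (x - z.1)) / ε)) := hG.comp continuous_fst
    exact (m1.mul m2.measurable).ennreal_ofReal.mul m3.measurable.ennreal_ofReal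

theorem L_up_sub (k n : ℕ) (hkn : k + 2 ≤ n) (c : ℝ) (hc : 0 < c) (r : ℝ) :
    (∫⁻ t in Set.Ioi (0 : ℝ), ENNReal.ofReal (t ^ ((k : ℝ) / 2 - 1) *
      ((1 + t * c) ^ (-((n : ℝ) / 2)) * Real.exp (-(t / (1 + t * c)) * r)))) ≤
    ∫⁻ u in Set.Ioi (0 : ℝ), ENNReal.ofReal (u ^ ((k : ℝ) / 2 - 1) * Real.exp (-u * r)) := by
  have hder : ∀ t ∈ Set.Ioi (0 : ℝ), HasDerivWithinAt (fun t : ℝ => t / (1 + t * c))
      (1 / (1 + t * c) ^ 2) (Set.Ioi 0) t := by
    intro t ht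
    have ht0 : (0 : ℝ) < t := ht
    have hne : 1 + t * c ≠ 0 := by positivity
    have h1 : HasDerivAt (fun t : ℝ => 1 + t * c) (1 * c) t :=
      ((hasDerivAt_id t).mul_const c).const_add 1
    have h2 := (hasDerivAt_id t).div h1 hne
    refine (h2.congr_deriv ?_).hasDerivWithinAt
    simp only [id]
    congr 1
    ring
  have hinj : Set.InjOn (fun t : ℝ => t / (1 + t * c)) (Set.Ioi 0) := by
    intro a ha b hb hab
    have ha0 : (0 : ℝ) < a := ha
    have hb0 : (0 : ℝ) < b := hb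
    have h1 : 0 < 1 + a * c := by positivity
    have h2 : 0 < 1 + b * c := by positivity
    simp only at hab
    rw [div_eq_div_iff h1.ne' h2.ne'] at hab
    linarith
  have hcv := lintegral_image_eq_lintegral_abs_deriv_mul measurableSet_Ioi hder hinj
    (fun u => ENNReal.ofReal (u ^ ((k : ℝ) / 2 - 1) * Real.exp (-u * r)))
  have hsub : (fun t : ℝ => t / (1 + t * c)) '' Set.Ioi 0 ⊆ Set.Ioi 0 := by
    rintro _ ⟨t, ht, rfl⟩
    have ht0 : (0 : ℝ) < t := ht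
    show (0 : ℝ) < t / (1 + t * c)
    positivity
  refine le_trans ?_ (lintegral_mono_set hsub)
  rw [hcv]
  apply setLIntegral_mono' measurableSet_Ioi
  intro t ht
  have ht0 : (0 : ℝ) < t := ht
  have hp : 0 < 1 + t * c := by positivity
  have hp1 : 1 ≤ 1 + t * c := by
    have : 0 < t * c := by positivity
    linarith
  rw [← ENNReal.ofReal_mul (abs_nonneg _)]
  apply ENNReal.ofReal_le_ofReal
  rw [abs_of_pos (by positivity)]
  have e1 : (t / (1 + t * c)) ^ ((k : ℝ) / 2 - 1) =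
      t ^ ((k : ℝ) / 2 - 1) * (1 + t * c) ^ (-((k : ℝ) / 2 - 1)) := by
    rw [Real.div_rpow ht0.le hp.le, Real.rpow_neg hp.le]
    rfl
  have e2 : 1 / (1 + t * c) ^ 2 = (1 + t * c) ^ (-2 : ℝ) := by
    rw [Real.rpow_neg hp.le, one_div]
    norm_num
  rw [e1, e2]
  have e3 : (1 + t * c) ^ (-2 : ℝ) * (t ^ ((k : ℝ) / 2 - 1) * (1 + t * c) ^ (-((k : ℝ) / 2 - 1)) *
      Real.exp (-(t / (1 + t * c)) * r)) = t ^ ((k : ℝ) / 2 - 1) *
      ((1 + t * c) ^ (-2 + (-((k : ℝ) / 2 - 1))) * Real.exp (-(t / (1 + t * c)) * r)) := by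
    rw [Real.rpow_add hp]
    ring
  rw [e3]
  have h5 : (1 + t * c) ^ (-((n : ℝ) / 2)) ≤ (1 + t * c) ^ (-2 + (-((k : ℝ) / 2 - 1))) := by
    apply Real.rpow_le_rpow_of_exponent_le hp1
    have : (k : ℝ) + 2 ≤ n := by exact_mod_cast hkn
    linarith
  exact mul_le_mul_of_nonneg_left (mul_le_mul_of_nonneg_right h5 (Real.exp_pos _).le) (by positivity)

theorem L_up_FF {α : Type} [Fintype α] (k : ℕ) (ε : ℝ) (hε : 0 < ε) (x : α → ℝ) :
    FF (nn : (α → ℝ) → ℝ) k ε x = (ENNReal.ofReal (ε ^ (-((Fintype.card α : ℝ) / 2))) *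
      (∫⁻ y : α → ℝ, ENNReal.ofReal ((nn y ^ k)⁻¹ *
        Real.exp (-Real.pi * ((x - y) ⬝ᵥ (x - y)) / ε)))).toReal := by
  have hnn : Continuous (nn : (α → ℝ) → ℝ) := nn_isG.cont
  have hn0 : ∀ y : α → ℝ, 0 ≤ nn y := fun y => Real.sqrt_nonneg _
  have hG : Continuous (fun y : α → ℝ => Real.exp (-Real.pi * ((x - y) ⬝ᵥ (x - y)) / ε)) := by
    have : Continuous (fun y : α → ℝ => (x - y) ⬝ᵥ (x - y)) := by
      simp only [dotProduct]
      fun_prop
    fun_prop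
  unfold FF
  rw [ENNReal.toReal_mul, ENNReal.toReal_ofReal (by positivity)]
  rw [integral_eq_lintegral_of_nonneg_ae]
  · refine Eventually.of_forall fun y => ?_
    have := hn0 y
    show (0 : ℝ) ≤ (nn y ^ k)⁻¹ * Real.exp (-Real.pi * ((x - y) ⬝ᵥ (x - y)) / ε)
    positivity
  · exact (((hnn.pow k).measurable.inv).mul hG.measurable).aestronglyMeasurable

/-- TARGET: prove this. -/
theorem L_up {α : Type} [Fintype α] [Nonempty α] (k : ℕ) (hk : 0 < k)
    (hkn : k + 2 ≤ Fintype.card α) (ε : ℝ) (hε : 0 < ε) :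
    (∀ x : α → ℝ, x ≠ 0 → FF (nn : (α → ℝ) → ℝ) k ε x ≤ (nn x ^ k)⁻¹) ∧
    (∃ M : ℝ, ∀ x : α → ℝ, 0 ≤ FF (nn : (α → ℝ) → ℝ) k ε x ∧ FF (nn : (α → ℝ) → ℝ) k ε x ≤ M) := by
  have hc : 0 < ε / Real.pi := div_pos hε Real.pi_pos
  refine ⟨?_, ?_⟩
  · intro x hx
    have hz : 0 < nn x := nn_isG.pos x hx
    rw [L_up_FF k ε hε x, L_up_I k hk ε hε x]
    have h2 := mix1 k hk 0 (nn x) hz
    have e1 : (nn x ^ k)⁻¹ * Real.exp (-0 * nn x ^ 2) = (nn x ^ k)⁻¹ := by
      rw [neg_zero, zero_mul, Real.exp_zero, mul_one]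
    rw [e1] at h2
    have h3 := L_up_sub k (Fintype.card α) hkn (ε / Real.pi) hc (x ⬝ᵥ x)
    apply ENNReal.toReal_le_of_le_ofReal (by positivity)
    rw [h2]
    refine mul_le_mul' le_rfl ?_
    refine le_trans (le_of_eq ?_) (h3.trans (le_of_eq ?_))
    · apply lintegral_congr
      intro t
      rw [mul_div_assoc]
    · apply lintegral_congr
      intro t
      rw [L_up_sq, add_zero]
  · refine ⟨FF (nn : (α → ℝ) → ℝ) k ε 0, fun x => ⟨?_, ?_⟩⟩
    · rw [L_up_FF k ε hε x]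
      exact ENNReal.toReal_nonneg
    · rw [L_up_FF k ε hε x, L_up_FF k ε hε 0]
      apply ENNReal.toReal_mono
      · apply ENNReal.mul_ne_top ENNReal.ofReal_ne_top
        have hb := b_int (nn : (α → ℝ) → ℝ) nn_isG k (by omega) (Real.pi / ε) (by positivity)
        have hb2 := hb.lintegral_lt_top
        refine ne_of_lt (lt_of_le_of_lt (le_of_eq ?_) hb2)
        apply lintegral_congr
        intro y
        congr 3
        rw [zero_sub, neg_dotProduct_neg]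
        ring
      · rw [L_up_I k hk ε hε x, L_up_I k hk ε hε 0]
        refine mul_le_mul' le_rfl ?_
        apply setLIntegral_mono' measurableSet_Ioi
        intro t ht
        have ht0 : (0 : ℝ) < t := ht
        apply ENNReal.ofReal_le_ofReal
        have h9 : Real.exp (-(t / (1 + t * ε / Real.pi)) * (x ⬝ᵥ x)) ≤
            Real.exp (-(t / (1 + t * ε / Real.pi)) * ((0 : α → ℝ) ⬝ᵥ 0)) := by
          apply Real.exp_le_exp.2
          have hx0 : 0 ≤ x ⬝ᵥ x := by rw [← L_up_sq]; positivity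
          have : 0 ≤ t / (1 + t * ε / Real.pi) := by have := Real.pi_pos; positivity
          rw [dotProduct_zero, mul_zero]
          nlinarith
        have := Real.pi_pos
        gcongr

end Pool.Agent.Helper142.Kib.L_up
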