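import Mathlib
import Pool.Agent.Helper142.Kib.Defs
import Pool.Agent.Helper142.Kib.L_low
import Pool.Agent.Helper142.Kib.L_up
import Pool.Agent.Helper142.Kib.L_log
import Pool.Agent.Helper142.Kib.B_radial
import Pool.Agent.Helper142.Kib.B_fin
import Pool.Agent.Helper142.Kib.B_bounds
import Pool.Agent.Helper142.Kib.Nn_isG

/-! Helper lemma L_fin for MP_7548d4_gt. -/

set_option linter.all false

namespace Pool.Agent.Helper142.Kib.L_fin

open MeasureTheory Matrix Filter Topology Pool.Agent.Helper142.Kib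
open scoped ENNReal
open Pool.Agent.Helper142.Kib.L_low Pool.Agent.Helper142.Kib.L_up Pool.Agent.Helper142.Kib.L_log Pool.Agent.Helper142.Kib.B_radial Pool.Agent.Helper142.Kib.B_fin Pool.Agent.Helper142.Kib.B_bounds Pool.Agent.Helper142.Kib.Nn_isG

theorem L_fin_int (a c : ℝ) (ha : 0 < a) (hc : 0 < c) :
    IntegrableOn (fun u : ℝ => u⁻¹ * Real.exp (-c * u ^ 2)) (Set.Ioi a) := by
  have h1 : Integrable (fun u : ℝ => a⁻¹ * Real.exp (-c * u ^ 2)) :=
    (integrable_exp_neg_mul_sq hc).const_mul _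
  refine Integrable.mono' h1.integrableOn ?_ ?_
  · exact (Measurable.mul measurable_id.inv (by fun_prop)).aestronglyMeasurable
  · filter_upwards [ae_restrict_mem measurableSet_Ioi] with u hu
    have hu' : a < u := hu
    have hu0 : 0 < u := ha.trans hu'
    rw [Real.norm_of_nonneg (by positivity)]
    apply mul_le_mul_of_nonneg_right _ (Real.exp_pos _).le
    exact inv_anti₀ ha hu'.le

/-- the radial function -/
noncomputable def L_fin_phi (n : ℕ) (a c : ℝ) : ℝ → ℝ :=
  Set.indicator (Set.Ioi a) (fun u => (u ^ n)⁻¹ * Real.exp (-c * u ^ 2))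

theorem L_fin_phi_meas (n : ℕ) (a c : ℝ) : Measurable (L_fin_phi n a c) := by
  unfold L_fin_phi
  exact Measurable.indicator (by fun_prop) measurableSet_Ioi

theorem L_fin_phi_nonneg (n : ℕ) (a c : ℝ) (ha : 0 < a) (u : ℝ) : 0 ≤ L_fin_phi n a c u := by
  unfold L_fin_phi
  apply Set.indicator_nonneg
  intro u hu
  have hu0 : 0 < u := ha.trans hu
  positivity

theorem L_fin_rad {α : Type} [Fintype α] [Nonempty α] (p : (α → ℝ) → ℝ) (hp : IsG p)
    (a c : ℝ) (ha : 0 < a) (hc : 0 < c) :
    ∫⁻ x : α → ℝ, ENNReal.ofReal (L_fin_phi (Fintype.card α) a c (p x)) =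
      vg p * ENNReal.ofReal (Fintype.card α * ∫ u in Set.Ioi a, u⁻¹ * Real.exp (-c * u ^ 2)) := by
  have hn : 0 < Fintype.card α := Fintype.card_pos
  set n := Fintype.card α with hn'
  rw [b_radial p hp (fun u => ENNReal.ofReal (L_fin_phi n a c u))
    (L_fin_phi_meas n a c).ennreal_ofReal]
  congr 1
  rw [← hn', ← integral_const_mul, ofReal_integral_eq_lintegral_ofReal]
  · have h1 : ∀ u : ℝ, ENNReal.ofReal (L_fin_phi n a c u) * ENNReal.ofReal (n * u ^ (n - 1)) =
        Set.indicator (Set.Ioi a)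
          (fun u => ENNReal.ofReal (n * (u⁻¹ * Real.exp (-c * u ^ 2)))) u := by
      intro u
      by_cases hu : u ∈ Set.Ioi a
      · have hu0 : 0 < u := ha.trans hu
        rw [Set.indicator_of_mem hu, ← ENNReal.ofReal_mul (L_fin_phi_nonneg n a c ha u)]
        unfold L_fin_phi
        rw [Set.indicator_of_mem hu]
        congr 1
        obtain ⟨m, hm⟩ : ∃ m, n = m + 1 := ⟨n - 1, by omega⟩
        have h2 : n - 1 = m := by omega
        rw [h2, hm, pow_succ]
        field_simp
      · rw [Set.indicator_of_notMem hu]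
        unfold L_fin_phi
        rw [Set.indicator_of_notMem hu, ENNReal.ofReal_zero, zero_mul]
    rw [lintegral_congr (μ := volume.restrict (Set.Ioi (0:ℝ))) h1,
      lintegral_indicator measurableSet_Ioi, Measure.restrict_restrict measurableSet_Ioi]
    congr 2
    ext u
    constructor
    · intro hu
      exact hu.1
    · intro hu
      exact ⟨hu, ha.trans hu⟩
  · exact (L_fin_int a c ha hc).const_mul _
  · filter_upwards [ae_restrict_mem measurableSet_Ioi] with u hu
    have hu' : a < u := hu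
    have hu0 : 0 < u := ha.trans hu'
    show 0 ≤ (n : ℝ) * (u⁻¹ * Real.exp (-c * u ^ 2))
    positivity

theorem L_fin_rad_int {α : Type} [Fintype α] [Nonempty α] (p : (α → ℝ) → ℝ) (hp : IsG p)
    (a c : ℝ) (ha : 0 < a) (hc : 0 < c) :
    Integrable (fun x : α → ℝ => L_fin_phi (Fintype.card α) a c (p x)) ∧
    ∫ x : α → ℝ, L_fin_phi (Fintype.card α) a c (p x) =
      (vg p).toReal * (Fintype.card α * ∫ u in Set.Ioi a, u⁻¹ * Real.exp (-c * u ^ 2)) := by
  have hI0 : 0 ≤ ∫ u in Set.Ioi a, u⁻¹ * Real.exp (-c * u ^ 2) := by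
    apply setIntegral_nonneg measurableSet_Ioi
    intro u hu
    have hu' : a < u := hu
    have hu0 : 0 < u := ha.trans hu'
    positivity
  have hm : Measurable (fun x : α → ℝ => L_fin_phi (Fintype.card α) a c (p x)) :=
    (L_fin_phi_meas _ a c).comp hp.cont.measurable
  have hrad := L_fin_rad p hp a c ha hc
  have h0 : ∀ x : α → ℝ, 0 ≤ L_fin_phi (Fintype.card α) a c (p x) :=
    fun x => L_fin_phi_nonneg _ a c ha _
  constructor
  · refine ⟨hm.aestronglyMeasurable, ?_⟩
    rw [hasFiniteIntegral_iff_ofReal (Filter.Eventually.of_forall h0), hrad]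
    exact ENNReal.mul_lt_top (b_fin p hp).2 ENNReal.ofReal_lt_top
  · rw [integral_eq_lintegral_of_nonneg_ae (Filter.Eventually.of_forall h0)
      hm.aestronglyMeasurable, hrad, ENNReal.toReal_mul, ENNReal.toReal_ofReal (by positivity)]

theorem L_fin_nn_sq {α : Type} [Fintype α] (x : α → ℝ) : nn x ^ 2 = x ⬝ᵥ x := by
  unfold nn
  rw [Real.sq_sqrt]
  unfold dotProduct
  exact Finset.sum_nonneg fun i _ => mul_self_nonneg _

theorem L_fin_FF_nonneg {α : Type} [Fintype α] (r : (α → ℝ) → ℝ) (hr : IsG r) (k : ℕ)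
    (x : α → ℝ) : 0 ≤ FF r k 1 x := by
  unfold FF
  apply mul_nonneg (by positivity)
  apply integral_nonneg
  intro y
  have hry : 0 ≤ r y := by
    by_cases hy : y = 0
    · have := hr.hom 0 0
      rw [abs_zero, zero_mul, smul_zero] at this
      rw [hy, this]
    · exact (hr.pos y hy).le
  show 0 ≤ (r y ^ k)⁻¹ * Real.exp (-Real.pi * ((x - y) ⬝ᵥ (x - y)) / 1)
  positivity

/-- TARGET: prove this. -/
theorem L_fin {α : Type} [Fintype α] [Nonempty α] (r : (α → ℝ) → ℝ) (hr : IsG r) (k N : ℕ)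
    (hk : 0 < k) (hN : 2 ≤ N) (hkn : k * N = Fintype.card α) (hkn2 : k + 2 ≤ Fintype.card α)
    (ρ ε : ℝ) (hρ : 0 < ρ) (hε : 0 < ε)
    (h : ∀ δ : ℝ, 0 < δ → ∫ x : α → ℝ, (FF r k 1 x) ^ N * Real.exp (-Real.pi * δ * (x ⬝ᵥ x)) ≤
      ∫ x : α → ℝ, (ρ * FF (nn : (α → ℝ) → ℝ) k ε x) ^ N *
        Real.exp (-Real.pi * δ * (x ⬝ᵥ x)))
    (hint : ∀ δ : ℝ, 0 < δ → Integrable (fun x : α → ℝ => (FF r k 1 x) ^ N *
      Real.exp (-Real.pi * δ * (x ⬝ᵥ x)))) :
    vg r ≤ ENNReal.ofReal (ρ ^ N) * vg (nn : (α → ℝ) → ℝ) := by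
  have hn : 0 < Fintype.card α := Fintype.card_pos
  have hnR : (0:ℝ) < Fintype.card α := by exact_mod_cast hn
  have hnnG : IsG (nn : (α → ℝ) → ℝ) := nn_isG
  obtain ⟨hup1, M, hM⟩ := L_up (α := α) k hk hkn2 ε hε
  obtain ⟨b, Bc, hb, hBc, hbB⟩ := b_bounds r hr
  have hM0 : 0 ≤ M := (hM 0).1.trans (hM 0).2
  set V : ℝ := (vg r).toReal with hV
  set W : ℝ := (vg (nn : (α → ℝ) → ℝ)).toReal with hW
  have hV0 : 0 ≤ V := ENNReal.toReal_nonneg
  have hW0 : 0 ≤ W := ENNReal.toReal_nonneg
  have hdot : ∀ x : α → ℝ, 0 ≤ x ⬝ᵥ x := fun x => by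
    rw [← L_fin_nn_sq]; positivity
  have hnn0 : ∀ x : α → ℝ, 0 ≤ nn x := fun x => Real.sqrt_nonneg _
  have hpi := Real.pi_pos
  have main : ∀ η : ℝ, 0 < η → η < 1 → (1 - η) ^ N * V ≤ ρ ^ N * W := by
    intro η h0 h1
    obtain ⟨R, hR, hRl⟩ := L_low r hr k hk (by omega) η h0 h1
    have hη : 0 < 1 - η := by linarith
    have key := L_log (V * Fintype.card α) (ρ ^ N * W * Fintype.card α) R (b ^ 2)⁻¹
      (ρ ^ N * (M ^ N * W)) η (by positivity) (by positivity) hR (by positivity) N h0 h1 ?_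
    · have h2 : (1 - η) ^ N * V * Fintype.card α ≤ ρ ^ N * W * Fintype.card α := by
        rw [mul_assoc]; exact key
      exact le_of_mul_le_mul_right h2 hnR
    · intro δ hδ
      have hδ' : 0 < δ / Real.pi := by positivity
      have hd : -Real.pi * (δ / Real.pi) = -δ := by field_simp
      have hh := h (δ / Real.pi) hδ'
      have hi := hint (δ / Real.pi) hδ'
      rw [hd] at hh hi
      have hc : 0 < δ * (b ^ 2)⁻¹ := by positivity
      obtain ⟨hL1, hL2⟩ := L_fin_rad_int r hr R (δ * (b ^ 2)⁻¹) hR hc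
      obtain ⟨hU1, hU2⟩ := L_fin_rad_int (nn : (α → ℝ) → ℝ) hnnG 1 δ one_pos hδ
      -- lower bound
      have hlow : (1 - η) ^ N * ∫ x : α → ℝ, L_fin_phi (Fintype.card α) R (δ * (b ^ 2)⁻¹) (r x) ≤
          ∫ x : α → ℝ, (FF r k 1 x) ^ N * Real.exp (-δ * (x ⬝ᵥ x)) := by
        rw [← integral_const_mul]
        refine integral_mono_of_nonneg (Filter.Eventually.of_forall fun x => ?_) hi
          (Filter.Eventually.of_forall fun x => ?_)
        · exact mul_nonneg (by positivity) (L_fin_phi_nonneg _ _ _ hR _)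
        · show (1 - η) ^ N * L_fin_phi (Fintype.card α) R (δ * (b ^ 2)⁻¹) (r x) ≤
            (FF r k 1 x) ^ N * Real.exp (-δ * (x ⬝ᵥ x))
          have hFF := L_fin_FF_nonneg r hr k x
          by_cases hx : R < r x
          · have hrx : 0 < r x := hR.trans hx
            unfold L_fin_phi
            rw [Set.indicator_of_mem (show r x ∈ Set.Ioi R from hx)]
            have h3 := hRl x hx.le
            have h4 : ((1 - η) * (r x ^ k)⁻¹) ^ N ≤ FF r k 1 x ^ N :=
              pow_le_pow_left₀ (by positivity) h3 N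
            have h5 : ((1 - η) * (r x ^ k)⁻¹) ^ N = (1 - η) ^ N * (r x ^ Fintype.card α)⁻¹ := by
              rw [mul_pow, inv_pow, ← pow_mul, hkn]
            have h6 : Real.exp (-(δ * (b ^ 2)⁻¹) * r x ^ 2) ≤ Real.exp (-δ * (x ⬝ᵥ x)) := by
              apply Real.exp_le_exp.mpr
              have h7 : b * nn x ≤ r x := (hbB x).1
              have h8 : (b * nn x) ^ 2 ≤ r x ^ 2 :=
                pow_le_pow_left₀ (mul_nonneg hb.le (hnn0 x)) h7 2
              rw [mul_pow, L_fin_nn_sq] at h8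
              have h9 : x ⬝ᵥ x ≤ (b ^ 2)⁻¹ * r x ^ 2 := by
                rw [← div_eq_inv_mul, le_div_iff₀ (by positivity)]
                linarith
              have h10 := mul_le_mul_of_nonneg_left h9 hδ.le
              linarith
            calc (1 - η) ^ N * ((r x ^ Fintype.card α)⁻¹ *
                  Real.exp (-(δ * (b ^ 2)⁻¹) * r x ^ 2))
                = ((1 - η) * (r x ^ k)⁻¹) ^ N * Real.exp (-(δ * (b ^ 2)⁻¹) * r x ^ 2) := by
                  rw [h5]; ring
              _ ≤ FF r k 1 x ^ N * Real.exp (-δ * (x ⬝ᵥ x)) :=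
                  mul_le_mul h4 h6 (Real.exp_pos _).le (by positivity)
          · unfold L_fin_phi
            rw [Set.indicator_of_notMem (show r x ∉ Set.Ioi R from hx), mul_zero]
            positivity
      -- upper bound
      have hset : MeasurableSet {x : α → ℝ | nn x ≤ 1} :=
        measurableSet_le hnnG.cont.measurable measurable_const
      have hG1 : Integrable (Set.indicator {x : α → ℝ | nn x ≤ 1} (fun _ => M ^ N)) := by
        rw [integrable_indicator_iff hset]
        exact integrableOn_const (b_fin _ hnnG).2.ne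
      have hG1' : ∫ x : α → ℝ, Set.indicator {x : α → ℝ | nn x ≤ 1} (fun _ => M ^ N) x =
          M ^ N * W := by
        rw [integral_indicator hset, setIntegral_const, smul_eq_mul, mul_comm]
        rfl
      have hupp : ∫ x : α → ℝ, (ρ * FF (nn : (α → ℝ) → ℝ) k ε x) ^ N *
          Real.exp (-δ * (x ⬝ᵥ x)) ≤ ρ ^ N * (M ^ N * W +
            ∫ x : α → ℝ, L_fin_phi (Fintype.card α) 1 δ (nn x)) := by
        rw [← hG1', ← integral_add hG1 hU1, ← integral_const_mul]
        refine integral_mono_of_nonneg (Filter.Eventually.of_forall fun x => ?_)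
          ((hG1.add hU1).const_mul _) (Filter.Eventually.of_forall fun x => ?_)
        · have hF0 := (hM x).1
          show 0 ≤ (ρ * FF (nn : (α → ℝ) → ℝ) k ε x) ^ N * Real.exp (-δ * (x ⬝ᵥ x))
          positivity
        · show (ρ * FF (nn : (α → ℝ) → ℝ) k ε x) ^ N * Real.exp (-δ * (x ⬝ᵥ x)) ≤
            ρ ^ N * (Set.indicator {x : α → ℝ | nn x ≤ 1} (fun _ => M ^ N) x +
              L_fin_phi (Fintype.card α) 1 δ (nn x))
          have hF0 := (hM x).1
          rw [mul_pow, mul_assoc]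
          apply mul_le_mul_of_nonneg_left _ (by positivity)
          by_cases hx : nn x ≤ 1
          · rw [Set.indicator_of_mem (show x ∈ {x : α → ℝ | nn x ≤ 1} from hx)]
            have h3 : FF (nn : (α → ℝ) → ℝ) k ε x ^ N ≤ M ^ N :=
              pow_le_pow_left₀ hF0 (hM x).2 N
            have h4 : Real.exp (-δ * (x ⬝ᵥ x)) ≤ 1 := by
              apply Real.exp_le_one_iff.mpr
              have := mul_nonneg hδ.le (hdot x)
              linarith
            have h5 := L_fin_phi_nonneg (Fintype.card α) 1 δ one_pos (nn x)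
            have h6 : FF (nn : (α → ℝ) → ℝ) k ε x ^ N * Real.exp (-δ * (x ⬝ᵥ x)) ≤ M ^ N * 1 :=
              mul_le_mul h3 h4 (Real.exp_pos _).le (by positivity)
            linarith
          · rw [Set.indicator_of_notMem (show x ∉ {x : α → ℝ | nn x ≤ 1} from hx), zero_add]
            push Not at hx
            unfold L_fin_phi
            rw [Set.indicator_of_mem (show nn x ∈ Set.Ioi (1:ℝ) from hx)]
            have hx0 : x ≠ 0 := by
              intro h0
              have h3 : nn x = 0 := by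
                rw [h0]; unfold nn; simp
              linarith
            have h3 := hup1 x hx0
            have h4 : FF (nn : (α → ℝ) → ℝ) k ε x ^ N ≤ ((nn x ^ k)⁻¹) ^ N :=
              pow_le_pow_left₀ hF0 h3 N
            rw [inv_pow, ← pow_mul, hkn] at h4
            rw [L_fin_nn_sq]
            exact mul_le_mul_of_nonneg_right h4 (Real.exp_pos _).le
      rw [hL2] at hlow
      rw [hU2] at hupp
      have h3 := hlow.trans (hh.trans hupp)
      have e1 : (1 - η) ^ N * (V * (Fintype.card α : ℝ)) *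
          (∫ u in Set.Ioi R, u⁻¹ * Real.exp (-δ * (b ^ 2)⁻¹ * u ^ 2)) =
          (1 - η) ^ N * (V * ((Fintype.card α : ℝ) *
            ∫ u in Set.Ioi R, u⁻¹ * Real.exp (-(δ * (b ^ 2)⁻¹) * u ^ 2))) := by
        have : -(δ * (b ^ 2)⁻¹) = -δ * (b ^ 2)⁻¹ := by ring
        rw [this]; ring
      rw [e1]
      refine h3.trans (le_of_eq ?_)
      ring
  -- limit
  have hlim : V ≤ ρ ^ N * W := by
    have ht : Tendsto (fun η : ℝ => (1 - η) ^ N * V) (𝓝[>] 0) (𝓝 ((1 - 0) ^ N * V)) := by
      apply Tendsto.mono_left _ nhdsWithin_le_nhds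
      apply Continuous.tendsto
      fun_prop
    rw [sub_zero, one_pow, one_mul] at ht
    refine le_of_tendsto ht ?_
    filter_upwards [Ioo_mem_nhdsGT (show (0:ℝ) < 1 from one_pos)] with η hη
    exact main η hη.1 hη.2
  have h1 : vg r = ENNReal.ofReal V := (ENNReal.ofReal_toReal (b_fin r hr).2.ne).symm
  have h2 : vg (nn : (α → ℝ) → ℝ) = ENNReal.ofReal W :=
    (ENNReal.ofReal_toReal (b_fin _ hnnG).2.ne).symm
  rw [h1, h2, ← ENNReal.ofReal_mul (by positivity)]
  exact ENNReal.ofReal_le_ofReal hlim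

end Pool.Agent.Helper142.Kib.L_fin
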