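import Mathlib
import Pool.Agent.Helper142.Kib.Defs

/-! Helper lemma fourier_gauss for MP_7548d4_gt. -/

set_option linter.all false

namespace Pool.Agent.Helper142.Kib.Fourier_gauss

open MeasureTheory Matrix Filter Topology Pool.Agent.Helper142.Kib
open scoped ENNReal

/-- TARGET: prove this. -/
theorem fourier_gauss {α : Type} [Fintype α] (δ : ℝ) (hδ : 0 < δ) (v : α → ℝ) :
    ∫ x : α → ℝ, Complex.exp (2 * Real.pi * Complex.I * ((x ⬝ᵥ v : ℝ) : ℂ)) *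
      (Real.exp (-Real.pi * δ * (x ⬝ᵥ x)) : ℂ) =
    ((δ ^ (-((Fintype.card α : ℝ) / 2)) * Real.exp (-Real.pi * (v ⬝ᵥ v) / δ) : ℝ) : ℂ) := by
  have h1 : ∀ x : α → ℝ, Complex.exp (2 * Real.pi * Complex.I * ((x ⬝ᵥ v : ℝ) : ℂ)) *
      (Real.exp (-Real.pi * δ * (x ⬝ᵥ x)) : ℂ) =
      ∏ i, (Complex.exp (Complex.I * (2 * Real.pi * v i : ℂ) * (x i : ℂ)) *
        Complex.exp (-((Real.pi * δ : ℝ) : ℂ) * (x i : ℂ) ^ 2)) := by
    intro x
    rw [Finset.prod_mul_distrib, ← Complex.exp_sum, ← Complex.exp_sum, Complex.ofReal_exp]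
    congr 2
    · simp only [dotProduct, Complex.ofReal_sum, Complex.ofReal_mul, Finset.mul_sum]
      refine Finset.sum_congr rfl fun i _ => by ring
    · simp only [dotProduct]
      push_cast
      rw [Finset.mul_sum]
      refine Finset.sum_congr rfl fun i _ => by ring
  simp_rw [h1]
  rw [integral_fintype_prod_volume_eq_prod (fun (i : α) (y : ℝ) =>
    (Complex.exp (Complex.I * (2 * Real.pi * v i : ℂ) * (y : ℂ)) *
        Complex.exp (-((Real.pi * δ : ℝ) : ℂ) * (y : ℂ) ^ 2)))]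
  have hpos : 0 < Real.pi * δ := mul_pos Real.pi_pos hδ
  have h2 : ∀ i : α, ∫ y : ℝ, (Complex.exp (Complex.I * (2 * Real.pi * v i : ℂ) * (y : ℂ)) *
        Complex.exp (-((Real.pi * δ : ℝ) : ℂ) * (y : ℂ) ^ 2)) =
        ((δ ^ (-(1 / 2) : ℝ) * Real.exp (-Real.pi * (v i * v i) / δ) : ℝ) : ℂ) := by
    intro i
    rw [fourierIntegral_gaussian (b := ((Real.pi * δ : ℝ) : ℂ)) (by simpa using hpos)]
    have h3 : ((Real.pi : ℂ) / ((Real.pi * δ : ℝ) : ℂ)) = ((δ⁻¹ : ℝ) : ℂ) := by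
      push_cast
      have : (Real.pi : ℂ) ≠ 0 := by exact_mod_cast Real.pi_ne_zero
      have hd : (δ : ℂ) ≠ 0 := by exact_mod_cast hδ.ne'
      field_simp
    rw [h3]
    have h4 : (((δ⁻¹ : ℝ) : ℂ)) ^ (1 / 2 : ℂ) = ((δ ^ (-(1 / 2) : ℝ) : ℝ) : ℂ) := by
      have : (1 / 2 : ℂ) = (((1 / 2 : ℝ)) : ℂ) := by push_cast; rfl
      rw [this, ← Complex.ofReal_cpow (inv_nonneg.mpr hδ.le), Real.inv_rpow hδ.le,
        Real.rpow_neg hδ.le]
    rw [h4, Complex.ofReal_mul (δ ^ (-(1 / 2) : ℝ)) (Real.exp _), Complex.ofReal_exp]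
    congr 2
    push_cast
    have : (Real.pi : ℂ) ≠ 0 := by exact_mod_cast Real.pi_ne_zero
    have hd : (δ : ℂ) ≠ 0 := by exact_mod_cast hδ.ne'
    field_simp
    ring
  simp_rw [h2]
  rw [← Complex.ofReal_prod, Finset.prod_mul_distrib, Finset.prod_const, ← Real.exp_sum]
  congr 2
  · rw [← Real.rpow_natCast, ← Real.rpow_mul hδ.le, Finset.card_univ]
    congr 1
    ring
  · congr 1
    simp only [dotProduct]
    rw [Finset.mul_sum, Finset.sum_div]

end Pool.Agent.Helper142.Kib.Fourier_gauss
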