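import Mathlib
import Pool.Agent.Helper142.Kib.Defs
import Pool.Agent.Helper142.Kib.Fourier_gauss

/-! Helper lemma NF for MP_7548d4_gt. -/

set_option linter.all false

namespace Pool.Agent.Helper142.Kib.NF

open MeasureTheory Matrix Filter Topology Pool.Agent.Helper142.Kib
open scoped ENNReal
open Pool.Agent.Helper142.Kib.Fourier_gauss

theorem NF_gauss_int {α : Type} [Fintype α] (δ : ℝ) (hδ : 0 < δ) :
    Integrable (fun x : α → ℝ => Real.exp (-Real.pi * δ * (x ⬝ᵥ x))) := by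
  have h1 : Integrable (fun t : ℝ => Real.exp (-(Real.pi * δ) * t ^ 2)) :=
    integrable_exp_neg_mul_sq (by positivity)
  have h2 : Integrable (fun x : α → ℝ => ∏ i, Real.exp (-(Real.pi * δ) * (x i) ^ 2)) := by
    exact Integrable.fintype_prod (f := fun _ t => Real.exp (-(Real.pi * δ) * t ^ 2))
      (fun _ => h1)
  refine h2.congr (Filter.Eventually.of_forall (fun x => ?_))
  simp only
  rw [← Real.exp_sum]
  congr 1
  rw [← Finset.mul_sum, dotProduct]
  have : ∑ i, x i ^ 2 = ∑ i, x i * x i := Finset.sum_congr rfl (fun i _ => by ring)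
  rw [this]; ring

theorem NF_cont_dot {α : Type} [Fintype α] : Continuous (fun p : (α → ℝ) × (α → ℝ) => p.1 ⬝ᵥ p.2) := by
  unfold dotProduct
  fun_prop

theorem NF_base {α : Type} [Fintype α] (h : (α → ℝ) → ℝ) (hh : Integrable h)
    (heven : ∀ x, h (-x) = h x) (x : α → ℝ) :
    ∫ y, (h y : ℂ) * Complex.exp (2 * Real.pi * Complex.I * ((x ⬝ᵥ y : ℝ) : ℂ)) =
      ((∫ y, h y * Real.cos (2 * Real.pi * (x ⬝ᵥ y)) : ℝ) : ℂ) := by
  have hc : Continuous (fun y : α → ℝ => x ⬝ᵥ y) := by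
    unfold dotProduct; fun_prop
  have i1 : Integrable (fun y => h y * Real.cos (2 * Real.pi * (x ⬝ᵥ y))) :=
    hh.mul_bdd (c := 1) (by fun_prop : Continuous (fun y => Real.cos (2 * Real.pi * (x ⬝ᵥ y)))).aestronglyMeasurable
      (Filter.Eventually.of_forall (fun y => by
        rw [Real.norm_eq_abs]; exact Real.abs_cos_le_one _))
  have i2 : Integrable (fun y => h y * Real.sin (2 * Real.pi * (x ⬝ᵥ y))) :=
    hh.mul_bdd (c := 1) (by fun_prop : Continuous (fun y => Real.sin (2 * Real.pi * (x ⬝ᵥ y)))).aestronglyMeasurable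
      (Filter.Eventually.of_forall (fun y => by
        rw [Real.norm_eq_abs]; exact Real.abs_sin_le_one _))
  have hz : ∫ y, h y * Real.sin (2 * Real.pi * (x ⬝ᵥ y)) = 0 := by
    have e1 : ∫ y, h y * Real.sin (2 * Real.pi * (x ⬝ᵥ y)) =
        ∫ y, h (-y) * Real.sin (2 * Real.pi * (x ⬝ᵥ (-y))) :=
      (integral_neg_eq_self (fun y => h y * Real.sin (2 * Real.pi * (x ⬝ᵥ y))) volume).symm
    have e2 : ∫ y, h (-y) * Real.sin (2 * Real.pi * (x ⬝ᵥ (-y))) =
        - ∫ y, h y * Real.sin (2 * Real.pi * (x ⬝ᵥ y)) := by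
      rw [← integral_neg]
      refine integral_congr_ae (Filter.Eventually.of_forall (fun y => ?_))
      simp only
      rw [heven, dotProduct_neg, mul_neg, Real.sin_neg, mul_neg]
    rw [e2] at e1
    linarith
  have e3 : ∀ y, (h y : ℂ) * Complex.exp (2 * Real.pi * Complex.I * ((x ⬝ᵥ y : ℝ) : ℂ)) =
      ((h y * Real.cos (2 * Real.pi * (x ⬝ᵥ y)) : ℝ) : ℂ) +
      ((h y * Real.sin (2 * Real.pi * (x ⬝ᵥ y)) : ℝ) : ℂ) * Complex.I := by
    intro y
    have : 2 * Real.pi * Complex.I * ((x ⬝ᵥ y : ℝ) : ℂ) =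
        ((2 * Real.pi * (x ⬝ᵥ y) : ℝ) : ℂ) * Complex.I := by push_cast; ring
    rw [this, Complex.exp_mul_I, ← Complex.ofReal_cos, ← Complex.ofReal_sin]
    push_cast
    ring
  simp_rw [e3]
  rw [integral_add i1.ofReal (i2.ofReal.mul_const _), integral_mul_const,
    integral_complex_ofReal, integral_complex_ofReal, hz]
  simp

/-- TARGET: prove this. -/
theorem NF {α : Type} [Fintype α] (N : ℕ) (h : (α → ℝ) → ℝ) (hh : Integrable h)
    (heven : ∀ x, h (-x) = h x) (δ : ℝ) (hδ : 0 < δ) :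
    Integrable (fun x : α → ℝ => (∫ y, h y * Real.cos (2 * Real.pi * (x ⬝ᵥ y))) ^ N *
      Real.exp (-Real.pi * δ * (x ⬝ᵥ x))) ∧
    ∫ x : α → ℝ, (∫ y, h y * Real.cos (2 * Real.pi * (x ⬝ᵥ y))) ^ N *
      Real.exp (-Real.pi * δ * (x ⬝ᵥ x)) =
    δ ^ (-((Fintype.card α : ℝ) / 2)) * ∫ X : Fin N → α → ℝ, (∏ i, h (X i)) *
      Real.exp (-Real.pi * ((∑ i, X i) ⬝ᵥ (∑ i, X i)) / δ) := by
  let F : (α → ℝ) × (Fin N → α → ℝ) → ℂ := fun p =>
    ((Real.exp (-Real.pi * δ * (p.1 ⬝ᵥ p.1)) : ℂ) * (∏ i, (h (p.2 i) : ℂ))) *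
      Complex.exp (2 * Real.pi * Complex.I * ((p.1 ⬝ᵥ (∑ i, p.2 i) : ℝ) : ℂ))
  have hcF : Continuous (fun p : (α → ℝ) × (Fin N → α → ℝ) =>
      Complex.exp (2 * Real.pi * Complex.I * ((p.1 ⬝ᵥ (∑ i, p.2 i) : ℝ) : ℂ))) := by
    have h1 : Continuous (fun p : (α → ℝ) × (Fin N → α → ℝ) => p.1 ⬝ᵥ (∑ i, p.2 i)) :=
      NF_cont_dot.comp (by fun_prop : Continuous (fun p : (α → ℝ) × (Fin N → α → ℝ) =>
        (p.1, ∑ i, p.2 i)))
    fun_prop
  have hF : Integrable F (volume.prod volume) := by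
    have hp : Integrable (fun X : Fin N → α → ℝ => ∏ i, (h (X i) : ℂ)) :=
      Integrable.fintype_prod (f := fun _ y => (h y : ℂ)) (fun _ => hh.ofReal)
    refine ((NF_gauss_int δ hδ).ofReal.mul_prod hp).mul_bdd (c := 1) hcF.aestronglyMeasurable
      (Filter.Eventually.of_forall (fun p => ?_))
    have : 2 * Real.pi * Complex.I * ((p.1 ⬝ᵥ (∑ i, p.2 i) : ℝ) : ℂ) =
        ((2 * Real.pi * (p.1 ⬝ᵥ (∑ i, p.2 i)) : ℝ) : ℂ) * Complex.I := by push_cast; ring
    rw [this, Complex.norm_exp_ofReal_mul_I]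
  have hx : ∀ x, ∫ X, F (x, X) = (((∫ y, h y * Real.cos (2 * Real.pi * (x ⬝ᵥ y))) ^ N *
      Real.exp (-Real.pi * δ * (x ⬝ᵥ x)) : ℝ) : ℂ) := by
    intro x
    have e1 : ∀ X : Fin N → α → ℝ, F (x, X) = (Real.exp (-Real.pi * δ * (x ⬝ᵥ x)) : ℂ) *
        ∏ i, ((h (X i) : ℂ) * Complex.exp (2 * Real.pi * Complex.I * ((x ⬝ᵥ (X i) : ℝ) : ℂ))) := by
      intro X
      simp only [F]
      rw [Finset.prod_mul_distrib, ← Complex.exp_sum, mul_assoc]
      congr 3
      rw [← Finset.mul_sum, ← Complex.ofReal_sum, dotProduct_sum]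
    simp_rw [e1]
    rw [integral_const_mul, integral_fintype_prod_volume_eq_pow
      (fun y => (h y : ℂ) * Complex.exp (2 * Real.pi * Complex.I * ((x ⬝ᵥ y : ℝ) : ℂ))),
      NF_base h hh heven, Fintype.card_fin]
    push_cast
    ring
  have hX : ∀ X : Fin N → α → ℝ, ∫ x, F (x, X) = ((δ ^ (-((Fintype.card α : ℝ) / 2)) *
      ((∏ i, h (X i)) * Real.exp (-Real.pi * ((∑ i, X i) ⬝ᵥ (∑ i, X i)) / δ)) : ℝ) : ℂ) := by
    intro X
    have e1 : ∀ x : α → ℝ, F (x, X) = (∏ i, (h (X i) : ℂ)) *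
        (Complex.exp (2 * Real.pi * Complex.I * ((x ⬝ᵥ (∑ i, X i) : ℝ) : ℂ)) *
        (Real.exp (-Real.pi * δ * (x ⬝ᵥ x)) : ℂ)) := by
      intro x
      simp only [F]
      ring
    simp_rw [e1]
    rw [integral_const_mul, fourier_gauss δ hδ (∑ i, X i)]
    push_cast
    ring
  constructor
  · have h1 := hF.integral_prod_left
    have h2 := h1.re
    refine h2.congr (Filter.Eventually.of_forall (fun x => ?_))
    simp only
    rw [hx x]
    simp only [RCLike.re_to_complex, Complex.ofReal_re]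
  · have h1 := integral_integral_swap (f := fun x X => F (x, X)) hF
    simp_rw [hx, hX] at h1
    rw [integral_complex_ofReal, integral_complex_ofReal] at h1
    have h2 := Complex.ofReal_injective h1
    rw [h2, integral_const_mul]

end Pool.Agent.Helper142.Kib.NF
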