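import Mathlib
import Pool.Agent.Helper142.Kib.Defs

/-! Helper lemma Y1c for MP_7548d4_gt. -/

set_option linter.all false

namespace Pool.Agent.Helper142.Kib.Y1c

open MeasureTheory Matrix Filter Topology Pool.Agent.Helper142.Kib
open scoped ENNReal

/-- TARGET: prove this. -/
theorem Y1c {N : ℕ} (hN : 0 < N) (t : Fin N → ℝ) (ht : ∀ i, 0 < t i) (s : ℝ) (hs : 0 < s) :
    (∀ i, 0 < ci t s i ∧ ci t s i < 1) ∧ 0 < c0 t s ∧ c0 t s < 1 ∧
    ∑ i, ci t s i + c0 t s = N ∧ 0 < QD t s ∧ 0 < DD t s := by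
  have hs1 : 0 < 1 / s := by positivity
  have hti : ∀ i, 0 < 1 / t i := fun i => by have := ht i; positivity
  have hsum0 : 0 < ∑ i, 1 / t i := by
    haveI : Nonempty (Fin N) := ⟨⟨0, hN⟩⟩
    exact Finset.sum_pos (fun i _ => hti i) Finset.univ_nonempty
  have hT : 0 < TT t s := by unfold TT; linarith
  have hle : ∀ i, 1 / t i < TT t s := fun i => by
    have h1 : 1 / t i ≤ ∑ i, 1 / t i :=
      Finset.single_le_sum (f := fun i => 1 / t i) (fun j _ => (hti j).le) (Finset.mem_univ i)
    unfold TT; linarith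
  have hle0 : 1 / s < TT t s := by unfold TT; linarith
  have hc : ∀ i, 0 < ci t s i ∧ ci t s i < 1 := fun i => by
    have h1 : 0 < (1 / t i) / TT t s := div_pos (hti i) hT
    have h2 : (1 / t i) / TT t s < 1 := (div_lt_one hT).2 (hle i)
    unfold ci
    constructor <;> linarith
  have hc0 : 0 < c0 t s ∧ c0 t s < 1 := by
    have h1 : 0 < (1 / s) / TT t s := div_pos hs1 hT
    have h2 : (1 / s) / TT t s < 1 := (div_lt_one hT).2 hle0
    unfold c0
    constructor <;> linarith
  have hQ : 0 < QD t s := by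
    unfold QD
    exact mul_pos (mul_pos (Finset.prod_pos fun i _ => ht i) hs) hT
  refine ⟨hc, hc0.1, hc0.2, ?_, hQ, ?_⟩
  · have h1 : ∑ i, ci t s i = N - (∑ i, 1 / t i) / TT t s := by
      unfold ci
      rw [Finset.sum_sub_distrib, Finset.sum_div]
      simp
    rw [h1]
    unfold c0
    have h2 : (∑ i, 1 / t i) / TT t s + (1 / s) / TT t s = 1 := by
      rw [← add_div]
      exact div_self hT.ne'
    linarith
  · unfold DD
    refine mul_pos (mul_pos (Real.rpow_pos_of_pos hQ _) (Finset.prod_pos fun i _ => ?_)) ?_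
    · exact Real.rpow_pos_of_pos (div_pos (ht i) (hc i).1) _
    · exact Real.rpow_pos_of_pos (div_pos hs hc0.1) _

end Pool.Agent.Helper142.Kib.Y1c
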