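import Mathlib
import Pool.Agent.Helper142.Kib.Defs

/-! Helper lemma Y1frame for MP_7548d4_gt. -/

set_option linter.all false

namespace Pool.Agent.Helper142.Kib.Y1frame

open MeasureTheory Matrix Filter Topology Pool.Agent.Helper142.Kib
open scoped ENNReal

open scoped MatrixOrder in
theorem Y1frame_S {N : ℕ} (A : Matrix (Fin N) (Fin N) ℝ) (hA : A.PosSemidef) :
    ∃ S : Matrix (Fin N) (Fin N) ℝ, Sᵀ * S = A := by
  obtain ⟨B, hB⟩ := CStarAlgebra.nonneg_iff_eq_star_mul_self.mp hA.nonneg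
  exact ⟨B, by rw [hB, star_eq_conjTranspose, conjTranspose_eq_transpose_of_trivial]⟩

/-- the vectors before the change of basis -/
noncomputable def Y1v {N : ℕ} (t : Fin N → ℝ) (s : ℝ) : Option (Fin N) → Fin N → ℝ
  | some i => Pi.single i (Real.sqrt (t i))
  | none => fun _ => Real.sqrt s

noncomputable def Y1M {N : ℕ} (t : Fin N → ℝ) (s : ℝ) : Matrix (Fin N) (Fin N) ℝ :=
  Matrix.diagonal t + Matrix.of fun _ _ => s

theorem Y1M_mulVec {N : ℕ} (t : Fin N → ℝ) (s : ℝ) (y : Fin N → ℝ) (k : Fin N) :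
    (Y1M t s *ᵥ y) k = t k * y k + s * ∑ j, y j := by
  simp only [Y1M, Matrix.mulVec, dotProduct, Matrix.add_apply, Matrix.of_apply, add_mul,
    Finset.sum_add_distrib, Finset.mul_sum]
  congr 1
  rw [Finset.sum_eq_single k]
  · simp
  · intro j _ hj
    simp [Matrix.diagonal_apply_ne _ (Ne.symm hj)]
  · intro h
    exact absurd (Finset.mem_univ _) h

theorem Y1M_sum {N : ℕ} (t : Fin N → ℝ) (ht : ∀ i, 0 < t i) (s : ℝ) (hs : 0 < s) :
    ∑ o, vecMulVec (Y1v t s o) (Y1v t s o) = Y1M t s := by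
  rw [Fintype.sum_option]
  ext i j
  rw [Matrix.add_apply, Matrix.sum_apply]
  simp only [vecMulVec_apply, Y1v, Y1M, Matrix.add_apply, Matrix.of_apply]
  rw [Real.mul_self_sqrt hs.le, add_comm]
  congr 1
  rw [Finset.sum_eq_single i]
  · by_cases hij : i = j
    · subst hij
      rw [Pi.single_eq_same, Real.mul_self_sqrt (ht i).le, Matrix.diagonal_apply_eq]
    · rw [Pi.single_eq_of_ne (Ne.symm hij), mul_zero, Matrix.diagonal_apply_ne _ hij]
  · intro k _ hk
    rw [Pi.single_eq_of_ne (Ne.symm hk), zero_mul]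
  · intro h
    exact absurd (Finset.mem_univ _) h

theorem Y1M_psd {N : ℕ} (t : Fin N → ℝ) (ht : ∀ i, 0 < t i) (s : ℝ) (hs : 0 < s) :
    (Y1M t s).PosSemidef := by
  rw [← Y1M_sum t ht s hs]
  apply Matrix.posSemidef_sum
  intro o _
  have := Matrix.posSemidef_vecMulVec_self_star (Y1v t s o)
  simpa using this

theorem Y1M_det {N : ℕ} (t : Fin N → ℝ) (ht : ∀ i, 0 < t i) (s : ℝ) (hs : 0 < s) :
    (Y1M t s).det = QD t s := by
  have h1 : Y1M t s = Matrix.diagonal t *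
      (1 + Matrix.replicateCol Unit (fun i => s / t i) * Matrix.replicateRow Unit (fun _ => (1:ℝ))) := by
    ext i j
    rw [Matrix.diagonal_mul, Matrix.add_apply, Matrix.mul_apply]
    simp only [Y1M, Matrix.add_apply, Matrix.of_apply, Finset.univ_unique, Finset.sum_singleton,
      Matrix.replicateCol_apply, Matrix.replicateRow_apply, mul_one]
    have hi := (ht i).ne'
    by_cases hij : i = j
    · subst hij
      rw [Matrix.diagonal_apply_eq, Matrix.one_apply_eq]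
      field_simp
    · rw [Matrix.diagonal_apply_ne _ hij, Matrix.one_apply_ne hij]
      field_simp
      ring
  rw [h1, Matrix.det_mul, Matrix.det_diagonal, Matrix.det_one_add_replicateCol_mul_replicateRow]
  unfold QD TT
  have h2 : (fun _ : Fin N => (1:ℝ)) ⬝ᵥ (fun i => s / t i) = s * ∑ i, 1 / t i := by
    simp only [dotProduct, one_mul, Finset.mul_sum]
    refine Finset.sum_congr rfl (fun i _ => ?_)
    ring
  rw [h2, mul_assoc]
  congr 1
  field_simp
  ring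

/-- TARGET: prove this. -/
theorem Y1frame {N : ℕ} (t : Fin N → ℝ) (ht : ∀ i, 0 < t i) (s : ℝ) (hs : 0 < s) :
    ∃ (S : Matrix (Fin N) (Fin N) ℝ) (w : Option (Fin N) → Fin N → ℝ),
      |S.det| = QD t s ^ (1 / 2 : ℝ) ∧ S.det ≠ 0 ∧
      ∑ i, vecMulVec (w i) (w i) = 1 ∧
      (∀ i, w (some i) ⬝ᵥ w (some i) = ci t s i) ∧ w none ⬝ᵥ w none = c0 t s ∧
      (∀ x i, w (some i) ⬝ᵥ (S *ᵥ x) = Real.sqrt (t i) * x i) ∧
      (∀ x, w none ⬝ᵥ (S *ᵥ x) = Real.sqrt s * ∑ i, x i) := by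
  obtain ⟨S, hS⟩ := Y1frame_S (Y1M t s) (Y1M_psd t ht s hs)
  have hdet2 : S.det ^ 2 = QD t s := by
    rw [← Y1M_det t ht s hs, ← hS, Matrix.det_mul, Matrix.det_transpose, sq]
  have hσ : 0 ≤ ∑ i, 1 / t i := Finset.sum_nonneg (fun i _ => (one_div_pos.2 (ht i)).le)
  have hTT : 0 < TT t s := by
    unfold TT
    have : 0 < 1 / s := one_div_pos.2 hs
    linarith
  have hQ : 0 < QD t s := by
    unfold QD
    have : 0 < ∏ i, t i := Finset.prod_pos (fun i _ => ht i)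
    positivity
  have hdet : S.det ≠ 0 := by
    intro h0
    rw [h0] at hdet2
    norm_num at hdet2
    linarith
  have hu : IsUnit S.det := isUnit_iff_ne_zero.2 hdet
  have hw : ∀ o, (Y1v t s o ᵥ* S⁻¹) ᵥ* S = Y1v t s o := by
    intro o
    rw [Matrix.vecMul_vecMul, Matrix.nonsing_inv_mul _ hu, Matrix.vecMul_one]
  have hnorm : ∀ o y, Y1M t s *ᵥ y = Y1v t s o →
      (Y1v t s o ᵥ* S⁻¹) ⬝ᵥ (Y1v t s o ᵥ* S⁻¹) = Y1v t s o ⬝ᵥ y := by
    intro o y hy
    have h1 : Y1v t s o ᵥ* S⁻¹ = S *ᵥ y := by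
      rw [← hy, ← hS, ← Matrix.mulVec_mulVec, Matrix.mulVec_transpose, Matrix.vecMul_vecMul,
        Matrix.mul_nonsing_inv _ hu, Matrix.vecMul_one]
    conv_lhs => rw [h1]
    rw [← h1]
    rw [show (Y1v t s o ᵥ* S⁻¹) ⬝ᵥ (Y1v t s o ᵥ* S⁻¹) = (Y1v t s o ᵥ* S⁻¹) ⬝ᵥ (S *ᵥ y) by rw [h1],
      Matrix.dotProduct_mulVec, hw]
  refine ⟨S, fun o => Y1v t s o ᵥ* S⁻¹, ?_, hdet, ?_, ?_, ?_, ?_, ?_⟩
  · rw [← hdet2, ← Real.sqrt_eq_rpow, Real.sqrt_sq_eq_abs]
  · have h1 : ∀ o, vecMulVec (Y1v t s o ᵥ* S⁻¹) (Y1v t s o ᵥ* S⁻¹) =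
        (S⁻¹)ᵀ * vecMulVec (Y1v t s o) (Y1v t s o) * S⁻¹ := by
      intro o
      rw [Matrix.mul_vecMulVec, Matrix.vecMulVec_mul, Matrix.mulVec_transpose]
    rw [Finset.sum_congr rfl (fun o _ => h1 o), ← Finset.sum_mul, ← Finset.mul_sum,
      Y1M_sum t ht s hs, ← hS, Matrix.mul_assoc, Matrix.mul_assoc, Matrix.mul_nonsing_inv _ hu,
      Matrix.mul_one, ← Matrix.transpose_mul, Matrix.mul_nonsing_inv _ hu, Matrix.transpose_one]
  · intro i
    have hi := ht i
    have h1s : 0 < 1 + s * ∑ i, 1 / t i := by positivity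
    set σ : ℝ := ∑ i, 1 / t i with hσd
    show (Y1v t s (some i) ᵥ* S⁻¹) ⬝ᵥ (Y1v t s (some i) ᵥ* S⁻¹) = ci t s i
    rw [hnorm (some i) (fun j => Real.sqrt (t i) * ((if j = i then 1 / t i else 0) -
      (s / (1 + s * σ)) * (1 / t i) * (1 / t j)))]
    · show (Pi.single i (Real.sqrt (t i)) : Fin N → ℝ) ⬝ᵥ _ = _
      rw [single_dotProduct, if_pos rfl, ← mul_assoc, Real.mul_self_sqrt hi.le]
      unfold ci TT
      rw [← hσd]
      have h2 : σ + 1 / s = (1 + s * σ) / s := by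
        field_simp
        ring
      rw [h2]
      field_simp
    · funext k
      rw [Y1M_mulVec]
      have h3 : ∑ j, Real.sqrt (t i) * ((if j = i then 1 / t i else 0) -
          (s / (1 + s * σ)) * (1 / t i) * (1 / t j)) =
          Real.sqrt (t i) * (1 / t i - (s / (1 + s * σ)) * (1 / t i) * σ) := by
        rw [← Finset.mul_sum, Finset.sum_sub_distrib, Finset.sum_ite_eq', if_pos (Finset.mem_univ _),
          ← Finset.mul_sum]
      rw [h3]
      show _ = (Pi.single i (Real.sqrt (t i)) : Fin N → ℝ) k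
      have hk := (ht k).ne'
      by_cases hki : k = i
      · subst hki
        rw [if_pos rfl, Pi.single_eq_same]
        field_simp
        ring
      · rw [if_neg hki, Pi.single_eq_of_ne hki]
        field_simp
        ring
  · have h1s : 0 < 1 + s * ∑ i, 1 / t i := by positivity
    set σ : ℝ := ∑ i, 1 / t i with hσd
    show (Y1v t s none ᵥ* S⁻¹) ⬝ᵥ (Y1v t s none ᵥ* S⁻¹) = c0 t s
    have h3 : ∑ j, (Real.sqrt s / (1 + s * σ)) * (1 / t j) = (Real.sqrt s / (1 + s * σ)) * σ := by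
      rw [← Finset.mul_sum]
    rw [hnorm none (fun j => (Real.sqrt s / (1 + s * σ)) * (1 / t j))]
    · show (fun _ : Fin N => Real.sqrt s) ⬝ᵥ _ = _
      have h4 : (fun _ : Fin N => Real.sqrt s) ⬝ᵥ (fun j => (Real.sqrt s / (1 + s * σ)) * (1 / t j)) =
          Real.sqrt s * ((Real.sqrt s / (1 + s * σ)) * σ) := by
        rw [← h3]
        exact (Finset.mul_sum Finset.univ (fun j => (Real.sqrt s / (1 + s * σ)) * (1 / t j)) (Real.sqrt s)).symm
      rw [h4]
      unfold c0 TT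
      rw [← hσd]
      have h2 : σ + 1 / s = (1 + s * σ) / s := by
        field_simp
        ring
      rw [h2]
      have h5 : Real.sqrt s * (Real.sqrt s / (1 + s * σ) * σ) = (Real.sqrt s * Real.sqrt s) * σ / (1 + s * σ) := by
        ring
      rw [h5, Real.mul_self_sqrt hs.le]
      field_simp
      ring
    · funext k
      rw [Y1M_mulVec, h3]
      show _ = Real.sqrt s
      have hk := (ht k).ne'
      field_simp
  · intro x i
    show (Y1v t s (some i) ᵥ* S⁻¹) ⬝ᵥ (S *ᵥ x) = _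
    rw [Matrix.dotProduct_mulVec, hw]
    show (Pi.single i (Real.sqrt (t i)) : Fin N → ℝ) ⬝ᵥ _ = _
    rw [single_dotProduct]
  · intro x
    show (Y1v t s none ᵥ* S⁻¹) ⬝ᵥ (S *ᵥ x) = _
    rw [Matrix.dotProduct_mulVec, hw, Finset.mul_sum]
    rfl

end Pool.Agent.Helper142.Kib.Y1frame
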