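import Mathlib
import Pool.Agent.Helper142.Kib.Defs
import Pool.Agent.Helper142.Kib.Y1frame
import Pool.Agent.Helper142.Kib.Y1c

/-! Helper lemma Y1 for MP_7548d4_gt. -/

set_option linter.all false

namespace Pool.Agent.Helper142.Kib.Y1

open MeasureTheory Matrix Filter Topology Pool.Agent.Helper142.Kib
open scoped ENNReal
open Pool.Agent.Helper142.Kib.Y1frame Pool.Agent.Helper142.Kib.Y1c

/-- TARGET: prove this. -/
theorem Y1 (hBL : ∀ {r : ℕ} {ι : Type} [Fintype ι] (w : ι → Fin r → ℝ),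
      ∑ i, vecMulVec (w i) (w i) = 1 → (∀ i, 0 < w i ⬝ᵥ w i) →
      ∀ f : ι → ℝ → ℝ, (∀ i, Continuous (f i)) → (∀ i t, 0 ≤ f i t) →
      (∀ i, Integrable (f i)) →
      ∫⁻ x : Fin r → ℝ, ENNReal.ofReal
          (∏ i, (f i ((w i ⬝ᵥ x) / √(w i ⬝ᵥ w i))) ^ (w i ⬝ᵥ w i)) ≤
        ENNReal.ofReal (∏ i, (∫ t, f i t) ^ (w i ⬝ᵥ w i)))
    {N : ℕ} (hN : 0 < N) (t : Fin N → ℝ) (ht : ∀ i, 0 < t i) (s : ℝ) (hs : 0 < s)
    (h : Fin N → ℝ → ℝ) (h0 : ℝ → ℝ) (hc : ∀ i, Continuous (h i)) (hc0 : Continuous h0)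
    (hp : ∀ i x, 0 ≤ h i x) (hp0 : ∀ x, 0 ≤ h0 x) (hi : ∀ i, Integrable (h i))
    (hi0 : Integrable h0) :
    ∫⁻ x : Fin N → ℝ, ENNReal.ofReal ((∏ i, (h i (x i)) ^ (ci t s i)) *
        (h0 (∑ i, x i)) ^ (c0 t s)) ≤
      ENNReal.ofReal (DD t s * (∏ i, (∫ x, h i x) ^ (ci t s i)) * (∫ x, h0 x) ^ (c0 t s)) := by
  obtain ⟨hci, hc0p, hc0l, hsum, hQD, hDD⟩ := Y1c hN t ht s hs
  obtain ⟨S, w, hSd, hS0, hw1, hws, hwn, hSx, hSn⟩ := Y1frame t ht s hs
  set a : Option (Fin N) → ℝ := fun o => Option.elim o (Real.sqrt (c0 t s) / Real.sqrt s)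
    (fun i => Real.sqrt (ci t s i) / Real.sqrt (t i)) with ha
  set g : Option (Fin N) → ℝ → ℝ := fun o => Option.elim o h0 h with hg
  have hapos : ∀ o, 0 < a o := by
    intro o
    cases o with
    | none => exact div_pos (Real.sqrt_pos.2 hc0p) (Real.sqrt_pos.2 hs)
    | some i => exact div_pos (Real.sqrt_pos.2 (hci i).1) (Real.sqrt_pos.2 (ht i))
  have hgc : ∀ o, Continuous (g o) := by
    intro o
    cases o with
    | none => exact hc0
    | some i => exact hc i
  have hgp : ∀ o u, 0 ≤ g o u := by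
    intro o
    cases o with
    | none => exact hp0
    | some i => exact hp i
  have hgi : ∀ o, Integrable (g o) := by
    intro o
    cases o with
    | none => exact hi0
    | some i => exact hi i
  have hwpos : ∀ o, 0 < w o ⬝ᵥ w o := by
    intro o
    cases o with
    | none => rw [hwn]; exact hc0p
    | some i => rw [hws]; exact (hci i).1
  set f : Option (Fin N) → ℝ → ℝ := fun o u => g o (u * a o) with hf
  have hfc : ∀ o, Continuous (f o) := fun o => (hgc o).comp (continuous_id.mul continuous_const)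
  have hfi : ∀ o, Integrable (f o) := fun o => (hgi o).comp_mul_right' (hapos o).ne'
  have hfint : ∀ o, ∫ u, f o u = (a o)⁻¹ * ∫ u, g o u := by
    intro o
    show ∫ u, g o (u * a o) = _
    rw [MeasureTheory.Measure.integral_comp_mul_right, abs_of_pos (inv_pos.2 (hapos o)), smul_eq_mul]
  have key := hBL w hw1 hwpos f hfc (fun o u => hgp o _) hfi
  set P : (Fin N → ℝ) → ℝ := fun y => ∏ o, (f o ((w o ⬝ᵥ y) / √(w o ⬝ᵥ w o))) ^ (w o ⬝ᵥ w o)
    with hP
  have hPm : Measurable (fun y => ENNReal.ofReal (P y)) := by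
    apply Measurable.ennreal_ofReal
    apply Finset.measurable_prod
    intro o _
    apply Measurable.pow_const
    apply (hfc o).measurable.comp
    apply Measurable.div_const
    apply Continuous.measurable
    exact continuous_finset_sum _ (fun j _ => continuous_const.mul (continuous_apply j))
  have hPS : ∀ x, P (S *ᵥ x) = (∏ i, (h i (x i)) ^ (ci t s i)) * (h0 (∑ i, x i)) ^ (c0 t s) := by
    intro x
    rw [hP]
    simp only
    rw [Fintype.prod_option, mul_comm]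
    congr 1
    · apply Finset.prod_congr rfl
      intro i _
      rw [hws, hSx]
      congr 1
      show h i (Real.sqrt (t i) * x i / Real.sqrt (ci t s i) *
        (Real.sqrt (ci t s i) / Real.sqrt (t i))) = _
      congr 1
      have h1 := (Real.sqrt_pos.2 (hci i).1).ne'
      have h2 := (Real.sqrt_pos.2 (ht i)).ne'
      field_simp
    · rw [hwn, hSn]
      congr 1
      show h0 (Real.sqrt s * (∑ i, x i) / Real.sqrt (c0 t s) *
        (Real.sqrt (c0 t s) / Real.sqrt s)) = _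
      congr 1
      have h1 := (Real.sqrt_pos.2 hc0p).ne'
      have h2 := (Real.sqrt_pos.2 hs).ne'
      field_simp
  have hmap := Real.map_matrix_volume_pi_eq_smul_volume_pi hS0
  have hlin : Measurable (Matrix.toLin' S : (Fin N → ℝ) → (Fin N → ℝ)) :=
    (LinearMap.continuous_on_pi (Matrix.toLin' S)).measurable
  have hcv : ∫⁻ x : Fin N → ℝ, ENNReal.ofReal ((∏ i, (h i (x i)) ^ (ci t s i)) *
        (h0 (∑ i, x i)) ^ (c0 t s)) = ENNReal.ofReal |(S.det)⁻¹| * ∫⁻ y, ENNReal.ofReal (P y) := by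
    rw [← smul_eq_mul, ← lintegral_smul_measure, ← hmap, lintegral_map hPm hlin]
    apply lintegral_congr
    intro x
    rw [Matrix.toLin'_apply, hPS]
  rw [hcv]
  refine (mul_le_mul_right key _).trans ?_
  rw [← ENNReal.ofReal_mul (abs_nonneg _)]
  apply le_of_eq
  congr 1
  rw [Fintype.prod_option, hwn]
  simp only [hws, hfint]
  have e1 : |(S.det)⁻¹| = QD t s ^ (-(1 / 2) : ℝ) := by
    rw [abs_inv, hSd, ← Real.rpow_neg hQD.le]
  rw [e1]
  have hI : ∀ o, 0 ≤ ∫ u, g o u := fun o => integral_nonneg (hgp o)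
  have hpow : ∀ (c r I : ℝ), 0 < c → 0 < r → 0 ≤ I →
      ((Real.sqrt c / Real.sqrt r)⁻¹ * I) ^ c = (r / c) ^ (c / 2) * I ^ c := by
    intro c r I hc hr hI
    rw [Real.mul_rpow (by positivity) hI, inv_div, ← Real.sqrt_div hr.le, Real.sqrt_eq_rpow,
      ← Real.rpow_mul (by positivity)]
    congr 2
    ring
  have e2 : ((a none)⁻¹ * ∫ u, g none u) ^ c0 t s =
      (s / c0 t s) ^ (c0 t s / 2) * (∫ x, h0 x) ^ c0 t s := hpow _ _ _ hc0p hs (hI none)
  have e3 : ∀ i, ((a (some i))⁻¹ * ∫ u, g (some i) u) ^ ci t s i =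
      (t i / ci t s i) ^ (ci t s i / 2) * (∫ x, h i x) ^ ci t s i :=
    fun i => hpow _ _ _ (hci i).1 (ht i) (hI (some i))
  rw [e2, Finset.prod_congr rfl (fun i _ => e3 i), Finset.prod_mul_distrib, DD]
  ring

end Pool.Agent.Helper142.Kib.Y1
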