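import Mathlib
import Pool.Agent.Helper142.Kib.Defs
import Pool.Agent.Helper142.Kib.Y1c

/-! Helper lemma Yalg for MP_7548d4_gt. -/

set_option linter.all false

namespace Pool.Agent.Helper142.Kib.Yalg

open MeasureTheory Matrix Filter Topology Pool.Agent.Helper142.Kib
open scoped ENNReal
open Pool.Agent.Helper142.Kib.Y1c

theorem Yalg_aux (a c : ℝ) (ha : 0 < a) (n : ℕ) :
    (a ^ (c / 2)) ^ n * ((Real.pi / a) ^ ((n : ℝ) / 2)) ^ c = (Real.pi ^ (c / 2)) ^ n := by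
  have hpi := Real.pi_pos
  rw [← Real.rpow_natCast (a ^ (c/2)) n, ← Real.rpow_natCast (Real.pi ^ (c/2)) n,
    ← Real.rpow_mul ha.le, ← Real.rpow_mul hpi.le, ← Real.rpow_mul (by positivity),
    Real.div_rpow hpi.le ha.le]
  have e : (n:ℝ) / 2 * c = c / 2 * n := by ring
  rw [e]
  have : 0 < a ^ (c / 2 * (n:ℝ)) := Real.rpow_pos_of_pos ha _
  field_simp

/-- TARGET: prove this. -/
theorem Yalg {N : ℕ} (hN : 0 < N) (t : Fin N → ℝ) (ht : ∀ i, 0 < t i) (s : ℝ) (hs : 0 < s)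
    (n : ℕ) :
    DD t s ^ n * (∏ i, ((Real.pi / (t i / ci t s i)) ^ ((n : ℝ) / 2)) ^ (ci t s i)) *
        ((Real.pi / (s / c0 t s)) ^ ((n : ℝ) / 2)) ^ (c0 t s) =
      (Real.pi ^ ((N : ℝ) / 2) * QD t s ^ (-(1 / 2) : ℝ)) ^ n := by
  obtain ⟨h1, h2, h3, h4, h5, h6⟩ := Y1c hN t ht s hs
  unfold DD
  rw [mul_pow, mul_pow, mul_pow, ← Finset.prod_pow]
  have hprod : (∏ i, ((t i / ci t s i) ^ (ci t s i / 2)) ^ n) *
      (∏ i, ((Real.pi / (t i / ci t s i)) ^ ((n : ℝ) / 2)) ^ (ci t s i)) = ∏ i, (Real.pi ^ (ci t s i / 2)) ^ n := by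
    rw [← Finset.prod_mul_distrib]
    apply Finset.prod_congr rfl
    intro i _
    exact Yalg_aux _ _ (div_pos (ht i) (h1 i).1) n
  have h0 := Yalg_aux (s / c0 t s) (c0 t s) (div_pos hs h2) n
  have hpiN : Real.pi ^ ((N : ℝ) / 2) = (∏ i, Real.pi ^ (ci t s i / 2)) * Real.pi ^ (c0 t s / 2) := by
    rw [← Real.rpow_sum_of_pos Real.pi_pos, ← Real.rpow_add Real.pi_pos, ← Finset.sum_div, ← h4]
    congr 1; ring
  rw [hpiN, mul_pow, ← Finset.prod_pow, ← hprod, ← h0]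
  ring

end Pool.Agent.Helper142.Kib.Yalg
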