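import Mathlib
import Pool.Agent.Helper142.Kib.Defs

/-! Helper lemma Ygauss for MP_7548d4_gt. -/

set_option linter.all false

namespace Pool.Agent.Helper142.Kib.Ygauss

open MeasureTheory Matrix Filter Topology Pool.Agent.Helper142.Kib
open scoped ENNReal

theorem Ygauss_Gn (b : ℝ) (hb : 0 < b) (n : ℕ) :
    ∫⁻ x : Fin n → ℝ, ENNReal.ofReal (Real.exp (-b * (x ⬝ᵥ x))) =
      ENNReal.ofReal (Real.sqrt (Real.pi / b)) ^ n := by
  have h1 : ∀ x : Fin n → ℝ, Real.exp (-b * (x ⬝ᵥ x)) = ∏ i, Real.exp (-b * (x i) ^ 2) := by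
    intro x
    rw [← Real.exp_sum]
    congr 1
    unfold dotProduct
    rw [Finset.mul_sum]
    refine Finset.sum_congr rfl (fun i _ => ?_)
    ring
  simp only [h1]
  rw [← ofReal_integral_eq_lintegral_ofReal]
  · rw [integral_fintype_prod_volume_eq_pow (fun y : ℝ => Real.exp (-b * y ^ 2)), integral_gaussian,
      ENNReal.ofReal_pow (Real.sqrt_nonneg _), Fintype.card_fin]
  · exact Integrable.fintype_prod (fun _ => integrable_exp_neg_mul_sq hb)
  · exact Filter.Eventually.of_forall fun x => Finset.prod_nonneg fun i _ => (Real.exp_pos _).le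

theorem Ygauss_shift (t s : ℝ) (ht : 0 < t) (hs : 0 < s) (n : ℕ) (S : Fin n → ℝ) :
    ∫⁻ x : Fin n → ℝ, ENNReal.ofReal (Real.exp (-(t * (x ⬝ᵥ x)) - s * ((x + S) ⬝ᵥ (x + S)))) =
      ENNReal.ofReal (Real.sqrt (Real.pi / (t + s))) ^ n *
        ENNReal.ofReal (Real.exp (-(t * s / (t + s)) * (S ⬝ᵥ S))) := by
  have hts : t + s ≠ 0 := by positivity
  have h1 : ∀ x : Fin n → ℝ, ENNReal.ofReal (Real.exp (-(t * (x ⬝ᵥ x)) - s * ((x + S) ⬝ᵥ (x + S)))) =
      ENNReal.ofReal (Real.exp (-(t * s / (t + s)) * (S ⬝ᵥ S))) *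
      ENNReal.ofReal (Real.exp (-(t + s) * ((x + (s / (t + s)) • S) ⬝ᵥ (x + (s / (t + s)) • S)))) := by
    intro x
    rw [← ENNReal.ofReal_mul (Real.exp_pos _).le, ← Real.exp_add]
    congr 2
    simp only [dotProduct_add, add_dotProduct, dotProduct_smul, smul_dotProduct, smul_eq_mul]
    rw [dotProduct_comm S x]
    field_simp
    ring
  simp only [h1]
  rw [lintegral_const_mul']
  · rw [lintegral_add_right_eq_self (fun x : Fin n → ℝ => ENNReal.ofReal (Real.exp (-(t + s) * (x ⬝ᵥ x)))),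
      Ygauss_Gn (t + s) (by positivity) n, mul_comm]
  · exact ENNReal.ofReal_ne_top

/-- TARGET: prove this. -/
theorem Ygauss {N : ℕ} (t : Fin N → ℝ) (ht : ∀ i, 0 < t i) (s : ℝ) (hs : 0 < s) (n : ℕ) :
    ∫⁻ X : Fin N → Fin n → ℝ, ENNReal.ofReal (Real.exp
        (-(∑ i, t i * (X i ⬝ᵥ X i)) - s * ((∑ i, X i) ⬝ᵥ (∑ i, X i)))) =
      ENNReal.ofReal ((Real.pi ^ ((N : ℝ) / 2) * QD t s ^ (-(1 / 2) : ℝ)) ^ n) := by
  induction N generalizing s with
  | zero =>
    have h1 : QD t s = 1 := by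
      unfold QD TT
      simp
      field_simp
    rw [h1]
    simp
    rw [volume_pi, Measure.pi_of_empty]
    exact measure_univ
  | succ N ih =>
    have h0 : 0 < t 0 := ht 0
    set s' : ℝ := t 0 * s / (t 0 + s) with hs'
    have hs'0 : 0 < s' := by positivity
    have hQD : QD t s = (t 0 + s) * QD (fun i : Fin N => t i.succ) s' := by
      unfold QD TT
      rw [Fin.prod_univ_succ, Fin.sum_univ_succ, hs']
      field_simp
      ring
    have hQ' : 0 < QD (fun i : Fin N => t i.succ) s' := by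
      unfold QD TT
      have h2 : 0 < ∏ i : Fin N, t i.succ := Finset.prod_pos fun i _ => ht _
      have h3 : 0 ≤ ∑ i : Fin N, 1 / t i.succ := Finset.sum_nonneg fun i _ => by
        have := ht i.succ
        positivity
      positivity
    have hmp := (volume_preserving_piFinSuccAbove (fun _ : Fin (N + 1) => (Fin n → ℝ)) 0).symm
    rw [← hmp.lintegral_comp_emb (MeasurableEquiv.measurableEmbedding _)]
    rw [show (volume : Measure ((Fin n → ℝ) × (Fin N → Fin n → ℝ))) =
      (volume : Measure (Fin n → ℝ)).prod (volume : Measure (Fin N → Fin n → ℝ)) from rfl]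
    rw [lintegral_prod_symm']
    · have h5 : ∀ (X : Fin N → Fin n → ℝ), (∫⁻ x : Fin n → ℝ, ENNReal.ofReal (Real.exp
        (-(∑ i, t i * (((MeasurableEquiv.piFinSuccAbove (fun _ : Fin (N + 1) => (Fin n → ℝ)) 0).symm (x, X)) i ⬝ᵥ
            ((MeasurableEquiv.piFinSuccAbove (fun _ : Fin (N + 1) => (Fin n → ℝ)) 0).symm (x, X)) i)) -
          s * ((∑ i, ((MeasurableEquiv.piFinSuccAbove (fun _ : Fin (N + 1) => (Fin n → ℝ)) 0).symm (x, X)) i) ⬝ᵥ
            (∑ i, ((MeasurableEquiv.piFinSuccAbove (fun _ : Fin (N + 1) => (Fin n → ℝ)) 0).symm (x, X)) i))))) =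
          ENNReal.ofReal (Real.sqrt (Real.pi / (t 0 + s))) ^ n * ENNReal.ofReal (Real.exp
            (-(∑ i : Fin N, t i.succ * (X i ⬝ᵥ X i)) - s' * ((∑ i, X i) ⬝ᵥ (∑ i, X i)))) := by
        intro X
        have h6 : ∀ x : Fin n → ℝ, ENNReal.ofReal (Real.exp
        (-(∑ i, t i * (((MeasurableEquiv.piFinSuccAbove (fun _ : Fin (N + 1) => (Fin n → ℝ)) 0).symm (x, X)) i ⬝ᵥ
            ((MeasurableEquiv.piFinSuccAbove (fun _ : Fin (N + 1) => (Fin n → ℝ)) 0).symm (x, X)) i)) -
          s * ((∑ i, ((MeasurableEquiv.piFinSuccAbove (fun _ : Fin (N + 1) => (Fin n → ℝ)) 0).symm (x, X)) i) ⬝ᵥ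
            (∑ i, ((MeasurableEquiv.piFinSuccAbove (fun _ : Fin (N + 1) => (Fin n → ℝ)) 0).symm (x, X)) i)))) =
            ENNReal.ofReal (Real.exp (-(∑ i : Fin N, t i.succ * (X i ⬝ᵥ X i)))) *
            ENNReal.ofReal (Real.exp (-(t 0 * (x ⬝ᵥ x)) - s * ((x + ∑ i, X i) ⬝ᵥ (x + ∑ i, X i)))) := by
          intro x
          have e0 : ((MeasurableEquiv.piFinSuccAbove (fun _ : Fin (N + 1) => (Fin n → ℝ)) 0).symm (x, X)) 0 = x := by
            simp [MeasurableEquiv.piFinSuccAbove]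
          have e1 : ∀ i : Fin N, ((MeasurableEquiv.piFinSuccAbove (fun _ : Fin (N + 1) => (Fin n → ℝ)) 0).symm (x, X)) i.succ = X i := by
            intro i
            simp [MeasurableEquiv.piFinSuccAbove]
          rw [← ENNReal.ofReal_mul (Real.exp_pos _).le, ← Real.exp_add]
          rw [Fin.sum_univ_succ, Fin.sum_univ_succ]
          simp only [e0, e1]
          congr 2
          ring
        simp only [h6]
        rw [lintegral_const_mul' _ _ ENNReal.ofReal_ne_top, Ygauss_shift (t 0) s h0 hs n,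
          mul_left_comm, ← ENNReal.ofReal_mul (Real.exp_pos _).le, ← Real.exp_add]
        congr 3
        rw [hs']
        ring
      simp only [h5]
      rw [lintegral_const_mul' _ _ (ENNReal.pow_ne_top ENNReal.ofReal_ne_top),
        ih (fun i => t i.succ) (fun i => ht _) s' hs'0, ← ENNReal.ofReal_pow (Real.sqrt_nonneg _),
        ← ENNReal.ofReal_mul (by positivity), ← mul_pow]
      congr 2
      rw [hQD, Real.mul_rpow (by positivity) hQ'.le, Real.sqrt_eq_rpow, Real.div_rpow Real.pi_pos.le (by positivity)]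
      have e3 : Real.pi ^ (((N + 1 : ℕ) : ℝ) / 2) = Real.pi ^ (1 / 2 : ℝ) * Real.pi ^ ((N : ℝ) / 2) := by
        rw [← Real.rpow_add Real.pi_pos]
        congr 1
        push_cast
        ring
      rw [e3, Real.rpow_neg (by positivity : (0:ℝ) ≤ t 0 + s)]
      ring
    · have : Measurable (fun X : Fin (N + 1) → Fin n → ℝ => ENNReal.ofReal (Real.exp
        (-(∑ i, t i * (X i ⬝ᵥ X i)) - s * ((∑ i, X i) ⬝ᵥ (∑ i, X i))))) := by
        apply Measurable.ennreal_ofReal
        apply Continuous.measurable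
        simp only [dotProduct]
        fun_prop
      exact this.comp (MeasurableEquiv.measurable _)

end Pool.Agent.Helper142.Kib.Ygauss
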