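import Mathlib
import Pool.Agent.Helper142.Kib.Defs

/-! Helper lemma Gd_slice for MP_7548d4_gt. -/

set_option linter.all false

namespace Pool.Agent.Helper142.Kib.Gd_slice

open MeasureTheory Matrix Filter Topology Pool.Agent.Helper142.Kib
open scoped ENNReal

theorem sum_cons_sq {n : ℕ} (y : ℝ) (x : Fin n → ℝ) :
    ∑ j, (Fin.cons y x : Fin (n + 1) → ℝ) j ^ 2 = y ^ 2 + ∑ j, x j ^ 2 := by
  rw [Fin.sum_univ_succ]
  simp

theorem int_gauss {n : ℕ} (ε : ℝ) (hε : 0 < ε) :
    Integrable (fun x : Fin n → ℝ => Real.exp (-ε * ∑ j, x j ^ 2)) := by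
  have h1 : Integrable (fun x : Fin n → ℝ => ∏ j, Real.exp (-ε * (x j) ^ 2)) :=
    MeasureTheory.Integrable.fintype_prod (f := fun (_ : Fin n) (t : ℝ) => Real.exp (-ε * t ^ 2))
      (fun _ => integrable_exp_neg_mul_sq hε)
  refine h1.congr (Filter.Eventually.of_forall ?_)
  intro x
  simp only
  rw [← Real.exp_sum, Finset.mul_sum]

theorem cont_cons {n : ℕ} : Continuous (fun q : ℝ × (Fin n → ℝ) =>
    (Fin.cons q.1 q.2 : Fin (n + 1) → ℝ)) := by
  apply continuous_pi
  intro i
  refine Fin.cases ?_ (fun j => ?_) i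
  · simpa using continuous_fst
  · simp only [Fin.cons_succ]
    exact (continuous_apply j).comp continuous_snd

theorem Gd_slice {n : ℕ} (h : (Fin (n + 1) → ℝ) → ℝ) (hh : IsGd h) :
    (∀ y : ℝ, IsGd (fun x : Fin n → ℝ => h (Fin.cons y x))) ∧
    Continuous (fun y : ℝ => ∫ x : Fin n → ℝ, h (Fin.cons y x)) ∧
    (∀ y : ℝ, 0 ≤ ∫ x : Fin n → ℝ, h (Fin.cons y x)) ∧
    Integrable (fun y : ℝ => ∫ x : Fin n → ℝ, h (Fin.cons y x)) ∧
    ∫ y : ℝ, ∫ x : Fin n → ℝ, h (Fin.cons y x) = ∫ z : Fin (n + 1) → ℝ, h z := by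
  obtain ⟨C, ε, hε, hdec⟩ := hh.decay
  have hC : 0 ≤ C := by
    have h1 := hdec 0
    have h2 := hh.nonneg 0
    simp at h1
    linarith
  have hdec2 : ∀ (y : ℝ) (x : Fin n → ℝ), h (Fin.cons y x) ≤
      C * Real.exp (-ε * y ^ 2) * Real.exp (-ε * ∑ j, x j ^ 2) := by
    intro y x
    refine (hdec _).trans (le_of_eq ?_)
    rw [sum_cons_sq, mul_assoc, ← Real.exp_add]
    congr 2
    ring
  have hle1 : ∀ y : ℝ, Real.exp (-ε * y ^ 2) ≤ 1 := by
    intro y
    rw [← Real.exp_zero]
    apply Real.exp_le_exp.mpr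
    have : 0 ≤ ε * y ^ 2 := by positivity
    linarith
  have hdec3 : ∀ (y : ℝ) (x : Fin n → ℝ), h (Fin.cons y x) ≤
      C * Real.exp (-ε * ∑ j, x j ^ 2) := by
    intro y x
    refine (hdec2 y x).trans ?_
    apply mul_le_mul_of_nonneg_right _ (Real.exp_pos _).le
    calc C * Real.exp (-ε * y ^ 2) ≤ C * 1 := mul_le_mul_of_nonneg_left (hle1 y) hC
      _ = C := mul_one C
  have hcont2 : Continuous (fun q : ℝ × (Fin n → ℝ) => h (Fin.cons q.1 q.2)) :=
    hh.cont.comp cont_cons
  have hsl : ∀ y : ℝ, Continuous (fun x : Fin n → ℝ => h (Fin.cons y x)) := by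
    intro y
    exact hcont2.comp (Continuous.prodMk continuous_const continuous_id)
  have hsr : ∀ x : Fin n → ℝ, Continuous (fun y : ℝ => h (Fin.cons y x)) := by
    intro x
    exact hcont2.comp (Continuous.prodMk continuous_id continuous_const)
  have hbint : Integrable (fun x : Fin n → ℝ => C * Real.exp (-ε * ∑ j, x j ^ 2)) :=
    (int_gauss ε hε).const_mul C
  have hint : Integrable h := by
    refine Integrable.mono' ((int_gauss (n := n + 1) ε hε).const_mul C)
      hh.cont.aestronglyMeasurable (Filter.Eventually.of_forall ?_)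
    intro z
    rw [Real.norm_of_nonneg (hh.nonneg z)]
    exact hdec z
  have hmp := (MeasureTheory.volume_preserving_piFinSuccAbove (fun _ : Fin (n + 1) => ℝ) 0).symm
  have hcomp : ∀ q : ℝ × (Fin n → ℝ),
      h ((MeasurableEquiv.piFinSuccAbove (fun _ : Fin (n + 1) => ℝ) 0).symm q)
        = h (Fin.cons q.1 q.2) := by
    intro q
    congr 1
    exact Fin.insertNth_zero' q.1 q.2
  have hint2 : Integrable (fun q : ℝ × (Fin n → ℝ) => h (Fin.cons q.1 q.2))
      (volume.prod volume) := by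
    have := (hmp.integrable_comp_emb (MeasurableEquiv.measurableEmbedding _)).mpr hint
    refine this.congr (Filter.Eventually.of_forall ?_)
    intro q
    exact hcomp q
  refine ⟨?_, ?_, ?_, ?_, ?_⟩
  · intro y
    refine ⟨hsl y, fun x => hh.nonneg _, ⟨C * Real.exp (-ε * y ^ 2), ε, hε, hdec2 y⟩⟩
  · refine continuous_of_dominated (bound := fun x => C * Real.exp (-ε * ∑ j, x j ^ 2))
      (fun y => (hsl y).aestronglyMeasurable) ?_ hbint ?_
    · intro y
      refine Filter.Eventually.of_forall (fun x => ?_)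
      rw [Real.norm_of_nonneg (hh.nonneg _)]
      exact hdec3 y x
    · exact Filter.Eventually.of_forall hsr
  · intro y
    exact integral_nonneg (fun x => hh.nonneg _)
  · exact hint2.integral_prod_left
  · have h1 := integral_prod _ hint2
    rw [← h1]
    have h2 := hmp.integral_comp (MeasurableEquiv.measurableEmbedding _) h
    rw [← h2]
    apply integral_congr_ae
    refine Filter.Eventually.of_forall (fun q => ?_)
    exact (hcomp q).symm

end Pool.Agent.Helper142.Kib.Gd_slice
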