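import Mathlib
import Pool.Agent.Helper142.Kib.Defs

/-! Helper lemma Ycons for MP_7548d4_gt. -/

set_option linter.all false

namespace Pool.Agent.Helper142.Kib.Ycons

open MeasureTheory Matrix Filter Topology Pool.Agent.Helper142.Kib
open scoped ENNReal

theorem Ycons_eq {N n : ℕ} (F : (Fin N → Fin (n + 1) → ℝ) → ℝ≥0∞) (hF : Measurable F) :
    Measurable (fun p : (Fin N → ℝ) × (Fin N → Fin n → ℝ) =>
      (fun i => Fin.cons (p.1 i) (p.2 i) : Fin N → Fin (n + 1) → ℝ)) := by
  refine measurable_pi_lambda _ fun i => measurable_pi_lambda _ fun j => ?_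
  refine Fin.cases ?_ (fun k => ?_) j
  · simp only [Fin.cons_zero]
    exact (measurable_pi_apply i).comp measurable_fst
  · simp only [Fin.cons_succ]
    exact (measurable_pi_apply k).comp ((measurable_pi_apply i).comp measurable_snd)

/-- TARGET: prove this. -/
theorem Ycons {N n : ℕ} (F : (Fin N → Fin (n + 1) → ℝ) → ℝ≥0∞) (hF : Measurable F) :
    ∫⁻ X : Fin N → Fin (n + 1) → ℝ, F X =
      ∫⁻ y : Fin N → ℝ, ∫⁻ X : Fin N → Fin n → ℝ, F (fun i => Fin.cons (y i) (X i)) := by
  have h1 : MeasurePreserving (fun (X : Fin N → Fin (n + 1) → ℝ) (i : Fin N) =>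
      (MeasurableEquiv.piFinSuccAbove (fun _ : Fin (n + 1) => ℝ) 0) (X i)) volume volume :=
    volume_preserving_pi (fun _ => volume_preserving_piFinSuccAbove (fun _ : Fin (n + 1) => ℝ) 0)
  have h2 := volume_measurePreserving_arrowProdEquivProdArrow ℝ (Fin n → ℝ) (Fin N)
  have h3 := h2.comp h1
  have hG : Measurable (fun p : (Fin N → ℝ) × (Fin N → Fin n → ℝ) =>
      F (fun i => Fin.cons (p.1 i) (p.2 i) : Fin N → Fin (n + 1) → ℝ)) :=
    hF.comp (Ycons_eq F hF)
  have h4 := h3.lintegral_comp hG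
  have h5 : ∫⁻ X : Fin N → Fin (n + 1) → ℝ, F X =
      ∫⁻ p : (Fin N → ℝ) × (Fin N → Fin n → ℝ),
        F (fun i => Fin.cons (p.1 i) (p.2 i) : Fin N → Fin (n + 1) → ℝ) := by
    rw [← h4]
    refine lintegral_congr fun X => ?_
    congr 1
    funext i j
    refine Fin.cases ?_ (fun k => ?_) j
    · rfl
    · rfl
  rw [h5]
  exact lintegral_prod _ hG.aemeasurable

end Pool.Agent.Helper142.Kib.Ycons
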