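import Mathlib
import Pool.Agent.Helper142.Kib.Defs
import Pool.Agent.Helper142.Kib.Gd_slice
import Pool.Agent.Helper142.Kib.Ycons

/-! Helper lemma Yn for MP_7548d4_gt. -/

set_option linter.all false

namespace Pool.Agent.Helper142.Kib.Yn

open MeasureTheory Matrix Filter Topology Pool.Agent.Helper142.Kib
open scoped ENNReal
open Pool.Agent.Helper142.Kib.Gd_slice Pool.Agent.Helper142.Kib.Ycons

/-- TARGET: prove this. -/
theorem Yn {N : ℕ} (c : Fin N → ℝ) (d D : ℝ) (hc : ∀ i, 0 < c i) (hd : 0 < d) (hD : 0 ≤ D)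
    (h1 : ∀ (h : Fin N → ℝ → ℝ) (h0 : ℝ → ℝ), (∀ i, Continuous (h i)) → Continuous h0 →
      (∀ i x, 0 ≤ h i x) → (∀ x, 0 ≤ h0 x) → (∀ i, Integrable (h i)) → Integrable h0 →
      ∫⁻ x : Fin N → ℝ, ENNReal.ofReal ((∏ i, (h i (x i)) ^ (c i)) * (h0 (∑ i, x i)) ^ d) ≤
        ENNReal.ofReal (D * (∏ i, (∫ x, h i x) ^ (c i)) * (∫ x, h0 x) ^ d))
    (n : ℕ) (h : Fin N → (Fin n → ℝ) → ℝ) (h0 : (Fin n → ℝ) → ℝ) (hh : ∀ i, IsGd (h i))
    (hh0 : IsGd h0) :
    ∫⁻ X : Fin N → Fin n → ℝ, ENNReal.ofReal ((∏ i, (h i (X i)) ^ (c i)) *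
        (h0 (∑ i, X i)) ^ d) ≤
      ENNReal.ofReal (D ^ n * (∏ i, (∫ x, h i x) ^ (c i)) * (∫ x, h0 x) ^ d) := by
  induction n with
  | zero =>
    have hu : (volume : Measure (Fin 0 → ℝ)) Set.univ = 1 := by
      rw [MeasureTheory.Measure.volume_pi_eq_dirac]
      simp
    have hU : (volume : Measure (Fin N → Fin 0 → ℝ)) Set.univ = 1 := by
      rw [volume_pi, Measure.pi_univ]
      simp [hu]
    have hr : (volume : Measure (Fin 0 → ℝ)).real Set.univ = 1 := by
      simp [Measure.real, hu]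
    rw [lintegral_unique, hU, mul_one]
    have e1 : ∀ g : (Fin 0 → ℝ) → ℝ, ∫ x : Fin 0 → ℝ, g x = g default := by
      intro g
      rw [integral_unique, hr, one_smul]
      exact congrArg g (Subsingleton.elim _ _)
    simp only [e1, pow_zero, one_mul]
    apply le_of_eq
    have e5 : ∀ (g : (Fin 0 → ℝ) → ℝ) (x y : Fin 0 → ℝ), g x = g y :=
      fun g x y => congrArg g (Subsingleton.elim _ _)
    refine congrArg ENNReal.ofReal (congrArg₂ (· * ·) ?_ ?_)
    · exact Finset.prod_congr rfl fun i _ => congrArg (· ^ c i) (e5 _ _ _)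
    · exact congrArg (· ^ d) (e5 _ _ _)
  | succ n ih =>
    have hmeas : Measurable (fun X : Fin N → Fin (n + 1) → ℝ =>
        ENNReal.ofReal ((∏ i, (h i (X i)) ^ (c i)) * (h0 (∑ i, X i)) ^ d)) := by
      apply ENNReal.measurable_ofReal.comp
      apply Measurable.mul
      · apply Finset.measurable_prod
        intro i _
        exact ((hh i).cont.measurable.comp (measurable_pi_apply i)).pow_const _
      · apply Measurable.pow_const
        apply hh0.cont.measurable.comp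
        exact Finset.measurable_sum _ (fun i _ => measurable_pi_apply i)
    rw [Ycons _ hmeas]
    have key : ∀ y : Fin N → ℝ,
        ∫⁻ X : Fin N → Fin n → ℝ, ENNReal.ofReal ((∏ i, (h i (Fin.cons (y i) (X i))) ^ (c i)) *
          (h0 (∑ i, (Fin.cons (y i) (X i) : Fin (n + 1) → ℝ))) ^ d) ≤
        ENNReal.ofReal (D ^ n) * ENNReal.ofReal
          ((∏ i, (∫ x : Fin n → ℝ, h i (Fin.cons (y i) x)) ^ (c i)) *
            (∫ x : Fin n → ℝ, h0 (Fin.cons (∑ i, y i) x)) ^ d) := by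
      intro y
      have h2 := ih (fun i x => h i (Fin.cons (y i) x)) (fun x => h0 (Fin.cons (∑ i, y i) x))
        (fun i => (Gd_slice (h i) (hh i)).1 (y i)) ((Gd_slice h0 hh0).1 (∑ i, y i))
      have e2 : ∀ X : Fin N → Fin n → ℝ, (∑ i, (Fin.cons (y i) (X i) : Fin (n + 1) → ℝ)) =
          Fin.cons (∑ i, y i) (∑ i, X i) := by
        intro X
        funext k
        refine Fin.cases ?_ (fun k => ?_) k
        · simp [Finset.sum_apply]
        · simp [Finset.sum_apply]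
      simp only [e2]
      refine h2.trans (le_of_eq ?_)
      rw [← ENNReal.ofReal_mul (pow_nonneg hD n)]
      congr 1
      ring
    calc ∫⁻ y : Fin N → ℝ, ∫⁻ X : Fin N → Fin n → ℝ,
          ENNReal.ofReal ((∏ i, (h i (Fin.cons (y i) (X i))) ^ (c i)) *
          (h0 (∑ i, (Fin.cons (y i) (X i) : Fin (n + 1) → ℝ))) ^ d)
        ≤ ∫⁻ y : Fin N → ℝ, ENNReal.ofReal (D ^ n) * ENNReal.ofReal
          ((∏ i, (∫ x : Fin n → ℝ, h i (Fin.cons (y i) x)) ^ (c i)) *
            (∫ x : Fin n → ℝ, h0 (Fin.cons (∑ i, y i) x)) ^ d) := lintegral_mono key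
      _ = ENNReal.ofReal (D ^ n) * ∫⁻ y : Fin N → ℝ, ENNReal.ofReal
          ((∏ i, (∫ x : Fin n → ℝ, h i (Fin.cons (y i) x)) ^ (c i)) *
            (∫ x : Fin n → ℝ, h0 (Fin.cons (∑ i, y i) x)) ^ d) :=
          lintegral_const_mul' _ _ ENNReal.ofReal_ne_top
      _ ≤ ENNReal.ofReal (D ^ n) * ENNReal.ofReal
          (D * (∏ i, (∫ y : ℝ, ∫ x : Fin n → ℝ, h i (Fin.cons y x)) ^ (c i)) *
            (∫ y : ℝ, ∫ x : Fin n → ℝ, h0 (Fin.cons y x)) ^ d) := by
          refine mul_le_mul_right ?_ _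
          exact h1 (fun i y => ∫ x : Fin n → ℝ, h i (Fin.cons y x))
            (fun y => ∫ x : Fin n → ℝ, h0 (Fin.cons y x))
            (fun i => (Gd_slice (h i) (hh i)).2.1) (Gd_slice h0 hh0).2.1
            (fun i => (Gd_slice (h i) (hh i)).2.2.1) (Gd_slice h0 hh0).2.2.1
            (fun i => (Gd_slice (h i) (hh i)).2.2.2.1) (Gd_slice h0 hh0).2.2.2.1
      _ = ENNReal.ofReal (D ^ (n + 1) * (∏ i, (∫ x, h i x) ^ (c i)) * (∫ x, h0 x) ^ d) := by
          rw [← ENNReal.ofReal_mul (pow_nonneg hD n)]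
          have e3 : ∀ i, ∫ y : ℝ, ∫ x : Fin n → ℝ, h i (Fin.cons y x) = ∫ x, h i x :=
            fun i => (Gd_slice (h i) (hh i)).2.2.2.2
          have e4 : ∫ y : ℝ, ∫ x : Fin n → ℝ, h0 (Fin.cons y x) = ∫ x, h0 x :=
            (Gd_slice h0 hh0).2.2.2.2
          simp only [e3, e4]
          congr 1
          ring

end Pool.Agent.Helper142.Kib.Yn
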