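import Mathlib
import Pool.Agent.Helper142.Kib.Defs
import Pool.Agent.Helper142.Kib.Y1
import Pool.Agent.Helper142.Kib.Y1c
import Pool.Agent.Helper142.Kib.Yn
import Pool.Agent.Helper142.Kib.B_gauss
import Pool.Agent.Helper142.Kib.Nn_isG
import Pool.Agent.Helper142.Kib.B_bounds
import Pool.Agent.Helper142.Kib.Ygauss
import Pool.Agent.Helper142.Kib.Yalg

/-! Helper lemma YG for MP_7548d4_gt. -/

set_option linter.all false

namespace Pool.Agent.Helper142.Kib.YG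

open MeasureTheory Matrix Filter Topology Pool.Agent.Helper142.Kib
open scoped ENNReal
open Pool.Agent.Helper142.Kib.Y1 Pool.Agent.Helper142.Kib.Y1c Pool.Agent.Helper142.Kib.Yn Pool.Agent.Helper142.Kib.B_gauss Pool.Agent.Helper142.Kib.Nn_isG Pool.Agent.Helper142.Kib.B_bounds Pool.Agent.Helper142.Kib.Ygauss Pool.Agent.Helper142.Kib.Yalg

theorem YG_nn {n : ℕ} (x : Fin n → ℝ) : nn x ^ 2 = x ⬝ᵥ x := by
  unfold nn
  apply Real.sq_sqrt
  exact Finset.sum_nonneg fun i _ => mul_self_nonneg _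

theorem YG_dot {n : ℕ} (x : Fin n → ℝ) : x ⬝ᵥ x = ∑ j, x j ^ 2 := by
  unfold dotProduct
  exact Finset.sum_congr rfl fun i _ => (sq (x i)).symm

theorem YG_gd {n : ℕ} (p : (Fin n → ℝ) → ℝ) (hp : IsG p) (a : ℝ) (ha : 0 < a) :
    IsGd (fun x => Real.exp (-a * p x ^ 2)) := by
  obtain ⟨b, B, hb, hB, hbB⟩ := b_bounds p hp
  refine ⟨?_, fun x => (Real.exp_pos _).le, 1, a * b ^ 2, by positivity, fun x => ?_⟩
  · exact Real.continuous_exp.comp (continuous_const.mul (hp.cont.pow 2))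
  · rw [one_mul]
    apply Real.exp_le_exp.2
    have h1 : 0 ≤ b * nn x := mul_nonneg hb.le (Real.sqrt_nonneg _)
    have h2 : (b * nn x) ^ 2 ≤ p x ^ 2 := pow_le_pow_left₀ h1 (hbB x).1 2
    rw [mul_pow, YG_nn, YG_dot] at h2
    nlinarith

/-- TARGET: prove this. -/
theorem YG (hBL : ∀ {r : ℕ} {ι : Type} [Fintype ι] (w : ι → Fin r → ℝ),
      ∑ i, vecMulVec (w i) (w i) = 1 → (∀ i, 0 < w i ⬝ᵥ w i) →
      ∀ f : ι → ℝ → ℝ, (∀ i, Continuous (f i)) → (∀ i t, 0 ≤ f i t) →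
      (∀ i, Integrable (f i)) →
      ∫⁻ x : Fin r → ℝ, ENNReal.ofReal
          (∏ i, (f i ((w i ⬝ᵥ x) / √(w i ⬝ᵥ w i))) ^ (w i ⬝ᵥ w i)) ≤
        ENNReal.ofReal (∏ i, (∫ t, f i t) ^ (w i ⬝ᵥ w i)))
    {N n : ℕ} (hN : 0 < N) (t : Fin N → ℝ) (ht : ∀ i, 0 < t i) (s : ℝ) (hs : 0 < s)
    (p : (Fin n → ℝ) → ℝ) (hp : IsG p) (hv : vg p = vg (nn : (Fin n → ℝ) → ℝ)) :
    ∫⁻ X : Fin N → Fin n → ℝ, ENNReal.ofReal (Real.exp
        (-(∑ i, t i * p (X i) ^ 2) - s * ((∑ i, X i) ⬝ᵥ (∑ i, X i)))) ≤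
      ∫⁻ X : Fin N → Fin n → ℝ, ENNReal.ofReal (Real.exp
        (-(∑ i, t i * (X i ⬝ᵥ X i)) - s * ((∑ i, X i) ⬝ᵥ (∑ i, X i)))) := by
  obtain ⟨hci, hc0, _, _, _, hDD⟩ := Y1c hN t ht s hs
  have hmain := Yn (ci t s) (c0 t s) (DD t s) (fun i => (hci i).1) hc0 hDD.le
    (fun h h0 k1 k2 k3 k4 k5 k6 => Y1 hBL hN t ht s hs h h0 k1 k2 k3 k4 k5 k6) n
    (fun i x => Real.exp (-(t i / ci t s i) * p x ^ 2))
    (fun x => Real.exp (-(s / c0 t s) * nn x ^ 2))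
    (fun i => YG_gd p hp _ (div_pos (ht i) (hci i).1))
    (YG_gd nn nn_isG _ (div_pos hs hc0))
  have e1 : ∀ X : Fin N → Fin n → ℝ,
      (∏ i, (Real.exp (-(t i / ci t s i) * p (X i) ^ 2)) ^ (ci t s i)) *
        (Real.exp (-(s / c0 t s) * nn (∑ i, X i) ^ 2)) ^ (c0 t s) =
      Real.exp (-(∑ i, t i * p (X i) ^ 2) - s * ((∑ i, X i) ⬝ᵥ (∑ i, X i))) := by
    intro X
    have h1 : ∀ i, (Real.exp (-(t i / ci t s i) * p (X i) ^ 2)) ^ (ci t s i) =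
        Real.exp (-(t i * p (X i) ^ 2)) := by
      intro i
      rw [← Real.exp_mul]
      congr 1
      have := (hci i).1.ne'
      field_simp
    have h2 : (Real.exp (-(s / c0 t s) * nn (∑ i, X i) ^ 2)) ^ (c0 t s) =
        Real.exp (-(s * ((∑ i, X i) ⬝ᵥ (∑ i, X i)))) := by
      rw [← Real.exp_mul, YG_nn]
      congr 1
      have := hc0.ne'
      field_simp
    rw [Finset.prod_congr rfl (fun i _ => h1 i), h2, ← Real.exp_sum, ← Real.exp_add,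
      Finset.sum_neg_distrib]
    rfl
  have e2 : ∀ i, ∫ x : Fin n → ℝ, Real.exp (-(t i / ci t s i) * p x ^ 2) =
      (Real.pi / (t i / ci t s i)) ^ ((n : ℝ) / 2) := by
    intro i
    have := (b_gauss p hp hv (t i / ci t s i) (div_pos (ht i) (hci i).1)).2
    rw [Fintype.card_fin] at this
    exact this
  have e3 : ∫ x : Fin n → ℝ, Real.exp (-(s / c0 t s) * nn x ^ 2) =
      (Real.pi / (s / c0 t s)) ^ ((n : ℝ) / 2) := by
    have := (b_gauss (nn : (Fin n → ℝ) → ℝ) nn_isG rfl (s / c0 t s) (div_pos hs hc0)).2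
    rw [Fintype.card_fin] at this
    exact this
  have e4 : (∏ i, (∫ x : Fin n → ℝ, Real.exp (-(t i / ci t s i) * p x ^ 2)) ^ (ci t s i)) =
      ∏ i, ((Real.pi / (t i / ci t s i)) ^ ((n : ℝ) / 2)) ^ (ci t s i) :=
    Finset.prod_congr rfl fun i _ => by rw [e2 i]
  rw [Ygauss t ht s hs n, ← Yalg hN t ht s hs n]
  have e5 : ∫⁻ X : Fin N → Fin n → ℝ, ENNReal.ofReal (Real.exp
        (-(∑ i, t i * p (X i) ^ 2) - s * ((∑ i, X i) ⬝ᵥ (∑ i, X i)))) =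
      ∫⁻ X : Fin N → Fin n → ℝ, ENNReal.ofReal (
        (∏ i, (Real.exp (-(t i / ci t s i) * p (X i) ^ 2)) ^ (ci t s i)) *
        (Real.exp (-(s / c0 t s) * nn (∑ i, X i) ^ 2)) ^ (c0 t s)) := by
    refine lintegral_congr fun X => ?_
    rw [e1]
  rw [e5, ← e4, ← e3]
  exact hmain

end Pool.Agent.Helper142.Kib.YG
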