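import Mathlib
import Pool.Agent.Helper142.Kib.Defs
import Pool.Agent.Helper142.Kib.YG

/-! Helper lemma YGa for MP_7548d4_gt. -/

set_option linter.all false

namespace Pool.Agent.Helper142.Kib.YGa

open MeasureTheory Matrix Filter Topology Pool.Agent.Helper142.Kib
open scoped ENNReal
open Pool.Agent.Helper142.Kib.YG

/-- TARGET: prove this. -/
theorem YGa (hBL : ∀ {r : ℕ} {ι : Type} [Fintype ι] (w : ι → Fin r → ℝ),
      ∑ i, vecMulVec (w i) (w i) = 1 → (∀ i, 0 < w i ⬝ᵥ w i) →
      ∀ f : ι → ℝ → ℝ, (∀ i, Continuous (f i)) → (∀ i t, 0 ≤ f i t) →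
      (∀ i, Integrable (f i)) →
      ∫⁻ x : Fin r → ℝ, ENNReal.ofReal
          (∏ i, (f i ((w i ⬝ᵥ x) / √(w i ⬝ᵥ w i))) ^ (w i ⬝ᵥ w i)) ≤
        ENNReal.ofReal (∏ i, (∫ t, f i t) ^ (w i ⬝ᵥ w i)))
    {α : Type} [Fintype α] {N : ℕ} (hN : 0 < N) (t : Fin N → ℝ) (ht : ∀ i, 0 < t i)
    (s : ℝ) (hs : 0 < s)
    (p : (α → ℝ) → ℝ) (hp : IsG p) (hv : vg p = vg (nn : (α → ℝ) → ℝ)) :
    ∫⁻ X : Fin N → α → ℝ, ENNReal.ofReal (Real.exp
        (-(∑ i, t i * p (X i) ^ 2) - s * ((∑ i, X i) ⬝ᵥ (∑ i, X i)))) ≤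
      ∫⁻ X : Fin N → α → ℝ, ENNReal.ofReal (Real.exp
        (-(∑ i, t i * (X i ⬝ᵥ X i)) - s * ((∑ i, X i) ⬝ᵥ (∑ i, X i)))) := by
  classical
  set n := Fintype.card α with hn
  let σ : α ≃ Fin n := Fintype.equivFin α
  let e : (Fin n → ℝ) ≃ᵐ (α → ℝ) := MeasurableEquiv.piCongrLeft (fun _ : α => ℝ) σ.symm
  have he : MeasurePreserving e volume volume :=
    volume_measurePreserving_piCongrLeft (fun _ : α => ℝ) σ.symm
  have hea : ∀ (y : Fin n → ℝ) (a : α), e y a = y (σ a) := by
    intro y a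
    have h1 := Equiv.piCongrLeft_apply_apply (fun _ : α => ℝ) σ.symm y (σ a)
    simp only [Equiv.symm_apply_apply] at h1
    exact h1
  have hef : ∀ y : Fin n → ℝ, e y = fun a => y (σ a) := fun y => funext (hea y)
  have hdot : ∀ x y : Fin n → ℝ, e x ⬝ᵥ e y = x ⬝ᵥ y := by
    intro x y
    rw [hef, hef]
    simp only [dotProduct]
    exact Equiv.sum_comp σ (fun j => x j * y j)
  have hsum : ∀ X : Fin N → Fin n → ℝ, ∑ i, e (X i) = e (∑ i, X i) := by
    intro X
    funext a
    rw [hea, Finset.sum_apply, Finset.sum_apply]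
    exact Finset.sum_congr rfl (fun i _ => hea _ _)
  have hcont : Continuous e := by
    have : (e : (Fin n → ℝ) → (α → ℝ)) = fun y a => y (σ a) := funext hef
    rw [this]
    fun_prop
  let q : (Fin n → ℝ) → ℝ := fun y => p (e y)
  have hq : IsG q := by
    refine ⟨hp.cont.comp hcont, ?_, ?_⟩
    · intro t x
      show p (e (t • x)) = |t| * p (e x)
      have : e (t • x) = t • e x := by
        funext a
        rw [hea, Pi.smul_apply, Pi.smul_apply, hea]
      rw [this, hp.hom]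
    · intro x hx
      apply hp.pos
      intro h0
      apply hx
      funext j
      have := congrFun h0 (σ.symm j)
      rw [hea] at this
      simpa using this
  have hvq : vg q = vg (nn : (Fin n → ℝ) → ℝ) := by
    have h1 : vg q = vg p := by
      show volume (e ⁻¹' {x | p x ≤ 1}) = _
      exact he.measure_preimage_equiv _
    have h2 : vg (nn : (Fin n → ℝ) → ℝ) = vg (nn : (α → ℝ) → ℝ) := by
      have : {x : Fin n → ℝ | nn x ≤ 1} = e ⁻¹' {x | nn x ≤ 1} := by
        ext x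
        simp only [Set.mem_setOf_eq, Set.mem_preimage, nn, hdot]
      unfold vg
      rw [this]
      exact he.measure_preimage_equiv _
    rw [h1, h2, hv]
  have key := YG hBL hN t ht s hs q hq hvq
  have hE : MeasurePreserving (fun (X : Fin N → Fin n → ℝ) (i : Fin N) => e (X i))
      volume volume := volume_preserving_pi (fun _ => he)
  have hpc := hp.cont
  have hm1 : Measurable (fun X : Fin N → α → ℝ => ENNReal.ofReal (Real.exp
        (-(∑ i, t i * p (X i) ^ 2) - s * ((∑ i, X i) ⬝ᵥ (∑ i, X i))))) := by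
    apply Measurable.ennreal_ofReal
    apply Continuous.measurable
    simp only [dotProduct]
    fun_prop
  have hm2 : Measurable (fun X : Fin N → α → ℝ => ENNReal.ofReal (Real.exp
        (-(∑ i, t i * (X i ⬝ᵥ X i)) - s * ((∑ i, X i) ⬝ᵥ (∑ i, X i))))) := by
    apply Measurable.ennreal_ofReal
    apply Continuous.measurable
    simp only [dotProduct]
    fun_prop
  rw [← hE.lintegral_comp hm1, ← hE.lintegral_comp hm2]
  simp only [hsum, hdot]
  exact key

end Pool.Agent.Helper142.Kib.YGa
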