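import Mathlib
import Pool.Agent.Helper142.Kib.Defs
import Pool.Agent.Helper142.Kib.Mix1
import Pool.Agent.Helper142.Kib.Nn_isG

/-! Helper lemma YM for MP_7548d4_gt. -/

set_option linter.all false

namespace Pool.Agent.Helper142.Kib.YM

open MeasureTheory Matrix Filter Topology Pool.Agent.Helper142.Kib
open scoped ENNReal
open Pool.Agent.Helper142.Kib.Mix1 Pool.Agent.Helper142.Kib.Nn_isG

theorem YM_prod {N : ℕ} (μ : Measure ℝ) [SigmaFinite μ] (f : Fin N → ℝ → ℝ≥0∞)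
    (hf : ∀ i, Measurable (f i)) :
    ∏ i, ∫⁻ t, f i t ∂μ = ∫⁻ t : Fin N → ℝ, ∏ i, f i (t i) ∂(Measure.pi fun _ => μ) := by
  induction N with
  | zero => simp
  | succ n ih =>
    have mp := measurePreserving_piFinSuccAbove (fun _ : Fin (n + 1) => μ) 0
    have h1 := mp.lintegral_comp (f := fun q : ℝ × (Fin n → ℝ) =>
      f 0 q.1 * ∏ i : Fin n, f i.succ (q.2 i))
      ((((hf 0).comp measurable_fst)).mul (Finset.measurable_prod _ fun i _ =>
        (hf i.succ).comp ((measurable_pi_apply i).comp measurable_snd)))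
    have h2 : ∫⁻ t : Fin (n + 1) → ℝ, ∏ i, f i (t i) ∂(Measure.pi fun _ => μ)
        = ∫⁻ t : Fin (n + 1) → ℝ, (fun q : ℝ × (Fin n → ℝ) =>
      f 0 q.1 * ∏ i : Fin n, f i.succ (q.2 i))
        (MeasurableEquiv.piFinSuccAbove (fun _ : Fin (n + 1) => ℝ) 0 t) ∂(Measure.pi fun _ => μ) := by
      refine lintegral_congr fun t => ?_
      rw [Fin.prod_univ_succ]
      rfl
    rw [h2, h1, Fin.prod_univ_succ, ih (fun i => f i.succ) (fun i => hf i.succ)]
    exact (lintegral_prod_mul (μ := μ) (ν := Measure.pi fun _ => μ) (f := f 0)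
      (g := fun b : Fin n → ℝ => ∏ i : Fin n, f i.succ (b i)) (hf 0).aemeasurable
      (Measurable.aemeasurable (Finset.measurable_prod _ fun i _ =>
        (hf i.succ).comp (measurable_pi_apply i)))).symm

theorem YM_rep {α : Type} [Fintype α] [Nonempty α] {N : ℕ} (m : ℕ) (hm : 0 < m) (β : ℝ)
    (s : ℝ) (p : (α → ℝ) → ℝ) (hp : IsG p) :
    ∫⁻ X : Fin N → α → ℝ, ENNReal.ofReal ((∏ i, (p (X i) ^ m)⁻¹ * Real.exp (-β * p (X i) ^ 2)) *
        Real.exp (-s * ((∑ i, X i) ⬝ᵥ (∑ i, X i))))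
      = ENNReal.ofReal (Real.Gamma ((m : ℝ) / 2))⁻¹ ^ N *
        ∫⁻ t : Fin N → ℝ, (∏ i, ENNReal.ofReal (t i ^ ((m : ℝ) / 2 - 1))) *
          (∫⁻ X : Fin N → α → ℝ, ENNReal.ofReal (Real.exp
            (-(∑ i, (t i + β) * p (X i) ^ 2) - s * ((∑ i, X i) ⬝ᵥ (∑ i, X i)))))
          ∂(Measure.pi fun _ => volume.restrict (Set.Ioi 0)) := by
  have hpm : Measurable p := hp.cont.measurable
  have hae : ∀ᵐ X : Fin N → α → ℝ, ∀ i, X i ≠ 0 :=
    ae_all_iff.2 (fun i => Measure.ae_eval_ne (fun _ : Fin N => (volume : Measure (α → ℝ))) i 0)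
  set C := ENNReal.ofReal (Real.Gamma ((m : ℝ) / 2))⁻¹ with hC
  have hCt : C ^ N ≠ ⊤ := ENNReal.pow_ne_top ENNReal.ofReal_ne_top
  have hfm : ∀ z : ℝ, Measurable (fun t : ℝ =>
      ENNReal.ofReal (t ^ ((m : ℝ) / 2 - 1) * Real.exp (-(t + β) * z ^ 2))) := by
    intro z
    fun_prop
  have h1 : ∫⁻ X : Fin N → α → ℝ, ENNReal.ofReal ((∏ i, (p (X i) ^ m)⁻¹ *
        Real.exp (-β * p (X i) ^ 2)) * Real.exp (-s * ((∑ i, X i) ⬝ᵥ (∑ i, X i))))
      = ∫⁻ X : Fin N → α → ℝ, C ^ N * ∫⁻ t : Fin N → ℝ,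
        (∏ i, ENNReal.ofReal (t i ^ ((m : ℝ) / 2 - 1) * Real.exp (-(t i + β) * p (X i) ^ 2))) *
          ENNReal.ofReal (Real.exp (-s * ((∑ i, X i) ⬝ᵥ (∑ i, X i))))
          ∂(Measure.pi fun _ => volume.restrict (Set.Ioi 0)) := by
    refine lintegral_congr_ae ?_
    filter_upwards [hae] with X hX
    rw [ENNReal.ofReal_mul' (Real.exp_nonneg _), ENNReal.ofReal_prod_of_nonneg (fun i _ => by
      have := hp.pos _ (hX i)
      positivity)]
    rw [lintegral_mul_const' _ _ ENNReal.ofReal_ne_top]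
    rw [← YM_prod (volume.restrict (Set.Ioi 0)) (fun i t =>
      ENNReal.ofReal (t ^ ((m : ℝ) / 2 - 1) * Real.exp (-(t + β) * p (X i) ^ 2)))
      (fun i => hfm _)]
    rw [← mul_assoc]
    congr 1
    have h2 : ∀ i : Fin N, ENNReal.ofReal ((p (X i) ^ m)⁻¹ * Real.exp (-β * p (X i) ^ 2))
        = C * ∫⁻ t in Set.Ioi (0 : ℝ),
        ENNReal.ofReal (t ^ ((m : ℝ) / 2 - 1) * Real.exp (-(t + β) * p (X i) ^ 2)) :=
      fun i => mix1 m hm β (p (X i)) (hp.pos _ (hX i))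
    rw [Finset.prod_congr rfl fun i _ => h2 i, Finset.prod_mul_distrib, Finset.prod_const,
      Finset.card_univ, Fintype.card_fin]
  rw [h1, lintegral_const_mul' _ _ hCt]
  congr 1
  rw [lintegral_lintegral_swap]
  · refine lintegral_congr fun t => ?_
    have hW : (∏ i, ENNReal.ofReal (t i ^ ((m : ℝ) / 2 - 1))) ≠ ⊤ :=
      ENNReal.prod_ne_top fun i _ => ENNReal.ofReal_ne_top
    rw [← lintegral_const_mul' _ _ hW]
    refine lintegral_congr fun X => ?_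
    rw [Finset.prod_congr rfl fun i _ => ENNReal.ofReal_mul' (Real.exp_nonneg _),
      Finset.prod_mul_distrib, mul_assoc]
    congr 1
    rw [← ENNReal.ofReal_prod_of_nonneg (fun i _ => Real.exp_nonneg _),
      ← ENNReal.ofReal_mul' (Real.exp_nonneg _), ← Real.exp_sum, ← Real.exp_add]
    congr 2
    rw [← Finset.sum_neg_distrib]
    have : ∑ i, -(t i + β) * p (X i) ^ 2 = ∑ i, -((t i + β) * p (X i) ^ 2) :=
      Finset.sum_congr rfl fun i _ => by ring
    rw [this]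
    ring
  · refine Measurable.aemeasurable ?_
    have hG : Continuous fun X : Fin N → α → ℝ =>
        Real.exp (-s * ((∑ i, X i) ⬝ᵥ (∑ i, X i))) := by
      unfold dotProduct
      fun_prop
    refine Measurable.mul (Finset.measurable_prod _ fun i _ => ?_)
      (ENNReal.measurable_ofReal.comp (hG.measurable.comp measurable_fst))
    refine ENNReal.measurable_ofReal.comp ?_
    have m1 : Measurable fun q : (Fin N → α → ℝ) × (Fin N → ℝ) => q.2 i :=
      (measurable_pi_apply i).comp measurable_snd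
    have m2 : Measurable fun q : (Fin N → α → ℝ) × (Fin N → ℝ) => p (q.1 i) :=
      hpm.comp ((measurable_pi_apply i).comp measurable_fst)
    exact (m1.pow_const _).mul (Real.measurable_exp.comp ((m1.add_const β).neg.mul (m2.pow_const 2)))

/-- TARGET: prove this. -/
theorem YM {α : Type} [Fintype α] [Nonempty α] {N : ℕ} (m : ℕ) (hm : 0 < m) (β : ℝ) (hβ : 0 < β)
    (s : ℝ) (p : (α → ℝ) → ℝ) (hp : IsG p)
    (hY : ∀ t : Fin N → ℝ, (∀ i, 0 < t i) →
      ∫⁻ X : Fin N → α → ℝ, ENNReal.ofReal (Real.exp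
          (-(∑ i, t i * p (X i) ^ 2) - s * ((∑ i, X i) ⬝ᵥ (∑ i, X i)))) ≤
        ∫⁻ X : Fin N → α → ℝ, ENNReal.ofReal (Real.exp
          (-(∑ i, t i * (X i ⬝ᵥ X i)) - s * ((∑ i, X i) ⬝ᵥ (∑ i, X i))))) :
    ∫⁻ X : Fin N → α → ℝ, ENNReal.ofReal ((∏ i, (p (X i) ^ m)⁻¹ * Real.exp (-β * p (X i) ^ 2)) *
        Real.exp (-s * ((∑ i, X i) ⬝ᵥ (∑ i, X i)))) ≤
      ∫⁻ X : Fin N → α → ℝ, ENNReal.ofReal ((∏ i, (nn (X i) ^ m)⁻¹ *
        Real.exp (-β * (X i ⬝ᵥ X i))) *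
        Real.exp (-s * ((∑ i, X i) ⬝ᵥ (∑ i, X i)))) := by
  have hnn : ∀ x : α → ℝ, nn x ^ 2 = x ⬝ᵥ x := by
    intro x
    unfold nn
    rw [Real.sq_sqrt]
    unfold dotProduct
    exact Finset.sum_nonneg fun i _ => mul_self_nonneg _
  have e1 : ∫⁻ X : Fin N → α → ℝ, ENNReal.ofReal ((∏ i, (nn (X i) ^ m)⁻¹ *
        Real.exp (-β * (X i ⬝ᵥ X i))) *
        Real.exp (-s * ((∑ i, X i) ⬝ᵥ (∑ i, X i))))
      = ∫⁻ X : Fin N → α → ℝ, ENNReal.ofReal ((∏ i, (nn (X i) ^ m)⁻¹ *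
        Real.exp (-β * nn (X i) ^ 2)) *
        Real.exp (-s * ((∑ i, X i) ⬝ᵥ (∑ i, X i)))) := by
    refine lintegral_congr fun X => ?_
    congr 2
    exact Finset.prod_congr rfl fun i _ => by rw [hnn]
  rw [e1, YM_rep m hm β s p hp, YM_rep m hm β s nn nn_isG]
  refine mul_le_mul_right ?_ _
  refine lintegral_mono_ae ?_
  have hpos : ∀ᵐ t : Fin N → ℝ ∂(Measure.pi fun _ : Fin N => (volume : Measure ℝ).restrict (Set.Ioi 0)),
      ∀ i, 0 < t i := by
    rw [← Measure.restrict_pi_pi]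
    filter_upwards [ae_restrict_mem (MeasurableSet.univ_pi fun _ => measurableSet_Ioi)] with t ht i
    exact ht i (Set.mem_univ i)
  filter_upwards [hpos] with t ht
  refine mul_le_mul_right ?_ _
  have h := hY (fun i => t i + β) (fun i => by linarith [ht i])
  refine h.trans (le_of_eq ?_)
  refine lintegral_congr fun X => ?_
  congr 3
  congr 1
  exact Finset.sum_congr rfl fun i _ => by rw [hnn]

end Pool.Agent.Helper142.Kib.YM
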