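import Mathlib
import Pool.Agent.Helper142.Kib.Defs
import Pool.Agent.Helper142.Kib.G1
import Pool.Agent.Helper142.Kib.G2
import Pool.Agent.Helper142.Kib.NF
import Pool.Agent.Helper142.Kib.YGa
import Pool.Agent.Helper142.Kib.YM
import Pool.Agent.Helper142.Kib.L_fin
import Pool.Agent.Helper142.Kib.L_up
import Pool.Agent.Helper142.Kib.Ball_sec
import Pool.Agent.Helper142.Kib.B_int
import Pool.Agent.Helper142.Kib.B_fin
import Pool.Agent.Helper142.Kib.B_bounds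
import Pool.Agent.Helper142.Kib.Nn_isG

/-! Helper lemma main_norm for MP_7548d4_gt. -/

set_option linter.all false

namespace Pool.Agent.Helper142.Kib.Main_norm

open MeasureTheory Matrix Filter Topology Pool.Agent.Helper142.Kib
open scoped ENNReal
open Pool.Agent.Helper142.Kib.G1 Pool.Agent.Helper142.Kib.G2 Pool.Agent.Helper142.Kib.NF Pool.Agent.Helper142.Kib.YGa Pool.Agent.Helper142.Kib.YM Pool.Agent.Helper142.Kib.L_fin Pool.Agent.Helper142.Kib.L_up Pool.Agent.Helper142.Kib.Ball_sec Pool.Agent.Helper142.Kib.B_int Pool.Agent.Helper142.Kib.B_fin Pool.Agent.Helper142.Kib.B_bounds Pool.Agent.Helper142.Kib.Nn_isG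

theorem j33180_even {α : Type} [Fintype α] (p : (α → ℝ) → ℝ) (hp : IsG p) (x : α → ℝ) :
    p (-x) = p x := by
  have h := hp.hom (-1) x
  simpa using h

theorem j33180_int {α : Type} [Fintype α] {N : ℕ} (h : (α → ℝ) → ℝ) (hh : Integrable h)
    (s : ℝ) (hs : 0 ≤ s) :
    Integrable (fun X : Fin N → α → ℝ => (∏ i, h (X i)) *
      Real.exp (-s * ((∑ i, X i) ⬝ᵥ (∑ i, X i)))) := by
  have h1 : Integrable (fun X : Fin N → α → ℝ => ∏ i, h (X i)) :=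
    MeasureTheory.Integrable.fintype_prod (f := fun _ => h) (fun _ => hh)
  have hc : Continuous (fun X : Fin N → α → ℝ =>
      Real.exp (-s * ((∑ i, X i) ⬝ᵥ (∑ i, X i)))) := by
    unfold dotProduct
    fun_prop
  refine h1.mul_bdd (c := 1) hc.aestronglyMeasurable ?_
  refine Filter.Eventually.of_forall fun X => ?_
  rw [Real.norm_eq_abs, abs_of_pos (Real.exp_pos _), Real.exp_le_one_iff]
  have h2 : 0 ≤ (∑ i, X i) ⬝ᵥ (∑ i, X i) := by
    unfold dotProduct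
    exact Finset.sum_nonneg fun i _ => mul_self_nonneg _
  nlinarith

theorem j33180_cmp {Ω : Type} [MeasurableSpace Ω] {μ : Measure Ω} (f g : Ω → ℝ)
    (hf : Integrable f μ) (hg : Integrable g μ) (hf0 : ∀ x, 0 ≤ f x) (hg0 : ∀ x, 0 ≤ g x)
    (h : ∫⁻ x, ENNReal.ofReal (f x) ∂μ ≤ ∫⁻ x, ENNReal.ofReal (g x) ∂μ) :
    ∫ x, f x ∂μ ≤ ∫ x, g x ∂μ := by
  rw [integral_eq_lintegral_of_nonneg_ae (Filter.Eventually.of_forall hf0)
    hf.aestronglyMeasurable, integral_eq_lintegral_of_nonneg_ae (Filter.Eventually.of_forall hg0)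
    hg.aestronglyMeasurable]
  refine ENNReal.toReal_mono ?_ h
  have h2 := hg.2
  rw [hasFiniteIntegral_iff_ofReal (Filter.Eventually.of_forall hg0)] at h2
  exact h2.ne

/-- TARGET: prove this. -/
theorem main_norm (hBL : ∀ {r : ℕ} {ι : Type} [Fintype ι] (w : ι → Fin r → ℝ),
      ∑ i, vecMulVec (w i) (w i) = 1 → (∀ i, 0 < w i ⬝ᵥ w i) →
      ∀ f : ι → ℝ → ℝ, (∀ i, Continuous (f i)) → (∀ i t, 0 ≤ f i t) →
      (∀ i, Integrable (f i)) →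
      ∫⁻ x : Fin r → ℝ, ENNReal.ofReal
          (∏ i, (f i ((w i ⬝ᵥ x) / √(w i ⬝ᵥ w i))) ^ (w i ⬝ᵥ w i)) ≤
        ENNReal.ofReal (∏ i, (∫ t, f i t) ^ (w i ⬝ᵥ w i)))
    (ι κ : Type) [Fintype ι] [DecidableEq ι] [Fintype κ] [DecidableEq κ] (N : ℕ) (hN : 3 ≤ N)
    (hι : 0 < Fintype.card ι) (hκ : Fintype.card κ = (N - 1) * Fintype.card ι)
    (p r : (ι ⊕ κ → ℝ) → ℝ) (hp : IsG p) (hr : IsG r) (hS : Sec p r)
    (hv : vg p = vg (nn : (ι ⊕ κ → ℝ) → ℝ)) :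
    vg r ≤ ENNReal.ofReal (((vg (nn : (κ → ℝ) → ℝ)).toReal /
      (vg (nn : (ι → ℝ) → ℝ)).toReal) ^ N) * vg (nn : (ι ⊕ κ → ℝ) → ℝ) := by
  have hcard : Fintype.card (ι ⊕ κ) = Fintype.card ι + Fintype.card κ := Fintype.card_sum
  have hm2 : 2 * Fintype.card ι ≤ Fintype.card κ := by
    rw [hκ]
    exact Nat.mul_le_mul_right _ (by omega)
  have hkN : Fintype.card ι * N = Fintype.card (ι ⊕ κ) := by
    rw [hcard, hκ]
    obtain ⟨M, rfl⟩ : ∃ M, N = M + 1 := ⟨N - 1, by omega⟩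
    simp only [Nat.add_sub_cancel]
    ring
  haveI hnι : Nonempty ι := Fintype.card_pos_iff.mp hι
  haveI hnκ : Nonempty κ := Fintype.card_pos_iff.mp (by omega)
  obtain ⟨hI0, hIt⟩ := b_fin (nn : (ι → ℝ) → ℝ) nn_isG
  obtain ⟨hK0, hKt⟩ := b_fin (nn : (κ → ℝ) → ℝ) nn_isG
  have hρ : 0 < (vg (nn : (κ → ℝ) → ℝ)).toReal / (vg (nn : (ι → ℝ) → ℝ)).toReal :=
    div_pos (ENNReal.toReal_pos hK0.ne' hKt.ne) (ENNReal.toReal_pos hI0.ne' hIt.ne)
  have hρV : ENNReal.ofReal ((vg (nn : (κ → ℝ) → ℝ)).toReal / (vg (nn : (ι → ℝ) → ℝ)).toReal) *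
      vg (nn : (ι → ℝ) → ℝ) = vg (nn : (κ → ℝ) → ℝ) := by
    rw [ENNReal.ofReal_div_of_pos (ENNReal.toReal_pos hI0.ne' hIt.ne),
      ENNReal.ofReal_toReal hKt.ne, ENNReal.ofReal_toReal hIt.ne]
    exact ENNReal.div_mul_cancel hI0.ne' hIt.ne
  generalize (vg (nn : (κ → ℝ) → ℝ)).toReal / (vg (nn : (ι → ℝ) → ℝ)).toReal = ρ at hρ hρV ⊢
  obtain ⟨R, hR, hRk⟩ : ∃ R : ℝ, 0 < R ∧ R ^ Fintype.card ι = ρ :=
    ⟨ρ ^ ((Fintype.card ι : ℝ)⁻¹), Real.rpow_pos_of_pos hρ _,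
      Real.rpow_inv_natCast_pow hρ.le hι.ne'⟩
  have hSB : Sec (nn : (ι ⊕ κ → ℝ) → ℝ) (fun x => R⁻¹ * nn x) :=
    ball_sec R hR (by rw [hRk]; exact hρV)
  have hnn : IsG (nn : (ι ⊕ κ → ℝ) → ℝ) := nn_isG
  have hrB : IsG (fun x : ι ⊕ κ → ℝ => R⁻¹ * nn x) := by
    refine ⟨?_, ?_, ?_⟩
    · exact continuous_const.mul hnn.cont
    · intro t x
      simp only [hnn.hom t x]
      ring
    · intro x hx
      exact mul_pos (inv_pos.mpr hR) (hnn.pos x hx)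
  have hFF : ∀ (ε : ℝ) (x : ι ⊕ κ → ℝ), FF (fun x : ι ⊕ κ → ℝ => R⁻¹ * nn x) (Fintype.card ι) ε x
      = ρ * FF (nn : (ι ⊕ κ → ℝ) → ℝ) (Fintype.card ι) ε x := by
    intro ε x
    unfold FF
    have e1 : ∀ y : ι ⊕ κ → ℝ, ((R⁻¹ * nn y) ^ Fintype.card ι)⁻¹ *
        Real.exp (-Real.pi * ((x - y) ⬝ᵥ (x - y)) / ε) =
        ρ * ((nn y ^ Fintype.card ι)⁻¹ * Real.exp (-Real.pi * ((x - y) ⬝ᵥ (x - y)) / ε)) := by
      intro y
      rw [mul_pow, inv_pow, hRk, mul_inv, inv_inv]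
      ring
    simp only [e1]
    rw [integral_const_mul]
    ring
  obtain ⟨b, B, hb, hB, hbB⟩ := b_bounds p hp
  obtain ⟨c, hc, hG⟩ := G1 ι κ
  have hε : (0 : ℝ) < 1 / B ^ 2 := by positivity
  have hkc : Fintype.card ι < Fintype.card (ι ⊕ κ) := by omega
  have hmc : Fintype.card κ < Fintype.card (ι ⊕ κ) := by omega
  have hF1 := G2 p r hp hr (Fintype.card ι) (Fintype.card κ) hkc hmc c hc (hG p r hp hr hS) 1
    one_pos
  have hF2 := G2 (nn : (ι ⊕ κ → ℝ) → ℝ) (fun x => R⁻¹ * nn x) hnn hrB (Fintype.card ι)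
    (Fintype.card κ) hkc hmc c hc (hG _ _ hnn hrB hSB) (1 / B ^ 2) hε
  -- the two weight functions
  obtain ⟨h1, hh1⟩ : ∃ h1 : (ι ⊕ κ → ℝ) → ℝ, h1 = fun y => (p y ^ Fintype.card κ)⁻¹ *
    Real.exp (-Real.pi * 1 * (y ⬝ᵥ y)) := ⟨_, rfl⟩
  obtain ⟨h2, hh2⟩ : ∃ h2 : (ι ⊕ κ → ℝ) → ℝ, h2 = fun y => (nn y ^ Fintype.card κ)⁻¹ *
    Real.exp (-Real.pi * (1 / B ^ 2) * (y ⬝ᵥ y)) := ⟨_, rfl⟩
  have hi1 : Integrable h1 := by
    have := b_int p hp (Fintype.card κ) hmc (Real.pi * 1) (by positivity)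
    rw [hh1]
    convert! this using 3
    ring_nf
  have hi2 : Integrable h2 := by
    have := b_int (nn : (ι ⊕ κ → ℝ) → ℝ) hnn (Fintype.card κ) hmc (Real.pi * (1 / B ^ 2))
      (by positivity)
    rw [hh2]
    convert! this using 3
    ring_nf
  have hp0 : ∀ (q : (ι ⊕ κ → ℝ) → ℝ), IsG q → ∀ x, 0 ≤ q x := by
    intro q hq x
    by_cases hx : x = 0
    · have h := hq.hom 0 x
      rw [hx] at h ⊢
      simp at h
      rw [h]
    · exact (hq.pos x hx).le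
  have hnn1 : ∀ y, 0 ≤ h1 y := by
    intro y
    rw [hh1]
    exact mul_nonneg (inv_nonneg.mpr (pow_nonneg (hp0 p hp y) _)) (Real.exp_pos _).le
  have hnn2 : ∀ y, 0 ≤ h2 y := by
    intro y
    rw [hh2]
    exact mul_nonneg (inv_nonneg.mpr (pow_nonneg (hp0 _ hnn y) _)) (Real.exp_pos _).le
  have he1 : ∀ x, h1 (-x) = h1 x := by
    intro x
    rw [hh1]
    simp only [j33180_even p hp, neg_dotProduct_neg]
  have he2 : ∀ x, h2 (-x) = h2 x := by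
    intro x
    rw [hh2]
    simp only [j33180_even _ hnn, neg_dotProduct_neg]
  have hF1' : ∀ x, FF r (Fintype.card ι) 1 x =
      c * ∫ y, h1 y * Real.cos (2 * Real.pi * (x ⬝ᵥ y)) := by
    intro x
    rw [hF1 x, hh1]
  have hF2' : ∀ x, ρ * FF (nn : (ι ⊕ κ → ℝ) → ℝ) (Fintype.card ι) (1 / B ^ 2) x =
      c * ∫ y, h2 y * Real.cos (2 * Real.pi * (x ⬝ᵥ y)) := by
    intro x
    rw [← hFF, hF2 x, hh2]
  refine L_fin r hr (Fintype.card ι) N hι (by omega) hkN (by omega) ρ (1 / B ^ 2) hρ hε ?_ ?_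
  · intro δ hδ
    obtain ⟨hA1, hA2⟩ := NF N h1 hi1 he1 δ hδ
    obtain ⟨hB1, hB2⟩ := NF N h2 hi2 he2 δ hδ
    have eL : ∀ x : ι ⊕ κ → ℝ, (FF r (Fintype.card ι) 1 x) ^ N *
        Real.exp (-Real.pi * δ * (x ⬝ᵥ x)) = c ^ N *
        ((∫ y, h1 y * Real.cos (2 * Real.pi * (x ⬝ᵥ y))) ^ N *
          Real.exp (-Real.pi * δ * (x ⬝ᵥ x))) := by
      intro x
      rw [hF1' x, mul_pow]
      ring
    have eR : ∀ x : ι ⊕ κ → ℝ, (ρ * FF (nn : (ι ⊕ κ → ℝ) → ℝ) (Fintype.card ι) (1 / B ^ 2) x) ^ N *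
        Real.exp (-Real.pi * δ * (x ⬝ᵥ x)) = c ^ N *
        ((∫ y, h2 y * Real.cos (2 * Real.pi * (x ⬝ᵥ y))) ^ N *
          Real.exp (-Real.pi * δ * (x ⬝ᵥ x))) := by
      intro x
      rw [hF2' x, mul_pow]
      ring
    simp only [eL, eR]
    rw [integral_const_mul, integral_const_mul, hA2, hB2]
    refine mul_le_mul_of_nonneg_left ?_ (pow_nonneg hc.le _)
    refine mul_le_mul_of_nonneg_left ?_ (Real.rpow_nonneg hδ.le _)
    have es : ∀ X : Fin N → ι ⊕ κ → ℝ, -Real.pi * ((∑ i, X i) ⬝ᵥ (∑ i, X i)) / δ =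
        -(Real.pi / δ) * ((∑ i, X i) ⬝ᵥ (∑ i, X i)) := by
      intro X
      ring
    simp only [es]
    have hs : 0 < Real.pi / δ := div_pos Real.pi_pos hδ
    refine j33180_cmp _ _ (j33180_int h1 hi1 _ hs.le) (j33180_int h2 hi2 _ hs.le) ?_ ?_ ?_
    · intro X
      exact mul_nonneg (Finset.prod_nonneg fun i _ => hnn1 _) (Real.exp_pos _).le
    · intro X
      exact mul_nonneg (Finset.prod_nonneg fun i _ => hnn2 _) (Real.exp_pos _).le
    have hβ : 0 < Real.pi / B ^ 2 := by positivity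
    have hYM := YM (N := N) (Fintype.card κ) (by omega) (Real.pi / B ^ 2) hβ (Real.pi / δ) p hp
      (fun t ht => YGa @hBL (by omega) t ht (Real.pi / δ) hs p hp hv)
    have hstep : ∫⁻ X : Fin N → ι ⊕ κ → ℝ, ENNReal.ofReal ((∏ i, h1 (X i)) *
        Real.exp (-(Real.pi / δ) * ((∑ i, X i) ⬝ᵥ (∑ i, X i)))) ≤
        ∫⁻ X : Fin N → ι ⊕ κ → ℝ, ENNReal.ofReal ((∏ i, (p (X i) ^ Fintype.card κ)⁻¹ *
          Real.exp (-(Real.pi / B ^ 2) * p (X i) ^ 2)) *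
        Real.exp (-(Real.pi / δ) * ((∑ i, X i) ⬝ᵥ (∑ i, X i)))) := by
      refine lintegral_mono fun X => ENNReal.ofReal_le_ofReal ?_
      refine mul_le_mul_of_nonneg_right ?_ (Real.exp_pos _).le
      refine Finset.prod_le_prod (fun i _ => hnn1 _) fun i _ => ?_
      rw [hh1]
      refine mul_le_mul_of_nonneg_left ?_ (inv_nonneg.mpr (pow_nonneg (hp0 p hp _) _))
      apply Real.exp_le_exp.mpr
      have h3 := (hbB (X i)).2
      have h4 : 0 ≤ X i ⬝ᵥ X i := by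
        unfold dotProduct
        exact Finset.sum_nonneg fun j _ => mul_self_nonneg _
      have h5 : nn (X i) ^ 2 = X i ⬝ᵥ X i := by
        unfold nn
        exact Real.sq_sqrt h4
      have h6 : p (X i) ^ 2 ≤ B ^ 2 * (X i ⬝ᵥ X i) := by
        rw [← h5, ← mul_pow]
        exact pow_le_pow_left₀ (hp0 p hp _) h3 2
      have h7 : Real.pi / B ^ 2 * p (X i) ^ 2 ≤ Real.pi * (X i ⬝ᵥ X i) := by
        rw [div_mul_eq_mul_div, div_le_iff₀ (by positivity)]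
        nlinarith [Real.pi_pos]
      linarith
    refine hstep.trans (hYM.trans (le_of_eq ?_))
    rw [hh2]
    refine lintegral_congr fun X => ?_
    have e9 : -(Real.pi / B ^ 2) = -Real.pi * (1 / B ^ 2) := by ring
    rw [e9]
  · intro δ hδ
    obtain ⟨hA1, _⟩ := NF N h1 hi1 he1 δ hδ
    have eL : (fun x : ι ⊕ κ → ℝ => (FF r (Fintype.card ι) 1 x) ^ N *
        Real.exp (-Real.pi * δ * (x ⬝ᵥ x))) = fun x => c ^ N *
        ((∫ y, h1 y * Real.cos (2 * Real.pi * (x ⬝ᵥ y))) ^ N *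
          Real.exp (-Real.pi * δ * (x ⬝ᵥ x))) := by
      funext x
      rw [hF1' x, mul_pow]
      ring
    rw [eL]
    exact hA1.const_mul _

end Pool.Agent.Helper142.Kib.Main_norm
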