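import Mathlib
import Pool.Agent.Helper142.Kib.Defs
import Pool.Agent.Helper142.Kib.B_fin
import Pool.Agent.Helper142.Kib.Nn_isG

/-! Helper lemma scale for MP_7548d4_gt. -/

set_option linter.all false

namespace Pool.Agent.Helper142.Kib.Scale

open MeasureTheory Matrix Filter Topology Pool.Agent.Helper142.Kib
open scoped ENNReal
open Pool.Agent.Helper142.Kib.B_fin Pool.Agent.Helper142.Kib.Nn_isG

theorem scale_isG {α : Type} [Fintype α] (p : (α → ℝ) → ℝ) (hp : IsG p) (c : ℝ) (hc : 0 < c) :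
    IsG (fun x => p x / c) where
  cont := hp.cont.div_const c
  hom := fun t x => by
    show p (t • x) / c = |t| * (p x / c)
    rw [hp.hom]; ring
  pos := fun x hx => div_pos (hp.pos x hx) hc

open Pointwise in
theorem scale_vol {α : Type} [Fintype α] (q : (α → ℝ) → ℝ)
    (hq : ∀ (t : ℝ) (x : α → ℝ), q (t • x) = |t| * q x) (c : ℝ) (hc : 0 < c) :
    volume {x | q x / c ≤ 1} = ENNReal.ofReal (c ^ Fintype.card α) * volume {x | q x ≤ 1} := by
  have h1 : {x : α → ℝ | q x / c ≤ 1} = c • {x | q x ≤ 1} := by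
    ext x
    rw [Set.mem_smul_set_iff_inv_smul_mem₀ hc.ne']
    simp only [Set.mem_setOf_eq]
    rw [hq, abs_of_pos (inv_pos.2 hc)]
    rw [div_eq_inv_mul]
  rw [h1, Measure.addHaar_smul]
  congr 2
  rw [Module.finrank_fintype_fun_eq_card, abs_of_pos (pow_pos hc _)]

/-- TARGET: prove this. -/
theorem scale (ι κ : Type) [Fintype ι] [Fintype κ] (N : ℕ) (hN : 3 ≤ N)
    (hι : 0 < Fintype.card ι) (hκ : Fintype.card κ = (N - 1) * Fintype.card ι)
    (hmain : ∀ p r : (ι ⊕ κ → ℝ) → ℝ, IsG p → IsG r → Sec p r →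
      vg p = vg (nn : (ι ⊕ κ → ℝ) → ℝ) →
      vg r ≤ ENNReal.ofReal (((vg (nn : (κ → ℝ) → ℝ)).toReal /
        (vg (nn : (ι → ℝ) → ℝ)).toReal) ^ N) * vg (nn : (ι ⊕ κ → ℝ) → ℝ))
    (p r : (ι ⊕ κ → ℝ) → ℝ) (hp : IsG p) (hr : IsG r) (hS : Sec p r) :
    (vg r).toReal ^ Fintype.card ι *
        (vg (nn : (ι → ℝ) → ℝ)).toReal ^ (Fintype.card ι + Fintype.card κ) *
        (vg (nn : (ι ⊕ κ → ℝ) → ℝ)).toReal ^ Fintype.card κ ≤
      (vg (nn : (κ → ℝ) → ℝ)).toReal ^ (Fintype.card ι + Fintype.card κ) *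
        (vg (nn : (ι ⊕ κ → ℝ) → ℝ)).toReal ^ Fintype.card ι *
        (vg p).toReal ^ Fintype.card κ := by
  obtain ⟨M, rfl⟩ : ∃ M, N = M + 1 := ⟨N - 1, by omega⟩
  rw [Nat.add_sub_cancel] at hκ
  set k := Fintype.card ι with hk
  have bi := b_fin (nn : (ι → ℝ) → ℝ) nn_isG
  have bk := b_fin (nn : (κ → ℝ) → ℝ) nn_isG
  have bv := b_fin (nn : (ι ⊕ κ → ℝ) → ℝ) nn_isG
  have bp := b_fin p hp
  have br := b_fin r hr
  have pi := ENNReal.toReal_pos bi.1.ne' bi.2.ne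
  have pk := ENNReal.toReal_pos bk.1.ne' bk.2.ne
  have pv := ENNReal.toReal_pos bv.1.ne' bv.2.ne
  have pp := ENNReal.toReal_pos bp.1.ne' bp.2.ne
  have pr := ENNReal.toReal_pos br.1.ne' br.2.ne
  set Vi := (vg (nn : (ι → ℝ) → ℝ)).toReal with hVi
  set Vk := (vg (nn : (κ → ℝ) → ℝ)).toReal with hVk
  set V := (vg (nn : (ι ⊕ κ → ℝ) → ℝ)).toReal with hV
  set Vp := (vg p).toReal with hVp
  set Vr := (vg r).toReal with hVr
  have hn : Fintype.card (ι ⊕ κ) = k + M * k := by rw [Fintype.card_sum, hκ]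
  have hn0 : k + M * k ≠ 0 := by omega
  -- the scaling factor
  set lam : ℝ := (V / Vp) ^ ((1 : ℝ) / ((k + M * k : ℕ) : ℝ)) with hlam
  have hlam0 : 0 < lam := Real.rpow_pos_of_pos (div_pos pv pp) _
  have hlamn : lam ^ (k + M * k) = V / Vp := by
    rw [hlam, ← Real.rpow_natCast, ← Real.rpow_mul (div_pos pv pp).le, one_div,
      inv_mul_cancel₀ (by exact_mod_cast hn0), Real.rpow_one]
  have hmu0 : 0 < lam ^ M := pow_pos hlam0 _
  have h1 : vg (fun x => p x / lam) = vg (nn : (ι ⊕ κ → ℝ) → ℝ) := by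
    have e1 : vg (fun x => p x / lam) = ENNReal.ofReal (lam ^ Fintype.card (ι ⊕ κ)) * vg p :=
      scale_vol p hp.hom lam hlam0
    rw [e1, hn, hlamn, ← ENNReal.ofReal_toReal bp.2.ne, ← hVp,
      ← ENNReal.ofReal_mul (div_pos pv pp).le, div_mul_cancel₀ _ pp.ne', hV,
      ENNReal.ofReal_toReal bv.2.ne]
  have h2 : Sec (fun x => p x / lam) (fun x => r x / lam ^ M) := by
    intro Z
    have e1 : volume {u : ι → ℝ | r (Sum.elim u (Z *ᵥ u)) / lam ^ M ≤ 1} =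
        ENNReal.ofReal ((lam ^ M) ^ Fintype.card ι) *
          volume {u : ι → ℝ | r (Sum.elim u (Z *ᵥ u)) ≤ 1} := by
      apply scale_vol (fun u : ι → ℝ => r (Sum.elim u (Z *ᵥ u))) _ _ hmu0
      intro t u
      show r (Sum.elim (t • u) (Z *ᵥ (t • u))) = |t| * r (Sum.elim u (Z *ᵥ u))
      rw [← hr.hom]
      congr 1
      rw [Matrix.mulVec_smul]
      ext x
      rcases x with x | x <;> simp
    have e2 : volume {v : κ → ℝ | p (Sum.elim (-(Zᵀ *ᵥ v)) v) / lam ≤ 1} =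
        ENNReal.ofReal (lam ^ Fintype.card κ) *
          volume {v : κ → ℝ | p (Sum.elim (-(Zᵀ *ᵥ v)) v) ≤ 1} := by
      apply scale_vol (fun v : κ → ℝ => p (Sum.elim (-(Zᵀ *ᵥ v)) v)) _ _ hlam0
      intro t v
      show p (Sum.elim (-(Zᵀ *ᵥ (t • v))) (t • v)) = |t| * p (Sum.elim (-(Zᵀ *ᵥ v)) v)
      rw [← hp.hom]
      congr 1
      rw [Matrix.mulVec_smul]
      ext x
      rcases x with x | x <;> simp
    show volume {u : ι → ℝ | r (Sum.elim u (Z *ᵥ u)) / lam ^ M ≤ 1} =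
      volume {v : κ → ℝ | p (Sum.elim (-(Zᵀ *ᵥ v)) v) / lam ≤ 1}
    rw [e1, e2, hS Z, hκ, ← pow_mul]
  have h3 := hmain _ _ (scale_isG p hp lam hlam0) (scale_isG r hr (lam ^ M) hmu0) h2 h1
  have e3 : vg (fun x => r x / lam ^ M) =
      ENNReal.ofReal ((lam ^ M) ^ Fintype.card (ι ⊕ κ)) * vg r := scale_vol r hr.hom _ hmu0
  rw [e3, hn, ← pow_mul, mul_comm M, pow_mul, hlamn, ← ENNReal.ofReal_toReal br.2.ne, ← hVr,
    ← ENNReal.ofReal_toReal bv.2.ne, ← hV, ← ENNReal.ofReal_mul (by positivity),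
    ← ENNReal.ofReal_mul (by positivity), ENNReal.ofReal_le_ofReal_iff (by positivity)] at h3
  -- the real inequality
  have h4 : Vr * Vi ^ (M + 1) * V ^ M ≤ Vk ^ (M + 1) * V * Vp ^ M := by
    rw [div_pow, div_pow, div_mul_eq_mul_div, div_mul_eq_mul_div,
      div_le_div_iff₀ (by positivity) (by positivity)] at h3
    linarith
  have h5 := pow_le_pow_left₀ (by positivity) h4 k
  rw [hκ]
  calc Vr ^ k * Vi ^ (k + M * k) * V ^ (M * k)
      = (Vr * Vi ^ (M + 1) * V ^ M) ^ k := by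
        rw [mul_pow, mul_pow, ← pow_mul, ← pow_mul]
        congr 3
        ring
    _ ≤ (Vk ^ (M + 1) * V * Vp ^ M) ^ k := h5
    _ = Vk ^ (k + M * k) * V ^ k * Vp ^ (M * k) := by
        rw [mul_pow, mul_pow, ← pow_mul, ← pow_mul]
        congr 3
        ring

end Pool.Agent.Helper142.Kib.Scale
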