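import Mathlib
import Pool.Agent.Helper142.Kib.Defs

/-! Helper lemma vol_nn for MP_7548d4_gt. -/

set_option linter.all false

namespace Pool.Agent.Helper142.Kib.Vol_nn

open MeasureTheory Matrix Filter Topology Pool.Agent.Helper142.Kib
open scoped ENNReal

/-- TARGET: prove this. -/
theorem vol_nn (α : Type) [Fintype α] :
    (vg (nn : (α → ℝ) → ℝ)).toReal = kap (Fintype.card α) := by
  rcases isEmpty_or_nonempty α with hα | hα
  · have h1 : {x : α → ℝ | (nn : (α → ℝ) → ℝ) x ≤ 1} = Set.univ := by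
      rw [Set.eq_univ_iff_forall]
      intro x
      show Real.sqrt (x ⬝ᵥ x) ≤ 1
      simp [dotProduct]
    unfold vg
    rw [h1, MeasureTheory.Measure.volume_pi_eq_dirac 0]
    unfold kap
    simp
  · have h1 : {x : α → ℝ | (nn : (α → ℝ) → ℝ) x ≤ 1} =
        (@WithLp.toLp 2 (α → ℝ)) ⁻¹' (Metric.closedBall (0 : EuclideanSpace ℝ α) 1) := by
      ext x
      rw [Set.mem_preimage, mem_closedBall_zero_iff]
      show Real.sqrt (x ⬝ᵥ x) ≤ 1 ↔ _
      rw [EuclideanSpace.norm_eq]
      have h2 : x ⬝ᵥ x = ∑ i, ‖(WithLp.toLp 2 x : EuclideanSpace ℝ α) i‖ ^ 2 := by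
        unfold dotProduct
        refine Finset.sum_congr rfl (fun i _ => ?_)
        rw [Real.norm_eq_abs, sq_abs]
        show x i * x i = x i ^ 2
        ring
      rw [h2]
    unfold vg
    rw [h1, (PiLp.volume_preserving_toLp α).measure_preimage
      measurableSet_closedBall.nullMeasurableSet, EuclideanSpace.volume_closedBall]
    rw [ENNReal.ofReal_one, one_pow, one_mul, ENNReal.toReal_ofReal (by positivity)]
    unfold kap
    rw [Real.sqrt_eq_rpow, ← Real.rpow_natCast, ← Real.rpow_mul Real.pi_pos.le, add_comm (1:ℝ)]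
    congr 2
    ring

end Pool.Agent.Helper142.Kib.Vol_nn
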