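import Mathlib
import Pool.Agent.Helper142.Kib.Defs
import Pool.Agent.Helper142.Kib.Main_norm
import Pool.Agent.Helper142.Kib.Scale
import Pool.Agent.Helper142.Kib.Vol_nn
import Pool.Agent.Helper142.Kib.Body_gauge
import Pool.Agent.Helper142.Kib.Body_sec
import Pool.Agent.Helper142.Kib.Body_vol

/-! Assembly for MP_7548d4_gt. -/

set_option linter.all false

namespace Pool.Agent.Helper142.Kib.Final

open MeasureTheory Matrix Filter Topology Pool.Agent.Helper142.Kib
open scoped ENNReal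
open Pool.Agent.Helper142.Kib.Main_norm Pool.Agent.Helper142.Kib.Scale Pool.Agent.Helper142.Kib.Vol_nn Pool.Agent.Helper142.Kib.Body_gauge Pool.Agent.Helper142.Kib.Body_sec Pool.Agent.Helper142.Kib.Body_vol

theorem kap_pos (p : ℕ) : 0 < kap p := by
  unfold kap
  have : 0 < Real.Gamma (1 + (p : ℝ) / 2) := Real.Gamma_pos_of_pos (by positivity)
  positivity

/-- Busemann type inequality for `k`-intersection bodies in dimension `n = N k`, `N ≥ 3`. -/
theorem RES (hBL : ∀ {r : ℕ} {ι : Type} [Fintype ι] (w : ι → Fin r → ℝ),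
      ∑ i, vecMulVec (w i) (w i) = 1 → (∀ i, 0 < w i ⬝ᵥ w i) →
      ∀ f : ι → ℝ → ℝ, (∀ i, Continuous (f i)) → (∀ i t, 0 ≤ f i t) →
      (∀ i, Integrable (f i)) →
      ∫⁻ x : Fin r → ℝ, ENNReal.ofReal
          (∏ i, (f i ((w i ⬝ᵥ x) / √(w i ⬝ᵥ w i))) ^ (w i ⬝ᵥ w i)) ≤
        ENNReal.ofReal (∏ i, (∫ t, f i t) ^ (w i ⬝ᵥ w i)))
    (N k n : ℕ) (hN : 3 ≤ N) (hk : 1 ≤ k) (hn : n = N * k)
    (K L : Set (EuclideanSpace ℝ (Fin n))) (hK : IsSymStarBody K) (hL : IsSymStarBody L)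
    (h : HasIntersectionBody k K L) :
    (volume L).toReal ^ k ≤
      (kap (n - k) ^ n / kap k ^ n * kap n ^ k / kap n ^ (n - k)) *
        (volume K).toReal ^ (n - k) := by
  obtain ⟨M, rfl⟩ : ∃ M, N = M + 1 := ⟨N - 1, by omega⟩
  have hnk : n - k = M * k := by rw [hn, Nat.add_mul, one_mul, Nat.add_sub_cancel]
  have hn' : n = k + M * k := by rw [hn]; ring
  have hn0 : 0 < n := by rw [hn']; omega
  let e : Fin n ≃ Fin k ⊕ Fin (M * k) := (finCongr hn').trans finSumFinEquiv.symm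
  obtain ⟨p, hp, hpK⟩ := body_gauge hn0 K hK
  obtain ⟨r, hr, hrL⟩ := body_gauge hn0 L hL
  obtain ⟨hp', hvp⟩ := body_vol e K p hp hpK
  obtain ⟨hr', hvr⟩ := body_vol e L r hr hrL
  have hcι : Fintype.card (Fin k) = k := Fintype.card_fin k
  have hcκ : Fintype.card (Fin (M * k)) = M * k := Fintype.card_fin _
  have hS := body_sec (ι := Fin k) (κ := Fin (M * k)) e K L hK.isCompact hL.isCompact
    (by rw [hcι]; exact h) p r hpK hrL
  have h1 := scale (Fin k) (Fin (M * k)) (M + 1) hN (by rw [hcι]; omega)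
    (by rw [hcι, hcκ]; simp)
    (fun p r hp hr hS hv => main_norm hBL (Fin k) (Fin (M * k)) (M + 1) hN
      (by rw [hcι]; omega) (by rw [hcι, hcκ]; simp) p r hp hr hS hv)
    _ _ hp' hr' hS
  rw [hvp, hvr, vol_nn, vol_nn, vol_nn, Fintype.card_sum, hcι, hcκ, ← hn'] at h1
  rw [hnk]
  have k1 := kap_pos k
  have k2 := kap_pos n
  have k3 : 0 < kap k ^ n * kap n ^ (M * k) := by positivity
  have e1 : (kap (M * k) ^ n / kap k ^ n * kap n ^ k / kap n ^ (M * k)) *
      (volume K).toReal ^ (M * k) =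
      (kap (M * k) ^ n * kap n ^ k * (volume K).toReal ^ (M * k)) /
        (kap k ^ n * kap n ^ (M * k)) := by
    field_simp
  rw [e1, le_div_iff₀ k3]
  calc (volume L).toReal ^ k * (kap k ^ n * kap n ^ (M * k))
      = (volume L).toReal ^ k * kap k ^ n * kap n ^ (M * k) := by ring
    _ ≤ _ := h1

end Pool.Agent.Helper142.Kib.Final
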