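import Mathlib
import Pool.Agent.Helper142.Kib.Defs

/-! Definitions used in the statement of MP_7548d4_gt.DivisibleCase. -/

namespace Pool.Agent.Helper142.Kib.St

open MeasureTheory
open scoped ENNReal

/-- the Lebesgue measure of a subset of a Euclidean space `F` -/
noncomputable def leb (F : Type) [NormedAddCommGroup F] [InnerProductSpace ℝ F]
    [FiniteDimensional ℝ F] [MeasurableSpace F] [BorelSpace F] (A : Set F) : ℝ≥0∞ := volume A

/-- `A ∩ H` as a subset of the linear subspace `H` -/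
def cut {E : Type} [AddCommGroup E] [Module ℝ E] (H : Submodule ℝ E) (A : Set E) : Set H :=
  {x | (x : E) ∈ A}

/-- the Lebesgue measure of `A ∩ H` in the linear subspace `H` -/
noncomputable def subVol {E : Type} [NormedAddCommGroup E] [InnerProductSpace ℝ E]
    [FiniteDimensional ℝ E] [MeasurableSpace E] [BorelSpace E] (H : Submodule ℝ E) (A : Set E) :
    ℝ≥0∞ := leb H (cut H A)

/-- for all `k`-dimensional subspaces `H` of `E`, `|K ∩ H^⊥| = |L ∩ H|` -/
def SameSections (E : Type) [NormedAddCommGroup E] [InnerProductSpace ℝ E]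
    [FiniteDimensional ℝ E] [MeasurableSpace E] [BorelSpace E] (k : ℕ) (K L : Set E) : Prop :=
  ∀ H : Submodule ℝ E, Module.finrank ℝ H = k → subVol Hᗮ K = subVol H L

/-- `L` is the `k`-intersection body of `K`: `|K ∩ H^⊥|_{n-k} = |L ∩ H|_k` for all
`k`-dimensional subspaces `H` of `ℝⁿ` -/
def HasIntersectionBody {n : ℕ} (k : ℕ) (K L : Set (EuclideanSpace ℝ (Fin n))) : Prop :=
  SameSections (EuclideanSpace ℝ (Fin n)) k K L

/-- `n`-dimensional Lebesgue measure -/
noncomputable def vol {n : ℕ} (A : Set (EuclideanSpace ℝ (Fin n))) : ℝ := (volume A).toReal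

/-- the sharp constant `κ_{n-k}^n κ_k^{-n} κ_n^{2k-n}` -/
noncomputable def Cnk (n k : ℕ) : ℝ :=
  kap (n - k) ^ (n : ℤ) * kap k ^ (-(n : ℤ)) * kap n ^ (2 * (k : ℤ) - (n : ℤ))

theorem has_iff {n : ℕ} (k : ℕ) (K L : Set (EuclideanSpace ℝ (Fin n))) :
    HasIntersectionBody k K L ↔ Kib.HasIntersectionBody k K L := Iff.rfl

end Pool.Agent.Helper142.Kib.St
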